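import Mathlib

/-!
# C33 (MP_7f581e_nt): GA realisations over `𝔽_p(t)`
-/

set_option autoImplicit false

namespace MP7K

/-- `S` is a finite nonabelian simple group with a *GA realisation* over `𝔽_p(t)`: the group
`Aut S` acts faithfully on a field `L` which contains `𝔽_p(t)`, and the elements of `L` which are
fixed by the inner automorphisms are those of `𝔽_p(t)`.  (So `L / 𝔽_p(t)` is a Galois extension
with group `S`, which is regular over `𝔽_p` because `S` is perfect, and `L` is a Galois extension
with group `Aut S` of its field of invariants, which is `𝔽_p(u)` for some `u` by the theorem of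
Lüroth.) -/
def HasGA (p : ℕ) [Fact p.Prime] (S : Type) [Group S] : Prop :=
  Finite S ∧ IsSimpleGroup S ∧ (∃ a b : S, a * b ≠ b * a) ∧
    ∃ (L : Type) (_ : Field L) (_ : Algebra (RatFunc (ZMod p)) L) (a : MulAut S →* (L ≃+* L)),
      Function.Injective a ∧
        ∀ y : L, (∀ s : S, a (MulAut.conj s) y = y) ↔
          ∃ x, algebraMap (RatFunc (ZMod p)) L x = y

end MP7K
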