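import Pool.Agent.Lib.MP_7f581e_K.Spec1

/-!
# C33, Av: averaging over the permutations induced by words
-/

set_option autoImplicit false

namespace MP7K

open Polynomial Finset

/-- averaging -/
theorem kAv (hSS : KStmtSS) : KStmtAv := by
  classical
  intro p hp F _ _ _ _ hA hB r i DD hr hrp hLev htrans I B hcard
  obtain ⟨-, -, -, hnil, happ, -, -, -⟩ := hSS p F hA hB r i DD hr hrp hLev
  -- the finite set of the elements of the levels
  let X : Type := {y : F // dg p y ∈ DD}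
  have hXfin : Finite X := by
    have h1 : {y : F | dg p y ∈ DD} ⊆ ⋃ D ∈ DD, OO p F D := by
      intro y hy
      simp only [Set.mem_iUnion]
      exact ⟨dg p y, hy, rfl⟩
    exact ((DD.finite_toSet.biUnion fun D _ => hB.finO D).subset h1)
  let _ : Fintype X := Fintype.ofFinite X
  -- words map levels to levels
  have hmaps : ∀ w, BS p F r DD w → ∀ x : X, dg p (ev w x.1) = dg p x.1 := by
    intro w hw x
    exact (hw.2 _ x.2).mapsTo (show x.1 ∈ OO p F (dg p x.1) from rfl)
  let GG : Finset (X → X) :=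
    Finset.univ.filter fun g => ∃ w, BS p F r DD w ∧ ∀ x, (g x).1 = ev w x.1
  have hGG : ∀ g : X → X, g ∈ GG ↔ ∃ w, BS p F r DD w ∧ ∀ x, (g x).1 = ev w x.1 := by
    intro g
    simp [GG]
  have hid : (id : X → X) ∈ GG := (hGG _).2 ⟨[], hnil, fun x => rfl⟩
  have hcomp : ∀ τ ∈ GG, ∀ σ ∈ GG, τ ∘ σ ∈ GG := by
    intro τ hτ σ hσ
    obtain ⟨v, hv, hv'⟩ := (hGG _).1 hτ
    obtain ⟨w, hw, hw'⟩ := (hGG _).1 hσ
    refine (hGG _).2 ⟨v ++ w, happ v w hv hw, fun x => ?_⟩
    rw [ev_append, ← hw' x, ← hv' (σ x)]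
    rfl
  have hdg : ∀ σ ∈ GG, ∀ x, dg p (σ x).1 = dg p x.1 := by
    intro σ hσ x
    obtain ⟨w, hw, hw'⟩ := (hGG _).1 hσ
    rw [hw' x]
    exact hmaps w hw x
  have hinj : ∀ σ ∈ GG, Function.Injective σ := by
    intro σ hσ x x' h
    obtain ⟨w, hw, hw'⟩ := (hGG _).1 hσ
    have h1 : dg p x.1 = dg p x'.1 := by rw [← hdg σ hσ x, ← hdg σ hσ x', h]
    have h2 : ev w x.1 = ev w x'.1 := by rw [← hw' x, ← hw' x', h]
    exact Subtype.ext ((hw.2 _ x.2).injOn (show x.1 ∈ OO p F (dg p x.1) from rfl)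
      (show x'.1 ∈ OO p F (dg p x.1) from h1.symm) h2)
  have htr : ∀ b b' : X, dg p b.1 = dg p b'.1 → ∃ τ ∈ GG, τ b = b' := by
    intro b b' h
    obtain ⟨w, hw, -, hbb⟩ := htrans (dg p b.1) b.2 b.1 b'.1 rfl h.symm
    let τ : X → X := fun x => ⟨ev w x.1, by rw [hmaps w hw x]; exact x.2⟩
    exact ⟨τ, (hGG _).2 ⟨w, hw, fun x => rfl⟩, Subtype.ext hbb⟩
  let N : X → X → ℕ := fun a b => (GG.filter fun g => g a = b).card
  have hN1 : ∀ a b b' : X, dg p b.1 = dg p b'.1 → N a b ≤ N a b' := by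
    intro a b b' h
    obtain ⟨τ, hτ, hbb⟩ := htr b b' h
    refine Finset.card_le_card_of_injOn (fun g => τ ∘ g) ?_ ?_
    · intro g hg
      rw [Finset.mem_coe, Finset.mem_filter] at hg ⊢
      refine ⟨hcomp τ hτ g hg.1, ?_⟩
      change τ (g a) = b'
      rw [hg.2, hbb]
    · intro g _ g' _ hgg
      funext x
      exact hinj τ hτ (congrFun hgg x)
  let OD : ℕ → Finset X := fun D => Finset.univ.filter fun x => dg p x.1 = D
  have hN2 : ∀ a b : X, dg p b.1 = dg p a.1 → (OD (dg p a.1)).card * N a b = GG.card := by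
    intro a b h
    rw [Finset.card_eq_sum_card_fiberwise (f := fun g : X → X => g a) (s := GG)
      (t := OD (dg p a.1)) (fun g hg => by
        rw [Finset.mem_coe, Finset.mem_filter]
        exact ⟨Finset.mem_univ _, hdg g hg a⟩)]
    rw [Finset.sum_congr rfl (g := fun _ => N a b)]
    · rw [Finset.sum_const, smul_eq_mul]
    · intro b' hb'
      rw [Finset.mem_filter] at hb'
      have h1 : dg p b.1 = dg p b'.1 := by rw [h, hb'.2]
      exact le_antisymm (hN1 a b' b h1.symm) (hN1 a b b' h1)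
  -- comparison with the sets
  have hnc : ∀ (J : Set F) (D : ℕ), D ∈ DD →
      (Finset.univ.filter fun x : X => x.1 ∈ J ∧ dg p x.1 = D).card = (J ∩ OO p F D).ncard := by
    intro J D hD
    rw [← Set.ncard_coe_finset, ← Set.ncard_image_of_injective _ Subtype.val_injective]
    congr 1
    ext y
    simp only [Set.mem_image, Finset.coe_filter, Finset.mem_univ, true_and, Set.mem_inter_iff]
    constructor
    · rintro ⟨x, ⟨h1, h2⟩, rfl⟩
      exact ⟨h1, h2⟩
    · rintro ⟨h1, h2⟩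
      have h2' : dg p y = D := h2
      exact ⟨⟨y, by rw [h2']; exact hD⟩, ⟨h1, h2'⟩, rfl⟩
  have hOD : ∀ D ∈ DD, (OD D).card = (OO p F D).ncard := by
    intro D hD
    have h := hnc Set.univ D hD
    rw [Set.univ_inter] at h
    rw [← h]
    congr 1
    ext x
    simp [OD]
  by_contra hno
  push Not at hno
  have hbad : ∀ σ ∈ GG, ∃ a : X, a.1 ∈ I ∧ (σ a).1 ∈ B := by
    intro σ hσ
    obtain ⟨w, hw, hw'⟩ := (hGG _).1 hσ
    obtain ⟨y, hy, hyI, hyB⟩ := hno w hw
    refine ⟨⟨y, hy⟩, hyI, ?_⟩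
    rw [hw']
    exact hyB
  rcases DD.eq_empty_or_nonempty with hDD | hDD
  · obtain ⟨a, -, -⟩ := hbad id hid
    exact Finset.notMem_empty (dg p a.1) (hDD.subset a.2)
  let ID : ℕ → Finset X := fun D => Finset.univ.filter fun x : X => x.1 ∈ I ∧ dg p x.1 = D
  let BD : ℕ → Finset X := fun D => Finset.univ.filter fun x : X => x.1 ∈ B ∧ dg p x.1 = D
  let t : ℕ → ℕ := fun D => ∑ ab ∈ ID D ×ˢ BD D, N ab.1 ab.2
  have hle : GG.card ≤ ∑ D ∈ DD, t D := by
    have hsub : GG ⊆ DD.biUnion fun D => (ID D ×ˢ BD D).biUnion fun ab =>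
        GG.filter fun g => g ab.1 = ab.2 := by
      intro σ hσ
      obtain ⟨a, ha, hb⟩ := hbad σ hσ
      rw [Finset.mem_biUnion]
      refine ⟨dg p a.1, a.2, ?_⟩
      rw [Finset.mem_biUnion]
      refine ⟨(a, σ a), ?_, ?_⟩
      · rw [Finset.mem_product]
        exact ⟨Finset.mem_filter.2 ⟨Finset.mem_univ _, ha, rfl⟩,
          Finset.mem_filter.2 ⟨Finset.mem_univ _, hb, hdg σ hσ a⟩⟩
      · exact Finset.mem_filter.2 ⟨hσ, rfl⟩
    refine (Finset.card_le_card hsub).trans (Finset.card_biUnion_le.trans ?_)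
    exact Finset.sum_le_sum fun D _ => Finset.card_biUnion_le
  have ht : ∀ D ∈ DD, DD.card * t D < GG.card := by
    intro D hD
    have h1 : (OD D).card * t D = (ID D).card * (BD D).card * GG.card := by
      rw [Finset.mul_sum, Finset.sum_congr rfl (g := fun _ => GG.card)]
      · rw [Finset.sum_const, Finset.card_product, smul_eq_mul]
      · rintro ⟨a, b⟩ hab
        rw [Finset.mem_product] at hab
        obtain ⟨ha, hb⟩ := hab
        have ha' : dg p a.1 = D := (Finset.mem_filter.1 ha).2.2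
        have hb' : dg p b.1 = D := (Finset.mem_filter.1 hb).2.2
        have := hN2 a b (by rw [ha', hb'])
        rwa [ha'] at this
    have h2 := hcard D hD
    rw [← hnc I D hD, ← hnc B D hD, ← hOD D hD] at h2
    have h3 : 0 < GG.card := Finset.card_pos.2 ⟨_, hid⟩
    have h4 : (OD D).card * (DD.card * t D) < (OD D).card * GG.card := by
      calc (OD D).card * (DD.card * t D) = DD.card * ((OD D).card * t D) := by ring
        _ = DD.card * ((ID D).card * (BD D).card) * GG.card := by rw [h1]; ring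
        _ < (OD D).card * GG.card := Nat.mul_lt_mul_of_pos_right h2 h3
    exact Nat.lt_of_mul_lt_mul_left h4
  have h5 : ∑ D ∈ DD, DD.card * t D < ∑ _D ∈ DD, GG.card :=
    Finset.sum_lt_sum_of_nonempty hDD ht
  rw [Finset.sum_const, smul_eq_mul, ← Finset.mul_sum] at h5
  exact absurd (Nat.mul_le_mul_left DD.card hle) (not_le.2 h5)

end MP7K
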