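import Pool.Agent.Lib.MP_7f581e_K.Spec1

/-!
# C33, Part I: basic facts
-/

set_option autoImplicit false

namespace MP7K

open Polynomial Finset

namespace KBasAAux

section

variable {p : ℕ} [Fact p.Prime] {F : Type} [Field F] [Algebra (ZMod p) F]

theorem charP_aux (p : ℕ) [Fact p.Prime] (F : Type) [Field F] [Algebra (ZMod p) F] : CharP F p :=
  charP_of_injective_algebraMap (algebraMap (ZMod p) F).injective p

theorem iter (k : ℕ) (y : F) : (fun z : F => z ^ p)^[k] y = y ^ (p ^ k) := by
  induction k with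
  | zero => simp
  | succ k ih =>
    rw [Function.iterate_succ_apply', ih, ← pow_mul, ← pow_succ]

theorem pow_eq (y : F) (k : ℕ) : y ^ (p ^ k) = y ↔ dg p y ∣ k := by
  rw [dg, ← Function.isPeriodicPt_iff_minimalPeriod_dvd, Function.IsPeriodicPt, Function.IsFixedPt,
    iter]

theorem exists_pow [Algebra.IsAlgebraic (ZMod p) F] (y : F) : ∃ k, 0 < k ∧ y ^ (p ^ k) = y := by
  have h1 : IsIntegral (ZMod p) y := (Algebra.IsAlgebraic.isAlgebraic y).isIntegral
  have h2 : FiniteDimensional (ZMod p) (IntermediateField.adjoin (ZMod p) {y}) :=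
    IntermediateField.adjoin.finiteDimensional h1
  have h3 : Finite (IntermediateField.adjoin (ZMod p) {y}) := Module.finite_of_finite (ZMod p)
  have h4 := Fintype.ofFinite (IntermediateField.adjoin (ZMod p) {y})
  have h5 : Fintype.card (IntermediateField.adjoin (ZMod p) {y}) =
      p ^ Module.finrank (ZMod p) (IntermediateField.adjoin (ZMod p) {y}) := by
    rw [Module.card_eq_pow_finrank (K := ZMod p), ZMod.card]
  refine ⟨Module.finrank (ZMod p) (IntermediateField.adjoin (ZMod p) {y}),
    Module.finrank_pos, ?_⟩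
  have h6 := FiniteField.pow_card
    (⟨y, IntermediateField.mem_adjoin_simple_self (ZMod p) y⟩ : IntermediateField.adjoin (ZMod p) {y})
  rw [h5] at h6
  exact congrArg Subtype.val h6

theorem pos [Algebra.IsAlgebraic (ZMod p) F] (y : F) : 0 < dg p y := by
  obtain ⟨k, hk, h⟩ := exists_pow (p := p) y
  exact Nat.pos_of_dvd_of_pos ((pow_eq y k).1 h) hk

theorem fr_pow (y : F) (k : ℕ) : (fr p F ^ k) y = y ^ (p ^ k) := by
  induction k with
  | zero => simp
  | succ k ih =>
    rw [pow_succ', Module.End.mul_apply, ih, fr_apply, ← pow_mul, ← pow_succ]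

theorem lin_mul_apply (a b : (ZMod p)[X]) (y : F) : lin p (a * b) y = lin p a (lin p b y) := by
  rw [lin, map_mul, Module.End.mul_apply]
  rfl

theorem lin_X (k : ℕ) (y : F) : lin p ((X : (ZMod p)[X]) ^ k) y = y ^ (p ^ k) := by
  rw [lin, map_pow, aeval_X, fr_pow]

theorem lin_C (c : ZMod p) (y : F) : lin p (C c : (ZMod p)[X]) y = algebraMap (ZMod p) F c * y := by
  rw [lin, aeval_C, Module.algebraMap_end_apply, Algebra.smul_def]

theorem lin_sum (b : (ZMod p)[X]) (N k : ℕ) (y : F) (hk : b.natDegree < k) :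
    lin p (b.comp (X ^ N)) y = ∑ i ∈ range k, algebraMap (ZMod p) F (b.coeff i) * y ^ (p ^ (i * N)) := by
  rw [lin, aeval_comp, map_pow, aeval_X, aeval_eq_sum_range' hk, LinearMap.sum_apply]
  refine Finset.sum_congr rfl fun i _ => ?_
  rw [LinearMap.smul_apply, ← pow_mul, fr_pow, Algebra.smul_def, mul_comm N i]

theorem lin_mul (b : (ZMod p)[X]) (N : ℕ) (t y : F) (ht : t ^ (p ^ N) = t) :
    lin p (b.comp (X ^ N)) (t * y) = t * lin p (b.comp (X ^ N)) y := by
  rw [lin_sum b N _ _ (Nat.lt_succ_self _), lin_sum b N _ _ (Nat.lt_succ_self _), Finset.mul_sum]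
  refine Finset.sum_congr rfl fun i _ => ?_
  have h1 : t ^ (p ^ (i * N)) = t := (pow_eq t _).2 (((pow_eq t N).1 ht).mul_left i)
  rw [mul_pow, h1]
  ring

theorem comp_pow (b : (ZMod p)[X]) (e : ℕ) : b.comp (X ^ (p ^ e)) = b ^ (p ^ e) := by
  rw [← expand_eq_comp_X_pow]
  induction e with
  | zero => simp
  | succ e ih =>
    rw [pow_succ' p e, expand_mul, ih, ZMod.expand_card, ← pow_mul, mul_comm]

theorem dvd_of (x y : F) (h : ∀ k, y ^ (p ^ k) = y → x ^ (p ^ k) = x) : dg p x ∣ dg p y :=
  (pow_eq x _).1 (h _ ((pow_eq y _).2 dvd_rfl))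

theorem alg_pow (c : ZMod p) (k : ℕ) :
    (algebraMap (ZMod p) F c) ^ (p ^ k) = algebraMap (ZMod p) F c := by
  rw [← map_pow, ZMod.pow_card_pow]

theorem add_pow_aux (x y : F) (k : ℕ) : (x + y) ^ (p ^ k) = x ^ (p ^ k) + y ^ (p ^ k) := by
  have h := charP_aux p F
  exact add_pow_char_pow x y p k

theorem dg_inv_dvd (y : F) : dg p y⁻¹ ∣ dg p y :=
  dvd_of _ _ fun k h => by rw [inv_pow, h]

theorem dg_inv (y : F) : dg p y⁻¹ = dg p y := by
  refine Nat.dvd_antisymm (dg_inv_dvd y) ?_
  have h := dg_inv_dvd (p := p) y⁻¹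
  rwa [inv_inv] at h

theorem dg_tr_dvd (y : F) (c : ZMod p) : dg p (y + algebraMap (ZMod p) F c) ∣ dg p y :=
  dvd_of _ _ fun k h => by rw [add_pow_aux, h, alg_pow]

theorem dg_tr (y : F) (c : ZMod p) : dg p (y + algebraMap (ZMod p) F c) = dg p y := by
  refine Nat.dvd_antisymm (dg_tr_dvd y c) ?_
  have h := dg_tr_dvd (p := p) (y + algebraMap (ZMod p) F c) (-c)
  rwa [map_neg, add_neg_cancel_right] at h

theorem dg_pow (y : F) (n : ℕ) : dg p (y ^ n) ∣ dg p y :=
  dvd_of _ _ fun k h => by rw [← pow_mul, mul_comm, pow_mul, h]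

theorem dg_lin (y : F) (l : (ZMod p)[X]) : dg p (lin p l y) ∣ dg p y :=
  dvd_of _ _ fun k h => by
    rw [← lin_X k (lin p l y), ← lin_mul_apply, mul_comm, lin_mul_apply, lin_X, h]

theorem dg_atom (a : Atom p) (y : F) : dg p (a.ev y) ∣ dg p y := by
  cases a with
  | tr c => exact dg_tr_dvd y c
  | inv => exact dg_inv_dvd y
  | pow n => exact dg_pow y n
  | add l => exact dg_lin y l

theorem dg_ev (w : List (Atom p)) (y : F) : dg p (ev w y) ∣ dg p y := by
  induction w with
  | nil => exact dvd_rfl
  | cons a w ih => exact (dg_atom a _).trans ih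

theorem dg_zero : dg p (0 : F) ∣ 1 := by
  rw [← pow_eq, pow_one]
  exact zero_pow (Fact.out : p.Prime).ne_zero

theorem dg_atomP (a : Atom p) (y : Option F) : dgP p (a.evP y) ∣ dgP p y := by
  classical
  cases a with
  | tr c =>
    cases y with
    | none => exact dvd_rfl
    | some y => exact dg_tr_dvd y c
  | inv =>
    cases y with
    | none => exact dg_zero
    | some y =>
      by_cases hy : y = 0
      · have h : (Atom.inv : Atom p).evP (some y) = none := by
          simp only [Atom.evP]
          rw [if_pos hy]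
        rw [h]
        exact one_dvd _
      · have h : (Atom.inv : Atom p).evP (some y) = some y⁻¹ := by
          simp only [Atom.evP]
          rw [if_neg hy]
        rw [h]
        exact dg_inv_dvd y
  | pow n =>
    cases y with
    | none => exact dvd_rfl
    | some y => exact dg_pow y n
  | add l =>
    cases y with
    | none => exact dvd_rfl
    | some y => exact dg_lin y l

theorem dg_evP (w : List (Atom p)) (y : Option F) : dgP p (evP w y) ∣ dgP p y := by
  induction w with
  | nil => exact dvd_rfl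
  | cons a w ih => exact (dg_atomP a _).trans ih

theorem rat_iff (y : F) : y ^ p = y ↔ dg p y ∣ 1 := by
  rw [← pow_eq, pow_one]

theorem rat_atom (a : Atom p) (y : F) (h : y ^ p = y) : (a.ev y) ^ p = a.ev y := by
  rw [rat_iff] at h ⊢
  exact (dg_atom a y).trans h

theorem rat_ev (w : List (Atom p)) (y : F) (h : y ^ p = y) : (ev w y) ^ p = ev w y := by
  rw [rat_iff] at h ⊢
  exact (dg_ev w y).trans h

theorem zero_rat : (0 : F) ^ p = 0 := zero_pow (Fact.out : p.Prime).ne_zero

theorem atom_nr (a : Atom p) (z : Option F) (b : F) (h : a.evP z = some b) (hb : b ^ p ≠ b) :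
    ∃ c : F, z = some c ∧ a.ev c = b := by
  classical
  cases a with
  | tr c =>
    cases z with
    | none => exact absurd h (by simp [Atom.evP])
    | some y => exact ⟨y, rfl, Option.some.inj h⟩
  | inv =>
    cases z with
    | none =>
      have h0 : (0 : F) = b := Option.some.inj h
      rw [← h0] at hb
      exact absurd zero_rat hb
    | some y =>
      by_cases hy : y = 0
      · simp only [Atom.evP] at h
        rw [if_pos hy] at h
        exact absurd h (by simp)
      · simp only [Atom.evP] at h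
        rw [if_neg hy] at h
        exact ⟨y, rfl, Option.some.inj h⟩
  | pow n =>
    cases z with
    | none => exact absurd h (by simp [Atom.evP])
    | some y => exact ⟨y, rfl, Option.some.inj h⟩
  | add l =>
    cases z with
    | none => exact absurd h (by simp [Atom.evP])
    | some y => exact ⟨y, rfl, Option.some.inj h⟩

theorem evP_nr (w : List (Atom p)) (y : Option F) (b : F) (h : evP w y = some b) (hb : b ^ p ≠ b) :
    ∃ a : F, y = some a ∧ ev w a = b := by
  induction w generalizing b with
  | nil => exact ⟨b, h, rfl⟩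
  | cons a w ih =>
    obtain ⟨c, hc, hc'⟩ := atom_nr a (evP w y) b h hb
    have hcr : c ^ p ≠ c := by
      intro hc2
      apply hb
      rw [← hc']
      exact rat_atom a c hc2
    obtain ⟨x, hx, hx'⟩ := ih c hc hcr
    exact ⟨x, hx, by rw [ev_cons, hx', hc']⟩

theorem atom_some (a : Atom p) (z : F) (hz : z ≠ 0) : a.evP (some z) = some (a.ev z) := by
  classical
  cases a with
  | tr c => rfl
  | inv =>
    simp only [Atom.evP]
    rw [if_neg hz]
    rfl
  | pow n => rfl
  | add l => rfl

theorem ev_nr (w : List (Atom p)) (a : F) (h : (ev w a) ^ p ≠ ev w a) :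
    evP w (some a) = some (ev w a) := by
  induction w with
  | nil => rfl
  | cons b w ih =>
    have h1 : (ev w a) ^ p ≠ ev w a := fun h2 => h (rat_atom b _ h2)
    have h2 : ev w a ≠ 0 := by
      intro h0
      rw [h0] at h1
      exact h1 zero_rat
    show b.evP (evP w (some a)) = some (b.ev (ev w a))
    rw [ih h1, atom_some b _ h2]

end

end KBasAAux

open KBasAAux

theorem kBasA : KStmtBasA := by
  intro p _ F _ _ _ _
  exact
    { pos := pos
      pow_eq := pow_eq
      fr_pow := fr_pow
      lin_X := lin_X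
      lin_C := lin_C
      lin_sum := lin_sum
      lin_mul := lin_mul
      comp_pow := comp_pow
      dg_inv := dg_inv
      dg_tr := dg_tr
      dg_pow := dg_pow
      dg_lin := dg_lin
      dg_ev := dg_ev
      dg_evP := dg_evP
      rat_ev := rat_ev
      evP_nr := evP_nr
      ev_nr := ev_nr }

end MP7K
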