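import Pool.Agent.Lib.MP_7f581e_K.Spec1

/-!
# C33 (MP_7f581e_nt), Part I: counting facts
-/

set_option autoImplicit false

namespace MP7K

open Polynomial Finset

namespace KBasBAux

section

variable (p : ℕ) [Fact p.Prime] {F : Type} [Field F] [Algebra (ZMod p) F]

theorem charF : CharP F p :=
  charP_of_injective_algebraMap (algebraMap (ZMod p) F).injective p

/-- the polynomial `X ^ (p ^ q) - ρ X` -/
noncomputable def fq (q : ℕ) (ρ : F) : F[X] := X ^ (p ^ q) - C ρ * X

theorem two_le (q : ℕ) (hq : 0 < q) : 2 ≤ p ^ q :=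
  (Fact.out : p.Prime).two_le.trans (Nat.le_self_pow hq.ne' p)

theorem natDegree_fq (q : ℕ) (ρ : F) (hq : 0 < q) : (fq p q ρ).natDegree = p ^ q := by
  unfold fq
  have h2 := two_le p q hq
  have h1 : (C ρ * X : F[X]).natDegree ≤ 1 :=
    (natDegree_C_mul_le ρ X).trans natDegree_X_le
  rw [natDegree_sub_eq_left_of_natDegree_lt]
  · exact natDegree_X_pow _
  · rw [natDegree_X_pow]
    omega

theorem fq_ne_zero (q : ℕ) (ρ : F) (hq : 0 < q) : fq p q ρ ≠ 0 := by
  intro h
  have h1 := natDegree_fq p q ρ hq
  rw [h, natDegree_zero] at h1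
  have := two_le p q hq
  omega

theorem isRoot_fq (q : ℕ) (ρ z : F) : (fq p q ρ).IsRoot z ↔ z ^ (p ^ q) = ρ * z := by
  unfold fq
  rw [IsRoot.def, eval_sub, eval_pow, eval_X, eval_mul, eval_C, eval_X, sub_eq_zero]

theorem sep_fq (q : ℕ) (ρ : F) (hq : 0 < q) (hρ : ρ ≠ 0) : (fq p q ρ).Separable := by
  haveI := charF p (F := F)
  have hd : derivative (fq p q ρ) = C (-ρ) := by
    unfold fq
    rw [derivative_sub, derivative_X_pow, derivative_C_mul, derivative_X, mul_one]
    have : ((p ^ q : ℕ) : F) = 0 := by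
      rw [Nat.cast_pow, CharP.cast_eq_zero, zero_pow hq.ne']
    rw [this, C_0, zero_mul, zero_sub, C_neg]
  rw [separable_def, hd]
  refine ⟨0, C (-ρ)⁻¹, ?_⟩
  rw [zero_mul, zero_add, ← C_mul, inv_mul_cancel₀ (neg_ne_zero.2 hρ), C_1]

theorem set_fq (q : ℕ) (ρ : F) (hq : 0 < q) [DecidableEq F] :
    {z : F | z ^ (p ^ q) = ρ * z} = ((fq p q ρ).roots.toFinset : Set F) := by
  ext z
  rw [Set.mem_setOf_eq, mem_coe, Multiset.mem_toFinset, mem_roots (fq_ne_zero p q ρ hq), isRoot_fq]

theorem cardQ_fin (q : ℕ) (ρ : F) (hq : 0 < q) : {z : F | z ^ (p ^ q) = ρ * z}.Finite := by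
  classical
  rw [set_fq p q ρ hq]
  exact Finset.finite_toSet _

theorem cardQ_card [IsAlgClosed F] (q : ℕ) (ρ : F) (hq : 0 < q) (hρ : ρ ≠ 0) :
    {z : F | z ^ (p ^ q) = ρ * z}.ncard = p ^ q := by
  classical
  rw [set_fq p q ρ hq, Set.ncard_coe_finset, Multiset.toFinset_card_of_nodup
    (nodup_roots (sep_fq p q ρ hq hρ)), ← (IsAlgClosed.splits (fq p q ρ)).natDegree_eq_card_roots,
    natDegree_fq p q ρ hq]

theorem set_one (D : ℕ) : {y : F | y ^ (p ^ D) = y} = {z : F | z ^ (p ^ D) = 1 * z} := by
  ext z
  rw [Set.mem_setOf_eq, Set.mem_setOf_eq, one_mul]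

/-- the additive polynomial as a polynomial -/
noncomputable def Pl (l : (ZMod p)[X]) : F[X] :=
  ∑ i ∈ range (l.natDegree + 1), C (algebraMap (ZMod p) F (l.coeff i)) * X ^ (p ^ i)

theorem natDegree_Pl (l : (ZMod p)[X]) : (Pl p l : F[X]).natDegree ≤ p ^ l.natDegree := by
  unfold Pl
  apply natDegree_sum_le_of_forall_le
  intro i hi
  refine (natDegree_C_mul_X_pow_le _ _).trans ?_
  exact Nat.pow_le_pow_right (Fact.out : p.Prime).pos (by rw [mem_range] at hi; omega)

theorem Pl_ne_zero (l : (ZMod p)[X]) (hl : l ≠ 0) : (Pl p l : F[X]) ≠ 0 := by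
  intro h
  have h1 : (Pl p l : F[X]).coeff (p ^ l.natDegree) =
      algebraMap (ZMod p) F (l.coeff l.natDegree) := by
    unfold Pl
    rw [finset_sum_coeff, Finset.sum_eq_single l.natDegree]
    · rw [coeff_C_mul, coeff_X_pow, if_pos rfl, mul_one]
    · intro i _ hi
      rw [coeff_C_mul, coeff_X_pow, if_neg, mul_zero]
      intro h'
      exact hi (Nat.pow_right_injective (Fact.out : p.Prime).two_le h').symm
    · intro h'
      exact absurd (mem_range.2 (Nat.lt_succ_self _)) h'
  rw [h, coeff_zero] at h1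
  have h2 : l.coeff l.natDegree = 0 :=
    (map_eq_zero_iff _ (algebraMap (ZMod p) F).injective).1 h1.symm
  exact hl (leadingCoeff_eq_zero.1 h2)

theorem eval_Pl (hA : FactsA p F) (l : (ZMod p)[X]) (y : F) :
    (Pl p l : F[X]).eval y = lin p l y := by
  have h := hA.lin_sum l 1 (l.natDegree + 1) y (Nat.lt_succ_self _)
  rw [pow_one, comp_X] at h
  rw [h]
  unfold Pl
  rw [eval_finset_sum]
  apply Finset.sum_congr rfl
  intro i _
  rw [eval_mul, eval_C, eval_pow, eval_X, mul_one]

theorem ker_sub (hA : FactsA p F) (l : (ZMod p)[X]) (hl : l ≠ 0) [DecidableEq F] :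
    {y : F | lin p l y = 0} = ((Pl p l : F[X]).roots.toFinset : Set F) := by
  ext y
  rw [Set.mem_setOf_eq, mem_coe, Multiset.mem_toFinset, mem_roots (Pl_ne_zero p l hl), IsRoot.def,
    eval_Pl p hA]

theorem ker_fin (hA : FactsA p F) (l : (ZMod p)[X]) (hl : l ≠ 0) :
    {y : F | lin p l y = 0}.Finite := by
  classical
  rw [ker_sub p hA l hl]
  exact Finset.finite_toSet _

theorem ker_card (hA : FactsA p F) (l : (ZMod p)[X]) (hl : l ≠ 0) :
    {y : F | lin p l y = 0}.ncard ≤ p ^ l.natDegree := by
  classical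
  rw [ker_sub p hA l hl, Set.ncard_coe_finset]
  exact (Multiset.toFinset_card_le _).trans ((card_roots' _).trans (natDegree_Pl p l))

variable {p}

theorem fib_atom (hA : FactsA p F) (a : Atom p) (ha : a.Ok) (x : F) : {z : F | a.ev z = x}.Finite := by
  classical
  cases a with
  | tr c =>
    refine (Set.finite_singleton (x - algebraMap (ZMod p) F c)).subset ?_
    intro z hz
    have h : z + algebraMap (ZMod p) F c = x := hz
    rw [Set.mem_singleton_iff, ← h, add_sub_cancel_right]
  | inv =>
    refine (Set.finite_singleton x⁻¹).subset ?_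
    intro z hz
    have h : z⁻¹ = x := hz
    rw [Set.mem_singleton_iff, ← h, inv_inv]
  | pow n =>
    have hn : 0 < n := by
      rcases Nat.eq_zero_or_pos n with h | h
      · subst h
        have h1 : Nat.Coprime 0 p := ha
        rw [Nat.coprime_zero_left] at h1
        exact absurd h1 (Fact.out : p.Prime).one_lt.ne'
      · exact h
    refine ((nthRoots n x).toFinset.finite_toSet).subset ?_
    intro z hz
    have h : z ^ n = x := hz
    rw [mem_coe, Multiset.mem_toFinset, mem_nthRoots hn]
    exact h
  | add l =>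
    have hl : l ≠ 0 := by
      rintro rfl
      have h1 : (0 : (ZMod p)[X]).coeff 0 ≠ 0 := ha
      exact h1 (coeff_zero 0)
    by_cases hne : ∃ z₀ : F, lin p l z₀ = x
    · obtain ⟨z₀, hz₀⟩ := hne
      refine ((ker_fin p hA l hl).image (fun y => y + z₀)).subset ?_
      intro z hz
      have h : lin p l z = x := hz
      refine ⟨z - z₀, ?_, sub_add_cancel z z₀⟩
      show lin p l (z - z₀) = 0
      rw [map_sub, h, hz₀, sub_self]
    · push Not at hne
      have : {z : F | (Atom.add l).ev z = x} = ∅ := by
        rw [Set.eq_empty_iff_forall_notMem]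
        intro z hz
        exact hne z hz
      rw [this]
      exact Set.finite_empty

theorem fib_word (hA : FactsA p F) (w : List (Atom p)) (hw : OkW w) (x : F) :
    {y : F | ev w y = x}.Finite := by
  induction w generalizing x with
  | nil =>
    refine (Set.finite_singleton x).subset ?_
    intro y hy
    exact hy
  | cons a w ih =>
    have h1 : OkW w := fun b hb => hw b (List.mem_cons_of_mem _ hb)
    have h2 : a.Ok := hw a List.mem_cons_self
    refine ((fib_atom hA a h2 x).biUnion (t := fun z => {y : F | ev w y = z})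
      (fun z _ => ih h1 z)).subset ?_
    intro y hy
    rw [Set.mem_iUnion₂]
    exact ⟨ev w y, hy, rfl⟩

theorem fibP_atom (hA : FactsA p F) (a : Atom p) (ha : a.Ok) (x : Option F) :
    {z : Option F | a.evP z = x}.Finite := by
  classical
  -- the finite part
  have key : {z : F | a.evP (some z) = x}.Finite := by
    cases x with
    | none =>
      refine (Set.finite_singleton (0 : F)).subset ?_
      intro z hz
      have hz' : a.evP (some z) = none := hz
      cases a with
      | tr c => exact absurd hz' (by simp [Atom.evP])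
      | inv =>
        by_contra h
        have h0 : z ≠ 0 := h
        simp [Atom.evP, h0] at hz'
      | pow n => exact absurd hz' (by simp [Atom.evP])
      | add l => exact absurd hz' (by simp [Atom.evP])
    | some x =>
      refine (fib_atom hA a ha x).subset ?_
      intro z hz
      have hz' : a.evP (some z) = some x := hz
      show a.ev z = x
      cases a with
      | tr c => simpa [Atom.evP, Atom.ev] using hz'
      | inv =>
        by_cases h0 : z = 0
        · simp [Atom.evP, h0] at hz'
        · simpa [Atom.evP, Atom.ev, h0] using hz'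
      | pow n => simpa [Atom.evP, Atom.ev] using hz'
      | add l => simpa [Atom.evP, Atom.ev] using hz'
  refine ((key.image some).union (Set.finite_singleton none)).subset ?_
  intro z hz
  cases z with
  | none => exact Or.inr rfl
  | some z => exact Or.inl ⟨z, hz, rfl⟩

theorem fibP_word (hA : FactsA p F) (w : List (Atom p)) (hw : OkW w) (x : Option F) :
    {y : Option F | evP w y = x}.Finite := by
  induction w generalizing x with
  | nil =>
    refine (Set.finite_singleton x).subset ?_
    intro y hy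
    exact hy
  | cons a w ih =>
    have h1 : OkW w := fun b hb => hw b (List.mem_cons_of_mem _ hb)
    have h2 : a.Ok := hw a List.mem_cons_self
    refine ((fibP_atom hA a h2 x).biUnion (t := fun z => {y : Option F | evP w y = z})
      (fun z _ => ih h1 z)).subset ?_
    intro y hy
    rw [Set.mem_iUnion₂]
    exact ⟨evP w y, hy, rfl⟩

theorem finO (hA : FactsA p F) (D : ℕ) : (OO p F D).Finite := by
  rcases Nat.eq_zero_or_pos D with h | h
  · have : OO p F D = ∅ := by
      rw [Set.eq_empty_iff_forall_notMem]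
      intro y hy
      have h1 : dg p y = D := hy
      have := hA.pos y
      omega
    rw [this]
    exact Set.finite_empty
  · have h1 : {y : F | y ^ (p ^ D) = y}.Finite := by
      rw [set_one]
      exact cardQ_fin p D 1 h
    refine h1.subset ?_
    intro y hy
    have h2 : dg p y = D := hy
    exact (hA.pow_eq y D).2 (by rw [h2])

variable (p) in
theorem sum_le (k : ℕ) : ∑ d ∈ Icc 1 k, p ^ d ≤ 2 * p ^ k := by
  induction k with
  | zero => simp
  | succ k ih =>
    rw [Finset.sum_Icc_succ_top (by omega)]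
    have h2 := (Fact.out : p.Prime).two_le
    have h3 : 2 * p ^ k ≤ p * p ^ k := Nat.mul_le_mul_right _ h2
    have h4 : p ^ (k + 1) = p * p ^ k := by rw [pow_succ, mul_comm]
    omega

theorem cardO [IsAlgClosed F] (hA : FactsA p F) (D : ℕ) (hD : 4 ≤ D) :
    p ^ D ≤ 2 * (OO p F D).ncard := by
  classical
  obtain ⟨K, hK⟩ : ∃ K : ℕ → Finset F, K = fun d => (fq p d (1 : F)).roots.toFinset := ⟨_, rfl⟩
  have hmem : ∀ d, 0 < d → ∀ y : F, y ∈ K d ↔ y ^ (p ^ d) = y := by
    intro d hd y
    have h := Set.ext_iff.1 (set_fq p d (1 : F) hd) y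
    rw [Set.mem_setOf_eq, one_mul, mem_coe] at h
    rw [hK]
    exact h.symm
  have hcard : ∀ d, 0 < d → (K d).card = p ^ d := by
    intro d hd
    have h := cardQ_card p d (1 : F) hd one_ne_zero
    rw [set_fq p d (1 : F) hd, Set.ncard_coe_finset] at h
    rw [hK]
    exact h
  have hO := finO hA D
  have hsub : K D ⊆ hO.toFinset ∪ (Icc 1 (D / 2)).biUnion K := by
    intro y hy
    rw [hmem D (by omega)] at hy
    have h1 := (hA.pow_eq y D).1 hy
    rw [mem_union, Set.Finite.mem_toFinset, mem_biUnion]
    by_cases h2 : dg p y = D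
    · exact Or.inl h2
    · refine Or.inr ⟨dg p y, ?_, ?_⟩
      · obtain ⟨m, hm⟩ := h1
        have h3 := hA.pos y
        have h4 : 2 ≤ m := by
          rcases Nat.lt_or_ge m 2 with h5 | h5
          · interval_cases m
            · omega
            · omega
          · exact h5
        rw [mem_Icc]
        refine ⟨h3, ?_⟩
        rw [Nat.le_div_iff_mul_le (by norm_num), hm]
        exact Nat.mul_le_mul_left _ h4
      · rw [hmem _ (hA.pos y)]
        exact (hA.pow_eq y (dg p y)).2 (dvd_refl _)
  have h1 := Finset.card_le_card hsub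
  rw [hcard D (by omega)] at h1
  have h2 := h1.trans (Finset.card_union_le _ _)
  have h3 : ((Icc 1 (D / 2)).biUnion K).card ≤ 2 * p ^ (D / 2) := by
    refine Finset.card_biUnion_le.trans ?_
    rw [Finset.sum_congr rfl (fun d hd => hcard d (mem_Icc.1 hd).1)]
    exact sum_le p _
  have h4 : hO.toFinset.card = (OO p F D).ncard := (Set.ncard_eq_toFinset_card _ hO).symm
  rw [h4] at h2
  have h5 : 4 * p ^ (D / 2) ≤ p ^ D := by
    have h6 : 4 ≤ p ^ (D / 2) := by
      calc 4 = 2 ^ 2 := by norm_num
        _ ≤ p ^ 2 := Nat.pow_le_pow_left (Fact.out : p.Prime).two_le 2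
        _ ≤ p ^ (D / 2) := Nat.pow_le_pow_right (Fact.out : p.Prime).pos (by omega)
    calc 4 * p ^ (D / 2) ≤ p ^ (D / 2) * p ^ (D / 2) := Nat.mul_le_mul_right _ h6
      _ = p ^ (D / 2 + D / 2) := (pow_add _ _ _).symm
      _ ≤ p ^ D := Nat.pow_le_pow_right (Fact.out : p.Prime).pos (by omega)
  omega

end

end KBasBAux

open KBasBAux in
theorem kBasB : KStmtBasB := by
  intro p _ F _ _ _ _ hA
  exact
    { cardK := fun D hD => by rw [set_one]; exact cardQ_card p D 1 hD one_ne_zero
      finK := fun D hD => by rw [set_one]; exact cardQ_fin p D 1 hD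
      finKer := fun l hl => ker_fin p hA l hl
      cardKer := fun l hl => ker_card p hA l hl
      cardQ := fun q ρ hq => ⟨cardQ_fin p q ρ hq, fun hρ => cardQ_card p q ρ hq hρ⟩
      fib := fun w hw x => fib_word hA w hw x
      fibP := fun w hw x => fibP_word hA w hw x
      finO := fun D => finO hA D
      cardO := fun D hD => cardO hA D hD }

end MP7K
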