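import Pool.Agent.Lib.MP_7f581e_K.Spec1

/-!
# C33 (MP_7f581e_nt): two large elements are connected
-/

set_option autoImplicit false

namespace MP7K

open Polynomial Finset

namespace KConAux

variable (p : ℕ) [Fact p.Prime] {F : Type} [Field F] [Algebra (ZMod p) F]

theorem lin_mul' (a b : (ZMod p)[X]) (y : F) : lin p (a * b) y = lin p a (lin p b y) := by
  unfold lin
  rw [map_mul]
  rfl

/-- the additive map on a subfield stable under `lin p l` -/
noncomputable def L (K : Subfield F) (l : (ZMod p)[X]) (h : ∀ v ∈ K, lin p l v ∈ K) : K →+ K where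
  toFun v := ⟨lin p l v.1, h v.1 v.2⟩
  map_zero' := by
    apply Subtype.ext
    change lin p l (0 : F) = 0
    exact map_zero _
  map_add' a b := by
    apply Subtype.ext
    change lin p l (a.1 + b.1) = lin p l a.1 + lin p l b.1
    exact map_add _ _ _

theorem index_range_le (K : Subfield F) [Finite K] (l : (ZMod p)[X])
    (h : ∀ v ∈ K, lin p l v ∈ K) (hfin : {y : F | lin p l y = 0}.Finite) :
    (L p K l h).range.index ≤ {y : F | lin p l y = 0}.ncard := by
  have h1 := AddSubgroup.card_mul_index (L p K l h).range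
  have h2 := AddSubgroup.card_mul_index (L p K l h).ker
  rw [AddSubgroup.index_ker] at h2
  have h3 : 0 < Nat.card (L p K l h).range := Nat.card_pos
  have h4 : (L p K l h).range.index = Nat.card (L p K l h).ker := by
    have h5 : Nat.card (L p K l h).range * (L p K l h).range.index =
        Nat.card (L p K l h).range * Nat.card (L p K l h).ker := by
      rw [h1, ← h2, mul_comm]
    exact Nat.eq_of_mul_eq_mul_left h3 h5
  rw [h4]
  have h6 : Nat.card (L p K l h).ker ≤ Nat.card {y : F | lin p l y = 0} := by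
    have : Finite {y : F | lin p l y = 0} := hfin
    refine Nat.card_le_card_of_injective (fun v : (L p K l h).ker =>
      (⟨v.1.1, ?_⟩ : {y : F | lin p l y = 0})) ?_
    · have hv := v.2
      rw [AddMonoidHom.mem_ker] at hv
      exact congrArg Subtype.val hv
    · intro v w hvw
      have h7 : v.1.1 = w.1.1 := congrArg (fun z : {y : F | lin p l y = 0} => (z : F)) hvw
      exact Subtype.ext (Subtype.ext h7)
  rwa [Nat.card_coe_set_eq] at h6

end KConAux

open KConAux in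
theorem kCon (h1 : KStmtKl) (h2 : KStmtLg) : KStmtCon := by
  intro p _ F _ _ _ _ hA hB m S c C₁ C₂ hR hC₁ hC₂ hd₁ hd₂ hc y v hy hv hLy hLv
  have hchar : CharP F p := charP_of_injective_algebraMap (algebraMap (ZMod p) F).injective p
  have hp : p.Prime := Fact.out
  obtain ⟨hm, hmp, hS5, _, hRD⟩ := hR
  obtain ⟨D, hD⟩ : ∃ D, D = p ^ S * m := ⟨_, rfl⟩
  rw [← hD] at hy hv hRD hc
  have hD0 : 0 < D := by rw [hD]; exact Nat.mul_pos (pow_pos hp.pos _) hm
  obtain ⟨M, hM⟩ : ∃ M, M = p ^ (S - 4) * m := ⟨_, rfl⟩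
  have hM0 : 0 < M := by rw [hM]; exact Nat.mul_pos (pow_pos hp.pos _) hm
  have hMD : 16 * M ≤ D := by
    have e : D = p ^ 4 * M := by
      rw [hD, hM, ← mul_assoc, ← pow_add]
      congr 2
      omega
    rw [e]
    have h3 : 2 ^ 4 ≤ p ^ 4 := Nat.pow_le_pow_left hp.two_le 4
    exact Nat.mul_le_mul_right M h3
  -- the field
  obtain ⟨K, hK⟩ : ∃ K : Subfield F, ∀ z, z ∈ K ↔ z ^ (p ^ D) = z :=
    ⟨RingHom.eqLocusField (iterateFrobenius F p D) (RingHom.id F), fun z => Iff.rfl⟩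
  have hKset : (K : Set F) = {z : F | z ^ (p ^ D) = z} := by
    ext z
    exact hK z
  have hKfin : Finite K := by
    have h3 := hB.finK D hD0
    rw [← hKset] at h3
    exact h3
  have hKcard : Nat.card K = p ^ D := by
    have h3 := hB.cardK D hD0
    rw [← hKset, ← Nat.card_coe_set_eq] at h3
    exact h3
  have hKdg : ∀ z, z ∈ K ↔ dg p z ∣ D := fun z => by rw [hK, hA.pow_eq]
  have hstab : ∀ (l : (ZMod p)[X]), ∀ z ∈ K, lin p l z ∈ K := by
    intro l z hz
    rw [hKdg] at hz ⊢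
    exact (hA.dg_lin z l).trans hz
  have hXM : ((X : (ZMod p)[X]) ^ M - 1) ≠ 0 := X_pow_sub_C_ne_zero hM0 1
  have hXMd : ((X : (ZMod p)[X]) ^ M - 1).natDegree = M := natDegree_X_pow_sub_C
  have hidx : ∀ C : (ZMod p)[X], C ≠ 0 → C.natDegree ≤ c →
      (L p K (C * (X ^ M - 1)) (hstab _)).range.index ≤ p ^ (c + M) := by
    intro C hC hCd
    have hne : C * (X ^ M - 1) ≠ 0 := mul_ne_zero hC hXM
    refine (index_range_le p K _ (hstab _) (hB.finKer _ hne)).trans ?_
    refine (hB.cardKer _ hne).trans ?_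
    apply Nat.pow_le_pow_right hp.pos
    rw [natDegree_mul hC hXM, hXMd]
    omega
  have hi₁ := hidx C₁ hC₁ hd₁
  have hi₂ := hidx C₂ hC₂ hd₂
  have hineq : 64 * ((L p K (C₁ * (X ^ M - 1)) (hstab _)).range.index *
      (L p K (C₂ * (X ^ M - 1)) (hstab _)).range.index) ^ 4 ≤ Nat.card K := by
    rw [hKcard]
    calc 64 * ((L p K (C₁ * (X ^ M - 1)) (hstab _)).range.index *
      (L p K (C₂ * (X ^ M - 1)) (hstab _)).range.index) ^ 4
        ≤ p ^ 6 * (p ^ (c + M) * p ^ (c + M)) ^ 4 := by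
          have h3 : 2 ^ 6 ≤ p ^ 6 := Nat.pow_le_pow_left hp.two_le 6
          exact Nat.mul_le_mul h3 (Nat.pow_le_pow_left (Nat.mul_le_mul hi₁ hi₂) 4)
      _ = p ^ (6 + (c + M + (c + M)) * 4) := by rw [← pow_add, ← pow_mul, ← pow_add]
      _ ≤ p ^ D := by
          apply Nat.pow_le_pow_right hp.pos
          omega
  have hyK : y ∈ K := by rw [hKdg, hy]
  have hvK : v ∈ K := by rw [hKdg, hv]
  obtain ⟨x, hx0, hx1, hx2⟩ := h1 K _ _ hineq ⟨y, hyK⟩ ⟨v, hvK⟩
  have key : ∀ (C : (ZMod p)[X]) (u z : F), dg p u = D → Large p (p ^ (S - 4)) (p ^ 4 * m) u →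
      (∃ w : F, w ∈ K ∧ lin p (C * (X ^ M - 1)) w = z - u) → ∃ κ : (ZMod p)[X],
        z = u + lin p (C * κ) u := by
    rintro C u z hu hLu ⟨w, hw, hwz⟩
    obtain ⟨κ, hκ⟩ := h2 p F hA hB m S 4 hm hmp (by omega) u (by rw [hu, hD]) hLu w
      (by rw [← hD]; exact (hKdg w).1 hw)
    rw [← hM] at hκ
    refine ⟨κ, ?_⟩
    rw [lin_mul', ← hκ, ← lin_mul', hwz]
    ring
  obtain ⟨w₁, hw₁⟩ := hx1
  obtain ⟨w₂, hw₂⟩ := hx2
  obtain ⟨κ₁, hκ₁⟩ := key C₁ y x hy hLy ⟨w₁.1, w₁.2, congrArg Subtype.val hw₁⟩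
  obtain ⟨κ₂, hκ₂⟩ := key C₂ v (x.1)⁻¹ hv hLv ⟨w₂.1, w₂.2, by
    have := congrArg Subtype.val hw₂
    exact this⟩
  refine ⟨κ₁, κ₂, ?_, ?_⟩
  · rw [← hκ₁]
    intro h
    exact hx0 (Subtype.ext h)
  · rw [← hκ₁, hκ₂]

end MP7K
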