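import Pool.Agent.Lib.MP_7f581e_K.Spec1

/-!
# C33 K/D1: the trace lemma
-/

set_option autoImplicit false

namespace MP7K

open Polynomial Finset

namespace KD1Aux

/-- A sum of simple fractions with different poles does not vanish at all points of a large set. -/
theorem rat_nonvanish {F ι : Type*} [Field F] [DecidableEq ι] (J : Finset ι) (α e : ι → F)
    (hα : Set.InjOn α (J : Set ι)) (j₀ : ι) (hj₀ : j₀ ∈ J) (he : e j₀ ≠ 0) (T : Finset F)
    (hT : J.card ≤ T.card) (hTα : ∀ t ∈ T, ∀ j ∈ J, α j + t ≠ 0) :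
    ∃ t ∈ T, ∑ j ∈ J, e j * (α j + t)⁻¹ ≠ 0 := by
  by_contra hcon
  push Not at hcon
  set G : F[X] := ∑ j ∈ J, C (e j) * ∏ j' ∈ J.erase j, (X + C (α j')) with hG
  have hdeg : G.natDegree ≤ J.card - 1 := by
    rw [hG]
    refine natDegree_sum_le_of_forall_le J _ ?_
    intro j hj
    refine (natDegree_C_mul_le _ _).trans ((natDegree_prod_le _ _).trans ?_)
    have h1 : ∀ j' ∈ J.erase j, ((X : F[X]) + C (α j')).natDegree ≤ 1 := fun j' _ =>
      (natDegree_X_add_C (α j')).le
    refine (Finset.sum_le_card_nsmul _ _ 1 h1).trans (le_of_eq ?_)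
    rw [Finset.card_erase_of_mem hj, smul_eq_mul, mul_one]
  have hev : ∀ t ∈ T, G.eval t = 0 := by
    intro t ht
    have h1 := hcon t ht
    have h2 : G.eval t = (∏ j ∈ J, (α j + t)) * ∑ j ∈ J, e j * (α j + t)⁻¹ := by
      rw [hG, eval_finset_sum, Finset.mul_sum]
      refine Finset.sum_congr rfl ?_
      intro j hj
      rw [eval_mul, eval_C, eval_prod, ← Finset.mul_prod_erase J _ hj]
      have h3 : ∏ j' ∈ J.erase j, ((X : F[X]) + C (α j')).eval t =
          ∏ j' ∈ J.erase j, (α j' + t) := by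
        refine Finset.prod_congr rfl ?_
        intro j' _
        rw [eval_add, eval_X, eval_C, add_comm]
      rw [h3]
      have h4 := hTα t ht j hj
      field_simp
    rw [h2, h1, mul_zero]
  have hcard : 0 < J.card := Finset.card_pos.mpr ⟨j₀, hj₀⟩
  have hG0 : G = 0 := Polynomial.eq_zero_of_natDegree_lt_card_of_eval_eq_zero' G T hev (by omega)
  have h5 : G.eval (-α j₀) = e j₀ * ∏ j' ∈ J.erase j₀, (-α j₀ + α j') := by
    rw [hG, eval_finset_sum, ← Finset.add_sum_erase J _ hj₀]
    have h6 : ∑ j ∈ J.erase j₀, (C (e j) * ∏ j' ∈ J.erase j, ((X : F[X]) + C (α j'))).eval (-α j₀) =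
        0 := by
      refine Finset.sum_eq_zero ?_
      intro j hj
      rw [eval_mul, eval_prod]
      have h7 : ∏ j' ∈ J.erase j, ((X : F[X]) + C (α j')).eval (-α j₀) = 0 := by
        refine Finset.prod_eq_zero (i := j₀) ?_ ?_
        · rw [Finset.mem_erase]
          exact ⟨(Finset.ne_of_mem_erase hj).symm, hj₀⟩
        · rw [eval_add, eval_X, eval_C, neg_add_cancel]
      rw [h7, mul_zero]
    rw [h6, add_zero, eval_mul, eval_C, eval_prod]
    congr 1
    refine Finset.prod_congr rfl ?_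
    intro j' _
    rw [eval_add, eval_X, eval_C]
  rw [hG0, eval_zero] at h5
  have h8 : ∏ j' ∈ J.erase j₀, (-α j₀ + α j') ≠ 0 := by
    rw [Finset.prod_ne_zero_iff]
    intro j' hj' h9
    have h10 : α j' = α j₀ := by
      have : α j' - α j₀ = 0 := by rw [← h9]; ring
      exact sub_eq_zero.mp this
    exact (Finset.ne_of_mem_erase hj') (hα (Finset.mem_of_mem_erase hj') hj₀ h10)
  exact mul_ne_zero he h8 h5.symm

theorem gcd_dvd (a b s : ℕ) (ha : 0 < a) : a ∣ s * b ↔ a / Nat.gcd a b ∣ s := by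
  have hg : 0 < Nat.gcd a b := Nat.gcd_pos_of_pos_left b ha
  have hc := Nat.coprime_div_gcd_div_gcd hg
  have h1 : a = a.gcd b * (a / a.gcd b) := (Nat.mul_div_cancel' (Nat.gcd_dvd_left a b)).symm
  have h2 : b = a.gcd b * (b / a.gcd b) := (Nat.mul_div_cancel' (Nat.gcd_dvd_right a b)).symm
  constructor
  · intro h
    have h3 : a.gcd b * (a / a.gcd b) ∣ a.gcd b * (s * (b / a.gcd b)) := by
      have e : a.gcd b * (s * (b / a.gcd b)) = s * b := by
        calc a.gcd b * (s * (b / a.gcd b)) = s * (a.gcd b * (b / a.gcd b)) := by ring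
          _ = s * b := by rw [← h2]
      rw [e, ← h1]
      exact h
    have h4 := Nat.dvd_of_mul_dvd_mul_left hg h3
    exact hc.dvd_of_dvd_mul_right h4
  · rintro ⟨k, hk⟩
    have e : s * b = a * (k * (b / a.gcd b)) := by
      calc s * b = (a / a.gcd b * k) * b := by rw [hk]
        _ = (a / a.gcd b * k) * (a.gcd b * (b / a.gcd b)) := by rw [← h2]
        _ = (a.gcd b * (a / a.gcd b)) * (k * (b / a.gcd b)) := by ring
        _ = a * (k * (b / a.gcd b)) := by rw [← h1]
    rw [e]
    exact Dvd.intro _ rfl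

theorem sum_range_mul {M : Type*} [AddCommMonoid M] (f : ℕ → M) (u w : ℕ) :
    ∑ i ∈ range (u * w), f i = ∑ k ∈ range w, ∑ a ∈ range u, f (a + u * k) := by
  induction w with
  | zero => simp
  | succ w ih =>
    rw [Nat.mul_succ, Finset.sum_range_add, ih, Finset.sum_range_succ]
    congr 1
    refine Finset.sum_congr rfl ?_
    intro a _
    rw [add_comm]

end KD1Aux

open KD1Aux in
theorem kD1 : KStmtD1 := by
  intro p hpF F _ _ _ _ hA hB m S hR y h hy hh hhm
  have hp : p.Prime := hpF.out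
  have : CharP F p := charP_of_injective_algebraMap (algebraMap (ZMod p) F).injective p
  obtain ⟨hm0, hmp, hS5, hR1, hR2⟩ := hR
  set N₁ : ℕ := p ^ (S - 1) with hN₁
  have hN₁0 : 0 < N₁ := pow_pos hp.pos _
  have hSN : p ^ S = p * N₁ := by
    rw [hN₁, ← pow_succ']
    congr 1
    omega
  -- the powers of the Frobenius map
  obtain ⟨Ψ, hΨ⟩ : ∃ Ψ : ℕ → F →+* F, ∀ i z, Ψ i z = z ^ (p ^ (i * N₁)) :=
    ⟨fun i => iterateFrobenius F p (i * N₁), fun i z => iterateFrobenius_def _ _ _⟩
  have hΨadd : ∀ i j z, Ψ i (Ψ j z) = Ψ (i + j) z := by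
    intro i j z
    rw [hΨ, hΨ, hΨ, ← pow_mul, ← pow_add, add_mul, add_comm (j * N₁)]
  have hΨinj : ∀ i, Function.Injective (Ψ i) := fun i => (Ψ i).injective
  have hΨ0 : ∀ z, Ψ 0 z = z := by
    intro z
    rw [hΨ, zero_mul, pow_zero, pow_one]
  -- periods
  obtain ⟨per, hper⟩ : ∃ per : F → ℕ, ∀ v s, Ψ s v = v ↔ per v ∣ s :=
    ⟨fun v => dg p v / Nat.gcd (dg p v) N₁, fun v s => by
      rw [hΨ, hA.pow_eq]
      exact gcd_dvd _ _ _ (hA.pos v)⟩
  have hy' : ∀ s, Ψ s y = y ↔ p * m ∣ s := by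
    intro s
    rw [hΨ, hA.pow_eq, hy, hSN]
    constructor
    · intro h1
      have h2 : N₁ * (p * m) ∣ N₁ * s := by
        have e : N₁ * (p * m) = p * N₁ * m := by ring
        have e2 : N₁ * s = s * N₁ := by ring
        rw [e, e2]
        exact h1
      exact Nat.dvd_of_mul_dvd_mul_left hN₁0 h2
    · rintro ⟨k, rfl⟩
      exact ⟨k, by ring⟩
  have hhm' : Ψ m h = h := by
    rw [hΨ, hA.pow_eq]
    exact ((hA.pow_eq h m).mp hhm).mul_right _
  have hhq : Ψ (p * m) h = h := by
    rw [hper]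
    exact ((hper h m).mp hhm').mul_left _
  have hpm : m < p * m := by
    have := hp.two_le
    nlinarith
  -- number of elements of E₁
  have hE₁ : p * m < p ^ N₁ := by
    have h1 : p ^ (S - 4) ≤ N₁ := Nat.pow_le_pow_right hp.pos (by omega)
    have h2 : p ^ (p ^ (S - 4)) ≤ p ^ N₁ := Nat.pow_le_pow_right hp.pos h1
    have h3 : 1 ≤ p ^ (p ^ 4 * m) := Nat.one_le_pow _ _ hp.pos
    have h4 : p * m ≤ p ^ 4 * m := Nat.mul_le_mul_right m (by
      calc p = p ^ 1 := (pow_one p).symm
        _ ≤ p ^ 4 := Nat.pow_le_pow_right hp.pos (by norm_num))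
    have h5 : p ^ 4 * m ≤ p ^ (p ^ 4 * m) * (p ^ 4 * m) := Nat.le_mul_of_pos_left _ (by omega)
    omega
  -- the main computation
  have hmain : ∀ (v : F) (u w : ℕ), per v = p * u → m = u * w →
      (∑ k ∈ range w, Ψ (k * (p * u)) h⁻¹) ≠ 0 → ∃ t : F, t ^ (p ^ N₁) = t ∧ v + t ≠ 0 ∧
        (∑ i ∈ range m, (h * (v + t))⁻¹ ^ (p ^ (p ^ S * i))) ^ (p ^ N₁) ≠
          ∑ i ∈ range m, (h * (v + t))⁻¹ ^ (p ^ (p ^ S * i)) := by
    intro v u w hs hmw hδ
    set δ : F := ∑ k ∈ range w, Ψ (k * (p * u)) h⁻¹ with hδd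
    have hu0 : 0 < u := by
      rcases Nat.eq_zero_or_pos u with h0 | h0
      · rw [h0, zero_mul] at hmw; omega
      · exact h0
    have hw0 : 0 < w := by
      rcases Nat.eq_zero_or_pos w with h0 | h0
      · rw [h0, mul_zero] at hmw; omega
      · exact h0
    -- different conjugates
    have hdiff : ∀ i i', i < p * u → i' < p * u → Ψ i v = Ψ i' v → i = i' := by
      have haux : ∀ i i', i ≤ i' → i' < p * u → Ψ i v = Ψ i' v → i = i' := by
        intro i i' h1 h2 h3
        have h4 : Ψ i (Ψ (i' - i) v) = Ψ i v := by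
          rw [hΨadd, h3]
          congr 1
          congr 1
          omega
        have h5 := hΨinj i h4
        rw [hper, hs] at h5
        rcases Nat.eq_zero_or_pos (i' - i) with h6 | h6
        · omega
        · have := Nat.le_of_dvd h6 h5
          omega
      intro i i' h1 h2 h3
      rcases le_total i i' with h4 | h4
      · exact haux i i' h4 h2 h3
      · exact (haux i' i h4 h1 h3.symm).symm
    have hne1 : ∀ i, ∀ t : F, t ^ (p ^ N₁) = t → Ψ i v + t ≠ 0 := by
      intro i t ht h1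
      have h2 : Ψ i v = -t := eq_neg_of_add_eq_zero_left h1
      have ht1 : Ψ 1 t = t := by rw [hΨ, one_mul]; exact ht
      have h3 : Ψ i (Ψ 1 v) = Ψ i v := by
        rw [hΨadd, add_comm, ← hΨadd, h2, map_neg, ht1]
      have h4 := hΨinj i h3
      rw [hper, hs] at h4
      have h5 := Nat.le_of_dvd one_pos h4
      have := hp.two_le
      nlinarith
    -- the finite set E₁
    set T : Finset F := (hB.finK N₁ hN₁0).toFinset with hT
    have hTc : T.card = p ^ N₁ := by
      rw [← hB.cardK N₁ hN₁0, hT, Set.ncard_eq_toFinset_card _ (hB.finK N₁ hN₁0)]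
    have hTm : ∀ t ∈ T, t ^ (p ^ N₁) = t := by
      intro t ht
      rw [hT, Set.Finite.mem_toFinset] at ht
      exact ht
    set J : Finset (ℕ × ℕ) := range u ×ˢ range 2 with hJ
    set α : ℕ × ℕ → F := fun j => Ψ (p * j.1 + j.2) v with hα
    set e : ℕ × ℕ → F := fun j => if j.2 = 1 then Ψ (p * j.1 + 1) δ else -Ψ (p * j.1) δ with he
    have hJm : ∀ j ∈ J, j.1 < u ∧ j.2 < 2 := by
      intro j hj
      rw [hJ, mem_product, Finset.mem_range, Finset.mem_range] at hj
      exact hj
    have hlt : ∀ a b, a < u → b < 2 → p * a + b < p * u := by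
      intro a b ha hb
      have h1 : p * (a + 1) ≤ p * u := Nat.mul_le_mul_left p ha
      have h2 := hp.two_le
      rw [Nat.mul_succ] at h1
      omega
    have hinj : Set.InjOn α (J : Set (ℕ × ℕ)) := by
      rintro ⟨a, b⟩ hj ⟨a', b'⟩ hj' heq
      obtain ⟨ha, hb⟩ := hJm _ hj
      obtain ⟨ha', hb'⟩ := hJm _ hj'
      simp only at ha hb ha' hb'
      have h1 : p * a + b = p * a' + b' :=
        hdiff _ _ (hlt a b ha hb) (hlt a' b' ha' hb') heq
      have h2 := hp.two_le
      have h3 : a = a' := by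
        rcases lt_trichotomy a a' with h4 | h4 | h4
        · have : p * (a + 1) ≤ p * a' := Nat.mul_le_mul_left p h4
          rw [Nat.mul_succ] at this
          omega
        · exact h4
        · have : p * (a' + 1) ≤ p * a := Nat.mul_le_mul_left p h4
          rw [Nat.mul_succ] at this
          omega
      subst h3
      have h4 : b = b' := by omega
      rw [h4]
    obtain ⟨t, htT, ht⟩ := rat_nonvanish J α e hinj (0, 0)
      (by rw [hJ, mem_product, Finset.mem_range, Finset.mem_range]; exact ⟨hu0, by norm_num⟩)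
      (by
        simp only [he]
        rw [if_neg (by norm_num), mul_zero, hΨ0]
        exact neg_ne_zero.mpr hδ) T (by
        rw [hTc, hJ, Finset.card_product, Finset.card_range, Finset.card_range]
        have h1 : u * 2 ≤ u * w * p := by
          have := hp.two_le
          calc u * 2 ≤ u * p := Nat.mul_le_mul_left u this
            _ ≤ u * w * p := Nat.mul_le_mul_right p (Nat.le_mul_of_pos_right u hw0)
        rw [← hmw, mul_comm m p] at h1
        omega)
      (fun t ht j _ => hne1 _ t (hTm t ht))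
    have htf := hTm t htT
    have htΨ : ∀ i, Ψ i t = t := by
      intro i
      have h1 : Ψ 1 t = t := by rw [hΨ, one_mul]; exact htf
      rw [hper] at h1 ⊢
      exact (Nat.dvd_one.mp h1) ▸ one_dvd i
    refine ⟨t, htf, ?_, ?_⟩
    · have := hne1 0 t htf
      rwa [hΨ0] at this
    -- evaluation of the trace
    have hvu : ∀ k, Ψ (k * (p * u)) v = v := by
      intro k
      rw [hper, hs]
      exact Dvd.intro_left k rfl
    have hx' : ∑ i ∈ range m, (h * (v + t))⁻¹ ^ (p ^ (p ^ S * i)) =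
        ∑ a ∈ range u, Ψ (p * a) δ * (Ψ (p * a) v + t)⁻¹ := by
      have h1 : ∀ i ∈ range m, (h * (v + t))⁻¹ ^ (p ^ (p ^ S * i)) =
          Ψ (p * i) ((h * (v + t))⁻¹) := by
        intro i _
        rw [hΨ, hSN]
        congr 2
        ring
      rw [Finset.sum_congr rfl h1, hmw, sum_range_mul, Finset.sum_comm]
      refine Finset.sum_congr rfl ?_
      intro a _
      have h2 : ∀ k ∈ range w, Ψ (p * (a + u * k)) ((h * (v + t))⁻¹) =
          Ψ (p * a) (Ψ (k * (p * u)) h⁻¹ * (v + t)⁻¹) := by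
        intro k _
        have e1 : p * (a + u * k) = p * a + k * (p * u) := by ring
        rw [e1, ← hΨadd]
        congr 1
        rw [mul_inv, map_mul]
        congr 1
        rw [map_inv₀, map_add, hvu, htΨ]
      rw [Finset.sum_congr rfl h2, ← map_sum, ← Finset.sum_mul, ← hδd, map_mul, map_inv₀, map_add,
        htΨ]
    rw [hx']
    have hψ : (∑ a ∈ range u, Ψ (p * a) δ * (Ψ (p * a) v + t)⁻¹) ^ (p ^ N₁) =
        ∑ a ∈ range u, Ψ (p * a + 1) δ * (Ψ (p * a + 1) v + t)⁻¹ := by
      have h1 : ∀ z, z ^ (p ^ N₁) = Ψ 1 z := by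
        intro z
        rw [hΨ, one_mul]
      rw [h1, map_sum]
      refine Finset.sum_congr rfl ?_
      intro a _
      rw [map_mul, map_inv₀, map_add, hΨadd, hΨadd, htΨ, add_comm 1]
    rw [hψ]
    intro heq
    apply ht
    rw [hJ, Finset.sum_product]
    have h1 : ∀ a ∈ range u, ∑ b ∈ range 2, e (a, b) * (α (a, b) + t)⁻¹ =
        Ψ (p * a + 1) δ * (Ψ (p * a + 1) v + t)⁻¹ - Ψ (p * a) δ * (Ψ (p * a) v + t)⁻¹ := by
      intro a _
      rw [Finset.sum_range_succ, Finset.sum_range_one]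
      simp only [he, hα]
      rw [if_neg (by norm_num), if_pos trivial, add_zero]
      ring
    rw [Finset.sum_congr rfl h1, Finset.sum_sub_distrib, heq, sub_self]
  -- the structure of the period
  have hstr : ∀ c : ZMod p, ∃ u w : ℕ, per ((y + algebraMap (ZMod p) F c) / h) = p * u ∧
      m = u * w ∧ w.Coprime p := by
    intro c
    set v := (y + algebraMap (ZMod p) F c) / h with hv
    have hcΨ : ∀ i, Ψ i (algebraMap (ZMod p) F c) = algebraMap (ZMod p) F c := by
      intro i
      rw [hΨ, ← map_pow]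
      congr 1
      exact ZMod.pow_card_pow c
    have h1 : per v ∣ p * m := by
      rw [← hper, hv, map_div₀, map_add, hcΨ, hhq]
      rw [(hy' (p * m)).mpr dvd_rfl]
    have h2 : ¬ per v ∣ m := by
      intro h3
      rw [← hper, hv, map_div₀, map_add, hcΨ, hhm', div_left_inj' hh, add_left_inj, hy'] at h3
      exact absurd (Nat.le_of_dvd hm0 h3) (by omega)
    have h3 : p ∣ per v := by
      by_contra h4
      have h5 : Nat.Coprime (per v) p := ((Nat.Prime.coprime_iff_not_dvd hp).mpr h4).symm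
      exact h2 (h5.dvd_of_dvd_mul_left h1)
    obtain ⟨u, hu⟩ := h3
    rw [hu] at h1
    obtain ⟨w, hw⟩ := Nat.dvd_of_mul_dvd_mul_left hp.pos h1
    refine ⟨u, w, hu, hw, ?_⟩
    rw [hw] at hmp
    exact Nat.Coprime.coprime_mul_left hmp
  -- conclusion from a nonzero delta
  have hfin : ∀ (c : ZMod p) (u w : ℕ), per ((y + algebraMap (ZMod p) F c) / h) = p * u →
      m = u * w → (∑ k ∈ range w, Ψ (k * (p * u)) h⁻¹) ≠ 0 →
      ∃ (c : ZMod p) (t : F), t ^ (p ^ N₁) = t ∧ y + algebraMap (ZMod p) F c + t * h ≠ 0 ∧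
      (∑ i ∈ range m, (y + algebraMap (ZMod p) F c + t * h)⁻¹ ^ (p ^ (p ^ S * i))) ^ (p ^ N₁) ≠
        ∑ i ∈ range m, (y + algebraMap (ZMod p) F c + t * h)⁻¹ ^ (p ^ (p ^ S * i)) := by
    intro c u w h1 h2 h3
    obtain ⟨t, ht1, ht2, ht3⟩ := hmain _ u w h1 h2 h3
    have e : h * ((y + algebraMap (ZMod p) F c) / h + t) =
        y + algebraMap (ZMod p) F c + t * h := by
      field_simp
    rw [e] at ht3
    refine ⟨c, t, ht1, ?_, ht3⟩
    rw [← e]
    exact mul_ne_zero hh ht2
  obtain ⟨u₀, w₀, hs0, hm0', hw0⟩ := hstr 0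
  obtain ⟨u₁, w₁, hs1, hm1', hw1⟩ := hstr 1
  by_cases hδ0 : (∑ k ∈ range w₀, Ψ (k * (p * u₀)) h⁻¹) = 0
  · by_cases hδ1 : (∑ k ∈ range w₁, Ψ (k * (p * u₁)) h⁻¹) = 0
    · exfalso
      set v₀ := (y + algebraMap (ZMod p) F 0) / h with hv0
      set v₁ := (y + algebraMap (ZMod p) F 1) / h with hv1
      have hv : h⁻¹ = v₁ - v₀ := by
        rw [hv0, hv1, map_zero, map_one]
        field_simp
        ring
      have hcast : ∀ w : ℕ, w.Coprime p → (w : F) ≠ 0 := by
        intro w hw h1
        rw [CharP.cast_eq_zero_iff F p] at h1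
        exact (Nat.Prime.coprime_iff_not_dvd hp).mp hw.symm h1
      have hfix0 : ∀ k, Ψ (k * (p * u₀)) v₀ = v₀ := by
        intro k
        rw [hper, hs0]
        exact Dvd.intro_left k rfl
      have hfix1 : ∀ k, Ψ (k * (p * u₁)) v₁ = v₁ := by
        intro k
        rw [hper, hs1]
        exact Dvd.intro_left k rfl
      have hd1 : per v₀ ∣ p * u₁ := by
        have h1 : (w₀ : F) * v₀ = ∑ k ∈ range w₀, Ψ (k * (p * u₀)) v₁ := by
          have h2 : ∀ k ∈ range w₀, Ψ (k * (p * u₀)) h⁻¹ = Ψ (k * (p * u₀)) v₁ - v₀ := by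
            intro k _
            rw [hv, map_sub, hfix0]
          rw [Finset.sum_congr rfl h2, Finset.sum_sub_distrib, Finset.sum_const,
            Finset.card_range, nsmul_eq_mul] at hδ0
          exact (sub_eq_zero.mp hδ0).symm
        rw [← hper]
        have h3 : Ψ (p * u₁) ((w₀ : F) * v₀) = (w₀ : F) * v₀ := by
          rw [h1, map_sum]
          refine Finset.sum_congr rfl ?_
          intro k _
          have h4 := hfix1 1
          rw [one_mul] at h4
          rw [hΨadd, add_comm, ← hΨadd, h4]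
        rw [map_mul, map_natCast] at h3
        exact mul_left_cancel₀ (hcast w₀ hw0) h3
      have hd0 : per v₁ ∣ p * u₀ := by
        have h1 : (w₁ : F) * v₁ = ∑ k ∈ range w₁, Ψ (k * (p * u₁)) v₀ := by
          have h2 : ∀ k ∈ range w₁, Ψ (k * (p * u₁)) h⁻¹ = v₁ - Ψ (k * (p * u₁)) v₀ := by
            intro k _
            rw [hv, map_sub, hfix1]
          rw [Finset.sum_congr rfl h2, Finset.sum_sub_distrib, Finset.sum_const,
            Finset.card_range, nsmul_eq_mul] at hδ1
          exact sub_eq_zero.mp hδ1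
        rw [← hper]
        have h3 : Ψ (p * u₀) ((w₁ : F) * v₁) = (w₁ : F) * v₁ := by
          rw [h1, map_sum]
          refine Finset.sum_congr rfl ?_
          intro k _
          have h4 := hfix0 1
          rw [one_mul] at h4
          rw [hΨadd, add_comm, ← hΨadd, h4]
        rw [map_mul, map_natCast] at h3
        exact mul_left_cancel₀ (hcast w₁ hw1) h3
      rw [hs0] at hd1
      rw [hs1] at hd0
      have hs : p * u₀ = p * u₁ := Nat.dvd_antisymm hd1 hd0
      have f0 : Ψ (p * u₀) v₀ = v₀ := by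
        have := hfix0 1
        rwa [one_mul] at this
      have f1 : Ψ (p * u₀) v₁ = v₁ := by
        have := hfix1 1
        rwa [one_mul, ← hs] at this
      have f2 : Ψ (p * u₀) h⁻¹ = h⁻¹ := by
        rw [hv, map_sub, f0, f1]
      have f3 : Ψ (p * u₀) h = h := by
        rw [map_inv₀] at f2
        exact inv_injective f2
      have f4 : y = v₀ * h := by
        rw [hv0, map_zero, add_zero]
        field_simp
      have f5 : Ψ (p * u₀) y = y := by
        rw [f4, map_mul, f0, f3]
      rw [hy'] at f5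
      have f6 : w₀ = 1 := by
        have hu0 : 0 < u₀ := by
          rcases Nat.eq_zero_or_pos u₀ with h0 | h0
          · rw [h0, zero_mul] at hm0'; omega
          · exact h0
        have h1 := Nat.le_of_dvd (Nat.mul_pos hp.pos hu0) f5
        have h2 : m ≤ u₀ := Nat.le_of_mul_le_mul_left h1 hp.pos
        rw [hm0'] at h2
        have hw00 : 0 < w₀ := by
          rcases Nat.eq_zero_or_pos w₀ with h0 | h0
          · rw [h0, mul_zero] at hm0'; omega
          · exact h0
        by_contra h3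
        have h4 : 2 ≤ w₀ := by omega
        have h5 : u₀ * 2 ≤ u₀ * w₀ := Nat.mul_le_mul_left _ h4
        omega
      rw [f6, Finset.sum_range_one, zero_mul, hΨ0] at hδ0
      exact inv_ne_zero hh hδ0
    · exact hfin 1 u₁ w₁ hs1 hm1' hδ1
  · exact hfin 0 u₀ w₀ hs0 hm0' hδ0

end MP7K
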