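import Pool.Agent.Lib.MP_7f581e_K.Defs

set_option autoImplicit false

namespace MP7K.Lin

open Polynomial

section

variable {p : ℕ} [Fact p.Prime] {F : Type} [Field F] [Algebra (ZMod p) F]

theorem lin_mul (a b : (ZMod p)[X]) (y : F) : lin p (a * b) y = lin p a (lin p b y) := by
  simp [lin, map_mul]

theorem lin_mul' (a b : (ZMod p)[X]) (y : F) : lin p (a * b) y = lin p b (lin p a y) := by
  rw [mul_comm, lin_mul]

theorem lin_comm (a b : (ZMod p)[X]) (y : F) : lin p a (lin p b y) = lin p b (lin p a y) := by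
  rw [← lin_mul, lin_mul']

theorem lin_add (a b : (ZMod p)[X]) (y : F) : lin p (a + b) y = lin p a y + lin p b y := by
  simp [lin]

theorem lin_sub (a b : (ZMod p)[X]) (y : F) : lin p (a - b) y = lin p a y - lin p b y := by
  simp [lin]

@[simp] theorem lin_one (y : F) : lin p 1 y = y := by
  simp [lin]

@[simp] theorem lin_zero (y : F) : lin p 0 y = 0 := by
  simp [lin]

theorem lin_X (y : F) : lin p X y = y ^ p := by
  simp [lin]

theorem lin_X_pow (n : ℕ) (y : F) : lin p (X ^ n) y = y ^ (p ^ n) := by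
  induction n generalizing y with
  | zero => simp
  | succ n ih => rw [pow_succ, lin_mul, ih, lin_X, ← pow_mul, pow_succ']

theorem lin_C_mul (c : ZMod p) (a : (ZMod p)[X]) (y : F) :
    lin p (C c * a) y = algebraMap (ZMod p) F c * lin p a y := by
  rw [lin_mul]
  simp [lin, Algebra.smul_def]

theorem lin_sum {ι : Type*} (s : Finset ι) (a : ι → (ZMod p)[X]) (y : F) :
    lin p (∑ i ∈ s, a i) y = ∑ i ∈ s, lin p (a i) y := by
  simp [lin]

theorem pow_pPow_eq_expand (a : (ZMod p)[X]) (e : ℕ) : a ^ (p ^ e) = expand (ZMod p) (p ^ e) a := by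
  induction e with
  | zero => simp
  | succ e ih => rw [pow_succ, pow_mul, ih, ← ZMod.expand_card, expand_expand, mul_comm]

theorem lin_X_pow_sub (D : ℕ) (y : F) : lin p (X ^ D - 1) y = y ^ (p ^ D) - y := by
  rw [lin_sub, lin_X_pow, lin_one]

theorem lin_eq_sum (a : (ZMod p)[X]) (y : F) :
    lin p a y = ∑ i ∈ Finset.range (a.natDegree + 1),
      algebraMap (ZMod p) F (a.coeff i) * y ^ (p ^ i) := by
  conv_lhs => rw [a.as_sum_range_C_mul_X_pow]
  rw [lin_sum]
  refine Finset.sum_congr rfl fun i _ => ?_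
  rw [lin_C_mul, lin_X_pow]

theorem lin_expand (a : (ZMod p)[X]) (N : ℕ) (y : F) :
    lin p (expand (ZMod p) N a) y = ∑ i ∈ Finset.range (a.natDegree + 1),
      algebraMap (ZMod p) F (a.coeff i) * y ^ (p ^ (N * i)) := by
  conv_lhs => rw [a.as_sum_range_C_mul_X_pow]
  rw [map_sum, lin_sum]
  refine Finset.sum_congr rfl fun i _ => ?_
  rw [map_mul, expand_C, map_pow, expand_X, lin_C_mul, ← pow_mul, lin_X_pow]

theorem pow_iter_fixed {t : F} {N : ℕ} (ht : t ^ (p ^ N) = t) (i : ℕ) :
    t ^ (p ^ (N * i)) = t := by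
  induction i with
  | zero => simp
  | succ i ih => rw [mul_add, pow_add, pow_mul, mul_one, ih, ht]

theorem lin_expand_mul {t : F} {N : ℕ} (ht : t ^ (p ^ N) = t) (a : (ZMod p)[X]) (y : F) :
    lin p (expand (ZMod p) N a) (t * y) = t * lin p (expand (ZMod p) N a) y := by
  rw [lin_expand, lin_expand, Finset.mul_sum]
  refine Finset.sum_congr rfl fun i _ => ?_
  rw [mul_pow, pow_iter_fixed ht]
  ring

theorem iterate_frob (n : ℕ) (y : F) : (fun z : F => z ^ p)^[n] y = y ^ (p ^ n) := by
  induction n generalizing y with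
  | zero => simp
  | succ n ih => rw [Function.iterate_succ_apply, ih, ← pow_mul, pow_succ']

theorem dg_dvd_iff (y : F) (D : ℕ) : dg p y ∣ D ↔ y ^ (p ^ D) = y := by
  rw [dg, ← Function.isPeriodicPt_iff_minimalPeriod_dvd]
  unfold Function.IsPeriodicPt Function.IsFixedPt
  rw [iterate_frob]

/-- The additive polynomial. -/
noncomputable def addP (F : Type) [Field F] [Algebra (ZMod p) F] (l : (ZMod p)[X]) : F[X] :=
  ∑ i ∈ Finset.range (l.natDegree + 1), C (algebraMap (ZMod p) F (l.coeff i)) * X ^ (p ^ i)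

theorem eval_addP (l : (ZMod p)[X]) (y : F) : (addP F l).eval y = lin p l y := by
  rw [lin_eq_sum, addP, eval_finsetSum]
  simp

theorem addP_ne_zero {l : (ZMod p)[X]} (hl : l ≠ 0) : addP F l ≠ 0 := by
  intro h
  have hp : 1 < p := (Fact.out : p.Prime).one_lt
  have h1 : (addP F l).coeff (p ^ l.natDegree) = algebraMap (ZMod p) F l.leadingCoeff := by
    rw [addP, finsetSum_coeff]
    simp only [coeff_C_mul, coeff_X_pow]
    rw [Finset.sum_eq_single l.natDegree]
    · simp
    · intro b _ hb
      rw [if_neg, mul_zero]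
      intro hc
      exact hb (Nat.pow_right_injective hp hc).symm
    · intro hb
      exact absurd (Finset.mem_range.2 (Nat.lt_succ_self _)) hb
  rw [h, coeff_zero] at h1
  have h2 := (map_eq_zero_iff _ (algebraMap (ZMod p) F).injective).1 h1.symm
  exact hl (leadingCoeff_eq_zero.1 h2)

theorem natDegree_addP_le (l : (ZMod p)[X]) : (addP F l).natDegree ≤ p ^ l.natDegree := by
  have hp : 1 < p := (Fact.out : p.Prime).one_lt
  rw [addP]
  refine natDegree_sum_le_of_forall_le _ _ fun i hi => ?_
  refine (natDegree_C_mul_X_pow_le _ _).trans ?_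
  exact Nat.pow_le_pow_right hp.le (Nat.lt_succ_iff.1 (Finset.mem_range.1 hi))

theorem ker_finite {l : (ZMod p)[X]} (hl : l ≠ 0) : {y : F | lin p l y = 0}.Finite := by
  have : {y : F | lin p l y = 0} = {y : F | (addP F l).IsRoot y} := by
    ext y
    simp [IsRoot, eval_addP]
  rw [this]
  exact Polynomial.finite_setOfPred_isRoot (addP_ne_zero hl)

theorem ker_ncard_le {l : (ZMod p)[X]} (hl : l ≠ 0) :
    {y : F | lin p l y = 0}.ncard ≤ p ^ l.natDegree := by
  classical
  have : {y : F | lin p l y = 0} = ((addP F l).roots.toFinset : Set F) := by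
    ext y
    simp [IsRoot, eval_addP, addP_ne_zero hl]
  rw [this, Set.ncard_coe_finset]
  exact (Multiset.toFinset_card_le _).trans ((card_roots' _).trans (natDegree_addP_le l))

/-- `v` in the kernel of the annihilator of `h` is in the cyclic module of `h`. -/
theorem cyc {h v : F} {b : (ZMod p)[X]} (hb0 : b ≠ 0)
    (hb : ∀ f : (ZMod p)[X], lin p f h = 0 ↔ b ∣ f) (hv : lin p b v = 0) :
    ∃ κ : (ZMod p)[X], v = lin p κ h := by
  classical
  set n := b.natDegree with hn
  -- the map from polynomials of degree < n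
  let g : degreeLT (ZMod p) n → F := fun κ => lin p κ.1 h
  have hg : Function.Injective g := by
    intro κ κ' hk
    have h1 : lin p (κ.1 - κ'.1) h = 0 := by
      rw [lin_sub]
      exact sub_eq_zero.2 hk
    have h2 := (hb _).1 h1
    by_contra hne
    have h3 : κ.1 - κ'.1 ≠ 0 := sub_ne_zero.2 fun h => hne (Subtype.ext h)
    have h4 := degree_le_of_dvd h2 h3
    have h5 : (κ.1 - κ'.1).degree < n := mem_degreeLT.1 (Submodule.sub_mem _ κ.2 κ'.2)
    rw [degree_eq_natDegree hb0] at h4
    exact absurd (h4.trans_lt h5) (lt_irrefl _)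
  have hcard : Nat.card (degreeLT (ZMod p) n) = p ^ n := by
    rw [Nat.card_congr (degreeLTEquiv (ZMod p) n).toEquiv]
    simp
  have hfin : Finite (degreeLT (ZMod p) n) := Nat.finite_of_card_ne_zero (by
    rw [hcard]
    exact pow_ne_zero _ (Fact.out : p.Prime).ne_zero)
  have hsub : Set.range g ⊆ {y : F | lin p b y = 0} := by
    rintro _ ⟨κ, rfl⟩
    change lin p b (lin p κ.1 h) = 0
    rw [lin_comm, (hb b).2 dvd_rfl, map_zero]
  have heq : Set.range g = {y : F | lin p b y = 0} := by
    refine Set.eq_of_subset_of_ncard_le hsub ?_ (ker_finite hb0)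
    rw [← Set.image_univ, Set.ncard_image_of_injective _ hg, Set.ncard_univ, hcard]
    exact ker_ncard_le hb0
  have : v ∈ Set.range g := by
    rw [heq]
    exact hv
  obtain ⟨κ, hκ⟩ := this
  exact ⟨κ.1, hκ.symm⟩

/-- Existence of the annihilator. -/
theorem exists_ann (h : F) (f : (ZMod p)[X]) (hf : f ≠ 0) (hfh : lin p f h = 0) :
    ∃ b : (ZMod p)[X], b ≠ 0 ∧ ∀ f : (ZMod p)[X], lin p f h = 0 ↔ b ∣ f := by
  let I : Ideal (ZMod p)[X] :=
    { carrier := {f | lin p f h = 0}
      add_mem' := by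
        intro a b ha hb
        change lin p _ _ = 0
        rw [lin_add]
        rw [show lin p a h = 0 from ha, show lin p b h = 0 from hb, add_zero]
      zero_mem' := lin_zero h
      smul_mem' := by
        intro c x hx
        change lin p (c * x) h = 0
        rw [lin_mul, show lin p x h = 0 from hx, map_zero] }
  obtain ⟨b, hb⟩ := (IsPrincipalIdealRing.principal I).principal
  have hb' : ∀ f : (ZMod p)[X], lin p f h = 0 ↔ b ∣ f := by
    intro f
    have : f ∈ I ↔ b ∣ f := by
      rw [hb]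
      exact Ideal.mem_span_singleton
    exact this
  refine ⟨b, ?_, hb'⟩
  rintro rfl
  exact hf (zero_dvd_iff.1 ((hb' f).1 hfh))

end

end MP7K.Lin
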