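import Pool.Agent.Lib.MP_7f581e_K.Spec1
import Pool.Agent.Lib.MP_7f581e_K.Lin

/-!
# C33 (MP_7f581e_nt), module D2: consequence of the trace lemma
-/

set_option autoImplicit false

namespace MP7K.D2

open Polynomial Finset MP7K.Lin

section

variable {p : ℕ} [Fact p.Prime] {F : Type} [Field F] [Algebra (ZMod p) F]

theorem exists_alg {y : F} (hy : y ^ p = y) : ∃ c : ZMod p, algebraMap (ZMod p) F c = y := by
  classical
  have hp : 1 < p := (Fact.out : p.Prime).one_lt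
  have hX : (X ^ p - X : F[X]) ≠ 0 := FiniteField.X_pow_card_sub_X_ne_zero F hp
  have hdeg : (X ^ p - X : F[X]).natDegree = p := FiniteField.X_pow_card_sub_X_natDegree_eq F hp
  have h1 : (Finset.univ.image (algebraMap (ZMod p) F)) ⊆ (X ^ p - X : F[X]).roots.toFinset := by
    intro z hz
    obtain ⟨c, -, rfl⟩ := Finset.mem_image.1 hz
    rw [Multiset.mem_toFinset, mem_roots hX]
    simp only [IsRoot, eval_sub, eval_pow, eval_X]
    rw [← map_pow, ZMod.pow_card, sub_self]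
  have h2 : (X ^ p - X : F[X]).roots.toFinset.card ≤
      (Finset.univ.image (algebraMap (ZMod p) F)).card := by
    rw [Finset.card_image_of_injective _ (algebraMap (ZMod p) F).injective, Finset.card_univ,
      ZMod.card]
    refine (Multiset.toFinset_card_le _).trans ((card_roots' _).trans ?_)
    rw [hdeg]
  have h3 := Finset.eq_of_subset_of_card_le h1 h2
  have h4 : y ∈ (X ^ p - X : F[X]).roots.toFinset := by
    rw [Multiset.mem_toFinset, mem_roots hX]
    simp [IsRoot, hy]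
  rw [← h3] at h4
  obtain ⟨c, -, hc⟩ := Finset.mem_image.1 h4
  exact ⟨c, hc⟩

/-- The last nonzero power. -/
theorem exists_last (W : (ZMod p)[X]) (y : F) (n e : ℕ) (h1 : lin p (W ^ n) y ≠ 0)
    (h2 : lin p (W ^ e) y = 0) :
    ∃ k, lin p (W ^ (k + n)) y ≠ 0 ∧ lin p (W ^ (k + n + 1)) y = 0 := by
  classical
  have hex : ∃ j, lin p (W ^ (n + j)) y = 0 := ⟨e, by rw [pow_add, lin_mul, h2, map_zero]⟩
  have h3 := Nat.find_spec hex
  have h4 : Nat.find hex ≠ 0 := by
    intro h0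
    rw [h0] at h3
    exact h1 h3
  obtain ⟨k, hk⟩ := Nat.exists_eq_succ_of_ne_zero h4
  refine ⟨k, ?_, ?_⟩
  · have := Nat.find_min hex (m := k) (by omega)
    rwa [add_comm n k] at this
  · rw [hk] at h3
    rwa [show k + n + 1 = n + k.succ by omega]

theorem W_pow (m e : ℕ) : ((X : (ZMod p)[X]) ^ m - 1) ^ (p ^ e) = X ^ (p ^ e * m) - 1 := by
  rw [pow_pPow_eq_expand, map_sub, map_pow, expand_X, map_one, ← pow_mul]

end

end MP7K.D2

namespace MP7K

open Polynomial Finset MP7K.Lin MP7K.D2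

/-- **D2.** -/
theorem kD2 (hPi : KStmtPi) : KStmtD2 := by
  intro p _ F _ _ _ _ hA hB m S hm hmp hS x hx hne t ht
  have hp : p.Prime := Fact.out
  set N₁ := p ^ (S - 1) with hN₁
  set q : (ZMod p)[X] := ∑ i ∈ range m, X ^ (p ^ S * i) with hq
  have hqx : ∑ i ∈ range m, x ^ (p ^ (p ^ S * i)) = lin p q x := by
    rw [hq, lin_sum]
    exact Finset.sum_congr rfl fun i _ => (lin_X_pow _ _).symm
  rw [hqx] at hne
  set x' := lin p q x with hx'
  have hgeo : (X ^ (p ^ S) - 1 : (ZMod p)[X]) * q = X ^ (p ^ S * m) - 1 := by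
    have := mul_geom_sum (X ^ (p ^ S) : (ZMod p)[X]) m
    rw [← pow_mul] at this
    rw [← this, hq]
    congr 1
    exact Finset.sum_congr rfl fun i _ => by rw [pow_mul]
  have hkill : lin p (X ^ (p ^ S) - 1) x' = 0 := by
    rw [hx', ← lin_mul, hgeo, lin_X_pow_sub, (dg_dvd_iff x _).1 hx, sub_self]
  have hfix : x' ^ (p ^ (p ^ S)) = x' := by
    rw [lin_X_pow_sub] at hkill
    exact sub_eq_zero.1 hkill
  have hdvd : dg p x' ∣ p ^ S := (dg_dvd_iff x' _).2 hfix
  have hndvd : ¬ dg p x' ∣ p ^ (S - 1) := fun h => hne ((dg_dvd_iff x' _).1 h)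
  have hdg : dg p x' = p ^ S := by
    obtain ⟨a, ha, hda⟩ := (Nat.dvd_prime_pow hp).1 hdvd
    rcases Nat.lt_or_ge a S with h | h
    · exact absurd (by rw [hda]; exact pow_dvd_pow p (by omega)) hndvd
    · rw [hda, le_antisymm ha h]
  set W : (ZMod p)[X] := X ^ m - 1 with hW
  have h1 : lin p (W ^ N₁) x' ≠ 0 := by
    rw [hW, hN₁, W_pow, lin_X_pow_sub]
    intro h
    have h2 := (dg_dvd_iff x' _).2 (sub_eq_zero.1 h)
    rw [hdg] at h2
    obtain ⟨S', rfl⟩ : ∃ S', S = S' + 1 := ⟨S - 1, by omega⟩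
    rw [Nat.add_sub_cancel, pow_succ] at h2
    have h3 := Nat.dvd_of_mul_dvd_mul_left (pow_pos hp.pos S') h2
    exact hp.one_lt.ne' (Nat.Coprime.eq_one_of_dvd hmp.symm h3)
  have h2 : lin p (W ^ (p ^ S)) x' = 0 := by
    rw [hW, W_pow, lin_X_pow_sub, (dg_dvd_iff x' _).1 (by rw [hdg]; exact dvd_mul_right _ _),
      sub_self]
  obtain ⟨k, hk1, hk2⟩ := exists_last W x' N₁ (p ^ S) h1 h2
  set h' := lin p (W ^ (k + N₁)) x' with hh'
  have hdm : dg p h' ∣ m := by
    rw [dg_dvd_iff]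
    rw [pow_succ', lin_mul, ← hh', hW, lin_X_pow_sub] at hk2
    exact sub_eq_zero.1 hk2
  have hdp : dg p h' ∣ p ^ S := by
    rw [dg_dvd_iff]
    have : lin p (X ^ (p ^ S) - 1) h' = 0 := by
      rw [hh', lin_comm, hkill, map_zero]
    rw [lin_X_pow_sub] at this
    exact sub_eq_zero.1 this
  have hd1 : dg p h' = 1 := Nat.eq_one_of_dvd_coprimes (Nat.Coprime.pow_right S hmp) hdm hdp
  have hrat : h' ^ p = h' := by
    have := (dg_dvd_iff h' 1).1 (by rw [hd1])
    rwa [pow_one] at this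
  obtain ⟨c, hc⟩ := exists_alg hrat
  have hc0 : c ≠ 0 := by
    rintro rfl
    rw [map_zero] at hc
    exact hk1 hc.symm
  obtain ⟨κ, hκ⟩ := hPi p F hA hB m S (S - 1) k hm hmp x'
    (by rw [hdg]; exact dvd_mul_right _ _) hk1 hk2 t ht
  refine ⟨C c⁻¹ * κ * q, ?_⟩
  have h5 : lin p (W * (C c⁻¹ * κ * q)) x = algebraMap (ZMod p) F c⁻¹ * lin p (W * κ) x' := by
    rw [show W * (C c⁻¹ * κ * q) = C c⁻¹ * (W * κ) * q by ring, lin_mul _ q, ← hx', lin_C_mul]
  rw [h5, ← hκ]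
  change t = algebraMap (ZMod p) F c⁻¹ * (t * h')
  rw [← hc]
  have h6 : algebraMap (ZMod p) F c⁻¹ * algebraMap (ZMod p) F c = 1 := by
    rw [← map_mul, inv_mul_cancel₀ hc0, map_one]
  calc t = t * 1 := (mul_one t).symm
    _ = t * (algebraMap (ZMod p) F c⁻¹ * algebraMap (ZMod p) F c) := by rw [h6]
    _ = _ := by ring

end MP7K
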