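import Mathlib

/-!
# C33 (MP_7f581e_nt), closure theorem: basic definitions

`TEXT.md` contains the complete proof.  `F` is an algebraic closure of `ZMod p`.  Words are lists of
atoms; the word `[a₁, a₂, ...]` is the rational function `a₁ ∘ a₂ ∘ ...`.
-/

set_option autoImplicit false

namespace MP7K

open Polynomial

/-- The building blocks of our rational functions. -/
inductive Atom (p : ℕ) : Type
  | tr (c : ZMod p)
  | inv
  | pow (n : ℕ)
  | add (l : (ZMod p)[X])

/-- The admissible atoms: `y + c`, `1 / y`, `y ^ n` with `n` prime to `p`, additive polynomials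
which are separable. -/
def Atom.Ok {p : ℕ} : Atom p → Prop
  | .tr _ => True
  | .inv => True
  | .pow n => n.Coprime p
  | .add l => l.coeff 0 ≠ 0

/-- All the atoms of the word are admissible. -/
def OkW {p : ℕ} (w : List (Atom p)) : Prop := ∀ a ∈ w, a.Ok

section

variable (p : ℕ) [Fact p.Prime] (E : Type) [Field E] [Algebra (ZMod p) E]

/-- The Frobenius map `y ↦ y ^ p` as a linear map. -/
def fr : E →ₗ[ZMod p] E where
  toFun y := y ^ p
  map_add' a b := by
    have : CharP E p := charP_of_injective_algebraMap (algebraMap (ZMod p) E).injective p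
    exact add_pow_char a b p
  map_smul' c a := by
    rw [Algebra.smul_def, mul_pow, ← map_pow, ZMod.pow_card, ← Algebra.smul_def]
    rfl

@[simp] theorem fr_apply (y : E) : fr p E y = y ^ p := rfl

variable {E}

/-- The additive polynomial `l(F)`: `lin p l y = ∑ lᵢ y ^ (p ^ i)`. -/
noncomputable def lin (l : (ZMod p)[X]) : E →ₗ[ZMod p] E := aeval (fr p E) l

/-- The degree over `𝔽_p`: the minimal period under Frobenius. -/
noncomputable def dg (y : E) : ℕ := Function.minimalPeriod (fun z : E => z ^ p) y

end

section

variable {p : ℕ} [Fact p.Prime] {E : Type} [Field E] [Algebra (ZMod p) E]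

/-- Evaluation of an atom in a field (with `1 / 0 = 0`). -/
noncomputable def Atom.ev : Atom p → E → E
  | .tr c, y => y + algebraMap (ZMod p) E c
  | .inv, y => y⁻¹
  | .pow n, y => y ^ n
  | .add l, y => lin p l y

/-- Evaluation of a word. -/
noncomputable def ev : List (Atom p) → E → E
  | [], y => y
  | a :: w, y => a.ev (ev w y)

@[simp] theorem ev_nil (y : E) : ev (p := p) [] y = y := rfl

@[simp] theorem ev_cons (a : Atom p) (w : List (Atom p)) (y : E) :
    ev (a :: w) y = a.ev (ev w y) := rfl

theorem ev_append (v w : List (Atom p)) (y : E) : ev (v ++ w) y = ev v (ev w y) := by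
  induction v with
  | nil => rfl
  | cons a v ih => simp only [List.cons_append, ev_cons, ih]

open Classical in
/-- Evaluation of an atom on the projective line (`none` is the point at infinity). -/
noncomputable def Atom.evP : Atom p → Option E → Option E
  | .tr _, none => none
  | .tr c, some y => some (y + algebraMap (ZMod p) E c)
  | .inv, none => some 0
  | .inv, some y => if y = 0 then none else some y⁻¹
  | .pow _, none => none
  | .pow n, some y => some (y ^ n)
  | .add _, none => none
  | .add l, some y => some (lin p l y)

open Classical in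
/-- The ramification index of an atom at a point of the projective line. -/
noncomputable def Atom.mult : Atom p → Option E → ℕ
  | .tr _, _ => 1
  | .inv, _ => 1
  | .pow n, none => n
  | .pow n, some y => if y = 0 then n else 1
  | .add l, none => p ^ l.natDegree
  | .add _, some _ => 1

/-- Evaluation of a word on the projective line. -/
noncomputable def evP : List (Atom p) → Option E → Option E
  | [], y => y
  | a :: w, y => a.evP (evP w y)

/-- The ramification index of a word at a point of the projective line. -/
noncomputable def multW : List (Atom p) → Option E → ℕ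
  | [], _ => 1
  | a :: w, y => a.mult (evP w y) * multW w y

theorem evP_append (v w : List (Atom p)) (y : Option E) : evP (v ++ w) y = evP v (evP w y) := by
  induction v with
  | nil => rfl
  | cons a v ih =>
    change a.evP (evP (v ++ w) y) = a.evP (evP v (evP w y))
    rw [ih]

theorem multW_append (v w : List (Atom p)) (y : Option E) :
    multW (v ++ w) y = multW v (evP w y) * multW w y := by
  induction v with
  | nil => exact (one_mul _).symm
  | cons a v ih =>
    change a.mult (evP (v ++ w) y) * multW (v ++ w) y = a.mult (evP v (evP w y)) * _ * _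
    rw [ih, evP_append, mul_assoc]

/-- The degree of a point of the projective line. -/
noncomputable def dgP (p : ℕ) [Fact p.Prime] {E : Type} [Field E] [Algebra (ZMod p) E] :
    Option E → ℕ
  | none => 1
  | some y => dg p y

/-- There is a word `w` such that all points above `B` have relative degree divisible by `s`. -/
def Mul (p : ℕ) [Fact p.Prime] {E : Type} [Field E] [Algebra (ZMod p) E] (s : ℕ)
    (B : Set E) : Prop :=
  ∃ w : List (Atom p), OkW w ∧ ∀ y : E, ev w y ∈ B → s * dg p (ev w y) ∣ dg p y

end

/-- **Theorem P.** -/
def TheoremP : Prop :=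
  ∀ (p : ℕ) [Fact p.Prime] (F : Type) [Field F] [Algebra (ZMod p) F] [IsAlgClosed F]
    [Algebra.IsAlgebraic (ZMod p) F] (r : ℕ), r.Prime →
    ∀ B : Set F, B.Finite → (∀ b ∈ B, b ^ p ≠ b) → Mul p r B

/-- **Lemma A.** -/
def LemmaA : Prop :=
  ∀ (p : ℕ) [Fact p.Prime] (F : Type) [Field F] [Algebra (ZMod p) F] [IsAlgClosed F]
    [Algebra.IsAlgebraic (ZMod p) F] (r : ℕ), r.Prime → r ≠ p →
    ∀ B : Set (Option F), B.Finite → ∀ N : ℕ, ∃ w : List (Atom p), OkW w ∧
      ∀ y : Option F, evP w y ∈ B → r ^ N ∣ multW w y ∨ r ^ N ∣ dgP p y

end MP7K
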