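import Pool.Agent.Lib.MP_7f581e_K.Defs
import Pool.Agent.Lib.MP_7f581e_Z.CS.SpecB

/-!
# C33 (MP_7f581e_nt), Parts II to IV: realizations, ramification at points, the condition (RD)

`Ω`, `IsStage`, `Cst`, `Gx`, `FinLevel`, `Inert` are as in `MP_7f581e_Z/Interface.lean`; `geo` (the
automorphisms which fix the constants) is in `MP_7f581e_Z/CS/SpecB.lean`.
-/

set_option autoImplicit false

namespace MP7K

open MP7Z

section

variable {p : ℕ} [Fact p.Prime] {Ω : Type} [Field Ω] [Algebra (ZMod p) Ω]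

/-- Restriction of a homomorphism from `Gx p x` to `Gx p y`. -/
def rs {x y : Ω} {G : Type} [Group G] (h : Gx p y ≤ Gx p x) (ψ : Gx p x →* G) : Gx p y →* G :=
  ψ.comp (Subgroup.inclusion h)

@[simp] theorem rs_apply {x y : Ω} {G : Type} [Group G] (h : Gx p y ≤ Gx p x) (ψ : Gx p x →* G)
    (γ : Ω ≃ₐ[ZMod p] Ω) (hγ : γ ∈ Gx p y) : rs h ψ ⟨γ, hγ⟩ = ψ ⟨γ, h hγ⟩ := rfl

theorem rs_rs {x y z : Ω} {G : Type} [Group G] (h : Gx p y ≤ Gx p x) (h' : Gx p z ≤ Gx p y)
    (ψ : Gx p x →* G) : rs h' (rs h ψ) = rs (h'.trans h) ψ := rfl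

theorem rs_self {x : Ω} {G : Type} [Group G] (h : Gx p x ≤ Gx p x) (ψ : Gx p x →* G) :
    rs h ψ = ψ := rfl

/-- A realization of `G` over `𝔽_p(x)`: a homomorphism of finite level from the absolute Galois
group of `𝔽_p(x)`, which maps the geometric Galois group onto `G`. -/
structure Rz (p : ℕ) [Fact p.Prime] {Ω : Type} [Field Ω] [Algebra (ZMod p) Ω] (x : Ω)
    {G : Type} [Group G] (ψ : Gx p x →* G) : Prop where
  stage : IsStage p x
  fin : FinLevel ψ
  reg : ∀ g : G, ∃ γ : Gx p x, (γ : Ω ≃ₐ[ZMod p] Ω) ∈ geo p Ω ∧ ψ γ = g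

/-- `V` lies over the point `c` of the projective line over the constants with coordinate `x`
(`none` is the point at infinity). -/
def Ov (p : ℕ) [Fact p.Prime] {Ω : Type} [Field Ω] [Algebra (ZMod p) Ω] (V : ValuationSubring Ω)
    (x : Ω) : Option Ω → Prop
  | none => x ∉ V
  | some c => c ∈ Cst p Ω ∧ V.valuation (x - c) < 1

theorem Ov_none {V : ValuationSubring Ω} {x : Ω} : Ov p V x none ↔ x ∉ V := Iff.rfl

theorem Ov_some {V : ValuationSubring Ω} {x c : Ω} :
    Ov p V x (some c) ↔ c ∈ Cst p Ω ∧ V.valuation (x - c) < 1 := Iff.rfl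

/-- `ψ` is ramified outside `N` at the point `c`: some element of an inertia group over `c` is not
mapped into `N`. -/
def RamAt (p : ℕ) [Fact p.Prime] {Ω : Type} [Field Ω] [Algebra (ZMod p) Ω] (x : Ω)
    {G : Type} [Group G] (ψ : Gx p x →* G) (N : Subgroup G) (c : Option Ω) : Prop :=
  ∃ V : ValuationSubring Ω, V ≠ ⊤ ∧ Ov p V x c ∧
    ∃ γ : Gx p x, (γ : Ω ≃ₐ[ZMod p] Ω) ∈ Inert p V ∧ ψ γ ∉ N

/-- **(RD)**: a realization such that for every normal subgroup `N` of prime index there is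
ramification outside `N` at a nonrational point. -/
structure RD (p : ℕ) [Fact p.Prime] {Ω : Type} [Field Ω] [Algebra (ZMod p) Ω] (x : Ω)
    {G : Type} [Group G] (ψ : Gx p x →* G) : Prop extends Rz p x ψ where
  ram : ∀ N : Subgroup G, N.Normal → N.index.Prime →
    ∃ c : Ω, c ^ p ≠ c ∧ RamAt p x ψ N (some c)

end

end MP7K
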