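import Pool.Agent.Lib.MP_7f581e_K.Defs2
import Pool.Agent.Lib.MP_7f581e_Z.BR.Spec

/-!
# C33: the statements that connect Parts II, III and IV

`Ω` is a separable closure of `𝔽_p(x)` (`IsStage p x`), `Gx p x` the absolute Galois group of
`𝔽_p(x)`, `geo p Ω` the automorphisms fixing the constants `Cst p Ω`; `Rz`, `RD`, `rs` are in
`Defs2.lean`.
-/

set_option autoImplicit false

namespace MP7K

open MP7Z

/-- **(II.0)+(II.1)** Base change by a word: there is a root `y` of `w(y) = x`, and (RD) is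
preserved. -/
def BaseW : Prop :=
  ∀ (p : ℕ) [Fact p.Prime] (Ω : Type) [Field Ω] [Algebra (ZMod p) Ω] (x : Ω), IsStage p x →
    ∀ w : List (Atom p), OkW w → ∃ y : Ω, ev w y = x ∧ IsStage p y ∧ ∃ hle : Gx p y ≤ Gx p x,
      ∀ (G : Type) [Group G] [Finite G] (ψ : Gx p x →* G), RD p x ψ → RD p y (rs hle ψ)

/-- **(II.2)** Every regular realization acquires (RD) after a base change. -/
def StartW : Prop :=
  ∀ (p : ℕ) [Fact p.Prime] (Ω : Type) [Field Ω] [Algebra (ZMod p) Ω] (x : Ω)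
    (G : Type) [Group G] [Finite G] (ψ : Gx p x →* G), Rz p x ψ →
      ∃ y : Ω, ∃ hle : Gx p y ≤ Gx p x, RD p y (rs hle ψ)

/-- **(III.2)** The weak solution of an embedding problem with elementary abelian kernel. -/
def WeakW : Prop :=
  ∀ (p : ℕ) [Fact p.Prime] (Ω : Type) [Field Ω] [Algebra (ZMod p) Ω] (x : Ω) (G : Type) [Group G]
    [Finite G] (ψ : Gx p x →* G), RD p x ψ →
  ∀ (E : Type) [Group E] [Finite E] (f : E →* G), Function.Surjective f →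
  ∀ (ℓ : ℕ), ℓ.Prime → ℓ ≠ p → (∀ a ∈ f.ker, a ^ ℓ = 1) →
    (∀ a ∈ f.ker, ∀ b ∈ f.ker, a * b = b * a) →
  ∃ (y : Ω) (hle : Gx p y ≤ Gx p x), RD p y (rs hle ψ) ∧
    ∃ ψ' : Gx p y →* E, FinLevel ψ' ∧
      ∀ (γ : Ω ≃ₐ[ZMod p] Ω) (h' : γ ∈ Gx p y) (h : γ ∈ Gx p x), f (ψ' ⟨γ, h'⟩) = ψ ⟨γ, h⟩

end MP7K
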