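import Pool.Agent.Lib.MP_7f581e_K.Spec1

/-!
# C33 (MP_7f581e_nt), module K/Ex (task 8873): the number of exceptions
-/

set_option autoImplicit false

namespace MP7K

open Polynomial Finset

namespace KExAux

open Classical in
/-- the second kind of exceptions is small -/
lemma second {p : ℕ} [Fact p.Prime] {F : Type} [Field F] [Algebra (ZMod p) F]
    (hA : FactsA p F) (hB : FactsB p F) (m S : ℕ) (hm : 0 < m) (hmp : m.Coprime p) :
    {y : F | ∃ h : F, h ≠ 0 ∧ h ^ (p ^ m) = h ∧ ∃ s : ℕ, s.Prime ∧ s ∣ m ∧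
        dg p (y / h) ∣ (p ^ S * m) / s}.Finite ∧
    {y : F | ∃ h : F, h ≠ 0 ∧ h ^ (p ^ m) = h ∧ ∃ s : ℕ, s.Prime ∧ s ∣ m ∧
        dg p (y / h) ∣ (p ^ S * m) / s}.ncard ≤
      m * p ^ m * p ^ ((p ^ S * m) / (if p = 2 then 3 else 2)) := by
  have hp : p.Prime := Fact.out
  have hp0 : 0 < p := hp.pos
  have hD : 0 < p ^ S * m := Nat.mul_pos (pow_pos hp0 S) hm
  have hDs : ∀ s : ℕ, s ∣ m → 0 < s → 0 < (p ^ S * m) / s := by
    intro s hs hs0
    exact Nat.div_pos (Nat.le_of_dvd hD (hs.trans (dvd_mul_left _ _))) hs0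
  -- the finite sets
  let Km : Finset F := (hB.finK m hm).toFinset
  let Ks : ℕ → Finset F := fun s =>
    if h : 0 < (p ^ S * m) / s then (hB.finK _ h).toFinset else ∅
  let T : Finset F := m.primeFactors.biUnion (fun s => (Km ×ˢ Ks s).image (fun z => z.1 * z.2))
  have hsub : {y : F | ∃ h : F, h ≠ 0 ∧ h ^ (p ^ m) = h ∧ ∃ s : ℕ, s.Prime ∧ s ∣ m ∧
      dg p (y / h) ∣ (p ^ S * m) / s} ⊆ (T : Set F) := by
    rintro y ⟨h, h0, hh, s, hs, hsm, hd⟩
    have hpos := hDs s hsm hs.pos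
    rw [Finset.mem_coe, Finset.mem_biUnion]
    refine ⟨s, Nat.mem_primeFactors.mpr ⟨hs, hsm, hm.ne'⟩, ?_⟩
    rw [Finset.mem_image]
    refine ⟨(h, y / h), ?_, mul_div_cancel₀ y h0⟩
    rw [Finset.mem_product]
    refine ⟨(hB.finK m hm).mem_toFinset.mpr hh, ?_⟩
    show y / h ∈ Ks s
    have e : Ks s = (hB.finK _ hpos).toFinset := dif_pos hpos
    rw [e]
    exact (hB.finK _ hpos).mem_toFinset.mpr ((hA.pow_eq (y / h) _).mpr hd)
  refine ⟨T.finite_toSet.subset hsub, ?_⟩
  refine (Set.ncard_le_ncard hsub T.finite_toSet).trans ?_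
  rw [Set.ncard_coe_finset]
  have hKm : Km.card = p ^ m := by
    rw [← hB.cardK m hm]
    exact (Set.ncard_eq_toFinset_card _ (hB.finK m hm)).symm
  have ha : 0 < (if p = 2 then 3 else 2) := by split_ifs <;> norm_num
  have hone : ∀ s ∈ m.primeFactors, ((Km ×ˢ Ks s).image (fun z => z.1 * z.2)).card ≤
      p ^ m * p ^ ((p ^ S * m) / (if p = 2 then 3 else 2)) := by
    intro s hs
    rw [Nat.mem_primeFactors] at hs
    obtain ⟨hs1, hs2, -⟩ := hs
    have hpos := hDs s hs2 hs1.pos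
    have has : (if p = 2 then 3 else 2) ≤ s := by
      split_ifs with h2
      · have hs3 : s ≠ 2 := by
          rintro rfl
          have : Nat.Coprime 2 p := Nat.Coprime.coprime_dvd_left hs2 hmp
          rw [h2] at this
          exact absurd this (by decide)
        have := hs1.two_le
        omega
      · exact hs1.two_le
    have e : Ks s = (hB.finK _ hpos).toFinset := dif_pos hpos
    have hKs : (Ks s).card = p ^ ((p ^ S * m) / s) := by
      rw [e]
      exact (Set.ncard_eq_toFinset_card _ (hB.finK _ hpos)).symm.trans (hB.cardK _ hpos)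
    refine Finset.card_image_le.trans ?_
    rw [Finset.card_product, hKm, hKs]
    apply Nat.mul_le_mul_left
    exact Nat.pow_le_pow_right hp0 (Nat.div_le_div_left has ha)
  refine Finset.card_biUnion_le.trans ?_
  refine (Finset.sum_le_sum hone).trans ?_
  rw [Finset.sum_const, smul_eq_mul, mul_assoc]
  apply Nat.mul_le_mul_right
  have hsubs : m.primeFactors ⊆ Finset.Icc 1 m := by
    intro s hs
    rw [Nat.mem_primeFactors] at hs
    rw [Finset.mem_Icc]
    exact ⟨hs.1.one_le, Nat.le_of_dvd hm hs.2.1⟩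
  have := Finset.card_le_card hsubs
  rw [Nat.card_Icc] at this
  omega

end KExAux

open KExAux in
theorem kEx : KStmtEx := by
  intro p _ F _ _ _ _ hA hB m S D₀ n hR hn hn0 P hP hPD
  obtain ⟨hm, hmp, -, -, -⟩ := hR
  have hp : p.Prime := Fact.out
  have hp0 : 0 < p := hp.pos
  have hD : 0 < p ^ S * m := Nat.mul_pos (pow_pos hp0 S) hm
  have hg : 0 < (p ^ S * m) / n := Nat.div_pos (Nat.le_of_dvd hD hn) hn0
  set g := (p ^ S * m) / n with hgdef
  set l : (ZMod p)[X] := (X ^ m - 1) ^ (p ^ (S - 4)) * P.comp (X ^ g) with hl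
  have hW : ((X : (ZMod p)[X]) ^ m - 1).Monic := by
    have := monic_X_pow_sub_C (1 : ZMod p) hm.ne'
    rwa [C_1] at this
  have hPc : (P.comp (X ^ g)).Monic := by
    apply hP.comp (monic_X_pow g)
    rw [natDegree_X_pow]
    exact hg.ne'
  have hlm : l.Monic := (hW.pow _).mul hPc
  have hdeg : l.natDegree ≤ p ^ (S - 4) * m + D₀ * g := by
    rw [hl]
    refine natDegree_mul_le.trans ?_
    apply Nat.add_le_add
    · rw [hW.natDegree_pow]
      apply Nat.mul_le_mul_left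
      have := natDegree_X_pow_sub_C (R := ZMod p) (n := m) (r := 1)
      rw [C_1] at this
      exact this.le
    · rw [natDegree_comp, natDegree_X_pow]
      exact Nat.mul_le_mul_right _ hPD
  obtain ⟨hfin, hcard⟩ := second (F := F) hA hB m S hm hmp
  have hsub : {y : F | dg p y = p ^ S * m ∧ (lin p l y = 0 ∨
        ∃ h : F, h ≠ 0 ∧ h ^ (p ^ m) = h ∧ ∃ s : ℕ, s.Prime ∧ s ∣ m ∧
          dg p (y / h) ∣ (p ^ S * m) / s)} ⊆
      {y : F | lin p l y = 0} ∪ {y : F | ∃ h : F, h ≠ 0 ∧ h ^ (p ^ m) = h ∧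
        ∃ s : ℕ, s.Prime ∧ s ∣ m ∧ dg p (y / h) ∣ (p ^ S * m) / s} := by
    rintro y ⟨-, h | h⟩
    · exact Or.inl h
    · exact Or.inr h
  refine (Set.ncard_le_ncard hsub ((hB.finKer l hlm.ne_zero).union hfin)).trans ?_
  refine (Set.ncard_union_le _ _).trans ?_
  apply Nat.add_le_add _ hcard
  exact (hB.cardKer l hlm.ne_zero).trans (Nat.pow_le_pow_right hp0 hdeg)

end MP7K
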