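import Pool.Agent.Lib.MP_7f581e_K.DefsG
import Pool.Agent.Lib.MP_7f581e_ntR.Defs

/-!
# C33 (MP_7f581e_nt), Part V: simple groups with a GA realisation

Goal (`G5/Main.lean`, helper89): if `E → G` is a surjective homomorphism of finite groups whose
kernel is a power of a simple group with a GA realisation over `𝔽_p(t)`, and `G` occurs regularly
over `𝔽_p(X)`, then so does `E`.  The following statements are independent Lean tasks: file
`MP_7f581e_K/G5/X.lean`, import this file (and the files named in the docstring), `theorem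
MP7K.g5X : XStmt`.
-/

set_option autoImplicit false

namespace MP7K.G5

open Polynomial

/-- **Twist.** (150 lines)  *Model*: `exists_twisted_field_mul` in `MP_7f581e_ntA/TwistMul.lean` (import
`MP_7f581e_ntA/Twist.lean`); there `R g` is a monomial matrix with entries `±1`.

*Proof.*  For `c : M`, `i : I` let `b(c,i) : I → M`, `b(c,i)_j = ∑_h (R h)_{j i} h(c)`.  Then
`∑_l (R g)_{j l} g(b(c,i)_l) = ∑_h (R g R h)_{j i} (g h)(c) = b(c,i)_j` (the entries of `R` are in `K`).  The vectors `b(c,i)`
span `I → M` over `M`: a functional `f` which kills all of them satisfies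
`∑_h (∑_j (R h)_{j i} f(e_j)) h(c) = 0` for all `c`, so by Dedekind (`linearIndependent_monoidHom`) the coefficient for `h = 1`
is zero: `f(e_i) = 0`.  So there is an `M`-basis `β_i` (`i : I`) of `I → M` with
`∑_l (R g)_{j l} g(β_{i,l}) = β_{i,j}` (`Module.Basis.ofSpan`, as in `exists_basisM`).  `N = FractionRing (MvPolynomial I M)`,
`W_j = ∑_i C(β_{i,j}) X_i` (`Paff`, `Paff_algInd`, `Paff_inv` in `MP_7f581e_ntA`, written for `Fin k`; either choose
`I ≃ Fin k` or copy the short lemmas for `I`).  `ι g` is the automorphism of the coefficients; all the rest as in the model. -/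
def TwistStmt : Prop :=
  ∀ (K M : Type) [Field K] [Field M] [Algebra K M] [FiniteDimensional K M] [IsGalois K M]
    (I : Type) [Fintype I] [DecidableEq I] (R : (M ≃ₐ[K] M) →* Matrix I I K),
    ∃ (N : Type) (_ : Field N) (_ : Algebra (FractionRing (MvPolynomial I K)) N)
      (_ : Algebra M N)
      (ι : (M ≃ₐ[K] M) ≃* (N ≃ₐ[FractionRing (MvPolynomial I K)] N)) (W : I → N),
      FiniteDimensional (FractionRing (MvPolynomial I K)) N ∧
      IsGalois (FractionRing (MvPolynomial I K)) N ∧
      (∀ g m, ι g (algebraMap M N m) = algebraMap M N (g m)) ∧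
      (∀ g i, ∑ l, algebraMap M N (algebraMap K M (R g i l)) * ι g (W l) = W i) ∧
      AlgebraicIndependent M W ∧ IntermediateField.adjoin M (Set.range W) = ⊤ ∧
      ∀ a : K, algebraMap M N (algebraMap K M a) =
        algebraMap (FractionRing (MvPolynomial I K)) N
          (algebraMap K (FractionRing (MvPolynomial I K)) a)

/-- **Mob.** (150 lines)  The automorphisms of `𝔽_p(X)` are Möbius transformations.

*Proof.*  `σ` is a `ZMod p`-algebra automorphism (`RingHom.ext_zmod`).  `f = σ X`; `ZMod p (f) = σ(ZMod p (X)) = ⊤`, so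
`1 = [ZMod p (X) : ZMod p (f)] = max (natDegree f.num) (natDegree f.denom)` (Mathlib:
`RatFunc.finrank_eq_max_natDegree`, file `FieldTheory/RatFunc/IntermediateField`; `f` is not constant).  So
`f.num = A₀₀ X + A₀₁`, `f.denom = A₁₀ X + A₁₁`, `f * denom = num`.  If `det A = 0`, the rows are linearly
dependent, so `num` and `denom` are proportional and `f` is constant, a contradiction.  Second claim:
`X (A₁₀ X + A₁₁) = A₀₀ X + A₀₁` in `𝔽_p(X)`, so in `𝔽_p[X]` (`RatFunc` algebraMap is injective), compare coefficients. -/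
def MobStmt : Prop :=
  ∀ (p : ℕ) [Fact p.Prime],
    (∀ σ : RatFunc (ZMod p) ≃+* RatFunc (ZMod p), ∃ A : Matrix (Fin 2) (Fin 2) (ZMod p),
      A.det ≠ 0 ∧
      σ RatFunc.X * (RatFunc.C (A 1 0) * RatFunc.X + RatFunc.C (A 1 1)) =
        RatFunc.C (A 0 0) * RatFunc.X + RatFunc.C (A 0 1)) ∧
    ∀ A : Matrix (Fin 2) (Fin 2) (ZMod p),
      (RatFunc.X : RatFunc (ZMod p)) * (RatFunc.C (A 1 0) * RatFunc.X + RatFunc.C (A 1 1)) =
        RatFunc.C (A 0 0) * RatFunc.X + RatFunc.C (A 0 1) →
      A 1 0 = 0 ∧ A 0 1 = 0 ∧ A 0 0 = A 1 1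

/-- **Cst.** (120 lines)  The extension given by a GA realisation is finite, Galois and regular.

*Proof.*  `S` embeds in `L ≃+* L` by `s ↦ a (conj s)` (`conj` is injective: the center of a nonabelian simple group
is trivial).  Artin's theorem (`FixedPoints`: `MulSemiringAction` of `S` on `L`, the fixed field is the range of
`algebraMap`, so `L` is finite and Galois over `RatFunc (ZMod p)`, and every `RatFunc (ZMod p)`-automorphism is given by
an element of `S`; alternatively `IsGaloisGroup`).  Constants: let `x ∈ L` be algebraic over `ZMod p`; it lies in a finite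
field, and for every automorphism `σ` of `L` there is `i` with `σ x = x ^ (p ^ i)`; so `σ (τ x) = τ (σ x)` for two automorphisms.  So
the set of the `s ∈ S` with `a (conj s) x = x` contains all commutators, and it is a subgroup; `S` is perfect
(`commutator S` is normal and not trivial), so `x` is fixed by `Inn S`: `x = algebraMap y`, `y ∈ RatFunc (ZMod p)`
algebraic over `ZMod p`, so `y` is a constant (`MP7fR.ratFunc_isIntegral` in `MP_7f581e_ntR/Pig.lean`). -/
def CstStmt : Prop :=
  ∀ (p : ℕ) [Fact p.Prime] (S : Type) [Group S] [Finite S] [IsSimpleGroup S],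
    (∃ a b : S, a * b ≠ b * a) → ∀ (L : Type) [Field L] [Algebra (RatFunc (ZMod p)) L]
      (a : MulAut S →* (L ≃+* L)), Function.Injective a →
      (∀ y : L, (∀ s : S, a (MulAut.conj s) y = y) ↔
        ∃ x, algebraMap (RatFunc (ZMod p)) L x = y) →
      FiniteDimensional (RatFunc (ZMod p)) L ∧ IsGalois (RatFunc (ZMod p)) L ∧
      (∀ τ : L ≃ₐ[RatFunc (ZMod p)] L, ∃ s : S, ∀ y, τ y = a (MulAut.conj s) y) ∧
      ∀ x : L, (∃ f : Polynomial (ZMod p), f ≠ 0 ∧
        Polynomial.eval₂ ((algebraMap (RatFunc (ZMod p)) L).comp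
          (algebraMap (ZMod p) (RatFunc (ZMod p)))) x f = 0) →
        ∃ c : ZMod p, algebraMap (RatFunc (ZMod p)) L
          (algebraMap (ZMod p) (RatFunc (ZMod p)) c) = x

/-- **Orb.** (60 lines)  A free orbit.

*Proof.*  `A` acts faithfully on the field `L`; `L` is a finite Galois extension of the field of invariants with group
`A` (Artin, `FixedPoints`); let `x` be a primitive element.  If `a α x = a β x`, then `a (β⁻¹ α)` fixes `x` and the
invariants, so it is the identity, and `α = β`. -/
def OrbStmt : Prop :=
  ∀ (L : Type) [Field L] (A : Type) [Group A] [Finite A] (a : A →* (L ≃+* L)),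
    Function.Injective a → ∃ x : L, Function.Injective fun α : A => a α x

/-- **Ind.** (100 lines)  Quotients of independent elements.

*Proof.*  The families `W(j,1)`, `W(j,0)` together are algebraically independent over `M`, so the family `W(j,0)` is
algebraically independent over `M[W(j,1) : j]` (`AlgebraicIndependent.sumElim_iff` or similar, after reindexing
`Fin n × Fin 2` as a sum), so over its fraction field `M₁` (`algebraicIndependent_adjoin`-type lemma / clear
denominators; compare the proof of `exists_move` in `MP_7f581e_ntK/Move.lean`,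
`IntermediateField.transcendental_adjoin_iff`).  Multiplication by the nonzero elements `W(j,1)⁻¹ ∈ M₁`: if
`P(c_j x_j) = 0` then `Q(x) = 0` for `Q = P(c_j X_j)`, so `Q = 0` and `P = Q(c_j⁻¹ X_j) = 0`. -/
def IndStmt : Prop :=
  ∀ (M Ω : Type) [Field M] [Field Ω] [Algebra M Ω] (n : ℕ) (W : Fin n × Fin 2 → Ω),
    AlgebraicIndependent M W → ∀ M₁ : IntermediateField M Ω,
    M₁ = IntermediateField.adjoin M (Set.range fun j => W (j, 1)) →
    AlgebraicIndependent M₁ (fun j => W (j, 0) / W (j, 1))

end MP7K.G5
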