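import Pool.Agent.Lib.MP_7f581e_K.Spec1

/-!
# C33 (MP_7f581e_nt), Gen: for a generic `t` the inverse of `x + t h` is large
-/

set_option autoImplicit false

namespace MP7K

open Polynomial Finset

namespace KGenAux

variable {F : Type} [Field F]

/-- the polynomial of the proof -/
noncomputable def G {k : ℕ} (c z : Fin k → F) : F[X] :=
  ∑ i : Fin k, C (c i) * ∏ j ∈ univ.erase i, (X + C (z j))

theorem G_deg {k : ℕ} (c z : Fin k → F) : (G c z).natDegree ≤ k - 1 := by
  unfold G
  apply natDegree_sum_le_of_forall_le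
  intro i _
  refine (natDegree_C_mul_le _ _).trans ?_
  refine (natDegree_prod_le _ _).trans ?_
  have h1 : ∀ j ∈ univ.erase i, (X + C (z j)).natDegree ≤ 1 := fun j _ => by
    rw [natDegree_X_add_C]
  refine (Finset.sum_le_card_nsmul _ _ 1 h1).trans ?_
  rw [card_erase_of_mem (mem_univ i), card_univ, Fintype.card_fin, smul_eq_mul, mul_one]

theorem G_eval {k : ℕ} (c z : Fin k → F) (t : F) :
    (G c z).eval t = ∑ i : Fin k, c i * ∏ j ∈ univ.erase i, (t + z j) := by
  unfold G
  simp only [eval_finsetSum, eval_mul, eval_C, eval_prod, eval_add, eval_X]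

theorem G_ne {k : ℕ} (c z : Fin k → F) (hz : Function.Injective z) (hc : c ≠ 0) :
    G c z ≠ 0 := by
  obtain ⟨i, hi⟩ : ∃ i, c i ≠ 0 := by
    by_contra h
    push Not at h
    exact hc (funext h)
  intro h
  have h1 : (G c z).eval (-(z i)) = 0 := by rw [h, eval_zero]
  rw [G_eval, Finset.sum_eq_single i] at h1
  · rcases mul_eq_zero.1 h1 with h2 | h2
    · exact hi h2
    · obtain ⟨j, hj, hj2⟩ := Finset.prod_eq_zero_iff.1 h2
      have h3 : z i = z j := by
        linear_combination -hj2
      exact (Finset.mem_erase.1 hj).1 (hz h3).symm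
  · intro j _ hj
    rw [Finset.prod_eq_zero (i := i), mul_zero]
    · exact Finset.mem_erase.2 ⟨hj.symm, mem_univ i⟩
    · ring
  · intro h; exact absurd (mem_univ i) h

theorem G_sum {k : ℕ} (c z : Fin k → F) (t : F) (ht : ∀ i, t + z i ≠ 0) :
    (G c z).eval t = (∏ i, (t + z i)) * ∑ i, c i * (t + z i)⁻¹ := by
  rw [G_eval, Finset.mul_sum]
  apply Finset.sum_congr rfl
  intro i _
  rw [← Finset.mul_prod_erase univ (fun j => t + z j) (mem_univ i)]
  field_simp [ht i]

theorem iter {p N : ℕ} {t : F} (ht : t ^ (p ^ N) = t) (i : ℕ) : t ^ (p ^ (i * N)) = t := by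
  induction i with
  | zero => simp
  | succ i ih =>
    rw [add_mul, one_mul, pow_add, pow_mul, ih, ht]

end KGenAux

open KGenAux in
theorem kGen : KStmtGen := by
  intro p _ F _ _ _ _ hA hB N k hk
  have hp : p.Prime := Fact.out
  have : CharP F p := charP_of_injective_algebraMap (algebraMap (ZMod p) F).injective p
  have : ExpChar F p := ExpChar.prime hp
  refine ⟨?_, ?_⟩
  · intro x h hh hne hbig
    have hN : 0 < N := by
      rcases Nat.eq_zero_or_pos N with h0 | h0
      · subst h0
        rw [pow_zero] at hbig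
        have : 0 < p ^ k * k := Nat.mul_pos (pow_pos hp.pos k) hk
        omega
      · exact h0
    set z : Fin k → F := fun i => (x / h) ^ (p ^ ((i : ℕ) * N)) with hz
    have hinj : Function.Injective z := by
      have key : ∀ i j : ℕ, i < j → j < k →
          (x / h) ^ (p ^ (i * N)) ≠ (x / h) ^ (p ^ (j * N)) := by
        intro i j hij hj heq
        apply hne (j - i) (by omega) (by omega)
        have h1 : j * N = (j - i) * N + i * N := by
          rw [← add_mul, Nat.sub_add_cancel hij.le]
        rw [h1, pow_add p, pow_mul (x / h)] at heq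
        exact (iterateFrobenius_inj F p (i * N)
          (by rw [iterateFrobenius_def, iterateFrobenius_def]; exact heq)).symm
      intro i j hij
      by_contra hcon
      rcases lt_or_gt_of_ne (fun h => hcon (Fin.ext h) : (i : ℕ) ≠ j) with h1 | h1
      · exact key i j h1 j.2 hij
      · exact key j i h1 i.2 hij.symm
    let cc : (Fin k → ZMod p) → (Fin k → F) := fun b i =>
      algebraMap (ZMod p) F (b i) * (h ^ (p ^ ((i : ℕ) * N)))⁻¹
    have hcc : ∀ b : Fin k → ZMod p, b ≠ 0 → cc b ≠ 0 := by
      intro b hb hcb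
      apply hb
      ext i
      have h1 := congrFun hcb i
      simp only [cc, Pi.zero_apply] at h1
      rcases mul_eq_zero.1 h1 with h2 | h2
      · simpa using h2
      · exact absurd (inv_eq_zero.1 h2) (pow_ne_zero _ hh)
    classical
    let bad : Finset F := insert 0 (insert (-(x / h))
      ((univ.filter (fun b : Fin k → ZMod p => b ≠ 0)).biUnion
        (fun b => (G (cc b) z).roots.toFinset)))
    have hcard : bad.card ≤ (p ^ k - 1) * (k - 1) + 2 := by
      refine (Finset.card_insert_le _ _).trans ?_
      have h1 := Finset.card_insert_le (-(x / h))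
        ((univ.filter (fun b : Fin k → ZMod p => b ≠ 0)).biUnion
        (fun b => (G (cc b) z).roots.toFinset))
      have h2 : ((univ.filter (fun b : Fin k → ZMod p => b ≠ 0)).biUnion
        (fun b => (G (cc b) z).roots.toFinset)).card ≤
          (univ.filter (fun b : Fin k → ZMod p => b ≠ 0)).card * (k - 1) := by
        apply Finset.card_biUnion_le_card_mul
        intro b _
        exact (Multiset.toFinset_card_le _).trans ((card_roots' _).trans (G_deg _ _))
      have h3 : (univ.filter (fun b : Fin k → ZMod p => b ≠ 0)).card = p ^ k - 1 := by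
        rw [Finset.filter_ne', card_erase_of_mem (mem_univ _), card_univ, Fintype.card_fun,
          ZMod.card, Fintype.card_fin]
      rw [h3] at h2
      omega
    have hlt : bad.card < (hB.finK N hN).toFinset.card := by
      rw [← Set.ncard_eq_toFinset_card _ (hB.finK N hN), hB.cardK N hN]
      refine lt_of_le_of_lt hcard (lt_of_le_of_lt ?_ hbig)
      have h1 : 2 ≤ p ^ k := hp.two_le.trans (Nat.le_self_pow hk.ne' p)
      obtain ⟨a, ha⟩ : ∃ a, p ^ k = a + 2 := ⟨p ^ k - 2, by omega⟩
      obtain ⟨l, rfl⟩ : ∃ l, k = l + 1 := ⟨k - 1, by omega⟩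
      rw [ha]
      simp only [Nat.add_sub_cancel]
      have h2 : a + 2 - 1 = a + 1 := rfl
      rw [h2]
      nlinarith
    obtain ⟨t, ht, htb⟩ := Finset.exists_mem_notMem_of_card_lt_card hlt
    have htN : t ^ (p ^ N) = t := by simpa using ht
    simp only [bad, Finset.mem_insert, not_or, Finset.mem_biUnion, Finset.mem_filter,
      Finset.mem_univ, true_and, not_exists, not_and] at htb
    obtain ⟨ht0, htx, htG⟩ := htb
    have hxt : x + t * h ≠ 0 := by
      intro h1
      apply htx
      field_simp
      linear_combination h1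
    refine ⟨t, ht0, htN, hxt, ?_⟩
    have hfac : ∀ i : Fin k, t + z i ≠ 0 := by
      intro i h1
      have h2 : (t + x / h) ^ (p ^ ((i : ℕ) * N)) = 0 := by
        rw [add_pow_char_pow, iter htN]
        exact h1
      have h3 := eq_zero_of_pow_eq_zero h2
      apply htx
      linear_combination h3
    intro b hb hbk
    rw [hA.lin_sum b N k _ hbk, Finset.sum_range (fun i =>
      algebraMap (ZMod p) F (b.coeff i) * (x + t * h)⁻¹ ^ (p ^ (i * N)))]
    have hterm : ∀ i : Fin k, algebraMap (ZMod p) F (b.coeff i) *
        (x + t * h)⁻¹ ^ (p ^ ((i : ℕ) * N)) =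
        cc (fun i => b.coeff i) i * (t + z i)⁻¹ := by
      intro i
      have h1 : (x + t * h) ^ (p ^ ((i : ℕ) * N)) = h ^ (p ^ ((i : ℕ) * N)) * (t + z i) := by
        rw [add_pow_char_pow, mul_pow, iter htN, hz]
        simp only [div_pow]
        have : h ^ (p ^ ((i : ℕ) * N)) ≠ 0 := pow_ne_zero _ hh
        field_simp
        ring
      simp only [cc]
      rw [inv_pow, h1, mul_inv, mul_assoc]
    rw [Finset.sum_congr rfl (fun i _ => hterm i)]
    intro hsum
    have hbne : (fun i : Fin k => b.coeff i) ≠ 0 := by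
      intro h1
      have h2 := congrFun h1 ⟨b.natDegree, hbk⟩
      simp only [Pi.zero_apply] at h2
      exact hb (leadingCoeff_eq_zero.1 h2)
    have h1 := G_sum (cc fun i => b.coeff i) z t hfac
    rw [hsum, mul_zero] at h1
    have h2 := htG _ hbne
    rw [Multiset.mem_toFinset, mem_roots (G_ne _ _ hinj (hcc _ hbne))] at h2
    exact h2 h1
  · intro t u ht htN hu b hb hbk
    rw [hA.lin_mul b N t u htN]
    exact mul_ne_zero ht (hu b hb hbk)

end MP7K
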