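import Pool.Agent.Lib.MP_7f581e_K.Spec1

/-!
# C33, Part I, Gro: growth
-/

set_option autoImplicit false

namespace MP7K

private theorem gro_key (c d : ℕ) : ∃ x₀ : ℕ, ∀ x, x₀ ≤ x → c * x ^ d < 2 ^ x := by
  have h := tendsto_pow_const_div_const_pow_of_one_lt d (one_lt_two : (1 : ℝ) < 2)
  have h1 : ∀ᶠ n : ℕ in Filter.atTop, (n : ℝ) ^ d / 2 ^ n < 1 / ((c : ℝ) + 1) :=
    (tendsto_order.1 h).2 _ (by positivity)
  obtain ⟨x₀, hx₀⟩ := Filter.eventually_atTop.1 h1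
  refine ⟨x₀, fun x hx => ?_⟩
  have h4 := hx₀ x hx
  have h2 : (0 : ℝ) < 2 ^ x := by positivity
  rw [div_lt_div_iff₀ h2 (by positivity)] at h4
  have h3 : ((c * x ^ d : ℕ) : ℝ) < ((2 ^ x : ℕ) : ℝ) := by
    push_cast
    have h5 : 0 ≤ (x : ℝ) ^ d := by positivity
    nlinarith
  exact_mod_cast h3

theorem kGro : KStmtGro := by
  intro p hp A
  have hp2 : 2 ≤ p := hp.out.two_le
  obtain ⟨y₀, hy₀⟩ := gro_key (16 * A ^ 2) 2
  obtain ⟨h₀, hh₀⟩ := gro_key (2 * A ^ 2 * (1024 * 81)) 4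
  refine ⟨A * (y₀ + 1) + 2 * (h₀ + 1) + 6 * (2 * A ^ 2 * (2 + A * p ^ A) + 1) +
    (2 * (p ^ 4 * A) + 1) + p + 10, ?_⟩
  intro S hS m n b E hm hmA hmp hn hnA hbA hE
  have hS1 : A * (y₀ + 1) ≤ S := by omega
  have hS2 : 2 * (h₀ + 1) ≤ S := by omega
  have hS3 : 6 * (2 * A ^ 2 * (2 + A * p ^ A) + 1) ≤ S := by omega
  have hS4 : 2 * (p ^ 4 * A) + 1 ≤ S - 4 := by omega
  have hS5 : p ≤ S := by omega
  have hS6 : 10 ≤ S := by omega
  have hpw : ∀ k : ℕ, 2 ^ k ≤ p ^ k := fun k => Nat.pow_le_pow_left hp2 k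
  have hlt : ∀ k : ℕ, k < p ^ k := fun k => lt_of_lt_of_le Nat.lt_two_pow_self (hpw k)
  have hST : S < p ^ S := hlt S
  -- `D`
  obtain ⟨D, hD⟩ : ∃ D, D = p ^ S * m := ⟨_, rfl⟩
  rw [← hD] at hE ⊢
  have hTD : p ^ S ≤ D := by
    rw [hD]
    exact Nat.le_mul_of_pos_right _ hm
  have hSD : S < D := lt_of_lt_of_le hST hTD
  have hA1 : 1 ≤ A := le_trans hm hmA
  have hp0 : 0 < p := by omega
  refine ⟨⟨hm, hmp, by omega, ?_, ?_⟩, ?_, ?_, ?_⟩
  · -- ripe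
    have e1 : p ^ 4 * m ≤ p ^ 4 * A := Nat.mul_le_mul_left _ hmA
    have e2 : p ^ (p ^ 4 * m) ≤ p ^ (p ^ 4 * A) := Nat.pow_le_pow_right hp0 e1
    have e3 : p ^ 4 * A ≤ p ^ (p ^ 4 * A) := (hlt _).le
    have e4 : 2 * (p ^ 4 * A) < p ^ (S - 4) := lt_of_lt_of_le (by omega) (hlt (S - 4)).le
    calc p ^ (p ^ 4 * m) * (p ^ 4 * m) ≤ p ^ (p ^ 4 * A) * p ^ (p ^ 4 * A) :=
          Nat.mul_le_mul e2 (le_trans e1 e3)
      _ = p ^ (2 * (p ^ 4 * A)) := by rw [← pow_add]; congr 1; ring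
      _ < p ^ (p ^ (S - 4)) := Nat.pow_lt_pow_right (by omega) e4
  · -- `32 m + 24 ≤ D`
    have e1 : 56 ≤ p ^ S := by
      calc 56 ≤ 2 ^ 10 := by norm_num
        _ ≤ 2 ^ S := Nat.pow_le_pow_right (by norm_num) hS6
        _ ≤ p ^ S := hpw S
    have e2 : 56 * m ≤ D := by
      rw [hD]
      exact Nat.mul_le_mul_right _ e1
    omega
  · -- `4 D ^ 2 < p ^ (D / n)`
    obtain ⟨y, hy⟩ : ∃ y, y = D / n := ⟨_, rfl⟩
    rw [← hy]
    have e1 : D < n * (y + 1) := by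
      rw [hy]
      exact Nat.lt_mul_div_succ D hn
    have e2 : n * (y + 1) ≤ A * (y + 1) := Nat.mul_le_mul_right _ hnA
    have e3 : y₀ + 1 ≤ y := by
      by_contra hcon
      have e4 : y + 1 ≤ y₀ + 1 := by omega
      have e5 : A * (y + 1) ≤ A * (y₀ + 1) := Nat.mul_le_mul_left _ e4
      omega
    have e6 := hy₀ y (by omega)
    have e7 : D ≤ A * (2 * y) := by
      have : A * (y + 1) ≤ A * (2 * y) := Nat.mul_le_mul_left _ (by omega)
      omega
    calc 4 * D ^ 2 ≤ 4 * (A * (2 * y)) ^ 2 := Nat.mul_le_mul_left _ (Nat.pow_le_pow_left e7 2)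
      _ = 16 * A ^ 2 * y ^ 2 := by ring
      _ < 2 ^ y := e6
      _ ≤ p ^ y := hpw y
  · -- third
    obtain ⟨h, hh⟩ : ∃ h, h = D / 2 := ⟨_, rfl⟩
    have e1 : D / p ≤ h := by
      rw [hh]
      exact Nat.div_le_div_left hp2 (by norm_num)
    have e2 : h₀ + 1 ≤ h := by omega
    have e3 := hh₀ h (by omega)
    have e4 : D ≤ 3 * h := by omega
    have e5 : p ≤ D := by omega
    have e6 : 32 * p * D ≤ 32 * (3 * h) ^ 2 := by
      calc 32 * p * D ≤ 32 * D * D := by gcongr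
        _ = 32 * D ^ 2 := by ring
        _ ≤ 32 * (3 * h) ^ 2 := by gcongr
    have e7 : b * p ^ (D / p) ≤ A * p ^ h :=
      Nat.mul_le_mul hbA (Nat.pow_le_pow_right hp0 e1)
    calc 2 * (A * ((32 * p * D) ^ 2 * (b * p ^ (D / p))))
        ≤ 2 * (A * ((32 * (3 * h) ^ 2) ^ 2 * (A * p ^ h))) := by gcongr
      _ = (2 * A ^ 2 * (1024 * 81) * h ^ 4) * p ^ h := by ring
      _ < 2 ^ h * p ^ h := Nat.mul_lt_mul_of_pos_right e3 (by positivity)
      _ ≤ p ^ h * p ^ h := Nat.mul_le_mul_right _ (hpw h)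
      _ = p ^ (h + h) := by rw [pow_add]
      _ ≤ p ^ D := Nat.pow_le_pow_right hp0 (by omega)
  · -- fourth
    obtain ⟨a, ha⟩ : ∃ a, a = (if p = 2 then 3 else 2) := ⟨_, rfl⟩
    rw [← ha] at hE
    have hsum : D / a + D / p ≤ 5 * D / 6 := by
      by_cases hp2' : p = 2
      · rw [if_pos hp2'] at ha
        rw [ha, hp2']
        omega
      · rw [if_neg hp2'] at ha
        have h3 : D / p ≤ D / 3 := Nat.div_le_div_left (by omega) (by norm_num)
        rw [ha]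
        omega
    have ha3 : D / 8 ≤ D / a := by
      have : a ≤ 8 := by
        rw [ha]
        split_ifs <;> norm_num
      have h0 : 0 < a := by
        rw [ha]
        split_ifs <;> norm_num
      exact Nat.div_le_div_left this h0
    have e0 : 16 * (p ^ (S - 4) * m) ≤ D := by
      have e1 : p ^ S = p ^ 4 * p ^ (S - 4) := by
        rw [← pow_add]
        congr 1
        omega
      have e2 : 16 ≤ p ^ 4 := by
        calc 16 = 2 ^ 4 := by norm_num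
          _ ≤ p ^ 4 := hpw 4
      rw [hD, e1, mul_assoc]
      exact Nat.mul_le_mul_right _ e2
    have e1 : p ^ (S - 4) * m + D / 32 ≤ D / a := by
      refine le_trans ?_ ha3
      omega
    have e2 : m * p ^ m ≤ A * p ^ A := Nat.mul_le_mul hmA (Nat.pow_le_pow_right hp0 hmA)
    have e3 : 1 ≤ p ^ (D / a) := Nat.one_le_pow _ _ hp0
    have e4 : 1 + E ≤ (2 + A * p ^ A) * p ^ (D / a) := by
      calc 1 + E ≤ p ^ (D / a) + (p ^ (D / a) + A * p ^ A * p ^ (D / a)) := by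
            refine Nat.add_le_add e3 (le_trans hE ?_)
            refine Nat.add_le_add (Nat.pow_le_pow_right hp0 e1) ?_
            exact Nat.mul_le_mul_right _ e2
        _ = (2 + A * p ^ A) * p ^ (D / a) := by ring
    obtain ⟨C, hC⟩ : ∃ C, C = 2 * A ^ 2 * (2 + A * p ^ A) := ⟨_, rfl⟩
    rw [← hC] at hS3
    have e5 : C < p ^ (D - 5 * D / 6) := by
      refine lt_of_le_of_lt ?_ (hlt _)
      omega
    calc 2 * (A * ((1 + E) * (b * p ^ (D / p))))
        ≤ 2 * (A * (((2 + A * p ^ A) * p ^ (D / a)) * (A * p ^ (D / p)))) := by gcongr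
      _ = C * p ^ (D / a + D / p) := by rw [hC, pow_add]; ring
      _ ≤ C * p ^ (5 * D / 6) := by gcongr
      _ < p ^ (D - 5 * D / 6) * p ^ (5 * D / 6) :=
          Nat.mul_lt_mul_of_pos_right e5 (by positivity)
      _ = p ^ D := by rw [← pow_add]; congr 1; omega

end MP7K
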