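import Pool.Agent.Lib.MP_7f581e_K.Spec1

/-!
# C33 (MP_7f581e_nt), Grp: `Eqv` is an equivalence relation on the levels
-/

set_option autoImplicit false

namespace MP7K

open Polynomial

namespace KGrpAux

variable {p : ℕ} [Fact p.Prime] {F : Type} [Field F] [Algebra (ZMod p) F]

/-- the word `w` repeated `k` times -/
def rep (w : List (Atom p)) : ℕ → List (Atom p)
  | 0 => []
  | k + 1 => rep w k ++ w

theorem ev_rep (w : List (Atom p)) (k : ℕ) (y : F) :
    ev (rep w k) y = (ev (p := p) w)^[k] y := by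
  induction k generalizing y with
  | zero => rfl
  | succ k ih =>
    rw [rep, ev_append, ih, Function.iterate_succ_apply]

end KGrpAux

open KGrpAux in
theorem kGrp (h : KStmtSS) : KStmtGrp := by
  intro p _ F _ _ _ _ hA hB r i DD hr hrp hL Z
  obtain ⟨-, -, -, hnil, happ, -, -, -⟩ := h p F hA hB r i DD hr hrp hL
  refine ⟨fun y => ⟨[], hnil, fun z _ => rfl, rfl⟩, ?_, ?_⟩
  · rintro y y' y'' ⟨w, hw, hwZ, hwy⟩ ⟨v, hv, hvZ, hvy⟩
    refine ⟨v ++ w, happ v w hv hw, fun z hz => ?_, ?_⟩
    · rw [ev_append, hwZ z hz, hvZ z hz]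
    · rw [ev_append, hwy, hvy]
  · rintro y y' hy ⟨w, hw, hwZ, hwy⟩
    have hbij := hw.2 (dg p y) hy
    have hdg : dg p y' = dg p y := by
      rw [← hwy]
      exact hbij.1 (show y ∈ OO p F (dg p y) from rfl)
    refine ⟨hdg, ?_⟩
    haveI : Finite (OO p F (dg p y)) := (hB.finO (dg p y)).to_subtype
    have hinj : Function.Injective (hbij.1.restrict (ev (p := p) w) _ _) :=
      hbij.1.restrict_inj.2 hbij.2.1
    obtain ⟨n, hn, hper⟩ := hinj.mem_periodicPts ⟨y, rfl⟩
    have hper' : (ev (p := p) w)^[n] y = y := by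
      have h1 := congrArg Subtype.val hper
      rw [Set.MapsTo.coe_iterate_restrict] at h1
      exact h1
    have hrep : ∀ k : ℕ, BS p F r DD (rep w k) ∧ ∀ z ∈ Z, ev (rep w k) z = z := by
      intro k
      induction k with
      | zero => exact ⟨hnil, fun z _ => rfl⟩
      | succ k ih =>
        refine ⟨happ _ _ ih.1 hw, fun z hz => ?_⟩
        rw [rep, ev_append, hwZ z hz, ih.2 z hz]
    refine ⟨rep w (n - 1), (hrep (n - 1)).1, (hrep (n - 1)).2, ?_⟩
    rw [ev_rep, ← hwy, ← Function.iterate_succ_apply]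
    have h2 : (n - 1).succ = n := by omega
    rw [h2, hper']

end MP7K
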