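import Pool.Agent.Lib.MP_7f581e_K.Spec1

/-!
# C33, Kl: two cosets of large subgroups and the inversion
-/

set_option autoImplicit false

namespace MP7K

namespace KKlAux

open Finset

theorem surj {K : Type} [Field K] [Fintype K] {ψ : AddChar K ℂ} (hψ : ψ ≠ 1)
    (χ : AddChar K ℂ) : ∃ a : K, ∀ x, χ x = ψ (a * x) := by
  classical
  have hinj := AddChar.to_mulShift_inj_of_isPrimitive (AddChar.IsPrimitive.of_ne_one hψ)
  have hbij : Function.Bijective ψ.mulShift := by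
    rw [Fintype.bijective_iff_injective_and_card]
    exact ⟨hinj, (AddChar.card_eq).symm⟩
  obtain ⟨a, ha⟩ := hbij.2 χ
  exact ⟨a, fun x => by rw [← ha, AddChar.mulShift_apply]⟩

open Classical in
/-- The Kloosterman sum of two characters. -/
noncomputable def T {K : Type} [Field K] [Fintype K] (χ₁ χ₂ : AddChar K ℂ) : ℂ :=
  ∑ x : K, if x = 0 then 0 else χ₁ x * χ₂ x⁻¹

theorem T_one_one {K : Type} [Field K] [Fintype K] :
    T (1 : AddChar K ℂ) 1 = (Fintype.card K : ℂ) - 1 := by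
  classical
  unfold T
  have h1 : ∀ x : K, (if x = 0 then (0 : ℂ) else (1 : AddChar K ℂ) x * (1 : AddChar K ℂ) x⁻¹) =
      1 - if x = 0 then 1 else 0 := by
    intro x
    by_cases hx : x = 0
    · simp [hx]
    · simp [hx]
  rw [sum_congr rfl (fun x _ => h1 x), sum_sub_distrib]
  simp

theorem sum_nontriv {K : Type} [Field K] [Fintype K] {χ : AddChar K ℂ} (hχ : χ ≠ 1) :
    ∑ x : K, χ x = 0 := by
  rw [AddChar.sum_eq_zero_iff_ne_zero]
  exact hχ

theorem T_one_left {K : Type} [Field K] [Fintype K] {χ : AddChar K ℂ} (hχ : χ ≠ 1) :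
    T 1 χ = -1 := by
  classical
  unfold T
  have h1 : ∀ x : K, (if x = 0 then (0 : ℂ) else (1 : AddChar K ℂ) x * χ x⁻¹) =
      χ x⁻¹ - if x = 0 then 1 else 0 := by
    intro x
    by_cases hx : x = 0
    · simp [hx]
    · simp [hx]
  rw [sum_congr rfl (fun x _ => h1 x), sum_sub_distrib]
  have h2 : ∑ x : K, χ x⁻¹ = ∑ x : K, χ x :=
    Fintype.sum_bijective (fun x : K => x⁻¹) inv_involutive.bijective _ _ (fun x => rfl)
  rw [h2, sum_nontriv hχ]
  simp

theorem T_one_right {K : Type} [Field K] [Fintype K] {χ : AddChar K ℂ} (hχ : χ ≠ 1) :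
    T χ 1 = -1 := by
  classical
  unfold T
  have h1 : ∀ x : K, (if x = 0 then (0 : ℂ) else χ x * (1 : AddChar K ℂ) x⁻¹) =
      χ x - if x = 0 then 1 else 0 := by
    intro x
    by_cases hx : x = 0
    · simp [hx]
    · simp [hx]
  rw [sum_congr rfl (fun x _ => h1 x), sum_sub_distrib]
  rw [sum_nontriv hχ]
  simp

theorem one_le_card {K : Type} [Field K] [Fintype K] : (1 : ℝ) ≤ Fintype.card K := by
  have : 0 < Fintype.card K := Fintype.card_pos
  exact_mod_cast this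

theorem T_bound (h : KStmtKl1) {K : Type} [Field K] [Fintype K] (χ₁ χ₂ : AddChar K ℂ)
    (hne : ¬ (χ₁ = 1 ∧ χ₂ = 1)) : ‖T χ₁ χ₂‖ ^ 4 ≤ 3 * (Fintype.card K : ℝ) ^ 3 := by
  classical
  have h1 : (1 : ℝ) ≤ 3 * (Fintype.card K : ℝ) ^ 3 := by
    have := one_le_pow₀ (n := 3) (one_le_card (K := K))
    linarith
  by_cases h₁ : χ₁ = 1
  · subst h₁
    have h₂ : χ₂ ≠ 1 := fun h => hne ⟨rfl, h⟩
    rw [T_one_left h₂]
    simpa using h1
  · by_cases h₂ : χ₂ = 1
    · subst h₂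
      rw [T_one_right h₁]
      simpa using h1
    · obtain ⟨b, hb⟩ := surj h₁ χ₂
      have hb0 : b ≠ 0 := by
        rintro rfl
        apply h₂
        ext x
        rw [hb x]
        simp
      have := h K χ₁ h₁ 1 b one_ne_zero hb0
      have hT : T χ₁ χ₂ = ∑ x : K, if x = 0 then (0 : ℂ) else χ₁ (1 * x + b * x⁻¹) := by
        unfold T
        apply sum_congr rfl
        intro x _
        by_cases hx : x = 0
        · simp [hx]
        · simp only [hx, if_false]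
          rw [AddChar.map_add_eq_mul, one_mul, hb x⁻¹]
      rw [hT]
      exact this

/-- The pull back of a character of the quotient. -/
noncomputable def pb {K : Type} [Field K] (A : AddSubgroup K) (χ : AddChar (K ⧸ A) ℂ) :
    AddChar K ℂ :=
  χ.compAddMonoidHom (QuotientAddGroup.mk' A)

theorem pb_apply {K : Type} [Field K] (A : AddSubgroup K) (χ : AddChar (K ⧸ A) ℂ) (x : K) :
    pb A χ x = χ (x : K ⧸ A) := rfl

theorem pb_one {K : Type} [Field K] (A : AddSubgroup K) : pb A 1 = 1 := by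
  ext x
  rw [pb_apply]
  simp

theorem pb_eq_one {K : Type} [Field K] (A : AddSubgroup K) (χ : AddChar (K ⧸ A) ℂ) :
    pb A χ = 1 ↔ χ = 1 := by
  constructor
  · intro h
    have := AddChar.compAddMonoidHom_injective_left (M := ℂ) (QuotientAddGroup.mk' A)
      (QuotientAddGroup.mk'_surjective A)
    apply this
    change pb A χ = pb A 1
    rw [h, pb_one]
  · rintro rfl
    exact pb_one A

theorem orth {K : Type} [Field K] [Fintype K] (A : AddSubgroup K) (x : K) (hx : x ∉ A) :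
    ∑ χ : AddChar (K ⧸ A) ℂ, pb A χ x = 0 := by
  classical
  have : ∑ χ : AddChar (K ⧸ A) ℂ, pb A χ x = ∑ χ : AddChar (K ⧸ A) ℂ, χ (x : K ⧸ A) := rfl
  rw [this]
  rw [AddChar.sum_apply_eq_zero_iff_ne_zero]
  intro h
  exact hx ((QuotientAddGroup.eq_zero_iff x).1 h)

theorem dsum {K : Type} [Field K] [Fintype K] (A₁ A₂ : AddSubgroup K) (a₁ a₂ : K)
    (hno : ∀ x : K, x ≠ 0 → ¬ (x - a₁ ∈ A₁ ∧ x⁻¹ - a₂ ∈ A₂)) :
    ∑ c : AddChar (K ⧸ A₁) ℂ × AddChar (K ⧸ A₂) ℂ,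
      pb A₁ c.1 (-a₁) * pb A₂ c.2 (-a₂) * T (pb A₁ c.1) (pb A₂ c.2) = 0 := by
  classical
  have h1 : ∀ c : AddChar (K ⧸ A₁) ℂ × AddChar (K ⧸ A₂) ℂ,
      pb A₁ c.1 (-a₁) * pb A₂ c.2 (-a₂) * T (pb A₁ c.1) (pb A₂ c.2) =
      ∑ x : K, if x = 0 then 0 else pb A₁ c.1 (x - a₁) * pb A₂ c.2 (x⁻¹ - a₂) := by
    intro c
    unfold T
    rw [mul_sum]
    apply sum_congr rfl
    intro x _
    by_cases hx : x = 0
    · simp [hx]
    · simp only [hx, if_false]
      rw [sub_eq_add_neg, sub_eq_add_neg, AddChar.map_add_eq_mul, AddChar.map_add_eq_mul]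
      ring
  rw [sum_congr rfl (fun c _ => h1 c), sum_comm]
  apply sum_eq_zero
  intro x _
  by_cases hx : x = 0
  · simp [hx]
  · simp only [hx, if_false]
    have h2 : ∑ c : AddChar (K ⧸ A₁) ℂ × AddChar (K ⧸ A₂) ℂ,
        pb A₁ c.1 (x - a₁) * pb A₂ c.2 (x⁻¹ - a₂) =
        (∑ χ : AddChar (K ⧸ A₁) ℂ, pb A₁ χ (x - a₁)) *
          ∑ χ : AddChar (K ⧸ A₂) ℂ, pb A₂ χ (x⁻¹ - a₂) := by
      rw [Fintype.sum_prod_type, Finset.sum_mul_sum]
    rw [h2]
    by_cases h3 : x - a₁ ∈ A₁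
    · rw [orth A₂ (x⁻¹ - a₂) (fun h4 => hno x hx ⟨h3, h4⟩), mul_zero]
    · rw [orth A₁ _ h3, zero_mul]

end KKlAux

open Finset KKlAux in
/-- **Kl.** -/
theorem kKl (h : KStmtKl1) : KStmtKl := by
  intro K _ _ A₁ A₂ hI a₁ a₂
  classical
  have := Fintype.ofFinite K
  by_contra hcon
  have hno : ∀ x : K, x ≠ 0 → ¬ (x - a₁ ∈ A₁ ∧ x⁻¹ - a₂ ∈ A₂) := by
    intro x hx h3
    exact hcon ⟨x, hx, h3⟩
  have hs := dsum A₁ A₂ a₁ a₂ hno
  rw [← add_sum_erase univ _ (mem_univ (1, 1))] at hs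
  simp only [pb_one, T_one_one] at hs
  set Q : ℝ := (Fintype.card K : ℝ) with hQ
  set I : ℝ := (A₁.index : ℝ) * A₂.index with hIdef
  set B : ℝ := (3 * Q ^ 3) ^ ((1 : ℝ) / 4) with hB
  have hQ1 : (1 : ℝ) ≤ Q := one_le_card
  have hB0 : 0 ≤ B := by positivity
  have hB4 : B ^ 4 = 3 * Q ^ 3 := by
    rw [hB, ← Real.rpow_natCast, ← Real.rpow_mul (by positivity)]
    norm_num
  have hTB : ∀ c ∈ (univ : Finset (AddChar (K ⧸ A₁) ℂ × AddChar (K ⧸ A₂) ℂ)).erase (1, 1),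
      ‖pb A₁ c.1 (-a₁) * pb A₂ c.2 (-a₂) * T (pb A₁ c.1) (pb A₂ c.2)‖ ≤ B := by
    intro c hc
    rw [mem_erase] at hc
    rw [norm_mul, norm_mul, AddChar.norm_apply, AddChar.norm_apply, one_mul, one_mul]
    have h5 : ¬ (pb A₁ c.1 = 1 ∧ pb A₂ c.2 = 1) := by
      rw [pb_eq_one, pb_eq_one]
      rintro ⟨h6, h7⟩
      exact hc.1 (Prod.ext h6 h7)
    have h8 := T_bound h _ _ h5
    rw [← hQ, ← hB4] at h8
    exact le_of_pow_le_pow_left₀ (by norm_num) hB0 h8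
  have hcard : ((univ : Finset (AddChar (K ⧸ A₁) ℂ × AddChar (K ⧸ A₂) ℂ)).erase (1, 1)).card ≤
      A₁.index * A₂.index := by
    refine (card_le_card (erase_subset _ _)).trans ?_
    rw [card_univ, Fintype.card_prod, AddChar.card_eq, AddChar.card_eq, ← Nat.card_eq_fintype_card,
      ← Nat.card_eq_fintype_card]
    rfl
  have hmain : Q - 1 ≤ I * B := by
    have h9 : ‖((Fintype.card K : ℂ) - 1)‖ ≤ I * B := by
      have h10 : ((Fintype.card K : ℂ) - 1) =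
          - ∑ c ∈ (univ : Finset (AddChar (K ⧸ A₁) ℂ × AddChar (K ⧸ A₂) ℂ)).erase (1, 1),
            pb A₁ c.1 (-a₁) * pb A₂ c.2 (-a₂) * T (pb A₁ c.1) (pb A₂ c.2) := by
        rw [eq_neg_iff_add_eq_zero]
        simpa using hs
      rw [h10, norm_neg]
      refine (norm_sum_le_of_le _ hTB).trans ?_
      rw [sum_const, nsmul_eq_mul]
      apply mul_le_mul_of_nonneg_right _ hB0
      rw [hIdef]
      exact_mod_cast hcard
    have h11 : ‖((Fintype.card K : ℂ) - 1)‖ = Q - 1 := by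
      have h12 : ((Fintype.card K : ℂ) - 1) = ((Q - 1 : ℝ) : ℂ) := by
        rw [hQ]; push_cast; rfl
      rw [h12, Complex.norm_real, Real.norm_eq_abs, abs_of_nonneg (by linarith)]
    rw [h11] at h9
    exact h9
  have hI' : 64 * I ^ 4 ≤ Q := by
    rw [Nat.card_eq_fintype_card] at hI
    rw [hIdef, hQ]
    exact_mod_cast hI
  have hi1 : 0 < A₁.index := Nat.pos_of_ne_zero AddSubgroup.index_ne_zero_of_finite
  have hi2 : 0 < A₂.index := Nat.pos_of_ne_zero AddSubgroup.index_ne_zero_of_finite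
  have hI1 : 1 ≤ I := by
    have : 1 ≤ A₁.index * A₂.index := Nat.mul_pos hi1 hi2
    rw [hIdef]
    exact_mod_cast this
  have hQ64 : 64 ≤ Q := by
    have := one_le_pow₀ (n := 4) hI1
    linarith
  have h13 : (Q - 1) ^ 4 ≤ I ^ 4 * (3 * Q ^ 3) := by
    rw [← hB4, ← mul_pow]
    exact pow_le_pow_left₀ (by linarith) hmain 4
  have h14 : I ^ 4 * (3 * Q ^ 3) ≤ (3 / 64) * Q ^ 4 := by
    have : I ^ 4 ≤ Q / 64 := by linarith
    calc I ^ 4 * (3 * Q ^ 3) ≤ (Q / 64) * (3 * Q ^ 3) :=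
          mul_le_mul_of_nonneg_right this (by positivity)
      _ = (3 / 64) * Q ^ 4 := by ring
  have h15 : (Q / 2) ^ 4 ≤ (Q - 1) ^ 4 := pow_le_pow_left₀ (by linarith) (by linarith) 4
  have h16 : 0 < Q ^ 4 := by positivity
  nlinarith [h13, h14, h15, h16]

end MP7K
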