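import Pool.Agent.Lib.MP_7f581e_K.Spec1

namespace MP7K

namespace KKl1Aux

open Finset ComplexConjugate

variable {K : Type} [Field K] [Fintype K] [DecidableEq K]

theorem sum_units (f : K → ℂ) :
    ∑ x : K, (if x = 0 then (0 : ℂ) else f x) = ∑ u : Kˣ, f u := by
  have h1 : ∑ u : Kˣ, f u = ∑ x ∈ (Finset.univ : Finset Kˣ).map ⟨Units.val, Units.val_injective⟩,
      (if x = 0 then (0 : ℂ) else f x) := by
    rw [Finset.sum_map]
    apply Finset.sum_congr rfl
    intro u _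
    simp
  rw [h1]
  symm
  apply Finset.sum_subset (Finset.subset_univ _)
  intro x _ hx
  by_cases h : x = 0
  · simp [h]
  · exfalso
    apply hx
    rw [Finset.mem_map]
    exact ⟨Units.mk0 x h, Finset.mem_univ _, rfl⟩

/-- the Kloosterman sum -/
noncomputable def T (ψ : AddChar K ℂ) (a b : K) : ℂ := ∑ u : Kˣ, ψ (a * u + b * (u : K)⁻¹)

def g1 (P : Kˣ × Kˣ) : K := P.1 + P.2

def g2 (P : Kˣ × Kˣ) : K := (P.1 : K)⁻¹ + (P.2 : K)⁻¹

theorem T_sq (ψ : AddChar K ℂ) (a b : K) :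
    T ψ a b * T ψ a b = ∑ P : Kˣ × Kˣ, ψ (a * g1 P + b * g2 P) := by
  unfold T
  rw [Finset.sum_mul_sum, Fintype.sum_prod_type]
  apply Finset.sum_congr rfl
  intro u _
  apply Finset.sum_congr rfl
  intro v _
  rw [← AddChar.map_add_eq_mul]
  congr 1
  simp only [g1, g2]
  ring

theorem T_four (ψ : AddChar K ℂ) (a b : K) :
    ((‖T ψ a b‖ ^ 4 : ℝ) : ℂ) =
      ∑ P : Kˣ × Kˣ, ∑ P' : Kˣ × Kˣ, ψ (a * (g1 P - g1 P')) * ψ (b * (g2 P - g2 P')) := by
  have h1 : ((‖T ψ a b‖ ^ 4 : ℝ) : ℂ) = (T ψ a b * T ψ a b) * conj (T ψ a b * T ψ a b) := by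
    rw [Complex.mul_conj', norm_mul]
    push_cast
    ring
  rw [h1, T_sq, map_sum, Finset.sum_mul_sum]
  apply Finset.sum_congr rfl
  intro P _
  apply Finset.sum_congr rfl
  intro P' _
  rw [← AddChar.map_neg_eq_conj, ← AddChar.map_add_eq_mul, ← AddChar.map_add_eq_mul]
  congr 1
  ring

theorem count (P : Kˣ × Kˣ) :
    (Finset.univ.filter (fun P' : Kˣ × Kˣ => g1 P - g1 P' = 0 ∧ g2 P - g2 P' = 0)).card ≤
      if g1 P = 0 then Fintype.card Kˣ else 2 := by
  split_ifs with h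
  · rw [← Finset.card_univ]
    apply Finset.card_le_card_of_injOn Prod.fst
    · intro _ _; exact Finset.mem_coe.2 (Finset.mem_univ _)
    · intro P1 h1 P2 h2 h12
      have h1' := (Finset.mem_filter.1 (Finset.mem_coe.1 h1)).2.1
      have h2' := (Finset.mem_filter.1 (Finset.mem_coe.1 h2)).2.1
      have h3 : g1 P1 = g1 P2 := by
        rw [sub_eq_zero] at h1' h2'
        rw [← h1', ← h2']
      unfold g1 at h3
      have h4 : (P1.2 : K) = P2.2 := by
        rw [h12] at h3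
        exact add_left_cancel h3
      exact Prod.ext h12 (Units.ext h4)
  · have hsub : (Finset.univ.filter
        (fun P' : Kˣ × Kˣ => g1 P - g1 P' = 0 ∧ g2 P - g2 P' = 0)) ⊆ {(P.1, P.2), (P.2, P.1)} := by
      intro P' hP'
      obtain ⟨e1, e2⟩ := (Finset.mem_filter.1 hP').2
      obtain ⟨x, y⟩ := P
      obtain ⟨z, w⟩ := P'
      have hx : (x : K) ≠ 0 := x.ne_zero
      have hy : (y : K) ≠ 0 := y.ne_zero
      have hz : (z : K) ≠ 0 := z.ne_zero
      have hw : (w : K) ≠ 0 := w.ne_zero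
      simp only [g1, g2] at e1 e2 h
      have e3 : ((x : K) + y) * ((z : K) * w) = ((z : K) + w) * ((x : K) * y) := by
        field_simp at e2
        linear_combination e2
      have e4 : (z : K) + w = x + y := by linear_combination -e1
      rw [e4] at e3
      have e5 : (z : K) * w = x * y := mul_left_cancel₀ h e3
      have e6 : ((z : K) - x) * ((z : K) - y) = 0 := by
        have : (w : K) = x + y - z := by linear_combination e4
        rw [this] at e5
        linear_combination -e5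
      rw [Finset.mem_insert, Finset.mem_singleton]
      rcases mul_eq_zero.1 e6 with h6 | h6
      · left
        have h7 : (z : K) = x := sub_eq_zero.1 h6
        have h8 : (w : K) = y := by
          rw [h7] at e4
          exact add_left_cancel e4
        exact Prod.ext (Units.ext h7) (Units.ext h8)
      · right
        have h7 : (z : K) = y := sub_eq_zero.1 h6
        have h8 : (w : K) = x := by
          rw [h7] at e4
          linear_combination e4
        exact Prod.ext (Units.ext h7) (Units.ext h8)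
    exact (Finset.card_le_card hsub).trans Finset.card_le_two

theorem count0 :
    (Finset.univ.filter (fun P : Kˣ × Kˣ => g1 P = 0)).card ≤ Fintype.card Kˣ := by
  rw [← Finset.card_univ]
  apply Finset.card_le_card_of_injOn Prod.fst
  · intro _ _; exact Finset.mem_coe.2 (Finset.mem_univ _)
  · intro P1 h1 P2 h2 h12
    have h1' := (Finset.mem_filter.1 (Finset.mem_coe.1 h1)).2
    have h2' := (Finset.mem_filter.1 (Finset.mem_coe.1 h2)).2
    have h3 : g1 P1 = g1 P2 := by rw [h1', h2']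
    unfold g1 at h3
    have h4 : (P1.2 : K) = P2.2 := by
      rw [h12] at h3
      exact add_left_cancel h3
    exact Prod.ext h12 (Units.ext h4)

theorem countAll :
    ∑ P : Kˣ × Kˣ, (Finset.univ.filter
      (fun P' : Kˣ × Kˣ => g1 P - g1 P' = 0 ∧ g2 P - g2 P' = 0)).card ≤
      3 * Fintype.card Kˣ ^ 2 := by
  calc _ ≤ ∑ P : Kˣ × Kˣ, (if g1 P = 0 then Fintype.card Kˣ else 2) :=
        Finset.sum_le_sum (fun P _ => count P)
    _ ≤ ∑ P : Kˣ × Kˣ, ((if g1 P = 0 then Fintype.card Kˣ else 0) + 2) := by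
        apply Finset.sum_le_sum
        intro P _
        split_ifs <;> omega
    _ = (Finset.univ.filter (fun P : Kˣ × Kˣ => g1 P = 0)).card * Fintype.card Kˣ +
          Fintype.card Kˣ ^ 2 * 2 := by
        rw [Finset.sum_add_distrib, ← Finset.sum_filter, Finset.sum_const, Finset.sum_const,
          Finset.card_univ, Fintype.card_prod, smul_eq_mul, smul_eq_mul]
        ring
    _ ≤ 3 * Fintype.card Kˣ ^ 2 := by
        have := Nat.mul_le_mul_right (Fintype.card Kˣ) (count0 (K := K))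
        nlinarith

theorem total (ψ : AddChar K ℂ) (hψ : ψ ≠ 1) :
    ∑ a : K, ∑ b : K, ‖T ψ a b‖ ^ 4 ≤ 3 * (Fintype.card K : ℝ) ^ 2 * (Fintype.card Kˣ : ℝ) ^ 2 := by
  have hp : ψ.IsPrimitive := AddChar.IsPrimitive.of_ne_one hψ
  have h1 : ((∑ a : K, ∑ b : K, ‖T ψ a b‖ ^ 4 : ℝ) : ℂ) =
      (((Fintype.card K : ℝ) ^ 2 * ((∑ P : Kˣ × Kˣ, (Finset.univ.filter
      (fun P' : Kˣ × Kˣ => g1 P - g1 P' = 0 ∧ g2 P - g2 P' = 0)).card : ℕ) : ℝ) : ℝ) : ℂ) := by
    push_cast
    have h2 : ∀ a b : K, ((‖T ψ a b‖ : ℂ)) ^ 4 = ((‖T ψ a b‖ ^ 4 : ℝ) : ℂ) := by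
      intro a b; push_cast; rfl
    simp_rw [h2, T_four]
    calc ∑ a : K, ∑ b : K, ∑ P : Kˣ × Kˣ, ∑ P' : Kˣ × Kˣ,
          ψ (a * (g1 P - g1 P')) * ψ (b * (g2 P - g2 P'))
        = ∑ P : Kˣ × Kˣ, ∑ P' : Kˣ × Kˣ, ∑ a : K, ∑ b : K,
          ψ (a * (g1 P - g1 P')) * ψ (b * (g2 P - g2 P')) := by
          simp_rw [Finset.sum_comm (s := (Finset.univ : Finset K))
            (t := (Finset.univ : Finset (Kˣ × Kˣ)))]
      _ = ∑ P : Kˣ × Kˣ, ∑ P' : Kˣ × Kˣ,
          (if g1 P - g1 P' = 0 ∧ g2 P - g2 P' = 0 then (Fintype.card K : ℂ) ^ 2 else 0) := by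
          apply Finset.sum_congr rfl
          intro P _
          apply Finset.sum_congr rfl
          intro P' _
          rw [← Finset.sum_mul_sum, AddChar.sum_mulShift _ hp, AddChar.sum_mulShift _ hp]
          by_cases e1 : g1 P - g1 P' = 0
          · by_cases e2 : g2 P - g2 P' = 0
            · simp [e1, e2, sq]
            · simp [e1, e2]
          · simp [e1]
      _ = _ := by
          rw [Finset.mul_sum]
          apply Finset.sum_congr rfl
          intro P _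
          rw [← Finset.sum_filter, Finset.sum_const, nsmul_eq_mul, mul_comm]
  have h3 := Complex.ofReal_injective h1
  rw [h3]
  have h4 : (((∑ P : Kˣ × Kˣ, (Finset.univ.filter
      (fun P' : Kˣ × Kˣ => g1 P - g1 P' = 0 ∧ g2 P - g2 P' = 0)).card : ℕ) : ℝ)) ≤
      ((3 * Fintype.card Kˣ ^ 2 : ℕ) : ℝ) := Nat.cast_le.2 countAll
  push_cast at h4 ⊢
  have h5 : (0 : ℝ) ≤ (Fintype.card K : ℝ) ^ 2 := by positivity
  calc _ ≤ (Fintype.card K : ℝ) ^ 2 * (3 * (Fintype.card Kˣ : ℝ) ^ 2) :=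
        mul_le_mul_of_nonneg_left h4 h5
    _ = _ := by ring

theorem T_shift (ψ : AddChar K ℂ) (a b : K) (c : Kˣ) : T ψ (a * c) (b * (c : K)⁻¹) = T ψ a b := by
  unfold T
  apply Fintype.sum_equiv (Equiv.mulLeft c)
  intro u
  rw [Equiv.coe_mulLeft, Units.val_mul, mul_inv]
  congr 1
  ring

end KKl1Aux

open KKl1Aux in
theorem kKl1 : KStmtKl1 := by
  intro K _ _ _ ψ hψ a b ha hb
  rw [sum_units (fun x => ψ (a * x + b * x⁻¹))]
  change ‖T ψ a b‖ ^ 4 ≤ _
  have h1 : (Fintype.card Kˣ : ℝ) * ‖T ψ a b‖ ^ 4 ≤ ∑ a : K, ∑ b : K, ‖T ψ a b‖ ^ 4 := by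
    rw [← Fintype.sum_prod_type (f := fun P : K × K => ‖T ψ P.1 P.2‖ ^ 4)]
    have hinj : Function.Injective (fun c : Kˣ => ((a * c, b * (c : K)⁻¹) : K × K)) := by
      intro c d h
      have h2 := (Prod.ext_iff.1 h).1
      exact Units.ext (mul_left_cancel₀ ha h2)
    calc (Fintype.card Kˣ : ℝ) * ‖T ψ a b‖ ^ 4
        = ∑ c : Kˣ, ‖T ψ (a * c) (b * (c : K)⁻¹)‖ ^ 4 := by
          simp_rw [T_shift]
          rw [Finset.sum_const, nsmul_eq_mul, Finset.card_univ]
      _ = ∑ P ∈ (Finset.univ : Finset Kˣ).map ⟨_, hinj⟩, ‖T ψ P.1 P.2‖ ^ 4 := by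
          rw [Finset.sum_map]; rfl
      _ ≤ ∑ P : K × K, ‖T ψ P.1 P.2‖ ^ 4 := by
          apply Finset.sum_le_sum_of_subset_of_nonneg (Finset.subset_univ _)
          intro _ _ _
          positivity
  have h2 := h1.trans (total ψ hψ)
  have hm : (0 : ℝ) < Fintype.card Kˣ := by
    have : 0 < Fintype.card Kˣ := Fintype.card_pos_iff.2 ⟨1⟩
    exact_mod_cast this
  have h3 : ‖T ψ a b‖ ^ 4 ≤ 3 * (Fintype.card K : ℝ) ^ 2 * (Fintype.card Kˣ : ℝ) := by
    apply le_of_mul_le_mul_left _ hm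
    calc _ ≤ 3 * (Fintype.card K : ℝ) ^ 2 * (Fintype.card Kˣ : ℝ) ^ 2 := h2
      _ = _ := by ring
  have h4 : (Fintype.card Kˣ : ℝ) ≤ Fintype.card K := by
    have : Fintype.card Kˣ ≤ Fintype.card K := Fintype.card_le_of_injective _ Units.val_injective
    exact_mod_cast this
  calc _ ≤ 3 * (Fintype.card K : ℝ) ^ 2 * (Fintype.card Kˣ : ℝ) := h3
    _ ≤ 3 * (Fintype.card K : ℝ) ^ 2 * (Fintype.card K : ℝ) := by
        apply mul_le_mul_of_nonneg_left h4
        positivity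
    _ = _ := by ring

end MP7K
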