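import Pool.Agent.Lib.MP_7f581e_K.Spec1

/-!
# C33, K/Kls: the main lemma
-/

set_option autoImplicit false

namespace MP7K

open Polynomial Finset

namespace KKlsAux

variable {p : ℕ} [Fact p.Prime] {F : Type} [Field F] [Algebra (ZMod p) F]

theorem exists_min (r : ℕ) (DD : Finset ℕ) (h : InS p F r DD []) : ∃ w, IsMinW p F r DD w := by
  classical
  have hex : ∃ n, ∃ w, InS p F r DD w ∧ ∑ D ∈ DD, (Img p F w D).ncard = n := ⟨_, [], h, rfl⟩
  obtain ⟨w, hw, hn⟩ := Nat.find_spec hex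
  refine ⟨w, hw, fun w' hw' => ?_⟩
  rw [hn]
  exact Nat.find_min' hex ⟨w', hw', rfl⟩

end KKlsAux

open KKlsAux in
theorem kKls (hSS : KStmtSS) (hTr : KStmtTr) (hZZ : KStmtZZ) (hPa : KStmtPa) (hEx : KStmtEx)
    (hMe : KStmtMe) (hAv : KStmtAv) : KStmtKls := by
  intro p _ F _ _ _ _ FA FB r i DD hr hrp hL B hB hdata
  obtain ⟨S1, S2, -, -, -, -, -, -⟩ := hSS p F FA FB r i DD hr hrp hL
  obtain ⟨w, hw⟩ := exists_min r DD S1
  have htr : ∀ D ∈ DD, ∀ y y' : F, dg p y = D → dg p y' = D → Eqv p F r DD ∅ y y' := by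
    intro D hD
    obtain ⟨m, S, D₀, n, rfl, hR, -⟩ := hdata D hD
    exact hTr p F FA FB r i DD hr hrp hL m S hR hD
  have hcard : ∀ D ∈ DD, DD.card * ((Img p F w D).ncard * (B ∩ OO p F D).ncard) <
      (OO p F D).ncard := by
    intro D hD
    obtain ⟨m, S, D₀, n, rfl, hR, hD0, hrd, hnd, h32, hnD, h4, hlt⟩ := hdata D hD
    obtain ⟨P, P', hPm, hPm', hPd, hPd', z, y₁, hz, hy₁, hne, hpw, hlg, hPz, hPz'⟩ :=
      hZZ p F FA FB r m S D₀ n hr hrp hR hD0 hrd hnd h32 hnD h4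
    set Exc : Set F := {y : F | dg p y = p ^ S * m ∧
      (lin p ((X ^ m - 1) ^ (p ^ (S - 4)) * P.comp (X ^ ((p ^ S * m) / n))) y = 0 ∨
        ∃ h : F, h ≠ 0 ∧ h ^ (p ^ m) = h ∧ ∃ s : ℕ, s.Prime ∧ s ∣ m ∧
          dg p (y / h) ∣ (p ^ S * m) / s)} with hExc
    have h1 : ∀ y : F, dg p y = p ^ S * m → y ∉ Exc → Eqv p F r DD {z} y y₁ := by
      intro y hy hyE
      refine hPa p F FA FB r i DD hr hrp hL m S D₀ n hR hD hD0 h32 hnD P P' hPm hPm' hPd hPd'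
        z y₁ hz hy₁ hlg hPz hPz' y hy (fun h0 => hyE ⟨hy, Or.inl h0⟩) ?_
      intro h hh0 hhm s hs hsm hds
      exact hyE ⟨hy, Or.inr ⟨h, hh0, hhm, s, hs, hsm, hds⟩⟩
    have h2 := hMe p F FA FB r i DD hr hrp hL w hw _ hD (htr _ hD) z y₁ hz hy₁ hne hpw Exc h1
    have h3 : Exc ∩ OO p F (p ^ S * m) = Exc := Set.inter_eq_left.2 fun y hy => hy.1
    have hn0 : 0 < n := by omega
    have h4' := hEx p F FA FB m S D₀ n hR ((Dvd.intro _ rfl).trans hnD) hn0 P hPm hPd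
    rw [h3] at h2
    refine lt_of_le_of_lt (Nat.mul_le_mul_left _ (Nat.mul_le_mul_right _ ?_)) hlt
    exact h2.trans (Nat.add_le_add_left h4' 1)
  set I : Set F := {x | ∃ D ∈ DD, x ∈ Img p F w D} with hI
  have hIO : ∀ D ∈ DD, I ∩ OO p F D = Img p F w D := by
    intro D hD
    ext x
    constructor
    · rintro ⟨⟨D', -, hx⟩, hxD⟩
      have : D' = D := by
        have h1 : dg p x = D' := hx.2
        have h2 : dg p x = D := hxD
        omega
      rwa [← this]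
    · intro hx
      exact ⟨⟨D, hD, hx⟩, hx.2⟩
  obtain ⟨g, hg, hgB⟩ := hAv p F FA FB r i DD hr hrp hL htr I B (fun D hD => by
    rw [hIO D hD]
    exact hcard D hD)
  have hgw : InS p F r DD (g ++ w) := S2 g w hg.1 hw.1
  refine ⟨g ++ w, hgw.1, fun y hy => ?_⟩
  have hD := hB _ hy
  rcases hgw.2 _ hD y rfl with h | h
  · exfalso
    rw [ev_append] at hy hD h
    have h1 : dg p (ev w y) ∣ dg p y := FA.dg_ev w y
    have h2 : dg p (ev g (ev w y)) ∣ dg p (ev w y) := FA.dg_ev g _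
    have h3 : dg p (ev w y) = dg p y := Nat.dvd_antisymm h1 (by rw [h]; exact h2)
    have h4 : dg p (ev w y) ∈ DD := by rw [h3, h]; exact hD
    refine hgB (ev w y) h4 ⟨dg p (ev w y), h4, ⟨y, h3.symm, rfl⟩, rfl⟩ hy
  · exact h

end MP7K
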