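import Pool.Agent.Lib.MP_7f581e_K.Spec1

/-!
# C33, module LA: Lemma A
-/

set_option autoImplicit false

namespace MP7K

open Polynomial Finset

namespace KLAAux

variable {p : ℕ} [Fact p.Prime] {F : Type} [Field F] [Algebra (ZMod p) F]

theorem finPre (fB : FactsB p F) {w : List (Atom p)} (hw : OkW w) {B : Set (Option F)}
    (hB : B.Finite) : {y : Option F | evP w y ∈ B}.Finite := by
  have h1 : {y : Option F | evP w y ∈ B} = ⋃ x ∈ B, {y : Option F | evP w y = x} := by
    ext y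
    simp
  rw [h1]
  exact hB.biUnion fun x _ => fB.fibP w hw x

omit [Fact p.Prime] in
theorem okAppend {v w : List (Atom p)} (hv : OkW v) (hw : OkW w) : OkW (v ++ w) := by
  intro a ha
  rcases List.mem_append.1 ha with h | h
  · exact hv a h
  · exact hw a h

/-- one step -/
theorem step (fA : FactsA p F) (fB : FactsB p F) (r : ℕ)
    (hW : ∃ w : List (Atom p), OkW w ∧ ∀ y : Option F, (∀ a : F, y = some a → a ^ p = a) →
      r ∣ multW w y)
    (hP : ∀ B : Set F, B.Finite → (∀ b ∈ B, b ^ p ≠ b) → Mul p r B)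
    (B : Set (Option F)) (hB : B.Finite) :
    ∃ w : List (Atom p), OkW w ∧ ∀ y : Option F, evP w y ∈ B →
      r * dgP p (evP w y) ∣ multW w y * dgP p y := by
  obtain ⟨w₀, h0, h0r⟩ := hW
  have hfin : {b : F | b ^ p ≠ b ∧ evP w₀ (some b) ∈ B}.Finite := by
    have h1 := (finPre fB h0 hB).preimage (f := fun b : F => some b)
      (fun a _ b _ h => Option.some_injective F h)
    refine h1.subset ?_
    intro b hb
    exact hb.2
  obtain ⟨w₁, h1, h1r⟩ := hP _ hfin (fun b hb => hb.1)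
  refine ⟨w₀ ++ w₁, okAppend h0 h1, fun y hy => ?_⟩
  have hdg := fA.dg_evP (w₀ ++ w₁) y
  rw [evP_append] at hy hdg ⊢
  rw [multW_append]
  by_cases hr : ∀ a : F, evP w₁ y = some a → a ^ p = a
  · exact mul_dvd_mul (Dvd.dvd.mul_right (h0r _ hr) _) hdg
  · push Not at hr
    obtain ⟨b, hb, hbn⟩ := hr
    obtain ⟨a, ha, hab⟩ := fA.evP_nr w₁ y b hb hbn
    rw [hb] at hy ⊢
    have h2 : ev w₁ a ∈ {b : F | b ^ p ≠ b ∧ evP w₀ (some b) ∈ B} := by
      rw [hab]
      exact ⟨hbn, hy⟩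
    have h3 := h1r a h2
    rw [hab] at h3
    have h4 : dgP p (evP w₀ (some b)) ∣ dg p b := fA.dg_evP w₀ (some b)
    have h5 : dgP p y = dg p a := by rw [ha]; rfl
    rw [h5]
    exact Dvd.dvd.mul_left ((mul_dvd_mul_left r h4).trans h3) _

/-- iteration -/
theorem iter (fA : FactsA p F) (fB : FactsB p F) (r : ℕ)
    (hW : ∃ w : List (Atom p), OkW w ∧ ∀ y : Option F, (∀ a : F, y = some a → a ^ p = a) →
      r ∣ multW w y)
    (hP : ∀ B : Set F, B.Finite → (∀ b ∈ B, b ^ p ≠ b) → Mul p r B) (k : ℕ) :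
    ∀ B : Set (Option F), B.Finite → ∃ w : List (Atom p), OkW w ∧ ∀ y : Option F, evP w y ∈ B →
      r ^ k * dgP p (evP w y) ∣ multW w y * dgP p y := by
  induction k with
  | zero =>
    intro B _
    refine ⟨[], ?_, fun y _ => ?_⟩
    · intro a ha
      exact absurd ha (List.not_mem_nil)
    · rw [pow_zero]
      exact dvd_refl _
  | succ k ih =>
    intro B hB
    obtain ⟨w', hw', h'⟩ := ih B hB
    obtain ⟨w'', hw'', h''⟩ := step fA fB r hW hP _ (finPre fB hw' hB)
    refine ⟨w' ++ w'', okAppend hw' hw'', fun y hy => ?_⟩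
    rw [evP_append] at hy ⊢
    rw [multW_append]
    have e1 := h' (evP w'' y) hy
    have e2 := h'' y hy
    have e3 : r ^ (k + 1) * dgP p (evP w' (evP w'' y)) =
        r * (r ^ k * dgP p (evP w' (evP w'' y))) := by ring
    have e4 : multW w' (evP w'' y) * multW w'' y * dgP p y =
        multW w' (evP w'' y) * (multW w'' y * dgP p y) := by ring
    rw [e3, e4]
    refine (mul_dvd_mul_left r e1).trans ?_
    have e5 : r * (multW w' (evP w'' y) * dgP p (evP w'' y)) =
        multW w' (evP w'' y) * (r * dgP p (evP w'' y)) := by ring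
    rw [e5]
    exact mul_dvd_mul_left _ e2

theorem half {r N a b : ℕ} (hr : r.Prime) (h : r ^ (2 * N) ∣ a * b) : r ^ N ∣ a ∨ r ^ N ∣ b := by
  obtain ⟨x, y, hx, hy, hxy⟩ := (Nat.dvd_mul).1 h
  obtain ⟨i, hi, rfl⟩ := (Nat.dvd_prime_pow hr).1 (Dvd.intro _ hxy)
  obtain ⟨j, hj, rfl⟩ := (Nat.dvd_prime_pow hr).1 (Dvd.intro_left _ hxy)
  rw [← pow_add] at hxy
  have hij := Nat.pow_right_injective hr.two_le hxy
  rcases le_or_gt N i with h1 | h1
  · exact Or.inl ((pow_dvd_pow r h1).trans hx)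
  · exact Or.inr ((pow_dvd_pow r (by omega)).trans hy)

end KLAAux

/-- **Lemma A.** -/
theorem kLA (hA : KStmtBasA) (hB : KStmtBasB) (hW : KStmtW0) (hP : KStmtPP) : KStmtLA := by
  intro p _ F _ _ _ _ r hr hrp B hBf N
  have fA : FactsA p F := hA p F
  have fB : FactsB p F := hB p F fA
  obtain ⟨w, hw, h⟩ := KLAAux.iter fA fB r (hW p F fA fB r hr hrp) (hP p F r hr) (2 * N) B hBf
  exact ⟨w, hw, fun y hy => KLAAux.half hr ((Dvd.intro _ rfl).trans (h y hy))⟩

end MP7K
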