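import Pool.Agent.Lib.MP_7f581e_K.Spec1

/-!
# C33, Part I: large elements generate a large submodule (`Lg`)
-/

set_option autoImplicit false

namespace MP7K

open Polynomial

namespace KLgAux

variable {p : ℕ} [Fact p.Prime] {F : Type} [Field F] [Algebra (ZMod p) F]

theorem lin_mul' (a b : (ZMod p)[X]) (y : F) : lin p (a * b) y = lin p a (lin p b y) := by
  unfold lin
  rw [map_mul]
  rfl

theorem lin_sub' (a b : (ZMod p)[X]) (y : F) : lin p (a - b) y = lin p a y - lin p b y := by
  unfold lin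
  rw [map_sub]
  rfl

theorem lin_add' (a b : (ZMod p)[X]) (y : F) : lin p (a + b) y = lin p a y + lin p b y := by
  unfold lin
  rw [map_add]
  rfl

theorem lin_one' (y : F) : lin p (1 : (ZMod p)[X]) y = y := by
  unfold lin
  rw [map_one]
  rfl

theorem lin_zero' (y : F) : lin p (0 : (ZMod p)[X]) y = 0 := by
  unfold lin
  rw [map_zero]
  rfl

/-- the annihilator of `u` -/
noncomputable def ann (p : ℕ) [Fact p.Prime] {F : Type} [Field F] [Algebra (ZMod p) F] (u : F) :
    Ideal (ZMod p)[X] where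
  carrier := {l | lin p l u = 0}
  add_mem' := by
    intro a b ha hb
    change lin p (a + b) u = 0
    rw [lin_add', show lin p a u = 0 from ha, show lin p b u = 0 from hb, add_zero]
  zero_mem' := lin_zero' u
  smul_mem' := by
    intro c l hl
    change lin p (c * l) u = 0
    rw [lin_mul', show lin p l u = 0 from hl, map_zero]

theorem exists_gen (u : F) : ∃ a : (ZMod p)[X], ∀ l, lin p l u = 0 ↔ a ∣ l := by
  refine ⟨Submodule.IsPrincipal.generator (ann p u), fun l => ?_⟩
  rw [← Submodule.IsPrincipal.mem_iff_generator_dvd]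
  rfl

/-- the elements killed by the annihilator of `u` are in the module generated by `u` -/
theorem mem_of_kill (hB : FactsB p F) {u w : F} {a : (ZMod p)[X]} (ha0 : a ≠ 0)
    (ha : ∀ l, lin p l u = 0 ↔ a ∣ l) (hw : lin p a w = 0) : ∃ κ : (ZMod p)[X], w = lin p κ u := by
  classical
  set n := a.natDegree with hn
  let f : (Fin n → ZMod p) → F := fun c => lin p ((degreeLTEquiv (ZMod p) n).symm c).1 u
  have hf : Function.Injective f := by
    intro c c' hcc
    have h1 : lin p (((degreeLTEquiv (ZMod p) n).symm c).1 -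
        ((degreeLTEquiv (ZMod p) n).symm c').1) u = 0 := by
      rw [lin_sub', sub_eq_zero]
      exact hcc
    rw [ha] at h1
    have h2 : (((degreeLTEquiv (ZMod p) n).symm c) - ((degreeLTEquiv (ZMod p) n).symm c')).1 = 0 := by
      have h3 := (((degreeLTEquiv (ZMod p) n).symm c) - ((degreeLTEquiv (ZMod p) n).symm c')).2
      rw [mem_degreeLT] at h3
      refine eq_zero_of_dvd_of_degree_lt h1 (lt_of_lt_of_le h3 ?_)
      rw [degree_eq_natDegree ha0]
    have h4 : (degreeLTEquiv (ZMod p) n).symm c = (degreeLTEquiv (ZMod p) n).symm c' := by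
      rw [← sub_eq_zero]
      exact Subtype.ext h2
    exact (degreeLTEquiv (ZMod p) n).symm.injective h4
  have hsub : Set.range f ⊆ {y : F | lin p a y = 0} := by
    rintro _ ⟨c, rfl⟩
    change lin p a (lin p _ u) = 0
    rw [← lin_mul', ha]
    exact Dvd.intro _ rfl
  have hcard : {y : F | lin p a y = 0}.ncard ≤ (Set.range f).ncard := by
    refine (hB.cardKer a ha0).trans ?_
    rw [← Set.image_univ, Set.ncard_image_of_injective _ hf, Set.ncard_univ, Nat.card_eq_fintype_card,
      Fintype.card_fun, ZMod.card, Fintype.card_fin]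
  have heq := Set.eq_of_subset_of_ncard_le hsub hcard (hB.finKer a ha0)
  have hw' : w ∈ Set.range f := by
    rw [heq]
    exact hw
  obtain ⟨c, hc⟩ := hw'
  exact ⟨_, hc.symm⟩

theorem pow_sub_one (m S : ℕ) :
    ((X : (ZMod p)[X]) ^ m - 1) ^ (p ^ S) = X ^ (p ^ S * m) - 1 := by
  rw [sub_pow_expChar_pow, one_pow, ← pow_mul, mul_comm m]

theorem kill_iff (hA : FactsA p F) (D : ℕ) (y : F) :
    lin p ((X : (ZMod p)[X]) ^ D - 1) y = 0 ↔ dg p y ∣ D := by
  rw [lin_sub', lin_one', hA.lin_X, sub_eq_zero, hA.pow_eq]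

/-- divisibility in a factorial ring from prime powers -/
theorem dvd_of_pow {q g : (ZMod p)[X]} (hq : q ≠ 0) (hg : g ≠ 0)
    (h : ∀ (π : (ZMod p)[X]) (n : ℕ), 0 < n → Irreducible π → π ^ n ∣ q → π ^ n ∣ g) : q ∣ g := by
  classical
  rw [UniqueFactorizationMonoid.dvd_iff_normalizedFactors_le_normalizedFactors hq hg,
    Multiset.le_iff_count]
  intro π
  by_cases hπ : π ∈ UniqueFactorizationMonoid.normalizedFactors q
  · have hirr := UniqueFactorizationMonoid.irreducible_of_normalized_factor π hπ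
    have hnorm := UniqueFactorizationMonoid.normalize_normalized_factor π hπ
    set n := Multiset.count π (UniqueFactorizationMonoid.normalizedFactors q) with hn
    have hn0 : 0 < n := Multiset.count_pos.2 hπ
    have key : ∀ {x : (ZMod p)[X]}, x ≠ 0 → ∀ k : ℕ, (π ^ k ∣ x ↔
        k ≤ Multiset.count π (UniqueFactorizationMonoid.normalizedFactors x)) := by
      intro x hx k
      have h1 := UniqueFactorizationMonoid.emultiplicity_eq_count_normalizedFactors hirr hx
      rw [hnorm] at h1
      rw [pow_dvd_iff_le_emultiplicity, h1]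
      exact Nat.cast_le
    rw [← key hg]
    exact h π n hn0 hirr ((key hq n).2 le_rfl)
  · rw [Multiset.count_eq_zero_of_notMem hπ]
    exact Nat.zero_le _

end KLgAux

open KLgAux in
theorem kLg : KStmtLg := by
  intro p _ F _ _ _ _ hA hB m S j hm hmp hj u hu hL v hv
  have hp : p.Prime := Fact.out
  set N := p ^ (S - j) with hN
  have hN0 : 0 < N := pow_pos hp.pos _
  have hpS : p ^ S = p ^ j * N := by rw [hN, ← pow_add]; congr 1; omega
  obtain ⟨a, ha⟩ := exists_gen (p := p) u
  set f : (ZMod p)[X] := X ^ m - 1 with hf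
  have hf0 : f ≠ 0 := X_pow_sub_C_ne_zero hm 1
  have hfd : f.natDegree = m := natDegree_X_pow_sub_C
  have hfS : f ^ (p ^ S) = X ^ (p ^ S * m) - 1 := pow_sub_one m S
  have h1 : a ∣ f ^ (p ^ S) := by
    rw [← ha, hfS, kill_iff hA]
    exact hu
  obtain ⟨q, hq⟩ := h1
  have hne : f ^ (p ^ S) ≠ 0 := pow_ne_zero _ hf0
  have ha0 : a ≠ 0 := fun h => hne (by rw [hq, h, zero_mul])
  have hq0 : q ≠ 0 := fun h => hne (by rw [hq, h, mul_zero])
  have hclaim : q ∣ f ^ N := by
    refine dvd_of_pow hq0 (pow_ne_zero _ hf0) ?_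
    intro π n hn0 hπ hπq
    have hπf : π ∣ f := by
      have h2 : π ∣ f ^ (p ^ S) :=
        ((dvd_pow_self π hn0.ne').trans hπq).trans (hq ▸ Dvd.intro_left a rfl)
      exact hπ.prime.dvd_of_dvd_pow h2
    by_cases hnN : n ≤ N
    · exact (pow_dvd_pow π hnN).trans (pow_dvd_pow_of_dvd hπf N)
    · exfalso
      obtain ⟨q', hq'⟩ := (pow_dvd_pow π (by omega : N ≤ n)).trans hπq
      obtain ⟨b, hb⟩ := hπf.trans (dvd_pow_self f (pow_pos hp.pos j).ne')
      have hfj0 : f ^ (p ^ j) ≠ 0 := pow_ne_zero _ hf0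
      have hb0 : b ≠ 0 := fun h => hfj0 (by rw [hb, h, mul_zero])
      have h3 : a * q' = b ^ N := by
        have h4 : π ^ N * (a * q') = π ^ N * b ^ N := by
          rw [← mul_pow, ← hb, ← pow_mul, ← hpS, hq, hq']
          ring
        exact mul_left_cancel₀ (pow_ne_zero _ hπ.ne_zero) h4
      have hdeg : b.natDegree < p ^ j * m := by
        have h5 : (f ^ (p ^ j)).natDegree = p ^ j * m := by rw [natDegree_pow, hfd]
        rw [hb, natDegree_mul hπ.ne_zero hb0] at h5
        have h6 := hπ.natDegree_pos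
        omega
      refine hL b hb0 hdeg ?_
      rw [hN, hA.comp_pow, ← hN, ← h3, ha]
      exact Dvd.intro _ rfl
  obtain ⟨q', hq'⟩ := hclaim
  have hfN : f ^ N = X ^ (N * m) - 1 := by rw [hN]; exact pow_sub_one m (S - j)
  refine mem_of_kill hB ha0 ha ?_
  rw [← lin_mul', ← hfN, hq', ← mul_assoc, ← hq, mul_comm, lin_mul', hfS, (kill_iff hA _ _).2 hv,
    map_zero]

end MP7K
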