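import Pool.Agent.Lib.MP_7f581e_K.Spec1

/-!
# C33 (MP_7f581e_nt), Part I, module Me: the merging argument
-/

set_option autoImplicit false

namespace MP7K

open Polynomial Finset

namespace KMeAux

section

variable {p : ℕ} [Fact p.Prime] {F : Type} [Field F] [Algebra (ZMod p) F]

/-- The images of a composition. -/
theorem img_append (hA : FactsA p F) {r i : ℕ} {DD : Finset ℕ} (hr : r.Prime) (hL : Lev p r i DD)
    {v w : List (Atom p)} (hv : InS p F r DD v) {D : ℕ} (hD : D ∈ DD) :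
    Img p F (v ++ w) D = ev (p := p) v '' Img p F w D ∩ OO p F D := by
  have hD2 := hL.two D hD
  have hr2 := hr.two_le
  ext b
  constructor
  · rintro ⟨⟨y, hy, hyb⟩, hb⟩
    refine ⟨⟨ev w y, ⟨⟨y, hy, rfl⟩, ?_⟩, ?_⟩, hb⟩
    · have hb' : dg p (ev v (ev w y)) = D := by
        rw [← ev_append, hyb]
        exact hb
      rcases hv.2 D hD (ev w y) hb' with h | h
      · exact h
      · exfalso
        have h1 : dg p (ev w y) ∣ dg p y := hA.dg_ev w y
        have hy' : dg p y = D := hy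
        rw [hy'] at h1
        have h2 := Nat.le_of_dvd (by omega) (h.trans h1)
        nlinarith
    · rw [← ev_append]
      exact hyb
  · rintro ⟨⟨x, ⟨⟨y, hy, hyx⟩, _⟩, hxb⟩, hb⟩
    refine ⟨⟨y, hy, ?_⟩, hb⟩
    rw [ev_append, hyx, hxb]

/-- The set of images is finite. -/
theorem img_fin (hB : FactsB p F) (w : List (Atom p)) (D : ℕ) : (Img p F w D).Finite :=
  (hB.finO D).subset Set.inter_subset_right

theorem img_le (hA : FactsA p F) (hB : FactsB p F) {r i : ℕ} {DD : Finset ℕ} (hr : r.Prime)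
    (hL : Lev p r i DD) {v w : List (Atom p)} (hv : InS p F r DD v) {D : ℕ} (hD : D ∈ DD) :
    (Img p F (v ++ w) D).ncard ≤ (Img p F w D).ncard := by
  rw [img_append hA hr hL hv hD]
  exact (Set.ncard_le_ncard Set.inter_subset_left ((img_fin hB w D).image _)).trans
    (Set.ncard_image_le (img_fin hB w D))

theorem img_inj (hA : FactsA p F) (hB : FactsB p F) {r i : ℕ} {DD : Finset ℕ} (hr : r.Prime)
    (hL : Lev p r i DD) {v w : List (Atom p)} (hv : InS p F r DD v) {D : ℕ} (hD : D ∈ DD)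
    (h : (Img p F (v ++ w) D).ncard = (Img p F w D).ncard) :
    Set.InjOn (ev (p := p) v) (Img p F w D) := by
  rw [img_append hA hr hL hv hD] at h
  have h1 := Set.ncard_le_ncard (s := ev (p := p) v '' Img p F w D ∩ OO p F D)
    (t := ev (p := p) v '' Img p F w D) Set.inter_subset_left ((img_fin hB w D).image _)
  have h2 := Set.ncard_image_le (f := ev (p := p) v) (img_fin hB w D)
  exact Set.injOn_of_ncard_image_eq (by omega) (img_fin hB w D)

/-- Composition with an element of the monoid does not change the numbers for a minimal word. -/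
theorem min_eq (hA : FactsA p F) (hB : FactsB p F) {r i : ℕ} {DD : Finset ℕ} (hr : r.Prime)
    (hL : Lev p r i DD) {v w : List (Atom p)} (hv : InS p F r DD v) (hvw : InS p F r DD (v ++ w))
    (hw : IsMinW p F r DD w) {D : ℕ} (hD : D ∈ DD) :
    (Img p F (v ++ w) D).ncard = (Img p F w D).ncard := by
  by_contra hne
  have hlt : (Img p F (v ++ w) D).ncard < (Img p F w D).ncard :=
    lt_of_le_of_ne (img_le hA hB hr hL hv hD) hne
  have h1 := Finset.sum_lt_sum (s := DD) (f := fun D => (Img p F (v ++ w) D).ncard)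
    (g := fun D => (Img p F w D).ncard) (fun D hD => img_le hA hB hr hL hv hD) ⟨D, hD, hlt⟩
  have h2 := hw.2 (v ++ w) hvw
  exact absurd h2 (not_le.2 h1)

theorem min_min (hA : FactsA p F) (hB : FactsB p F) {r i : ℕ} {DD : Finset ℕ} (hr : r.Prime)
    (hL : Lev p r i DD) {v w : List (Atom p)} (hv : InS p F r DD v) (hvw : InS p F r DD (v ++ w))
    (hw : IsMinW p F r DD w) : IsMinW p F r DD (v ++ w) := by
  refine ⟨hvw, fun w' hw' => ?_⟩
  rw [Finset.sum_congr rfl (fun D hD => min_eq hA hB hr hL hv hvw hw hD)]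
  exact hw.2 w' hw'

end

end KMeAux

open KMeAux in
/-- **Me.** -/
theorem kMe (h : KStmtSS) : KStmtMe := by
  intro p _ F _ _ _ _ hA hB r i DD hr hrp hL w hw D hD hTr z y₁ hz hy₁ hne hpow Exc hExc
  obtain ⟨-, hcomp, hpr, -, hBcomp, htr, -, -⟩ := h p F hA hB r i DD hr hrp hL
  rcases Set.eq_empty_or_nonempty (Img p F w D) with he | ⟨i₀, hi₀⟩
  · rw [he, Set.ncard_empty]
    exact Nat.zero_le _
  obtain ⟨g, hg, -, hgi⟩ := hTr i₀ z hi₀.2 hz
  have hgw : InS p F r DD (g ++ w) := hcomp g w hg.1 hw.1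
  have hmin := min_min hA hB hr hL hg.1 hgw hw
  have hcard := min_eq hA hB hr hL hg.1 hgw hw hD
  have hz1 : z ∈ Img p F (g ++ w) D := by
    rw [img_append hA hr hL hg.1 hD]
    exact ⟨⟨i₀, hi₀, hgi⟩, hz⟩
  rw [← hcard]
  have hsub : Img p F (g ++ w) D ⊆ {z} ∪ (Exc ∩ OO p F D) := by
    intro y hy
    by_cases hyz : y = z
    · exact Or.inl hyz
    by_cases hyE : y ∈ Exc
    · exact Or.inr ⟨hyE, hy.2⟩
    exfalso
    obtain ⟨γ, hγ, hγz, hγy⟩ := hExc y hy.2 hyE
    have hγz' : ev γ z = z := hγz z rfl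
    have hv1 : InS p F r DD ([Atom.tr 1] ++ γ) := (hBcomp _ _ (htr 1) hγ).1
    have hv : InS p F r DD ([Atom.pow r] ++ ([Atom.tr 1] ++ γ)) := hcomp _ _ hpr hv1
    have hinj := img_inj hA hB hr hL hv hD (min_eq hA hB hr hL hv (hcomp _ _ hv hgw) hmin hD)
    have hev : ∀ x : F, ev (p := p) ([Atom.pow r] ++ ([Atom.tr 1] ++ γ)) x = (ev γ x + 1) ^ r := by
      intro x
      rw [ev_append, ev_append]
      simp only [ev_cons, ev_nil, Atom.ev, map_one]
    refine hyz (hinj hy hz1 ?_)
    rw [hev, hev, hγz', hγy, hpow]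
  have hfin : (Exc ∩ OO p F D).Finite := (hB.finO D).subset Set.inter_subset_right
  have h1 := Set.ncard_le_ncard hsub ((Set.finite_singleton z).union hfin)
  have h2 := Set.ncard_union_le {z} (Exc ∩ OO p F D)
  rw [Set.ncard_singleton] at h2
  exact h1.trans h2

end MP7K
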