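import Pool.Agent.Lib.MP_7f581e_K.Spec1

/-!
# C33, Part I: the elementary moves
-/

set_option autoImplicit false

namespace MP7K

open Polynomial Finset

namespace KMvAux

section

variable {p : ℕ} [Fact p.Prime] {F : Type} [Field F] [Algebra (ZMod p) F]

theorem lin_mul_apply (a b : (ZMod p)[X]) (y : F) : lin p (a * b) y = lin p a (lin p b y) := by
  rw [lin, map_mul, Module.End.mul_apply]
  rfl

theorem lin_add_apply (a b : (ZMod p)[X]) (y : F) : lin p (a + b) y = lin p a y + lin p b y := by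
  rw [lin, map_add, LinearMap.add_apply]
  rfl

theorem lin_sub_apply (a b : (ZMod p)[X]) (y : F) : lin p (a - b) y = lin p a y - lin p b y := by
  rw [lin, map_sub, LinearMap.sub_apply]
  rfl

theorem lin_one_apply (y : F) : lin p (1 : (ZMod p)[X]) y = y := by
  rw [lin, map_one, Module.End.one_apply]

theorem key (hA : FactsA p F) (m D : ℕ) (C' κ l : (ZMod p)[X])
    (h : X ^ D - 1 ∣ l - (1 + κ * C' * (X ^ m - 1))) (v : F) (hv : dg p v ∣ D) :
    lin p l v = v + lin p ((X ^ m - 1) * C' * κ) v := by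
  obtain ⟨q, hq⟩ := h
  have h1 : l = 1 + (X ^ m - 1) * C' * κ + q * (X ^ D - 1) := by
    have h2 : l = (1 + κ * C' * (X ^ m - 1)) + (X ^ D - 1) * q := by
      rw [← hq]
      ring
    rw [h2]
    ring
  have h3 : lin p ((X : (ZMod p)[X]) ^ D - 1) v = 0 := by
    rw [lin_sub_apply, hA.lin_X, lin_one_apply, (hA.pow_eq v D).2 hv, sub_self]
  rw [h1, lin_add_apply, lin_add_apply, lin_one_apply, lin_mul_apply q, h3, map_zero, add_zero]

end

end KMvAux

open KMvAux

theorem kMv (hU : KStmtU) (hS : KStmtSS) : KStmtMv := by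
  intro p _ F _ _ _ _ hA hB r i DD hr hrp hL m S hm hmp hD Z hZ C hC y hy κ
  obtain ⟨C', rfl⟩ := hC
  obtain ⟨l, hl, hdiv⟩ := hU p F hA hB r i m S hr hrp hm hmp (hL.val _ hD) (κ * C')
  obtain ⟨_, _, _, _, happ, _, hinv, hadd⟩ := hS p F hA hB r i DD hr hrp hL
  have hk := fun v hv => key hA m (p ^ S * m) C' κ l hdiv v hv
  have hz0 : ∀ z : F, lin p ((X ^ m - 1) * C') z = 0 → lin p ((X ^ m - 1) * C' * κ) z = 0 := by
    intro z hz
    rw [mul_comm ((X ^ m - 1) * C') κ, lin_mul_apply, hz, map_zero]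
  constructor
  · intro h
    refine ⟨[Atom.add l], hadd l hl, ?_, ?_⟩
    · intro z hz
      show lin p l z = z
      rw [hk z (by rw [hZ z hz]), hz0 z (h z hz), add_zero]
    · show lin p l y = _
      rw [hk y (by rw [hy])]
  · intro h
    refine ⟨[Atom.inv, Atom.add l, Atom.inv], ?_, ?_, ?_⟩
    · exact happ [Atom.inv] [Atom.add l, Atom.inv] hinv
        (happ [Atom.add l] [Atom.inv] (hadd l hl) hinv)
    · intro z hz
      show (lin p l z⁻¹)⁻¹ = z
      rw [hk z⁻¹ (by rw [hA.dg_inv, hZ z hz]), hz0 z⁻¹ (h z hz), add_zero, inv_inv]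
    · show (lin p l y⁻¹)⁻¹ = _
      rw [hk y⁻¹ (by rw [hA.dg_inv, hy])]

end MP7K
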