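import Pool.Agent.Lib.MP_7f581e_K.Spec1

/-!
# C33 (MP_7f581e_nt): PP, Theorem P
-/

set_option autoImplicit false

namespace MP7K

open Polynomial

namespace KPPAux

/-- `Mul p s B` for all finite nonrational sets `B` -/
def All (p : ℕ) [Fact p.Prime] (F : Type) [Field F] [Algebra (ZMod p) F] (s : ℕ) : Prop :=
  ∀ B : Set F, B.Finite → (∀ b ∈ B, b ^ p ≠ b) → Mul p s B

theorem all_one (p : ℕ) [Fact p.Prime] (F : Type) [Field F] [Algebra (ZMod p) F] : All p F 1 := by
  intro B _ _
  refine ⟨[], fun a ha => absurd ha (List.not_mem_nil), fun y _ => ?_⟩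
  rw [ev_nil, one_mul]

theorem all_mul (p : ℕ) [Fact p.Prime] (F : Type) [Field F] [Algebra (ZMod p) F]
    (h : ∀ s₁ s₂ : ℕ, All p F s₁ → All p F s₂ → All p F (s₁ * s₂)) (n : ℕ) :
    n ≠ 0 → (∀ q : ℕ, q.Prime → q ∣ n → All p F q) → All p F n := by
  induction n using induction_on_primes with
  | zero => exact fun h0 => absurd rfl h0
  | one => exact fun _ _ => all_one p F
  | prime_mul q a hq ih =>
    intro h0 hall
    refine h q a (hall q hq (Dvd.intro a rfl)) (ih (fun ha => h0 (by rw [ha, mul_zero])) ?_)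
    exact fun q' hq' hd => hall q' hq' (hd.mul_left q)

end KPPAux

open KPPAux in
theorem kPP (hBasA : KStmtBasA) (hBasB : KStmtBasB) (hTrk : KStmtTrk) (hPp : KStmtPp)
    (hPrA : KStmtPrA) (hPrB : KStmtPrB) : KStmtPP := by
  intro p _ F _ _ _ _ r
  have hA : FactsA p F := hBasA p F
  have hB : FactsB p F := hBasB p F hA
  have key : r.Prime → All p F r := by
    induction r using Nat.strong_induction_on with
    | _ r ih =>
      intro hr
      by_cases hrp : r = p
      · rw [hrp]
        exact fun B hf hn => hPp p F hA hB B hf hn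
      · have h1 : All p F (r - 1) := by
          have hr2 := hr.two_le
          refine all_mul p F (fun s₁ s₂ h1 h2 => (hTrk p F hA hB).2 s₁ s₂ h1 h2) (r - 1)
            (by omega) fun q hq hd => ih q ?_ hq
          have := Nat.le_of_dvd (by omega) hd
          omega
        exact hPrA p F hA hB r hr hrp h1 (hPrB p F hA hB r hr hrp)
  exact fun hr B hf hn => key hr B hf hn

end MP7K
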