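import Pool.Agent.Lib.MP_7f581e_K.D2

/-!
# C33 (MP_7f581e_nt), module Pa: the partners of `z`
-/

set_option autoImplicit false

namespace MP7K.Pa

open Polynomial Finset MP7K.Lin MP7K.D2

theorem dvd_div_prime {d D : ℕ} (h : d ∣ D) (hne : d ≠ D) :
    ∃ s, s.Prime ∧ s ∣ D ∧ d ∣ D / s := by
  obtain ⟨u, hu⟩ := h
  have hu1 : u ≠ 1 := by
    rintro rfl
    rw [mul_one] at hu
    exact hne hu.symm
  obtain ⟨s, hs, hsu⟩ := Nat.exists_prime_and_dvd hu1
  obtain ⟨v, hv⟩ := hsu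
  refine ⟨s, hs, ⟨d * v, ?_⟩, ⟨v, ?_⟩⟩
  · rw [hu, hv]
    ring
  · rw [hu, hv, show d * (s * v) = s * (d * v) by ring, Nat.mul_div_cancel_left _ hs.pos]

end MP7K.Pa

namespace MP7K

open Polynomial Finset MP7K.Lin MP7K.D2 MP7K.Pa

/-- **Pa.**  The partners of `z`. -/
theorem kPa (hPi : KStmtPi) (hGen : KStmtGen) (hCon : KStmtCon) (hMv : KStmtMv)
    (hGrp : KStmtGrp) : KStmtPa := by
  intro p _ F _ _ _ _ hA hB r i DD hr hrp hLev m S D₀ n hRipe hDD hD₀ hn hnD P P' hP hP' hPd hP'd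
    z y₁ hz hy₁ hLy₁ hPz hPz' y hy hU hh
  have hp : p.Prime := Fact.out
  obtain ⟨hm, hmp, hS5, hlarge, hbig⟩ := id hRipe
  set D := p ^ S * m with hD
  have hDpos : 0 < D := Nat.mul_pos (pow_pos hp.pos _) hm
  set g := D / n with hg
  set N := p ^ (S - 4) with hN
  set k := p ^ 4 * m with hk
  have hkpos : 0 < k := Nat.mul_pos (pow_pos hp.pos _) hm
  have hNpos : 0 < N := pow_pos hp.pos _
  have hDNk : D = N * k := by
    rw [hD, hN, hk, ← mul_assoc, ← pow_add]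
    congr 2
    omega
  set W : (ZMod p)[X] := X ^ m - 1 with hW
  have hWmonic : W.Monic := by
    rw [hW]
    exact monic_X_pow_sub_C 1 hm.ne'
  have hWdeg : W.natDegree = m := by
    rw [hW]
    exact natDegree_X_pow_sub_C
  have hn0 : 0 < n := by omega
  have hndvd : n ∣ D := (dvd_mul_right n D₀).trans hnD
  have hng : n * g = D := Nat.mul_div_cancel' hndvd
  have hgpos : 0 < g := by
    rcases Nat.eq_zero_or_pos g with h | h
    · rw [h, mul_zero] at hng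
      omega
    · exact h
  have hXg : (X ^ g : (ZMod p)[X]).natDegree = g := natDegree_X_pow g
  have hcm : ∀ Q : (ZMod p)[X], Q.Monic → (Q.comp (X ^ g)).Monic := fun Q hQ =>
    hQ.comp (monic_X_pow g) (by rw [hXg]; exact hgpos.ne')
  have hc : ∀ Q : (ZMod p)[X], Q.Monic → Q.natDegree ≤ D₀ →
      (W * Q.comp (X ^ g)).natDegree ≤ m + D₀ * g := by
    intro Q hQ hQd
    refine natDegree_mul_le.trans ?_
    rw [hWdeg, natDegree_comp, hXg]
    exact Nat.add_le_add_left (Nat.mul_le_mul_right _ hQd) _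
  set C₁ : (ZMod p)[X] := W * P.comp (X ^ g) with hC₁
  set C₂ : (ZMod p)[X] := W * P'.comp (X ^ g) with hC₂
  have hC₁0 : C₁ ≠ 0 := (hWmonic.mul (hcm P hP)).ne_zero
  have hC₂0 : C₂ ≠ 0 := (hWmonic.mul (hcm P' hP')).ne_zero
  have hc32 : 32 * (m + D₀ * g) ≤ 32 * m + D := by
    have : 32 * D₀ * g ≤ n * g := Nat.mul_le_mul_right _ hn
    rw [hng] at this
    nlinarith
  have hC₁z : ∀ z' ∈ ({z} : Set F), lin p C₁ z' = 0 := by
    intro z' hz'
    rw [Set.mem_singleton_iff.1 hz', hC₁, lin_mul, hPz, map_zero]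
  have hC₂z : ∀ z' ∈ ({z} : Set F), lin p C₂ z'⁻¹ = 0 := by
    intro z' hz'
    rw [Set.mem_singleton_iff.1 hz', hC₂, lin_mul, hPz', map_zero]
  have hZ : ∀ z' ∈ ({z} : Set F), dg p z' = D := by
    intro z' hz'
    rw [Set.mem_singleton_iff.1 hz', hz]
  obtain ⟨-, htrans, hsymm⟩ := hGrp p F hA hB r i DD hr hrp hLev {z}
  have mv1 : ∀ y : F, dg p y = D → ∀ κ, Eqv p F r DD {z} y (y + lin p (C₁ * κ) y) :=
    fun y hy κ => (hMv p F hA hB r i DD hr hrp hLev m S hm hmp hDD {z} hZ C₁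
      (dvd_mul_right _ _) y hy κ).1 hC₁z
  have mv2 : ∀ y : F, dg p y = D → ∀ κ, Eqv p F r DD {z} y (y⁻¹ + lin p (C₂ * κ) y⁻¹)⁻¹ :=
    fun y hy κ => (hMv p F hA hB r i DD hr hrp hLev m S hm hmp hDD {z} hZ C₂
      (dvd_mul_right _ _) y hy κ).2 hC₂z
  -- step 1
  have step1 : ∀ y v : F, dg p y = D → dg p v = D → Large p N k y → Large p N k v →
      Eqv p F r DD {z} y v⁻¹ := by
    intro y v hy hv hLy hLv
    obtain ⟨κ₁, κ₂, hne, heq⟩ := hCon p F hA hB m S (m + D₀ * g) C₁ C₂ hRipe hC₁0 hC₂0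
      (hc P hP hPd) (hc P' hP' hP'd) hc32 y v hy hv hLy hLv
    have e1 := mv1 y hy κ₁
    have hv' : dg p v⁻¹ = D := by rw [hA.dg_inv, hv]
    have e2 := mv2 v⁻¹ hv' κ₂
    rw [inv_inv, ← heq, inv_inv] at e2
    exact htrans _ _ _ e1 (hsymm _ _ (by rw [hv']; exact hDD) e2).2
  -- step 2
  set y'' := lin p (P.comp (X ^ g)) y with hy''
  rw [lin_mul] at hU
  have hdy'' : dg p y'' ∣ D := by
    rw [← hy, hy'']
    exact hA.dg_lin y _
  have hkill : lin p (W ^ (p ^ S)) y'' = 0 := by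
    rw [hW, W_pow, lin_X_pow_sub, (dg_dvd_iff y'' _).1 hdy'', sub_self]
  obtain ⟨k₁, hk1, hk2⟩ := exists_last W y'' N (p ^ S) hU hkill
  set h := lin p (W ^ (k₁ + N)) y'' with hhdef
  have hhm : h ^ (p ^ m) = h := by
    rw [pow_succ', lin_mul, ← hhdef, hW, lin_X_pow_sub] at hk2
    exact sub_eq_zero.1 hk2
  have move : ∀ t : F, t ^ (p ^ N) = t → Eqv p F r DD {z} y (y + t * h) := by
    intro t ht
    obtain ⟨κ, hκ⟩ := hPi p F hA hB m S (S - 4) k₁ hm hmp y'' hdy'' hk1 hk2 t ht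
    have e := mv1 y hy κ
    have h7 : lin p (C₁ * κ) y = t * h := by
      rw [show C₁ * κ = (W * κ) * P.comp (X ^ g) by rw [hC₁]; ring, lin_mul, ← hy'']
      exact hκ.symm
    rwa [h7] at e
  have hyD : y ^ (p ^ D) = y := (dg_dvd_iff y D).1 (by rw [hy])
  have hhD : ∀ e, m ∣ e → h ^ (p ^ e) = h := fun e he =>
    (dg_dvd_iff h e).1 (((dg_dvd_iff h m).2 hhm).trans he)
  have hdq : dg p (y / h) ∣ D := by
    rw [dg_dvd_iff, div_pow, hyD, hhD D (dvd_mul_left _ _)]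
  have hdq' : dg p (y / h) = D := by
    by_contra hne
    obtain ⟨s, hs, hsD, hds⟩ := dvd_div_prime hdq hne
    rcases (Nat.Prime.dvd_mul hs).1 hsD with h1 | h1
    · have hsp : s = p := (Nat.prime_dvd_prime_iff_eq hs hp).1 (hs.dvd_of_dvd_pow h1)
      subst hsp
      have hdiv : D / s = s ^ (S - 1) * m := by
        rw [hD]
        obtain ⟨S', rfl⟩ : ∃ S', S = S' + 1 := ⟨S - 1, by omega⟩
        rw [pow_succ', mul_assoc, Nat.mul_div_cancel_left _ hs.pos, Nat.add_sub_cancel]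
      have h2 : (y / h) ^ (s ^ (D / s)) = y / h := (dg_dvd_iff _ _).1 hds
      have h3 : h ^ (s ^ (D / s)) = h := hhD _ (by rw [hdiv]; exact dvd_mul_left _ _)
      have h4 : y ^ (s ^ (D / s)) = y := by
        rw [div_pow, h3, div_left_inj' hk1] at h2
        exact h2
      have h5 := (dg_dvd_iff y _).2 h4
      rw [hy] at h5
      have h6 := Nat.le_of_dvd (Nat.div_pos (Nat.le_of_dvd hDpos hsD) hs.pos) h5
      exact absurd (Nat.div_lt_self hDpos hs.one_lt) (not_lt.2 h6)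
    · exact hh h hk1 hhm s hs h1 hds
  obtain ⟨t, ht0, htN, hne, hLv⟩ := (hGen p F hA hB N k hkpos).1 y h hk1 (by
    intro i hi0 hik hfix
    have h1 := (dg_dvd_iff (y / h) _).2 hfix
    rw [hdq', hDNk, mul_comm i N] at h1
    have h2 := Nat.le_of_dvd hi0 (Nat.dvd_of_mul_dvd_mul_left hNpos h1)
    omega) hlarge
  have e1 := move t htN
  have hd1 : dg p (y + t * h) = D := by
    rw [(hsymm _ _ (by rw [hy]; exact hDD) e1).1, hy]
  have hdv : dg p (y + t * h)⁻¹ = D := by rw [hA.dg_inv, hd1]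
  have hdv₁ : dg p y₁⁻¹ = D := by rw [hA.dg_inv, hy₁]
  have e2 := step1 y₁⁻¹ (y + t * h)⁻¹ hdv₁ hdv hLy₁ hLv
  rw [inv_inv] at e2
  have e3 := step1 y₁⁻¹ y₁⁻¹ hdv₁ hdv₁ hLy₁ hLy₁
  rw [inv_inv] at e3
  exact htrans _ _ _ e1 (htrans _ _ _ (hsymm _ _ (by rw [hdv₁]; exact hDD) e2).2 e3)

end MP7K
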