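import Pool.Agent.Lib.MP_7f581e_K.Spec1

/-! # C33, Part I: the module lemma (Pi) -/

set_option autoImplicit false

namespace MP7K

open Polynomial

namespace KPiAux

section

variable {p : ℕ} [Fact p.Prime] {F : Type} [Field F] [Algebra (ZMod p) F]

theorem lmul (a b : (ZMod p)[X]) (y : F) : lin p (a * b) y = lin p a (lin p b y) := by
  unfold lin
  rw [map_mul]
  rfl

theorem ladd (a b : (ZMod p)[X]) (y : F) : lin p (a + b) y = lin p a y + lin p b y := by
  unfold lin
  rw [map_add]
  rfl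

theorem lsub (a b : (ZMod p)[X]) (y : F) : lin p (a - b) y = lin p a y - lin p b y := by
  unfold lin
  rw [map_sub]
  rfl

theorem lone (y : F) : lin p (1 : (ZMod p)[X]) y = y := by
  unfold lin
  rw [map_one]
  rfl

theorem lzero (y : F) : lin p (0 : (ZMod p)[X]) y = 0 := by
  unfold lin
  rw [map_zero]
  rfl

theorem lcomm (a b : (ZMod p)[X]) (y : F) : lin p a (lin p b y) = lin p b (lin p a y) := by
  rw [← lmul, ← lmul, mul_comm]

/-- the annihilator is principal -/
theorem ann (h : F) : ∃ b : (ZMod p)[X], ∀ l : (ZMod p)[X], lin p l h = 0 ↔ b ∣ l := by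
  let I : Ideal (ZMod p)[X] :=
    { carrier := {l | lin p l h = 0}
      add_mem' := by
        intro a b ha hb
        show lin p (a + b) h = 0
        rw [ladd, ha, hb, add_zero]
      zero_mem' := lzero h
      smul_mem' := by
        intro c a ha
        show lin p (c * a) h = 0
        rw [lmul, ha, map_zero] }
  obtain ⟨b, hb⟩ := (IsPrincipalIdealRing.principal I).principal
  refine ⟨b, fun l => ?_⟩
  rw [← Ideal.mem_span_singleton]
  have h1 : I = Ideal.span {b} := hb
  rw [← h1]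
  rfl

/-- the kernel of the annihilator is generated by the element -/
theorem ker_gen (hB : FactsB p F) (h : F) (b : (ZMod p)[X]) (hb0 : b ≠ 0)
    (hb : ∀ l : (ZMod p)[X], lin p l h = 0 ↔ b ∣ l) (v : F) (hv : lin p b v = 0) :
    ∃ κ : (ZMod p)[X], v = lin p κ h := by
  obtain ⟨n, hn⟩ : ∃ n, n = b.natDegree := ⟨_, rfl⟩
  let g : (Fin n → ZMod p) → F := fun a => lin p ((degreeLTEquiv (ZMod p) n).symm a).1 h
  have hginj : Function.Injective g := by
    intro a a' haa
    have h1 : lin p (((degreeLTEquiv (ZMod p) n).symm a).1 -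
        ((degreeLTEquiv (ZMod p) n).symm a').1) h = 0 := by
      rw [lsub]
      exact sub_eq_zero.2 haa
    have h2 := (hb _).1 h1
    have h3 : (((degreeLTEquiv (ZMod p) n).symm a).1 -
        ((degreeLTEquiv (ZMod p) n).symm a').1) = 0 := by
      refine eq_zero_of_dvd_of_degree_lt h2 ?_
      rw [degree_eq_natDegree hb0, ← hn]
      have h4 : (((degreeLTEquiv (ZMod p) n).symm a) -
        ((degreeLTEquiv (ZMod p) n).symm a')).1 ∈ degreeLT (ZMod p) n :=
        (((degreeLTEquiv (ZMod p) n).symm a) - ((degreeLTEquiv (ZMod p) n).symm a')).2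
      exact mem_degreeLT.1 h4
    have h5 : (degreeLTEquiv (ZMod p) n).symm a = (degreeLTEquiv (ZMod p) n).symm a' :=
      Subtype.ext (sub_eq_zero.1 h3)
    exact (degreeLTEquiv (ZMod p) n).symm.injective h5
  have hsub : Set.range g ⊆ {y : F | lin p b y = 0} := by
    rintro _ ⟨a, rfl⟩
    show lin p b (lin p _ h) = 0
    rw [lcomm, (hb b).2 dvd_rfl, map_zero]
  have hcard : (Set.range g).ncard = p ^ n := by
    rw [← Set.image_univ, Set.ncard_image_of_injective _ hginj, Set.ncard_univ,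
      Nat.card_eq_fintype_card, Fintype.card_fun, ZMod.card, Fintype.card_fin]
  have hle : {y : F | lin p b y = 0}.ncard ≤ (Set.range g).ncard := by
    rw [hcard, hn]
    exact hB.cardKer b hb0
  have heq := Set.eq_of_subset_of_ncard_le hsub hle (hB.finKer b hb0)
  have hv' : v ∈ Set.range g := by
    rw [heq]
    exact hv
  obtain ⟨a, ha⟩ := hv'
  exact ⟨_, ha.symm⟩

end

end KPiAux

open KPiAux in
theorem kPi : KStmtPi := by
  intro p _ F _ _ _ _ hA hB m S e k hm hmp y hy hne hz t ht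
  have hp : p.Prime := Fact.out
  obtain ⟨W, hW⟩ : ∃ W : (ZMod p)[X], W = X ^ m - 1 := ⟨_, rfl⟩
  obtain ⟨N, hN⟩ : ∃ N, N = p ^ e := ⟨_, rfl⟩
  have hNpos : 0 < N := by
    rw [hN]
    exact pow_pos hp.pos _
  rw [← hW, ← hN] at hne hz
  rw [← hW, ← hN]
  rw [← hN] at ht
  obtain ⟨h, hh⟩ : ∃ h, h = lin p (W ^ (k + N)) y := ⟨_, rfl⟩
  rw [← hh] at hne
  rw [← hh]
  have hWh : lin p W h = 0 := by
    rw [hh, ← lmul, ← pow_succ']
    exact hz
  obtain ⟨b, hb⟩ := ann (p := p) h
  have hWsep : W.Separable := by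
    rw [hW, X_pow_sub_one_separable_iff]
    intro h0
    rw [ZMod.natCast_eq_zero_iff] at h0
    exact (Nat.Prime.coprime_iff_not_dvd hp).1 hmp.symm h0
  have hW0 : W ≠ 0 := hWsep.ne_zero
  obtain ⟨c, hc⟩ := (hb W).1 hWh
  have hb0 : b ≠ 0 := by
    rintro rfl
    rw [zero_mul] at hc
    exact hW0 hc
  have hcop : IsCoprime b c := by
    rw [hc] at hWsep
    exact hWsep.isCoprime
  -- (1)
  have h1 : lin p (b ^ N) (t * h) = 0 := by
    have e1 := hA.comp_pow b e
    rw [← hN] at e1
    rw [← e1, hA.lin_mul b N t h ht, e1, (hb _).2 (dvd_pow_self b hNpos.ne'), mul_zero]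
  -- (2)
  have hcop2 : IsCoprime (b ^ (p ^ S)) (c ^ (p ^ S)) := hcop.pow
  obtain ⟨u, v, huv⟩ := hcop2
  obtain ⟨q, hq⟩ : ∃ q, q = v * c ^ (p ^ S) := ⟨_, rfl⟩
  obtain ⟨ys, hys⟩ : ∃ ys, ys = lin p q y := ⟨_, rfl⟩
  have hWD : lin p (W ^ (p ^ S)) y = 0 := by
    have e1 := hA.comp_pow W S
    have e2 : W.comp (X ^ (p ^ S)) = X ^ (p ^ S * m) - 1 := by
      rw [hW]
      simp only [sub_comp, pow_comp, X_comp, one_comp]
      rw [← pow_mul]
    rw [← e1, e2, lsub, hA.lin_X, lone, (hA.pow_eq y (p ^ S * m)).2 hy, sub_self]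
  have hbys : lin p (b ^ (p ^ S)) ys = 0 := by
    rw [hys, ← lmul, hq]
    have e1 : b ^ (p ^ S) * (v * c ^ (p ^ S)) = v * W ^ (p ^ S) := by
      rw [hc, mul_pow]
      ring
    rw [e1, lmul, hWD, map_zero]
  have hWys : lin p (W ^ (k + N)) ys = h := by
    rw [hys, lcomm, ← hh]
    have e1 : q = 1 - u * b ^ (p ^ S) := by
      rw [hq, ← huv]
      ring
    have e2 : b ∣ u * b ^ (p ^ S) := Dvd.dvd.mul_left (dvd_pow_self b (pow_pos hp.pos _).ne') u
    rw [e1, lsub, lone, (hb _).2 e2, sub_zero]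
  -- (3)
  have claim : ∀ i : ℕ, i ≤ N → ∀ v : F, lin p (b ^ i) v = 0 →
      ∃ κ : (ZMod p)[X], v = lin p (W * κ) y := by
    intro i
    induction i with
    | zero =>
      intro _ v hv
      rw [pow_zero, lone] at hv
      exact ⟨0, by rw [hv, mul_zero, lzero]⟩
    | succ i ih =>
      intro hi v hv
      have hbv1 : lin p b (lin p (W ^ i) v) = 0 := by
        rw [← lmul]
        have e1 : b * W ^ i = c ^ i * b ^ (i + 1) := by
          rw [hc]
          ring
        rw [e1, lmul, hv, map_zero]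
      obtain ⟨κ, hκ⟩ := ker_gen hB h b hb0 hb _ hbv1
      obtain ⟨v', hv'⟩ : ∃ v', v' = v - lin p (κ * W ^ (k + N - i)) ys := ⟨_, rfl⟩
      have e2 : lin p (W ^ i) v' = 0 := by
        rw [hv', map_sub, hκ, ← lmul]
        have e3 : W ^ i * (κ * W ^ (k + N - i)) = κ * W ^ (k + N) := by
          have e4 : k + N = i + (k + N - i) := by omega
          conv_rhs => rw [e4, pow_add]
          ring
        rw [e3, lmul, hWys, sub_self]
      have e5 : lin p (b ^ (p ^ S + N)) v' = 0 := by
        rw [hv', map_sub]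
        have e6 : lin p (b ^ (p ^ S + N)) v = 0 := by
          have e7 : b ^ (p ^ S + N) = b ^ (p ^ S + (N - (i + 1))) * b ^ (i + 1) := by
            rw [← pow_add]
            congr 1
            omega
          rw [e7, lmul, hv, map_zero]
        have e8 : lin p (b ^ (p ^ S + N)) (lin p (κ * W ^ (k + N - i)) ys) = 0 := by
          have e14 : lin p (b ^ (p ^ S + N)) ys = 0 := by
            rw [pow_add, mul_comm, lmul, hbys, map_zero]
          rw [lcomm, e14, map_zero]
        rw [e6, e8, sub_zero]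
      have e9 : lin p (b ^ i) v' = 0 := by
        have hcop3 : IsCoprime (c ^ i) (b ^ (p ^ S + N)) := hcop.symm.pow
        obtain ⟨u1, u2, hu⟩ := hcop3
        have e10 : b ^ i = u1 * W ^ i + (b ^ i * u2) * b ^ (p ^ S + N) := by
          calc b ^ i = b ^ i * 1 := (mul_one _).symm
            _ = b ^ i * (u1 * c ^ i + u2 * b ^ (p ^ S + N)) := by rw [hu]
            _ = u1 * (b * c) ^ i + (b ^ i * u2) * b ^ (p ^ S + N) := by
                rw [mul_pow]
                ring
            _ = u1 * W ^ i + (b ^ i * u2) * b ^ (p ^ S + N) := by rw [hc]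
        rw [e10, ladd, lmul, e2, map_zero, lmul, e5, map_zero, add_zero]
      obtain ⟨κ', hκ'⟩ := ih (by omega) v' e9
      refine ⟨κ' + κ * W ^ (k + N - i - 1) * q, ?_⟩
      have e11 : v = v' + lin p (κ * W ^ (k + N - i)) ys := by
        rw [hv']
        ring
      have e12 : W * (κ' + κ * W ^ (k + N - i - 1) * q) =
          W * κ' + (κ * W ^ (k + N - i)) * q := by
        have e13 : k + N - i = (k + N - i - 1) + 1 := by omega
        conv_rhs => rw [e13, pow_succ]
        ring
      rw [e11, hκ', hys, e12, ladd, lmul (κ * W ^ (k + N - i)) q]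
  exact claim N le_rfl (t * h) h1

end MP7K
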