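import Pool.Agent.Lib.MP_7f581e_K.Spec1

/-!
# C33, module Pp: Theorem P for `r = p`
-/

set_option autoImplicit false

namespace MP7K

open Polynomial Finset

/-- **Theorem P for `r = p`.** -/
theorem kPp (h : KStmtSt1) : KStmtPp := by
  intro p hpp F _ _ _ _ fA fB B hB hnr
  have hp : p.Prime := hpp.out
  obtain ⟨Q, hQ⟩ : ∃ Q : ℕ, Q = ∏ b ∈ hB.toFinset, dg p b := ⟨_, rfl⟩
  have hQ0 : Q ≠ 0 := by
    rw [hQ]
    exact Finset.prod_ne_zero_iff.2 fun b _ => (fA.pos b).ne'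
  obtain ⟨s, M, hM, hsM⟩ := Nat.exists_eq_pow_mul_and_not_dvd hQ0 p hp.ne_one
  have hM0 : 0 < M := by
    rcases Nat.eq_zero_or_pos M with h0 | h0
    · rw [h0] at hM
      exact absurd (dvd_zero p) hM
    · exact h0
  have hcop : M.Coprime p := ((hp.coprime_iff_not_dvd).2 hM).symm
  obtain ⟨h1, h2, _⟩ := h p F fA fB (s + 1) M (by omega) hM0 hcop B hnr (by
    intro b hb
    have h3 : dg p b ∣ Q := by
      rw [hQ]
      exact Finset.dvd_prod_of_mem _ (hB.mem_toFinset.2 hb)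
    rw [hsM] at h3
    exact h3)
  refine ⟨[Atom.add (X ^ (p ^ (s + 1 - 1) * M) - 1)], ?_, fun y hy => (h2 y hy).2.2⟩
  intro a ha
  rw [List.mem_singleton] at ha
  rw [ha]
  exact h1

end MP7K
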