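import Pool.Agent.Lib.MP_7f581e_K.Spec1

/-!
# C33, module PrA: first half of the pipeline
-/

set_option autoImplicit false

namespace MP7K

open Polynomial Finset

private theorem PrA_fermat {p r D : ℕ} [Fact p.Prime] (hr : r.Prime) (hrp : r ≠ p) (hD : (r - 1) ∣ D) :
    r ∣ p ^ D - 1 := by
  have : Fact r.Prime := ⟨hr⟩
  obtain ⟨k, rfl⟩ := hD
  have hp0 : (p : ZMod r) ≠ 0 := by
    intro h
    rw [ZMod.natCast_eq_zero_iff] at h
    exact hrp ((Nat.prime_dvd_prime_iff_eq hr Fact.out).1 h)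
  have h1 : (p : ZMod r) ^ ((r - 1) * k) = 1 := by
    rw [pow_mul, ZMod.pow_card_sub_one_eq_one hp0, one_pow]
  have hpp : 0 < p := (Fact.out : p.Prime).pos
  have h2 : ((p ^ ((r - 1) * k) - 1 : ℕ) : ZMod r) = 0 := by
    rw [Nat.cast_sub (Nat.one_le_pow _ _ hpp)]
    push_cast
    rw [h1, sub_self]
  exact (ZMod.natCast_eq_zero_iff _ _).1 h2

private theorem PrA_fin {p : ℕ} [Fact p.Prime] {F : Type} [Field F] [Algebra (ZMod p) F] (hB : FactsB p F)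
    {w : List (Atom p)} (hw : OkW w) {B : Set F} (hf : B.Finite) : {y : F | ev w y ∈ B}.Finite := by
  have h1 : (⋃ x ∈ B, {y : F | ev w y = x}).Finite := hf.biUnion fun x _ => hB.fib w hw x
  refine h1.subset ?_
  intro y hy
  exact Set.mem_biUnion hy rfl

private theorem PrA_nr {p : ℕ} [Fact p.Prime] {F : Type} [Field F] [Algebra (ZMod p) F] (hA : FactsA p F)
    {w : List (Atom p)} {B : Set F} (hf : ∀ b ∈ B, b ^ p ≠ b) : ∀ y ∈ {y : F | ev w y ∈ B}, y ^ p ≠ y :=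
  fun y hy h => hf _ hy (hA.rat_ev w y h)

/-- The case in which `r - 1` divides the degrees of the elements of `B`. -/
private theorem PrA_main (hTrk : KStmtTrk) (hSt1 : KStmtSt1) (hSt2 : KStmtSt2) (hSt3 : KStmtSt3)
    (hGro : KStmtGro) (hTr : KStmtTr) (p : ℕ) [Fact p.Prime] (F : Type) [Field F] [Algebra (ZMod p) F]
    [IsAlgClosed F] [Algebra.IsAlgebraic (ZMod p) F] (hA : FactsA p F) (hB : FactsB p F) (r : ℕ)
    (hr : r.Prime) (hrp : r ≠ p)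
    (H2 : ∀ B : Set F, B.Finite → (∀ b ∈ B, b ^ p ≠ b) →
      (∀ b ∈ B, ∃ D₀ n : ℕ, 0 < D₀ ∧ (r - 1) ∣ D₀ ∧ n ∣ p ^ D₀ - 1 ∧ 32 * D₀ ≤ n ∧
        n * D₀ ∣ dg p b) → Mul p r B)
    (B : Set F) (hfin : B.Finite) (hnr : ∀ b ∈ B, b ^ p ≠ b) (hdv : ∀ b ∈ B, (r - 1) ∣ dg p b) :
    Mul p r B := by
  classical
  have hp : p.Prime := Fact.out
  have hp2 : 2 ≤ p := hp.two_le
  obtain ⟨hT1, -⟩ := hTrk p F hA hB
  set Bf := hfin.toFinset with hBf
  have hPr0 : ∏ b ∈ Bf, dg p b ≠ 0 := Finset.prod_ne_zero_iff.2 fun b _ => (hA.pos b).ne'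
  obtain ⟨s, M, hM1, hM2⟩ := Nat.exists_eq_pow_mul_and_not_dvd hPr0 p hp.ne_one
  have hM0 : 0 < M := by
    rcases Nat.eq_zero_or_pos M with h | h
    · rw [h, mul_zero] at hM2
      exact absurd hM2 hPr0
    · exact h
  have hMc : M.Coprime p := ((Nat.Prime.coprime_iff_not_dvd hp).2 hM1).symm
  set A := M + Bf.card + 1 with hAdef
  obtain ⟨S₀, hS₀⟩ := hGro p A
  set S := S₀ + s + 1 with hSdef
  have hdB : ∀ b ∈ B, dg p b ∣ p ^ (S - 1) * M := by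
    intro b hb
    have h1 : dg p b ∣ ∏ b ∈ Bf, dg p b := Finset.dvd_prod_of_mem _ (hfin.mem_toFinset.2 hb)
    rw [hM2] at h1
    refine h1.trans (Nat.mul_dvd_mul_right (pow_dvd_pow p ?_) M)
    omega
  obtain ⟨hc0, hst, hcnt⟩ := hSt1 p F hA hB S M (by omega) hM0 hMc B hnr hdB
  set w₁ : List (Atom p) := [Atom.add (X ^ (p ^ (S - 1) * M) - 1)] with hw₁
  have hok₁ : OkW w₁ := by
    intro a ha
    rw [hw₁, List.mem_singleton] at ha
    rw [ha]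
    exact hc0
  set B1 : Set F := {y : F | ev w₁ y ∈ B} with hB1
  have hB1fin : B1.Finite := PrA_fin hB hok₁ hfin
  have hB1nr : ∀ b ∈ B1, b ^ p ≠ b := PrA_nr hA hnr
  set DD : Finset ℕ := (M.divisors.image (fun m => p ^ S * m)).filter (fun D => (r - 1) ∣ D) with hDD
  have hDDm : ∀ D ∈ DD, ∃ m, m ∣ M ∧ D = p ^ S * m ∧ (r - 1) ∣ D := by
    intro D hD
    rw [hDD, mem_filter, mem_image] at hD
    obtain ⟨⟨m, hm, rfl⟩, h2⟩ := hD
    exact ⟨m, Nat.dvd_of_mem_divisors hm, rfl, h2⟩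
  have hDDcard : DD.card ≤ A := by
    calc DD.card ≤ (M.divisors.image (fun m => p ^ S * m)).card := Finset.card_filter_le _ _
      _ ≤ M.divisors.card := Finset.card_image_le
      _ ≤ M := Nat.card_divisors_le_self M
      _ ≤ A := by omega
  have hB1DD : ∀ y ∈ B1, dg p y ∈ DD := by
    intro y hy
    obtain ⟨⟨m, hm, hdy⟩, h2, -⟩ := hst y hy
    rw [hDD, mem_filter, mem_image]
    refine ⟨⟨m, Nat.mem_divisors.2 ⟨hm, hM0.ne'⟩, hdy.symm⟩, ?_⟩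
    exact (hdv _ hy).trans h2
  have hB1c : ∀ D : ℕ, (B1 ∩ OO p F D).ncard ≤ Bf.card * p ^ (D / p) := by
    intro D
    have h1 : B1 ∩ OO p F D ⊆ ⋃ x ∈ Bf, {y : F | lin p (X ^ (p ^ (S - 1) * M) - 1) y = x ∧ dg p y = D} := by
      rintro y ⟨hy, hy2⟩
      rw [Set.mem_iUnion₂]
      exact ⟨ev w₁ y, hfin.mem_toFinset.2 hy, rfl, hy2⟩
    have h2 : (⋃ x ∈ Bf, {y : F | lin p (X ^ (p ^ (S - 1) * M) - 1) y = x ∧ dg p y = D}).Finite :=
      (hB.finO D).subset (by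
        intro y hy
        rw [Set.mem_iUnion₂] at hy
        obtain ⟨x, -, -, h3⟩ := hy
        exact h3)
    calc (B1 ∩ OO p F D).ncard ≤ _ := Set.ncard_le_ncard h1 h2
      _ ≤ ∑ x ∈ Bf, {y : F | lin p (X ^ (p ^ (S - 1) * M) - 1) y = x ∧ dg p y = D}.ncard :=
          Finset.set_ncard_biUnion_le _ _
      _ ≤ ∑ _x ∈ Bf, p ^ (D / p) := Finset.sum_le_sum fun x hx => hcnt x (hfin.mem_toFinset.1 hx) D
      _ = Bf.card * p ^ (D / p) := by rw [Finset.sum_const, smul_eq_mul]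
  -- growth
  have hG : ∀ D ∈ DD, ∃ m, m ∣ M ∧ D = p ^ S * m ∧ (r - 1) ∣ D ∧ Ripe p m S ∧
      2 * (A * ((32 * p * D) ^ 2 * (Bf.card * p ^ (D / p)))) < p ^ D := by
    intro D hD
    obtain ⟨m, hm, hDe, hrD⟩ := hDDm D hD
    have hm0 : 0 < m := Nat.pos_of_dvd_of_pos hm hM0
    obtain ⟨g1, -, g3, -⟩ := hS₀ S (by omega) m 1 Bf.card 0 hm0
      ((Nat.le_of_dvd hM0 hm).trans (by omega)) (Nat.Coprime.of_dvd_left hm hMc) one_pos (by omega) (by omega)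
      (Nat.zero_le _)
    refine ⟨m, hm, hDe, hrD, g1, ?_⟩
    rw [hDe]
    exact g3
  have hD32 : ∀ D ∈ DD, 32 ≤ D := by
    intro D hD
    obtain ⟨m, hm, hDe, -, g1, -⟩ := hG D hD
    obtain ⟨hm0, -, hS5, -⟩ := g1
    rw [hDe]
    calc 32 = 2 ^ 5 := by norm_num
      _ ≤ p ^ 5 := Nat.pow_le_pow_left hp2 5
      _ ≤ p ^ S := Nat.pow_le_pow_right hp.pos hS5
      _ ≤ p ^ S * m := Nat.le_mul_of_pos_right _ hm0
  set i := DD.sup id with hi
  have hLev : Lev p r i DD := by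
    refine ⟨fun D hD => le_trans (by norm_num) (hD32 D hD), fun D hD => ?_, fun D hD hdvd => ?_⟩
    · obtain ⟨m, -, -, h, -⟩ := hG D hD
      exact PrA_fermat hr hrp h
    · have h1 : D ≤ i := Finset.le_sup (f := id) hD
      have h2 : r ^ (i + 1) ≤ D := Nat.le_of_dvd (lt_of_lt_of_le (by norm_num) (hD32 D hD)) hdvd
      have h3 : i + 1 < r ^ (i + 1) := Nat.lt_pow_self hr.one_lt
      omega
  have htr : ∀ D ∈ DD, ∀ y y' : F, dg p y = D → dg p y' = D → Eqv p F r DD ∅ y y' := by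
    intro D hD y y' hy hy'
    obtain ⟨m, hm, hDe, -, g1, -⟩ := hG D hD
    subst hDe
    exact hTr p F hA hB r i DD hr hrp hLev m S g1 hD y y' hy hy'
  -- step 2
  obtain ⟨w₂, hw₂, hw₂o⟩ := hSt2 p F hA hB r i DD hr hrp hLev htr B1 (by
    intro D hD
    obtain ⟨m, hm, hDe, -, g1, g3⟩ := hG D hD
    have h4 : p ^ D ≤ 2 * (OO p F D).ncard := hB.cardO D (le_trans (by norm_num) (hD32 D hD))
    have h5 : DD.card * ((32 * p * D) ^ 2 * (B1 ∩ OO p F D).ncard) ≤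
        A * ((32 * p * D) ^ 2 * (Bf.card * p ^ (D / p))) :=
      Nat.mul_le_mul hDDcard (Nat.mul_le_mul_left _ (hB1c D))
    omega)
  have hok₂ : OkW w₂ := hw₂.1.1
  set B2 : Set F := {x : F | ev w₂ x ∈ B1 ∧ dg p x = dg p (ev w₂ x)} with hB2
  have hB2fin : B2.Finite := (PrA_fin hB hok₂ hB1fin).subset fun x hx => hx.1
  have hB2nr : ∀ b ∈ B2, b ^ p ≠ b := fun b hb => PrA_nr hA hB1nr b hb.1
  have hB2DD : ∀ x ∈ B2, dg p x ∈ DD := by
    rintro x ⟨h1, h2⟩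
    rw [h2]
    exact hB1DD _ h1
  -- step 3
  set C := ∏ D ∈ DD, D with hC
  have hC0 : 0 < C := Finset.prod_pos fun D hD => lt_of_lt_of_le (by norm_num) (hD32 D hD)
  obtain ⟨hcop3, hst3⟩ := hSt3 p F hA C hC0
  set w₃ : List (Atom p) := [Atom.pow ((p ^ C - 1) / (p - 1))] with hw₃
  have hok₃ : OkW w₃ := by
    intro a ha
    rw [hw₃, List.mem_singleton] at ha
    rw [ha]
    exact hcop3
  set B3 : Set F := {y : F | ev w₃ y ∈ B2} with hB3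
  have hMul3 : Mul p r B3 := by
    refine H2 B3 (PrA_fin hB hok₃ hB2fin) (PrA_nr hA hB2nr) ?_
    intro y hy
    have hx : ev w₃ y ∈ B2 := hy
    have hxD : dg p (ev w₃ y) ∈ DD := hB2DD _ hx
    have hx0 : ev w₃ y ≠ 0 := by
      intro h
      refine hB2nr _ hx ?_
      rw [h, zero_pow hp.ne_zero]
    obtain ⟨n, h1, h2, h3⟩ := hst3 (ev w₃ y) y hx0 (Finset.dvd_prod_of_mem _ hxD)
      (hw₂o _ hxD hx.1) rfl
    obtain ⟨m, -, -, hrD, -⟩ := hG _ hxD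
    exact ⟨dg p (ev w₃ y), n, hA.pos _, hrD, h1, h2, h3⟩
  have hMul2 : Mul p r B2 := hT1 r w₃ B2 B3 hok₃ (fun y hy _ => hy) hMul3
  have hMul1 : Mul p r B1 := by
    refine hT1 r w₂ B1 B2 hok₂ (fun y hy hnd => ?_) hMul2
    refine ⟨hy, ?_⟩
    rcases hw₂.1.2 _ (hB1DD _ hy) y rfl with h | h
    · exact h
    · exact absurd h hnd
  exact hT1 r w₁ B B1 hok₁ (fun y hy _ => hy) hMul1

theorem kPrA (hTrk : KStmtTrk) (hSt1 : KStmtSt1) (hSt2 : KStmtSt2) (hSt3 : KStmtSt3)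
    (hGro : KStmtGro) (hTr : KStmtTr) : KStmtPrA := by
  intro p _ F _ _ _ _ hA hB r hr hrp H1 H2 B hfin hnr
  obtain ⟨hT1, -⟩ := hTrk p F hA hB
  obtain ⟨wa, hok, hwa⟩ := H1 B hfin hnr
  refine hT1 r wa B {y : F | ev wa y ∈ B} hok (fun y hy _ => hy) ?_
  refine PrA_main hTrk hSt1 hSt2 hSt3 hGro hTr p F hA hB r hr hrp H2 _ (PrA_fin hB hok hfin) (PrA_nr hA hnr) ?_
  intro b hb
  exact (Dvd.intro _ rfl).trans (hwa b hb)

end MP7K
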