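import Pool.Agent.Lib.MP_7f581e_K.Spec1

/-!
# C33 (MP_7f581e_nt), module `PrB`: second half of the pipeline
-/

set_option autoImplicit false

namespace MP7K

open Polynomial Finset

namespace KPrBAux

theorem fermat {p r : ℕ} (hp : p.Prime) (hr : r.Prime) (hrp : r ≠ p) {D : ℕ} (h : (r - 1) ∣ D) :
    r ∣ p ^ D - 1 := by
  have hc : p.Coprime r := (Nat.coprime_primes hp hr).2 (Ne.symm hrp)
  have h1 : p ^ (r - 1) ≡ 1 [MOD r] := by
    have := Nat.ModEq.pow_totient hc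
    rwa [Nat.totient_prime hr] at this
  obtain ⟨k, rfl⟩ := h
  have h2 : p ^ ((r - 1) * k) ≡ 1 [MOD r] := by
    rw [pow_mul]
    simpa using h1.pow k
  exact (Nat.modEq_iff_dvd' (Nat.one_le_pow _ _ hp.pos)).1 h2.symm

theorem lev {p r : ℕ} (hr : r.Prime) (DD : Finset ℕ) (h2 : ∀ D ∈ DD, 2 ≤ D)
    (hd : ∀ D ∈ DD, r ∣ p ^ D - 1) : Lev p r (DD.sup id) DD := by
  refine ⟨h2, hd, ?_⟩
  intro D hD hdiv
  have h1 : D ≤ DD.sup id := Finset.le_sup (f := id) hD
  have h3 : r ^ (DD.sup id + 1) ≤ D := Nat.le_of_dvd (by have := h2 D hD; omega) hdiv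
  have h4 : DD.sup id + 1 < r ^ (DD.sup id + 1) := Nat.lt_pow_self hr.one_lt
  omega

theorem count {p : ℕ} [Fact p.Prime] {F : Type} [Field F] [Algebra (ZMod p) F] (B : Set F)
    (hfin : B.Finite) (f : F → F) (D N : ℕ)
    (h : ∀ x ∈ B, {y : F | f y = x ∧ dg p y = D}.ncard ≤ N) :
    ({y | f y ∈ B} ∩ OO p F D).ncard ≤ hfin.toFinset.card * N := by
  have h1 : {y | f y ∈ B} ∩ OO p F D =
      ⋃ x ∈ hfin.toFinset, {y : F | f y = x ∧ dg p y = D} := by
    ext y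
    simp only [OO, Set.mem_inter_iff, Set.mem_ofPred_eq, Set.mem_iUnion, Set.Finite.mem_toFinset,
      exists_prop]
    constructor
    · rintro ⟨h1, h2⟩
      exact ⟨f y, h1, rfl, h2⟩
    · rintro ⟨x, h1, h2, h3⟩
      exact ⟨h2 ▸ h1, h3⟩
  rw [h1]
  refine (Finset.set_ncard_biUnion_le _ _).trans ?_
  refine (Finset.sum_le_card_nsmul _ _ N ?_).trans (le_of_eq (by rw [smul_eq_mul]))
  intro x hx
  exact h x (hfin.mem_toFinset.1 hx)

end KPrBAux

open KPrBAux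

theorem kPrB (h1 : KStmtTrk) (h2 : KStmtSt1) (h3 : KStmtGro) (h4 : KStmtKls) : KStmtPrB := by
  classical
  intro p _ F _ _ _ _ hA hB r hr hrp B hfin hnr hQ
  rcases B.eq_empty_or_nonempty with hE | hne
  · subst hE
    exact ⟨[], by intro a ha; simp at ha, fun y hy => absurd hy (Set.notMem_empty _)⟩
  choose! D₀ n hDn using hQ
  have hp : p.Prime := Fact.out
  -- the product of the degrees
  obtain ⟨P, hP⟩ : ∃ P : ℕ, P = ∏ b ∈ hfin.toFinset, dg p b := ⟨_, rfl⟩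
  have hP0 : P ≠ 0 := by
    rw [hP, Finset.prod_ne_zero_iff]
    intro b _
    exact (hA.pos b).ne'
  have hdP : ∀ b ∈ B, dg p b ∣ P := by
    intro b hb
    rw [hP]
    exact Finset.dvd_prod_of_mem _ (hfin.mem_toFinset.2 hb)
  obtain ⟨s, M, hMp, hPM⟩ := Nat.exists_eq_pow_mul_and_not_dvd hP0 p hp.ne_one
  have hM0 : 0 < M := by
    rcases Nat.eq_zero_or_pos M with h | h
    · exfalso
      apply hP0
      rw [hPM, h, mul_zero]
    · exact h
  have hMc : M.Coprime p := ((Nat.Prime.coprime_iff_not_dvd hp).2 hMp).symm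
  -- the constant A
  obtain ⟨A, hAdef⟩ : ∃ A : ℕ, A = M + hfin.toFinset.card + ∑ b ∈ hfin.toFinset, n b := ⟨_, rfl⟩
  have hA1 : M ≤ A := by omega
  have hA2 : hfin.toFinset.card ≤ A := by omega
  have hA3 : ∀ b ∈ B, n b ≤ A := by
    intro b hb
    have := Finset.single_le_sum (f := n) (fun i _ => Nat.zero_le _) (hfin.mem_toFinset.2 hb)
    omega
  obtain ⟨S₀, hG⟩ := h3 p A
  obtain ⟨S, hS1, hS2⟩ : ∃ S : ℕ, s + 1 ≤ S ∧ S₀ ≤ S := ⟨max (s + 1) S₀, le_max_left _ _, le_max_right _ _⟩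
  have hdb : ∀ b ∈ B, dg p b ∣ p ^ (S - 1) * M := by
    intro b hb
    refine (hdP b hb).trans ?_
    rw [hPM]
    exact Nat.mul_dvd_mul_right (pow_dvd_pow p (by omega)) M
  obtain ⟨c1, c2, c3⟩ := h2 p F hA hB S M (by omega) hM0 hMc B hnr hdb
  obtain ⟨l, hl⟩ : ∃ l : (ZMod p)[X], l = X ^ (p ^ (S - 1) * M) - 1 := ⟨_, rfl⟩
  rw [← hl] at c1 c2 c3
  -- the levels
  obtain ⟨DD, hDD⟩ : ∃ DD : Finset ℕ, DD = (M.divisors.filter
    (fun m => ∃ b ∈ B, dg p b ∣ p ^ S * m)).image (fun m => p ^ S * m) := ⟨_, rfl⟩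
  have hDDcard : DD.card ≤ A := by
    rw [hDD]
    exact (Finset.card_image_le).trans ((Finset.card_filter_le _ _).trans
      ((Nat.card_divisors_le_self M).trans hA1))
  have hDDmem : ∀ D ∈ DD, ∃ m : ℕ, m ∣ M ∧ D = p ^ S * m ∧ ∃ b ∈ B, dg p b ∣ D := by
    intro D hD
    rw [hDD, Finset.mem_image] at hD
    obtain ⟨m, hm, rfl⟩ := hD
    rw [Finset.mem_filter, Nat.mem_divisors] at hm
    exact ⟨m, hm.1.1, rfl, hm.2⟩
  have hlev : Lev p r (DD.sup id) DD := by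
    apply lev hr
    · intro D hD
      obtain ⟨m, hm, rfl, _⟩ := hDDmem D hD
      have hm0 : 0 < m := Nat.pos_of_dvd_of_pos hm hM0
      have h5 : 2 ≤ p ^ S := by
        calc 2 ≤ p := hp.two_le
          _ = p ^ 1 := (pow_one p).symm
          _ ≤ p ^ S := Nat.pow_le_pow_right hp.pos (by omega)
      nlinarith
    · intro D hD
      obtain ⟨m, hm, _, b, hb, hbD⟩ := hDDmem D hD
      obtain ⟨_, e2, _, _, e5⟩ := hDn b hb
      apply fermat hp hr hrp
      exact e2.trans ((Dvd.intro_left (n b) rfl).trans (e5.trans hbD))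
  -- the set B₁
  have hev : ∀ y : F, ev [Atom.add l] y = lin p l y := fun y => rfl
  obtain ⟨B₁, hB₁⟩ : ∃ B₁ : Set F, B₁ = {y | lin p l y ∈ B} := ⟨_, rfl⟩
  have hB₁D : ∀ b ∈ B₁, dg p b ∈ DD := by
    intro y hy
    rw [hB₁] at hy
    obtain ⟨⟨m, hm, hym⟩, h5, _⟩ := c2 y hy
    rw [hDD, Finset.mem_image]
    refine ⟨m, ?_, hym.symm⟩
    rw [Finset.mem_filter, Nat.mem_divisors]
    exact ⟨⟨hm, hM0.ne'⟩, lin p l y, hy, hym ▸ h5⟩
  have hMul : Mul p r B₁ := by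
    apply h4 p F hA hB r (DD.sup id) DD hr hrp hlev B₁ hB₁D
    intro D hD
    obtain ⟨m, hm, hDm, b, hb, hbD⟩ := hDDmem D hD
    obtain ⟨e1, e2, e3, e4, e5⟩ := hDn b hb
    have hm0 : 0 < m := Nat.pos_of_dvd_of_pos hm hM0
    have hmA : m ≤ A := (Nat.le_of_dvd hM0 hm).trans hA1
    have hmc : m.Coprime p := Nat.Coprime.coprime_dvd_left hm hMc
    have hn0 : 0 < n b := by omega
    obtain ⟨g1, g2, g3, g4⟩ := hG S hS2 m (n b) hfin.toFinset.card
      (p ^ (p ^ (S - 4) * m + D₀ b * (D / n b)) + m * p ^ m * p ^ (D / (if p = 2 then 3 else 2)))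
      hm0 hmA hmc hn0 (hA3 b hb) hA2 (by
        rw [← hDm]
        apply Nat.add_le_add_right
        apply Nat.pow_le_pow_right hp.pos
        apply Nat.add_le_add_left
        rw [Nat.le_div_iff_mul_le (by norm_num)]
        calc D₀ b * (D / n b) * 32 = (32 * D₀ b) * (D / n b) := by ring
          _ ≤ n b * (D / n b) := Nat.mul_le_mul_right _ e4
          _ ≤ D := Nat.mul_div_le D (n b))
    rw [← hDm] at g2 g3 g4
    refine ⟨m, S, D₀ b, n b, hDm, g1, e1, fermat hp hr hrp e2, e3, e4, e5.trans hbD, g2, ?_⟩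
    have hcnt : (B₁ ∩ OO p F D).ncard ≤ hfin.toFinset.card * p ^ (D / p) := by
      rw [hB₁]
      exact count B hfin (fun y => lin p l y) D (p ^ (D / p)) (fun x hx => c3 x hx D)
    have hD4 : 4 ≤ D := by
      obtain ⟨_, _, g5, _, _⟩ := g1
      rw [hDm]
      have h5 : 2 ^ 5 ≤ p ^ S := by
        calc 2 ^ 5 ≤ 2 ^ S := Nat.pow_le_pow_right (by norm_num) g5
          _ ≤ p ^ S := Nat.pow_le_pow_left hp.two_le S
      nlinarith
    have hO := hB.cardO D hD4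
    generalize p ^ (p ^ (S - 4) * m + D₀ b * (D / n b)) +
      m * p ^ m * p ^ (D / (if p = 2 then 3 else 2)) = E at *
    have h5 : DD.card * ((1 + E) * (B₁ ∩ OO p F D).ncard) ≤
        A * ((1 + E) * (hfin.toFinset.card * p ^ (D / p))) :=
      Nat.mul_le_mul hDDcard (Nat.mul_le_mul_left _ hcnt)
    omega
  refine (h1 p F hA hB).1 r [Atom.add l] B B₁ ?_ ?_ hMul
  · intro a ha
    rw [List.mem_singleton] at ha
    subst ha
    exact c1
  · intro y hy _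
    rw [hB₁]
    exact hy

end MP7K
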