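import Pool.Agent.Lib.MP_7f581e_K.Spec1

/-!
# C33, St1: the additive step
-/

set_option autoImplicit false

namespace MP7K

open Polynomial Finset

namespace St1

theorem lin_sub_one {p : ℕ} [Fact p.Prime] {F : Type} [Field F] [Algebra (ZMod p) F]
    (hA : FactsA p F) (A : ℕ) (y : F) :
    lin p (X ^ A - 1 : (ZMod p)[X]) y = y ^ (p ^ A) - y := by
  have h := hA.lin_X A y
  unfold lin at h ⊢
  rw [map_sub, map_one, LinearMap.sub_apply, h, Module.End.one_apply]

theorem frob_add {p : ℕ} [Fact p.Prime] {F : Type} [Field F] [Algebra (ZMod p) F]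
    (hA : FactsA p F) (k : ℕ) (y z : F) : (y + z) ^ (p ^ k) = y ^ (p ^ k) + z ^ (p ^ k) := by
  rw [← hA.lin_X, ← hA.lin_X, ← hA.lin_X, map_add]

theorem frob_sub {p : ℕ} [Fact p.Prime] {F : Type} [Field F] [Algebra (ZMod p) F]
    (hA : FactsA p F) (k : ℕ) (y z : F) : (y - z) ^ (p ^ k) = y ^ (p ^ k) - z ^ (p ^ k) := by
  rw [← hA.lin_X, ← hA.lin_X, ← hA.lin_X, map_sub]

end St1

open St1 in
/-- the additive step -/
theorem kSt1 : KStmtSt1 := by
  intro p hp F _ _ _ _ hA hB S M hS hM hMp B hBr hBd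
  have hp0 : 0 < p := hp.out.pos
  set A := p ^ (S - 1) * M with hAdef
  have hA0 : 0 < A := Nat.mul_pos (pow_pos hp0 _) hM
  have hpA : p * A = p ^ S * M := by
    rw [hAdef, ← mul_assoc, ← pow_succ', Nat.sub_add_cancel hS]
  have hpF : (p : F) = 0 := by
    have h : CharP F p := charP_of_injective_algebraMap (algebraMap (ZMod p) F).injective p
    exact CharP.cast_eq_zero F p
  -- the degree of a point above `B`
  have key : ∀ y : F, lin p (X ^ A - 1 : (ZMod p)[X]) y ∈ B →
      ∃ m, m ∣ M ∧ dg p y = p ^ S * m := by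
    intro y hy
    have hx := hBd _ hy
    have hxr := hBr _ hy
    rw [lin_sub_one hA] at hx hxr
    set x := y ^ (p ^ A) - y with hxdef
    have hyx : y ^ (p ^ A) = y + x := by rw [hxdef]; ring
    have hx0 : x ≠ 0 := by
      intro h
      rw [h] at hxr
      exact hxr (zero_pow hp0.ne')
    have hxA : x ^ (p ^ A) = x := (hA.pow_eq x A).2 hx
    have hj : ∀ j : ℕ, y ^ (p ^ (A * j)) = y + j * x := by
      intro j
      induction j with
      | zero => simp
      | succ j ih =>
        have hcast : ((j : F) * x) ^ (p ^ A) = j * x := by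
          rw [mul_pow, hxA]
          congr 1
          have : ((j : ZMod p)) ^ (p ^ A) = (j : ZMod p) := ZMod.pow_card_pow _
          have h2 := congrArg (algebraMap (ZMod p) F) this
          rwa [map_pow, map_natCast] at h2
        rw [mul_add, mul_one, pow_add, pow_mul, ih, frob_add hA, hyx, hcast]
        push_cast
        ring
    have h1 : dg p y ∣ p ^ S * M := by
      rw [← hpA, mul_comm]
      apply (hA.pow_eq y _).1
      rw [hj, hpF, zero_mul, add_zero]
    have h2 : ¬ dg p y ∣ A := by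
      intro h
      have := (hA.pow_eq y A).2 h
      rw [hyx] at this
      exact hx0 (by simpa using this)
    obtain ⟨a, m, ha, hm, ham⟩ := (Nat.dvd_mul).1 h1
    obtain ⟨k, hk, rfl⟩ := (Nat.dvd_prime_pow hp.out).1 ha
    refine ⟨m, hm, ?_⟩
    rcases Nat.lt_or_ge k S with hkS | hkS
    · exfalso
      apply h2
      rw [← ham, hAdef]
      exact mul_dvd_mul (pow_dvd_pow p (by omega)) hm
    · rw [← ham, le_antisymm hk hkS]
  refine ⟨?_, ?_, ?_⟩
  · rw [coeff_sub, coeff_X_pow, if_neg hA0.ne, coeff_one_zero, zero_sub]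
    exact neg_ne_zero.2 one_ne_zero
  · intro y hy
    obtain ⟨m, hm, hdg⟩ := key y hy
    have hdv : dg p (lin p (X ^ A - 1 : (ZMod p)[X]) y) ∣ dg p y := hA.dg_lin y _
    refine ⟨⟨m, hm, hdg⟩, hdv, ?_⟩
    obtain ⟨a, m', ha, hm', ham⟩ := (Nat.dvd_mul).1 (hBd _ hy)
    obtain ⟨k, hk, rfl⟩ := (Nat.dvd_prime_pow hp.out).1 ha
    have hm'p : m'.Coprime (p ^ S) := (hMp.coprime_dvd_left hm').pow_right S
    have hm'm : m' ∣ m := by
      have h1 : m' ∣ p ^ S * m := by
        rw [← hdg]
        exact (dvd_trans (dvd_mul_left _ _) (dvd_of_eq ham)).trans hdv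
      exact hm'p.dvd_of_dvd_mul_left h1
    rw [← ham, hdg, ← mul_assoc, ← pow_succ']
    exact mul_dvd_mul (pow_dvd_pow p (by omega)) hm'm
  · intro x hx D
    rcases Set.eq_empty_or_nonempty {y : F | lin p (X ^ A - 1 : (ZMod p)[X]) y = x ∧ dg p y = D}
      with he | ⟨y₀, hy₀, hD⟩
    · rw [he, Set.ncard_empty]
      exact Nat.zero_le _
    · obtain ⟨m, hm, hdg⟩ := key y₀ (by rw [hy₀]; exact hx)
      rw [hD] at hdg
      have hm0 : 0 < m := Nat.pos_of_dvd_of_pos hm hM
      have hDp : D / p = p ^ (S - 1) * m := by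
        apply Nat.div_eq_of_eq_mul_right hp0
        rw [hdg, ← mul_assoc, ← pow_succ', Nat.sub_add_cancel hS]
      have hDp0 : 0 < D / p := by
        rw [hDp]
        exact Nat.mul_pos (pow_pos hp0 _) hm0
      rw [← hB.cardK (D / p) hDp0]
      have hsub : {y : F | lin p (X ^ A - 1 : (ZMod p)[X]) y = x ∧ dg p y = D} ⊆
          (fun v => v + y₀) '' {y : F | y ^ (p ^ (D / p)) = y} := by
        rintro y ⟨hy, hyD⟩
        refine ⟨y - y₀, ?_, sub_add_cancel y y₀⟩
        change (y - y₀) ^ (p ^ (D / p)) = y - y₀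
        rw [hA.pow_eq, hDp]
        have h1 : dg p (y - y₀) ∣ A := by
          apply (hA.pow_eq _ _).1
          rw [lin_sub_one hA] at hy hy₀
          rw [frob_sub hA]
          linear_combination hy - hy₀
        have h2 : dg p (y - y₀) ∣ D := by
          apply (hA.pow_eq _ _).1
          rw [frob_sub hA, (hA.pow_eq y D).2 (dvd_of_eq hyD), (hA.pow_eq y₀ D).2 (dvd_of_eq hD)]
        rw [hAdef] at h1
        rw [hdg] at h2
        -- gcd
        obtain ⟨a, m', ha, hm', ham⟩ := (Nat.dvd_mul).1 h1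
        obtain ⟨k, hk, rfl⟩ := (Nat.dvd_prime_pow hp.out).1 ha
        have hm'p : m'.Coprime (p ^ S) := (hMp.coprime_dvd_left hm').pow_right S
        have hm'm : m' ∣ m := by
          have h3 : m' ∣ p ^ S * m := (dvd_trans (dvd_mul_left _ _) (dvd_of_eq ham)).trans h2
          exact hm'p.dvd_of_dvd_mul_left h3
        rw [← ham]
        exact mul_dvd_mul (pow_dvd_pow p (by omega)) hm'm
      calc _ ≤ ((fun v => v + y₀) '' {y : F | y ^ (p ^ (D / p)) = y}).ncard :=
            Set.ncard_le_ncard hsub ((hB.finK _ hDp0).image _)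
        _ ≤ _ := Set.ncard_image_le (hB.finK _ hDp0)

end MP7K
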