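import Pool.Agent.Lib.MP_7f581e_K.Spec1

/-!
# C33, statement St2: the elements of small order are avoided
-/

set_option autoImplicit false

namespace MP7K

open Polynomial Finset

namespace KSt2Aux

/-- there are at most `M ^ 2` elements of positive order less than `M` -/
theorem few {F : Type} [Field F] (M : ℕ) (I : Set F)
    (hI : ∀ x ∈ I, 0 < orderOf x ∧ orderOf x < M) : I.ncard ≤ M * M := by
  classical
  set T : Finset F := (Finset.range M).biUnion (fun o => (nthRoots o (1 : F)).toFinset) with hT
  have hsub : I ⊆ (T : Set F) := by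
    intro x hx
    obtain ⟨h1, h2⟩ := hI x hx
    rw [hT, Finset.mem_coe, Finset.mem_biUnion]
    refine ⟨orderOf x, Finset.mem_range.2 h2, ?_⟩
    rw [Multiset.mem_toFinset, mem_nthRoots h1]
    exact pow_orderOf_eq_one x
  have hcard : T.card ≤ M * M := by
    have h1 := Finset.card_biUnion_le_card_mul (Finset.range M)
      (fun o => (nthRoots o (1 : F)).toFinset) M (by
        intro o ho
        refine (Multiset.toFinset_card_le _).trans ((card_nthRoots o (1 : F)).trans ?_)
        exact (Finset.mem_range.1 ho).le)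
    rwa [Finset.card_range] at h1
  calc I.ncard ≤ (T : Set F).ncard := Set.ncard_le_ncard hsub (Finset.finite_toSet T)
    _ = T.card := Set.ncard_coe_finset T
    _ ≤ M * M := hcard

theorem order_pos {p : ℕ} [Fact p.Prime] {F : Type} [Field F] [Algebra (ZMod p) F]
    (hA : FactsA p F) {x : F} {D : ℕ} (hD : 2 ≤ D) (hx : dg p x = D) : 0 < orderOf x := by
  have hp : p.Prime := Fact.out
  have hx0 : x ≠ 0 := by
    rintro rfl
    have h1 := (hA.pow_eq (0 : F) 1).1 (by
      rw [pow_one]
      exact zero_pow hp.ne_zero)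
    rw [hx] at h1
    have h2 := Nat.le_of_dvd one_pos h1
    omega
  have h1 : x ^ (p ^ D) = x := (hA.pow_eq x D).2 (by rw [hx])
  have hpD : 1 < p ^ D := Nat.one_lt_pow (by omega) hp.one_lt
  have h2 : x ^ (p ^ D - 1) = 1 := by
    have h3 : x ^ (p ^ D - 1) * x = 1 * x := by
      rw [← pow_succ, one_mul, Nat.sub_add_cancel hpD.le]
      exact h1
    exact mul_right_cancel₀ hx0 h3
  rw [orderOf_pos_iff, isOfFinOrder_iff_pow_eq_one]
  exact ⟨p ^ D - 1, by omega, h2⟩

end KSt2Aux

open KSt2Aux in
theorem kSt2 (h : KStmtAv) : KStmtSt2 := by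
  intro p _ F _ _ _ _ hA hB r i DD hr hrp hL htr B hcard
  have hp : p.Prime := Fact.out
  obtain ⟨w, hw, hwB⟩ := h p F hA hB r i DD hr hrp hL htr
    {x : F | orderOf x < 32 * (p - 1) * dg p x} B (by
      intro D hD
      refine lt_of_le_of_lt ?_ (hcard D hD)
      refine Nat.mul_le_mul_left _ (Nat.mul_le_mul_right _ ?_)
      have h1 := few (32 * (p - 1) * D) ({x : F | orderOf x < 32 * (p - 1) * dg p x} ∩ OO p F D)
        (by
          rintro x ⟨hx1, hx2⟩
          have hx3 : dg p x = D := hx2
          refine ⟨order_pos hA (hL.two D hD) hx3, ?_⟩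
          have hx4 : orderOf x < 32 * (p - 1) * dg p x := hx1
          rw [hx3] at hx4
          exact hx4)
      refine h1.trans ?_
      rw [pow_two]
      have h2 : 32 * (p - 1) * D ≤ 32 * p * D :=
        Nat.mul_le_mul_right _ (Nat.mul_le_mul_left _ (Nat.sub_le p 1))
      exact Nat.mul_le_mul h2 h2)
  refine ⟨w, hw, fun x hx hxB => ?_⟩
  by_contra hlt
  exact hwB x hx (not_le.1 hlt) hxB

end MP7K
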