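import Pool.Agent.Lib.MP_7f581e_K.Spec1

/-!
# C33, St3: the norm step
-/

set_option autoImplicit false

namespace MP7K

open Polynomial Finset

/-- the norm step -/
theorem kSt3 : KStmtSt3 := by
  intro p hp F _ _ _ _ hA C hC
  have hp2 : 2 ≤ p := hp.out.two_le
  have hp1 : 0 < p - 1 := by omega
  have hgeo : ∑ k ∈ range C, p ^ k = (p ^ C - 1) / (p - 1) := Nat.geomSum_eq hp2 C
  have hdiv : (p - 1) ∣ p ^ C - 1 := by
    simpa using Nat.sub_dvd_pow_sub_pow p 1 C
  have hmul : (p - 1) * ((p ^ C - 1) / (p - 1)) = p ^ C - 1 := Nat.mul_div_cancel' hdiv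
  set q := (p ^ C - 1) / (p - 1) with hq
  have hq1 : ∃ s, q = p * s + 1 := by
    obtain ⟨c, rfl⟩ : ∃ c, C = c + 1 := ⟨C - 1, by omega⟩
    refine ⟨∑ k ∈ range c, p ^ k, ?_⟩
    rw [← hgeo, Finset.sum_range_succ', pow_zero, Finset.mul_sum]
    congr 1
    exact Finset.sum_congr rfl fun k _ => by rw [pow_succ, mul_comm]
  obtain ⟨s, hs⟩ := hq1
  refine ⟨?_, ?_⟩
  · rw [hs]
    simp
  · intro x y hx hxC hord hy
    have hq0 : q ≠ 0 := by omega
    have hy0 : y ≠ 0 := by
      rintro rfl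
      rw [zero_pow hq0] at hy
      exact hx hy.symm
    have hD : 0 < dg p x := hA.pos x
    have hpD : 1 < p ^ dg p x := Nat.one_lt_pow hD.ne' hp2
    have hxD : x ^ (p ^ dg p x - 1) = 1 := by
      have h1 : x ^ (p ^ dg p x) = x := (hA.pow_eq x _).2 dvd_rfl
      have h2 : x ^ (p ^ dg p x - 1) * x = 1 * x := by
        rw [← pow_succ, Nat.sub_add_cancel hpD.le, h1, one_mul]
      exact mul_right_cancel₀ hx h2
    have hxC' : x ^ (p ^ C) = x := (hA.pow_eq x C).2 hxC
    set ρ := x ^ (p - 1) with hρ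
    have hρD : ρ ^ (p ^ dg p x - 1) = 1 := by
      rw [hρ, ← pow_mul, mul_comm, pow_mul, hxD, one_pow]
    have hn0 : 0 < orderOf ρ :=
      orderOf_pos_iff.2 (isOfFinOrder_iff_pow_eq_one.2 ⟨_, by omega, hρD⟩)
    have hρC : ρ ^ (p ^ C) = ρ := by
      rw [hρ, ← pow_mul, mul_comm, pow_mul, hxC']
    have hpC : 0 < p ^ C := pow_pos (by omega) C
    have hyC : y ^ (p ^ C) = ρ * y := by
      have h1 : p ^ C = q * (p - 1) + 1 := by
        rw [mul_comm q, hmul]
        omega
      rw [h1, pow_succ, pow_mul, hy]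
    have hyj : ∀ j : ℕ, y ^ (p ^ (C * j)) = ρ ^ j * y := by
      intro j
      induction j with
      | zero => simp
      | succ j ih =>
        rw [mul_add, mul_one, pow_add, pow_mul, ih, mul_pow, ← pow_mul, mul_comm j, pow_mul, hρC,
          hyC, pow_succ, mul_assoc]
    refine ⟨orderOf ρ, orderOf_dvd_of_pow_eq_one hρD, ?_, ?_⟩
    · have h1 : orderOf x ∣ (p - 1) * orderOf ρ := by
        apply orderOf_dvd_of_pow_eq_one
        rw [pow_mul, ← hρ, pow_orderOf_eq_one]
      have h2 : orderOf x ≤ (p - 1) * orderOf ρ := Nat.le_of_dvd (Nat.mul_pos hp1 hn0) h1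
      have h3 : (p - 1) * (32 * dg p x) ≤ (p - 1) * orderOf ρ := by
        calc (p - 1) * (32 * dg p x) = 32 * (p - 1) * dg p x := by ring
          _ ≤ _ := hord.trans h2
      exact Nat.le_of_mul_le_mul_left h3 hp1
    · have hDy : dg p x ∣ dg p y := by
        rw [← hy]
        exact hA.dg_pow y q
      have hy' : 0 < dg p y := hA.pos y
      obtain ⟨d, hd⟩ := Nat.gcd_dvd_left (dg p y) C
      obtain ⟨c, hc⟩ := Nat.gcd_dvd_right (dg p y) C
      have h1 : dg p y ∣ C * d := by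
        refine ⟨c, ?_⟩
        calc C * d = (dg p y).gcd C * c * d := by rw [← hc]
          _ = (dg p y).gcd C * d * c := by ring
          _ = dg p y * c := by rw [← hd]
      have h2 : orderOf ρ ∣ d := by
        apply orderOf_dvd_of_pow_eq_one
        have h3 := (hA.pow_eq y (C * d)).2 h1
        rw [hyj] at h3
        exact mul_right_cancel₀ hy0 (by rw [h3, one_mul])
      rw [hd, mul_comm]
      exact mul_dvd_mul (Nat.dvd_gcd hDy hxC) h2

end MP7K
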