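import Pool.Agent.Lib.MP_7f581e_K.Spec1

/-!
# C33 (MP_7f581e_nt): the group is transitive on the elements of degree `D`
-/

set_option autoImplicit false

namespace MP7K

open Polynomial Finset

namespace KTrAux

variable (p : ℕ) [Fact p.Prime] {F : Type} [Field F] [Algebra (ZMod p) F]

theorem lin_mul' (a b : (ZMod p)[X]) (y : F) : lin p (a * b) y = lin p a (lin p b y) := by
  unfold lin
  rw [map_mul]
  rfl

theorem lin_one' (y : F) : lin p (1 : (ZMod p)[X]) y = y := by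
  unfold lin
  rw [map_one]
  rfl

theorem lin_sub' (a b : (ZMod p)[X]) (y : F) : lin p (a - b) y = lin p a y - lin p b y := by
  unfold lin
  rw [map_sub]
  rfl

end KTrAux

open KTrAux in
theorem kTr (h1 : KStmtPi) (h2 : KStmtD1) (h3 : KStmtD2) (h4 : KStmtGen) (h5 : KStmtCon)
    (h6 : KStmtMv) (h7 : KStmtSS) (h8 : KStmtGrp) : KStmtTr := by
  intro p _ F _ _ _ _ hA hB r i DD hr hrp hLev m S hR hmem y y' hy hy'
  have hchar : CharP F p := charP_of_injective_algebraMap (algebraMap (ZMod p) F).injective p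
  have hp : p.Prime := Fact.out
  have hRipe := hR
  obtain ⟨hm, hmp, hS5, hbig, _⟩ := hR
  obtain ⟨_, _, _, _, _, hTR, hINV, _⟩ := h7 p F hA hB r i DD hr hrp hLev
  obtain ⟨hrefl, htrans, hsymm⟩ := h8 p F hA hB r i DD hr hrp hLev ∅
  have hmv := h6 p F hA hB r i DD hr hrp hLev m S hm hmp hmem ∅ (by simp) ((X : (ZMod p)[X]) ^ m - 1)
    dvd_rfl
  obtain ⟨D, hD⟩ : ∃ D, D = p ^ S * m := ⟨_, rfl⟩
  obtain ⟨W, hW⟩ : ∃ W : (ZMod p)[X], W = X ^ m - 1 := ⟨_, rfl⟩
  have hWp : ∀ e : ℕ, W ^ (p ^ e) = X ^ (p ^ e * m) - 1 := by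
    intro e
    rw [← hA.comp_pow W e, hW, sub_comp, pow_comp, X_comp, one_comp, ← pow_mul]
  have hlinX : ∀ (k : ℕ) (z : F), lin p ((X : (ZMod p)[X]) ^ k - 1) z = z ^ (p ^ k) - z := by
    intro k z
    rw [lin_sub', hA.lin_X, lin_one']
  -- elementary equivalences
  have hpos : ∀ z : F, dg p z = p ^ S * m → Eqv p F r DD ∅ z z⁻¹ := by
    intro z _
    exact ⟨[Atom.inv], hINV, by simp, rfl⟩
  have htr : ∀ (z : F) (c : ZMod p), Eqv p F r DD ∅ z (z + algebraMap (ZMod p) F c) := by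
    intro z c
    exact ⟨[Atom.tr c], hTR c, by simp, rfl⟩
  have hdg : ∀ z z' : F, dg p z = p ^ S * m → Eqv p F r DD ∅ z z' → dg p z' = p ^ S * m := by
    intro z z' hz hzz
    have h9 := (hsymm z z' (by rw [hz]; exact hmem) hzz).1
    rw [h9, hz]
  have hmv1 : ∀ z : F, dg p z = p ^ S * m → ∀ κ : (ZMod p)[X],
      Eqv p F r DD ∅ z (z + lin p (W * κ) z) := by
    intro z hz κ
    rw [hW]
    exact (hmv z hz κ).1 (by simp)
  -- every element is equivalent to a large one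
  have step1 : ∀ z : F, dg p z = p ^ S * m → ∃ u : F, Eqv p F r DD ∅ z u ∧ dg p u = p ^ S * m ∧
      Large p (p ^ (S - 4)) (p ^ 4 * m) u := by
    intro z hz
    have hN1 : p ^ S = p * p ^ (S - 1) := by
      rw [← pow_succ']
      congr 1
      omega
    have hnz : lin p (W ^ (0 + p ^ (S - 1))) z ≠ 0 := by
      rw [zero_add, hWp, hlinX, sub_ne_zero]
      intro h
      rw [hA.pow_eq, hz] at h
      have h9 := Nat.le_of_dvd (Nat.mul_pos (pow_pos hp.pos _) hm) h
      rw [hN1, mul_assoc] at h9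
      have h10 : 0 < p ^ (S - 1) * m := Nat.mul_pos (pow_pos hp.pos _) hm
      have h11 := hp.two_le
      nlinarith
    have hzero : ∃ k, lin p (W ^ (k + p ^ (S - 1))) z = 0 := by
      refine ⟨p ^ S, ?_⟩
      rw [pow_add, mul_comm, lin_mul', hWp S, hlinX]
      have h9 : z ^ (p ^ (p ^ S * m)) = z := by
        rw [hA.pow_eq, hz]
      rw [h9, sub_self, map_zero]
    classical
    obtain ⟨k₀, hk₀, hmin⟩ : ∃ k, lin p (W ^ (k + p ^ (S - 1))) z = 0 ∧
        ∀ j < k, lin p (W ^ (j + p ^ (S - 1))) z ≠ 0 :=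
      ⟨Nat.find hzero, Nat.find_spec hzero, fun j hj => Nat.find_min hzero hj⟩
    obtain ⟨k, rfl⟩ : ∃ k, k₀ = k + 1 := by
      rcases Nat.eq_zero_or_pos k₀ with h | h
      · rw [h] at hk₀
        exact absurd hk₀ hnz
      · exact ⟨k₀ - 1, by omega⟩
    have hk1 := hmin k (by omega)
    have hk2 : lin p (W ^ (k + p ^ (S - 1) + 1)) z = 0 := by
      have e : k + p ^ (S - 1) + 1 = k + 1 + p ^ (S - 1) := by ring
      rw [e]
      exact hk₀
    obtain ⟨h, hh⟩ : ∃ h : F, h = lin p (W ^ (k + p ^ (S - 1))) z := ⟨_, rfl⟩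
    have hh0 : h ≠ 0 := hh ▸ hk1
    have hhm : h ^ (p ^ m) = h := by
      have h9 : lin p W h = 0 := by
        rw [hh, ← lin_mul', ← pow_succ', hk2]
      rw [hW, hlinX, sub_eq_zero] at h9
      exact h9
    have hPi := h1 p F hA hB m S (S - 1) k hm hmp z (by rw [hz]) (by rw [← hW]; exact hk1)
      (by rw [← hW]; exact hk2)
    rw [← hW, ← hh] at hPi
    obtain ⟨c, t, ht, hne, htrace⟩ := h2 p F hA hB m S hRipe z h hz hh0 hhm
    obtain ⟨κ, hκ⟩ := hPi t ht
    obtain ⟨x, hx⟩ : ∃ x : F, x = (z + algebraMap (ZMod p) F c + t * h)⁻¹ := ⟨_, rfl⟩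
    rw [← hx] at htrace
    have e1 : Eqv p F r DD ∅ z (z + t * h) := by
      rw [hκ]
      exact hmv1 z hz κ
    have d1 := hdg _ _ hz e1
    have e2 : Eqv p F r DD ∅ z (z + algebraMap (ZMod p) F c + t * h) := by
      have e3 := htrans _ _ _ e1 (htr (z + t * h) c)
      have e4 : z + t * h + algebraMap (ZMod p) F c = z + algebraMap (ZMod p) F c + t * h := by ring
      rwa [e4] at e3
    have d2 := hdg _ _ hz e2
    have e3 : Eqv p F r DD ∅ z x := by
      rw [hx]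
      exact htrans _ _ _ e2 (hpos _ d2)
    have d3 := hdg _ _ hz e3
    have hD2 := h3 p F hA hB m S hm hmp (by omega) x (by rw [d3]) htrace
    obtain ⟨hgen, _⟩ := h4 p F hA hB (p ^ (S - 4)) (p ^ 4 * m) (Nat.mul_pos (pow_pos hp.pos _) hm)
    obtain ⟨t', _, ht'N, hxt, hLarge⟩ := hgen x 1 one_ne_zero (by
      intro j hj hjk hcon
      rw [div_one, hA.pow_eq, d3] at hcon
      have h9 := Nat.le_of_dvd (Nat.mul_pos hj (pow_pos hp.pos _)) hcon
      have h10 : p ^ S * m = p ^ 4 * m * p ^ (S - 4) := by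
        have : p ^ S = p ^ 4 * p ^ (S - 4) := by
          rw [← pow_add]
          congr 1
          omega
        rw [this]
        ring
      rw [h10] at h9
      have h11 := Nat.le_of_mul_le_mul_right h9 (pow_pos hp.pos _)
      omega) hbig
    rw [mul_one] at hxt hLarge
    have ht'1 : t' ^ (p ^ (p ^ (S - 1))) = t' := by
      rw [hA.pow_eq] at ht'N ⊢
      exact ht'N.trans (pow_dvd_pow p (by omega))
    obtain ⟨κ', hκ'⟩ := hD2 t' ht'1
    rw [← hW] at hκ'
    have e4 : Eqv p F r DD ∅ x (x + t') := by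
      conv_rhs => rw [hκ']
      exact hmv1 x d3 κ'
    have e5 := htrans _ _ _ e3 e4
    have d5 := hdg _ _ hz e5
    have e6 := htrans _ _ _ e5 (hpos _ d5)
    exact ⟨(x + t')⁻¹, e6, hdg _ _ hz e6, hLarge⟩
  -- two large elements
  have step2 : ∀ u v : F, dg p u = p ^ S * m → dg p v = p ^ S * m →
      Large p (p ^ (S - 4)) (p ^ 4 * m) u → Large p (p ^ (S - 4)) (p ^ 4 * m) v →
      Eqv p F r DD ∅ u v := by
    intro u v hu hv hLu hLv
    have hWne : W ≠ 0 := by
      rw [hW]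
      exact X_pow_sub_C_ne_zero hm 1
    have hWd : W.natDegree = m := by
      rw [hW]
      exact natDegree_X_pow_sub_C
    obtain ⟨κ₁, κ₂, _, hk2⟩ := h5 p F hA hB m S m W W hRipe hWne hWne hWd.le hWd.le
      (Nat.le_add_right _ _) u v hu hv hLu hLv
    have e1 := hmv1 u hu κ₁
    have d1 := hdg _ _ hu e1
    have e2 := htrans _ _ _ e1 (hpos _ d1)
    have e3 := hmv1 v hv κ₂
    rw [hk2] at e2
    have e4 := (hsymm _ _ (by rw [hv]; exact hmem) e3).2
    exact htrans _ _ _ e2 e4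
  obtain ⟨u, e1, d1, l1⟩ := step1 y hy
  obtain ⟨v, e2, d2, l2⟩ := step1 y' hy'
  have e3 := step2 u v d1 d2 l1 l2
  have e4 := (hsymm _ _ (by rw [hy']; exact hmem) e2).2
  exact htrans _ _ _ e1 (htrans _ _ _ e3 e4)

end MP7K
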