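import Pool.Agent.Lib.MP_7f581e_K.Spec1

/-!
# C33 (MP_7f581e_nt): Trk, formal properties of `Mul`
-/

set_option autoImplicit false

namespace MP7K

open Polynomial

namespace KTrkAux

theorem ok_append {p : ℕ} {v w : List (Atom p)} (hv : OkW v) (hw : OkW w) : OkW (v ++ w) := by
  intro a ha
  rcases List.mem_append.1 ha with h | h
  · exact hv a h
  · exact hw a h

end KTrkAux

open KTrkAux in
theorem kTrk : KStmtTrk := by
  intro p _ F _ _ _ _ hA hB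
  refine ⟨?_, ?_⟩
  · rintro r w₁ B B₁ hw₁ hc ⟨w, hw, h⟩
    refine ⟨w₁ ++ w, ok_append hw₁ hw, fun y hy => ?_⟩
    rw [ev_append] at hy ⊢
    by_cases hd : r * dg p (ev w₁ (ev w y)) ∣ dg p (ev w y)
    · exact hd.trans (hA.dg_ev w y)
    · exact (Nat.mul_dvd_mul_left r (hA.dg_ev w₁ (ev w y))).trans (h y (hc _ hy hd))
  · intro s₁ s₂ h1 h2 B hfin hnr
    obtain ⟨w₁, hw₁, hh₁⟩ := h1 B hfin hnr
    have hfin' : {y : F | ev w₁ y ∈ B}.Finite := by
      have h3 : {y : F | ev w₁ y ∈ B} = ⋃ b ∈ B, {y : F | ev w₁ y = b} := by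
        ext y
        simp
      rw [h3]
      exact hfin.biUnion fun b _ => hB.fib w₁ hw₁ b
    obtain ⟨w₂, hw₂, hh₂⟩ := h2 {y : F | ev w₁ y ∈ B} hfin'
      (fun b hb hbp => hnr _ hb (hA.rat_ev w₁ b hbp))
    refine ⟨w₁ ++ w₂, ok_append hw₁ hw₂, fun y hy => ?_⟩
    rw [ev_append] at hy ⊢
    have h4 := hh₁ (ev w₂ y) hy
    have h5 := hh₂ y hy
    have h6 : s₁ * s₂ * dg p (ev w₁ (ev w₂ y)) = s₂ * (s₁ * dg p (ev w₁ (ev w₂ y))) := by ring
    rw [h6]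
    exact (Nat.mul_dvd_mul_left s₂ h4).trans h5

end MP7K
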