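import Pool.Agent.Lib.MP_7f581e_K.Spec1

/-!
# C33 (MP_7f581e_nt), U: good representatives of the unipotent units
-/

set_option autoImplicit false

namespace MP7K

open Polynomial

namespace KUAux

theorem dvd_prod_sub {R : Type} [CommRing R] (d : R) (f g : ℕ → R) (h : ∀ k, d ∣ f k - g k)
    (N : ℕ) : d ∣ (∏ k ∈ Finset.range N, f k) - ∏ k ∈ Finset.range N, g k := by
  induction N with
  | zero => simp
  | succ N ih =>
    rw [Finset.prod_range_succ, Finset.prod_range_succ]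
    have h1 : (∏ k ∈ Finset.range N, f k) * f N - (∏ k ∈ Finset.range N, g k) * g N =
        ((∏ k ∈ Finset.range N, f k) - ∏ k ∈ Finset.range N, g k) * f N +
          (∏ k ∈ Finset.range N, g k) * (f N - g N) := by ring
    rw [h1]
    exact dvd_add (Dvd.dvd.mul_right ih _) (Dvd.dvd.mul_left (h N) _)

theorem exV (r i D p : ℕ) (hr : r.Prime) (hp : p.Prime) (hrp : r ≠ p) :
    ∃ V N : ℕ, i + 1 ≤ V ∧ 4 * D * r ^ i < r ^ V ∧ 0 < N ∧ 5 ≤ p ^ N ∧ r ^ V ∣ p ^ N - 1 := by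
  have hr2 := hr.two_le
  have hp2 := hp.two_le
  refine ⟨i + (4 * D + 2) + 1, Nat.totient (r ^ (i + (4 * D + 2) + 1)), by omega, ?_, ?_, ?_, ?_⟩
  · have h1 : 4 * D + 2 < r ^ (4 * D + 2) := Nat.lt_pow_self (by omega)
    have h2 : 0 < r ^ i := pow_pos hr.pos i
    calc 4 * D * r ^ i < r ^ (4 * D + 2) * r ^ i := Nat.mul_lt_mul_of_pos_right (by omega) h2
      _ = r ^ (i + (4 * D + 2)) := by rw [← pow_add, add_comm]
      _ ≤ r ^ (i + (4 * D + 2) + 1) := Nat.pow_le_pow_right hr.pos (by omega)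
  · exact Nat.totient_pos.2 (pow_pos hr.pos _)
  · rw [Nat.totient_prime_pow_succ hr]
    have h1 : 3 ≤ r ^ (i + (4 * D + 2)) * (r - 1) := by
      have h2 : 2 ^ 2 ≤ r ^ (i + (4 * D + 2)) :=
        (Nat.pow_le_pow_left hr2 2).trans (Nat.pow_le_pow_right hr.pos (by omega))
      have h3 : 1 ≤ r - 1 := by omega
      calc 3 ≤ 2 ^ 2 * 1 := by norm_num
        _ ≤ _ := Nat.mul_le_mul h2 h3
    calc 5 ≤ 2 ^ 3 := by norm_num
      _ ≤ p ^ 3 := Nat.pow_le_pow_left hp2 3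
      _ ≤ p ^ _ := Nat.pow_le_pow_right hp.pos h1
  · have h1 : Nat.Coprime p (r ^ (i + (4 * D + 2) + 1)) :=
      Nat.Coprime.pow_right _ ((Nat.coprime_primes hp hr).2 hrp.symm)
    have h2 := Nat.ModEq.pow_totient h1
    exact (Nat.modEq_iff_dvd' (Nat.one_le_pow _ _ hp.pos)).1 h2.symm

end KUAux

open KUAux in
theorem kU (h2 : KStmtU2) (h3 : KStmtU3) (h4 : KStmtU4) : KStmtU := by
  intro p _ F _ _ _ _ hA hB r i m S hr hrp hm hmp hdiv κ
  have hp : p.Prime := Fact.out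
  haveI : CharP F p := charP_of_injective_algebraMap (algebraMap (ZMod p) F).injective p
  obtain ⟨V, N, hV, hV2, hN, hN5, hVN⟩ := exV r i (p ^ S * m) p hr hp hrp
  obtain ⟨a, ha1, ha2, ha3⟩ := h4 p F hA hB N m S hN hm hmp κ
  obtain ⟨f, hf0, hf1, hf2, hf3⟩ := h2 p F hA hB r i N (p ^ S * m) V hr hrp hN
    (Nat.mul_pos (pow_pos hp.pos S) hm) hN5 hV hVN hV2 hdiv a ha1 ha2
  obtain ⟨g, hg1, hg2, hg3⟩ := h3 p F hA N hN f hf1
  refine ⟨g, ⟨hg2 hf0, ?_⟩, ?_⟩
  · intro θ hθ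
    obtain ⟨θ', h5, h6, h7⟩ := hg3 θ hθ
    obtain ⟨h8, h9⟩ := hf3 θ' h5
    exact ⟨h7 h8, h6 ▸ h9⟩
  · have h5 : ∀ k : ℕ, (X ^ (p ^ S * m) - 1 : F[X]) ∣
        f.map (iterateFrobenius F p k) - a.map (iterateFrobenius F p k) := by
      intro k
      have h6 := Polynomial.map_dvd (iterateFrobenius F p k) hf2
      simp only [Polynomial.map_sub, Polynomial.map_pow, Polynomial.map_X, Polynomial.map_one]
        at h6
      exact h6
    have h7 := dvd_add (dvd_prod_sub _ _ _ h5 N) ha3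
    rw [sub_add_sub_cancel, ← hg1, ← Polynomial.map_sub] at h7
    have h8 : (X ^ (p ^ S * m) - 1 : F[X]) =
        (X ^ (p ^ S * m) - 1 : (ZMod p)[X]).map (algebraMap (ZMod p) F) := by
      simp only [Polynomial.map_sub, Polynomial.map_pow, Polynomial.map_X, Polynomial.map_one]
    rw [h8, Polynomial.map_dvd_map'] at h7
    exact h7

end MP7K
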