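import Pool.Agent.Lib.MP_7f581e_K.Spec1

set_option autoImplicit false

namespace MP7K

open Polynomial

namespace KU0Aux

variable {F : Type} [Field F]

theorem coeff_sum {D : ℕ} (a : Fin D → F) (j : ℕ) :
    (∑ i : Fin D, C (a i) * X ^ (i : ℕ)).coeff j = if h : j < D then a ⟨j, h⟩ else 0 := by
  rw [finsetSum_coeff]
  split_ifs with h
  · rw [Finset.sum_eq_single (⟨j, h⟩ : Fin D)]
    · simp
    · intro i _ hi
      have h2 : j ≠ (i : ℕ) := fun h3 => hi (Fin.ext h3.symm)
      rw [coeff_C_mul, coeff_X_pow, if_neg h2, mul_zero]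
    · intro h2
      exact absurd (Finset.mem_univ _) h2
  · refine Finset.sum_eq_zero fun i _ => ?_
    have h2 : j ≠ (i : ℕ) := fun h3 => h (h3 ▸ i.2)
    rw [coeff_C_mul, coeff_X_pow, if_neg h2, mul_zero]

/-- the monic polynomial with given lower coefficients -/
noncomputable def mk {D : ℕ} {K : Set F} (a : Fin D → K) : F[X] :=
  X ^ D + ∑ i : Fin D, C ((a i : K) : F) * X ^ (i : ℕ)

theorem mk_inj {D : ℕ} {K : Set F} : Function.Injective (mk (D := D) (K := K)) := by
  intro a b h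
  have h1 : ∑ i : Fin D, C ((a i : K) : F) * X ^ (i : ℕ) =
      ∑ i : Fin D, C ((b i : K) : F) * X ^ (i : ℕ) := add_left_cancel h
  funext i
  have h2 := congrArg (fun f => f.coeff (i : ℕ)) h1
  simp only [coeff_sum (fun i => ((a i : K) : F)), coeff_sum (fun i => ((b i : K) : F)),
    dif_pos i.2] at h2
  exact Subtype.ext h2

theorem range_mk (p : ℕ) (hp : 0 < p) (N D : ℕ) :
    Set.range (mk (D := D) (K := {y : F | y ^ (p ^ N) = y})) = PN p F N D := by
  ext f
  constructor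
  · rintro ⟨a, rfl⟩
    have hdeg : (∑ i : Fin D, C ((a i : {y : F | y ^ (p ^ N) = y}) : F) * X ^ (i : ℕ)).degree < (D : WithBot ℕ) :=
      degree_sum_fin_lt _
    refine ⟨monic_X_pow_add hdeg, ?_, ?_⟩
    · unfold mk
      rw [natDegree_add_eq_left_of_degree_lt (by rwa [degree_X_pow]), natDegree_X_pow]
    intro i
    unfold mk
    rw [coeff_add, coeff_X_pow, coeff_sum (fun i => ((a i : {y : F | y ^ (p ^ N) = y}) : F))]
    by_cases h1 : i = D
    · rw [if_pos h1, dif_neg (by omega)]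
      simp
    · rw [if_neg h1]
      by_cases h2 : i < D
      · rw [dif_pos h2, zero_add]
        exact (a ⟨i, h2⟩).2
      · rw [dif_neg h2, add_zero]
        exact zero_pow (pow_pos hp N).ne'
  · rintro ⟨h1, h2, h3⟩
    refine ⟨fun i => ⟨f.coeff i, h3 i⟩, ?_⟩
    unfold mk
    conv_rhs => rw [h1.as_sum, h2, Finset.sum_range]

end KU0Aux

open KU0Aux in
theorem kU0 : KStmtU0 := by
  intro p _ F _ _ _ _ hA hB N D hN hD
  have hp : 0 < p := (Fact.out : p.Prime).pos
  have hchar : CharP F p := charP_of_injective_algebraMap (algebraMap (ZMod p) F).injective p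
  have hKfin : Finite {y : F | y ^ (p ^ N) = y} := hB.finK N hN
  refine ⟨?_, ?_, ?_⟩
  · rw [← range_mk p hp N D]
    exact Set.finite_range _
  · rw [← range_mk p hp N D, ← Set.image_univ, Set.ncard_image_of_injective _ mk_inj,
      Set.ncard_univ, Nat.card_fun, Nat.card_fin]
    have h1 : Nat.card {y : F | y ^ (p ^ N) = y} = p ^ N := hB.cardK N hN
    rw [h1]
  · intro g hg
    have hQ : (X ^ D - 1 : F[X]).Monic := monic_X_pow_sub_C 1 hD.ne'
    have hQd : (X ^ D - 1 : F[X]).degree = D := degree_X_pow_sub_C hD 1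
    have hφ : ∀ h : F[X], (∀ i, (h.coeff i) ^ (p ^ N) = h.coeff i) ↔
        h.map (iterateFrobenius F p N) = h := by
      intro h
      rw [Polynomial.ext_iff]
      refine forall_congr' fun i => ?_
      rw [coeff_map, iterateFrobenius_def]
    have hgm := (hφ g).mp hg
    have hQm : (X ^ D - 1 : F[X]).map (iterateFrobenius F p N) = X ^ D - 1 := by
      simp
    have hr : (g %ₘ (X ^ D - 1)).map (iterateFrobenius F p N) = g %ₘ (X ^ D - 1) := by
      rw [map_modByMonic _ hQ, hgm, hQm]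
    have hrd : (g %ₘ (X ^ D - 1)).degree < (X ^ D - 1 : F[X]).degree := degree_modByMonic_lt g hQ
    have hfm : ((X ^ D - 1) + g %ₘ (X ^ D - 1) : F[X]).Monic := hQ.add_of_left hrd
    have hfn : ((X ^ D - 1) + g %ₘ (X ^ D - 1) : F[X]).natDegree = D := by
      rw [natDegree_add_eq_left_of_degree_lt hrd]
      exact natDegree_eq_of_degree_eq_some hQd
    refine ⟨(X ^ D - 1) + g %ₘ (X ^ D - 1), ⟨hfm, hfn, ?_⟩, ?_, ?_⟩
    · rw [hφ, Polynomial.map_add, hQm, hr]
    · have h1 := modByMonic_add_div g (X ^ D - 1 : F[X])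
      refine ⟨1 - g /ₘ (X ^ D - 1), ?_⟩
      have h2 : g = g %ₘ (X ^ D - 1) + (X ^ D - 1) * (g /ₘ (X ^ D - 1)) := h1.symm
      calc (X ^ D - 1) + g %ₘ (X ^ D - 1) - g
          = (X ^ D - 1) + g %ₘ (X ^ D - 1) -
            (g %ₘ (X ^ D - 1) + (X ^ D - 1) * (g /ₘ (X ^ D - 1))) := by rw [h1]
        _ = (X ^ D - 1) * (1 - g /ₘ (X ^ D - 1)) := by ring
    · rintro f' ⟨h1, h2, -⟩ h3
      have h4 : (X ^ D - 1 : F[X]) ∣ (X ^ D - 1) + g %ₘ (X ^ D - 1) - g := by
        have h5 := modByMonic_add_div g (X ^ D - 1 : F[X])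
        refine ⟨1 - g /ₘ (X ^ D - 1), ?_⟩
        calc (X ^ D - 1) + g %ₘ (X ^ D - 1) - g
            = (X ^ D - 1) + g %ₘ (X ^ D - 1) -
              (g %ₘ (X ^ D - 1) + (X ^ D - 1) * (g /ₘ (X ^ D - 1))) := by rw [h5]
          _ = (X ^ D - 1) * (1 - g /ₘ (X ^ D - 1)) := by ring
      have h5 : (X ^ D - 1 : F[X]) ∣ f' - ((X ^ D - 1) + g %ₘ (X ^ D - 1)) := by
        have h6 := dvd_sub h3 h4
        have h7 : f' - g - ((X ^ D - 1) + g %ₘ (X ^ D - 1) - g) =
            f' - ((X ^ D - 1) + g %ₘ (X ^ D - 1)) := by ring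
        rwa [h7] at h6
      have h6 : (f' - ((X ^ D - 1) + g %ₘ (X ^ D - 1))).degree < (X ^ D - 1 : F[X]).degree := by
        rw [hQd]
        have h7 : f'.degree = D := by
          rw [degree_eq_natDegree h1.ne_zero, h2]
        have h8 : ((X ^ D - 1) + g %ₘ (X ^ D - 1) : F[X]).degree = D := by
          rw [degree_eq_natDegree hfm.ne_zero, hfn]
        rw [← h7]
        exact degree_sub_lt_left (by rw [h7, h8]) h1.ne_zero (by rw [h1.leadingCoeff, hfm.leadingCoeff])
      exact sub_eq_zero.mp (eq_zero_of_dvd_of_degree_lt h5 h6)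

end MP7K
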