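import Pool.Agent.Lib.MP_7f581e_K.Spec1

/-!
# C33 K/U1: less than half of the monic polynomials have a bad root
-/

set_option autoImplicit false

namespace MP7K

open Polynomial Finset

namespace KU1Aux

theorem gcd_dvd (a b s : ℕ) (ha : 0 < a) : a ∣ b * s ↔ a / Nat.gcd a b ∣ s := by
  have hg : 0 < Nat.gcd a b := Nat.gcd_pos_of_pos_left b ha
  have hc := Nat.coprime_div_gcd_div_gcd hg
  have h1 : a = a.gcd b * (a / a.gcd b) := (Nat.mul_div_cancel' (Nat.gcd_dvd_left a b)).symm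
  have h2 : b = a.gcd b * (b / a.gcd b) := (Nat.mul_div_cancel' (Nat.gcd_dvd_right a b)).symm
  constructor
  · intro h
    have h3 : a.gcd b * (a / a.gcd b) ∣ a.gcd b * (s * (b / a.gcd b)) := by
      have e : a.gcd b * (s * (b / a.gcd b)) = b * s := by
        calc a.gcd b * (s * (b / a.gcd b)) = (a.gcd b * (b / a.gcd b)) * s := by ring
          _ = b * s := by rw [← h2]
      rw [e, ← h1]
      exact h
    have h4 := Nat.dvd_of_mul_dvd_mul_left hg h3
    exact hc.dvd_of_dvd_mul_right h4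
  · rintro ⟨k, hk⟩
    have e : b * s = a * (k * (b / a.gcd b)) := by
      calc b * s = b * (a / a.gcd b * k) := by rw [hk]
        _ = (a.gcd b * (b / a.gcd b)) * (a / a.gcd b * k) := by rw [← h2]
        _ = (a.gcd b * (a / a.gcd b)) * (k * (b / a.gcd b)) := by ring
        _ = a * (k * (b / a.gcd b)) := by rw [← h1]
    rw [e]
    exact Dvd.intro _ rfl

/-- the product of `X - θ ^ (Q ^ j)`, `j < d` -/
noncomputable def gP {F : Type} [Field F] (p N : ℕ) (θ : F) (d : ℕ) : F[X] :=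
  ∏ j ∈ range d, (X - C (θ ^ (p ^ (N * j))))

theorem gP_monic {F : Type} [Field F] (p N : ℕ) (θ : F) (d : ℕ) : (gP p N θ d).Monic :=
  monic_prod_of_monic _ _ (fun _ _ => monic_X_sub_C _)

theorem gP_natDegree {F : Type} [Field F] (p N : ℕ) (θ : F) (d : ℕ) :
    (gP p N θ d).natDegree = d := by
  unfold gP
  rw [natDegree_prod_of_monic _ _ (fun _ _ => monic_X_sub_C _),
    Finset.sum_congr rfl (fun j _ => natDegree_X_sub_C (θ ^ (p ^ (N * j))))]
  simp

/-- elements with a bad order which are fixed by `z ↦ z ^ (Q ^ d)` -/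
def Bad (p : ℕ) (F : Type) [Field F] (r i N d : ℕ) : Set F :=
  {θ | θ ^ (p ^ (N * d)) = θ ∧ ¬ (θ ≠ 0 ∧ r ^ (i + 1) ∣ orderOf θ)}

theorem unity_card (F : Type) [Field F] (n : ℕ) (hn : 0 < n) :
    {θ : F | θ ^ n = 1}.Finite ∧ {θ : F | θ ^ n = 1}.ncard ≤ n := by
  classical
  have hsub : {θ : F | θ ^ n = 1} ⊆ ((nthRoots n (1 : F)).toFinset : Set F) := by
    intro θ hθ
    rw [Finset.mem_coe, Multiset.mem_toFinset, mem_nthRoots hn]
    exact hθ
  refine ⟨(Finset.finite_toSet _).subset hsub, ?_⟩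
  refine (Set.ncard_le_ncard hsub (Finset.finite_toSet _)).trans ?_
  rw [Set.ncard_coe_finset]
  exact (Multiset.toFinset_card_le _).trans (card_nthRoots n 1)

theorem order_dvd (r i o v u : ℕ) (hr : r.Prime) (ho : 0 < o) (h1 : o ∣ r ^ v * u)
    (h2 : ¬ r ^ (i + 1) ∣ o) : o ∣ r ^ i * u := by
  obtain ⟨a, o', ho', hoe⟩ := Nat.exists_eq_pow_mul_and_not_dvd ho.ne' r hr.one_lt.ne'
  have ha : a ≤ i := by
    by_contra hcon
    apply h2
    rw [hoe]
    exact (pow_dvd_pow r (by omega)).mul_right _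
  have hc : Nat.Coprime o' (r ^ v) :=
    (Nat.Coprime.pow_right v ((Nat.Prime.coprime_iff_not_dvd hr).mpr ho').symm)
  have h3 : o' ∣ r ^ v * u := (Dvd.intro_left _ hoe.symm).trans h1
  have h4 : o' ∣ u := hc.dvd_of_dvd_mul_left h3
  rw [hoe]
  exact mul_dvd_mul (pow_dvd_pow r ha) h4

theorem bad_card (p : ℕ) (F : Type) [Field F] (r i N d V : ℕ) (hr : r.Prime)
    (hQ : 5 ≤ p ^ N) (hd : 0 < d) (hiV : i + 1 ≤ V) (hV : r ^ V ∣ p ^ N - 1) :
    (Bad p F r i N d).Finite ∧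
      r ^ V * (Bad p F r i N d).ncard ≤ r ^ V + r ^ i * (p ^ N) ^ d := by
  have hQd : 5 ≤ (p ^ N) ^ d := hQ.trans (Nat.le_self_pow hd.ne' _)
  have hne : (p ^ N) ^ d - 1 ≠ 0 := by omega
  obtain ⟨v, u, hu, hvu⟩ := Nat.exists_eq_pow_mul_and_not_dvd hne r hr.one_lt.ne'
  have hu0 : 0 < u := by
    rcases Nat.eq_zero_or_pos u with h | h
    · rw [h, mul_zero] at hvu; omega
    · exact h
  have hVv : V ≤ v := by
    have h1 : r ^ V ∣ (p ^ N) ^ d - 1 := hV.trans (by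
      have := Nat.sub_dvd_pow_sub_pow (p ^ N) 1 d
      rwa [one_pow] at this)
    rw [hvu] at h1
    have h2 : r ^ V ∣ r ^ v := by
      refine Nat.Coprime.dvd_of_dvd_mul_right ?_ h1
      exact Nat.Coprime.pow_left V ((Nat.Prime.coprime_iff_not_dvd hr).mpr hu)
    exact (Nat.pow_dvd_pow_iff_le_right hr.one_lt).mp h2
  have hn : 0 < r ^ i * u := Nat.mul_pos (pow_pos hr.pos _) hu0
  obtain ⟨hfin, hcard⟩ := unity_card F (r ^ i * u) hn
  have hsub : Bad p F r i N d ⊆ insert 0 {θ : F | θ ^ (r ^ i * u) = 1} := by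
    rintro θ ⟨h1, h2⟩
    by_cases h0 : θ = 0
    · left; exact h0
    · right
      have h3 : ¬ r ^ (i + 1) ∣ orderOf θ := fun h => h2 ⟨h0, h⟩
      have h4 : θ ^ ((p ^ N) ^ d - 1) = 1 := by
        have h5 : θ ^ ((p ^ N) ^ d - 1) * θ = θ := by
          rw [← pow_succ, Nat.sub_add_cancel (by omega), ← pow_mul]
          exact h1
        exact mul_right_cancel₀ h0 (h5.trans (one_mul θ).symm)
      have h5 : orderOf θ ∣ (p ^ N) ^ d - 1 := orderOf_dvd_of_pow_eq_one h4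
      have h6 : 0 < orderOf θ := Nat.pos_of_dvd_of_pos h5 (by omega)
      rw [hvu] at h5
      exact orderOf_dvd_iff_pow_eq_one.mp (order_dvd r i _ v u hr h6 h5 h3)
  have hfin' : (insert (0 : F) {θ : F | θ ^ (r ^ i * u) = 1}).Finite := hfin.insert 0
  refine ⟨hfin'.subset hsub, ?_⟩
  have h1 : (Bad p F r i N d).ncard ≤ 1 + r ^ i * u := by
    refine (Set.ncard_le_ncard hsub hfin').trans ?_
    refine (Set.ncard_insert_le _ _).trans ?_
    omega
  have h2 : r ^ V * (r ^ i * u) ≤ r ^ i * (p ^ N) ^ d := by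
    calc r ^ V * (r ^ i * u) = r ^ i * (r ^ V * u) := by ring
      _ ≤ r ^ i * (r ^ v * u) := Nat.mul_le_mul_left _ (Nat.mul_le_mul_right _
          (Nat.pow_le_pow_right hr.pos hVv))
      _ = r ^ i * ((p ^ N) ^ d - 1) := by rw [hvu]
      _ ≤ _ := Nat.mul_le_mul_left _ (by omega)
  calc r ^ V * (Bad p F r i N d).ncard ≤ r ^ V * (1 + r ^ i * u) := Nat.mul_le_mul_left _ h1
    _ = r ^ V + r ^ V * (r ^ i * u) := by ring
    _ ≤ _ := by omega

theorem geom (Q D : ℕ) (hQ : 5 ≤ Q) : 4 * (∑ d ∈ Finset.Icc 1 D, Q ^ (D - d)) < Q ^ D := by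
  have h : ∀ D : ℕ, 4 * (∑ d ∈ Finset.Icc 1 D, Q ^ (D - d)) + 1 ≤ Q ^ D := by
    intro D
    induction D with
    | zero => simp
    | succ D ih =>
      rw [Finset.sum_Icc_succ_top (by omega)]
      have h1 : ∑ d ∈ Finset.Icc 1 D, Q ^ (D + 1 - d) = Q * ∑ d ∈ Finset.Icc 1 D, Q ^ (D - d) := by
        rw [Finset.mul_sum]
        refine Finset.sum_congr rfl ?_
        intro d hd
        rw [Finset.mem_Icc] at hd
        rw [← pow_succ']
        congr 1
        omega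
      rw [h1, Nat.sub_self, pow_zero, pow_succ']
      have h2 : Q * (4 * (∑ d ∈ Finset.Icc 1 D, Q ^ (D - d)) + 1) ≤ Q * Q ^ D :=
        Nat.mul_le_mul_left Q ih
      calc 4 * (Q * ∑ d ∈ Finset.Icc 1 D, Q ^ (D - d) + 1) + 1
          = Q * (4 * (∑ d ∈ Finset.Icc 1 D, Q ^ (D - d))) + 5 := by ring
        _ ≤ Q * (4 * (∑ d ∈ Finset.Icc 1 D, Q ^ (D - d))) + Q := by omega
        _ = Q * (4 * (∑ d ∈ Finset.Icc 1 D, Q ^ (D - d)) + 1) := by ring
        _ ≤ Q * Q ^ D := h2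
  have := h D
  omega

theorem decomp (p : ℕ) [Fact p.Prime] (F : Type) [Field F] [Algebra (ZMod p) F] [IsAlgClosed F]
    [Algebra.IsAlgebraic (ZMod p) F] (hA : FactsA p F) (N D : ℕ) (f : F[X])
    (hf : f ∈ PN p F N D) (θ : F) (hθ : f.IsRoot θ) :
    ∃ d : ℕ, 0 < d ∧ d ≤ D ∧ θ ^ (p ^ (N * d)) = θ ∧ ∃ h ∈ PN p F N (D - d), gP p N θ d * h = f := by
  have hp : p.Prime := Fact.out
  have : CharP F p := charP_of_injective_algebraMap (algebraMap (ZMod p) F).injective p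
  obtain ⟨hfm, hfd, hfc⟩ := hf
  obtain ⟨Ψ, hΨ⟩ : ∃ Ψ : ℕ → F →+* F, ∀ i z, Ψ i z = z ^ (p ^ (N * i)) :=
    ⟨fun i => iterateFrobenius F p (N * i), fun i z => iterateFrobenius_def _ _ _⟩
  have hΨadd : ∀ i j z, Ψ i (Ψ j z) = Ψ (i + j) z := by
    intro i j z
    rw [hΨ, hΨ, hΨ, ← pow_mul, ← pow_add, mul_add, add_comm (N * j)]
  have hΨinj : ∀ i, Function.Injective (Ψ i) := fun i => (Ψ i).injective
  have hΨ0 : ∀ z, Ψ 0 z = z := by
    intro z
    rw [hΨ, mul_zero, pow_zero, pow_one]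
  obtain ⟨d, hd0, hper⟩ : ∃ d : ℕ, 0 < d ∧ ∀ s, Ψ s θ = θ ↔ d ∣ s :=
    ⟨dg p θ / Nat.gcd (dg p θ) N, Nat.div_pos (Nat.le_of_dvd (hA.pos θ) (Nat.gcd_dvd_left _ _))
      (Nat.gcd_pos_of_pos_left _ (hA.pos θ)), fun s => by
      rw [hΨ, hA.pow_eq]
      exact gcd_dvd _ _ _ (hA.pos θ)⟩
  have hΨd : Ψ d θ = θ := (hper d).mpr dvd_rfl
  -- `f` is fixed by the maps `Ψ j`
  have hmapf : ∀ j, f.map (Ψ j) = f := by
    intro j
    ext n
    rw [coeff_map, hΨ, hA.pow_eq]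
    exact ((hA.pow_eq _ N).mp (hfc n)).mul_right _
  have hroot : ∀ j, f.IsRoot (Ψ j θ) := by
    intro j
    rw [IsRoot.def]
    have h1 := Polynomial.eval_map_apply (p := f) (Ψ j) θ
    rw [hmapf] at h1
    rw [h1, hθ.eq_zero, map_zero]
  -- distinct conjugates
  have hdiff : ∀ i i', i < d → i' < d → Ψ i θ = Ψ i' θ → i = i' := by
    have haux : ∀ i i', i ≤ i' → i' < d → Ψ i θ = Ψ i' θ → i = i' := by
      intro i i' h1 h2 h3
      have h4 : Ψ i (Ψ (i' - i) θ) = Ψ i θ := by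
        rw [hΨadd, h3]
        congr 1
        congr 1
        omega
      have h5 := hΨinj i h4
      rw [hper] at h5
      rcases Nat.eq_zero_or_pos (i' - i) with h6 | h6
      · omega
      · have := Nat.le_of_dvd h6 h5
        omega
    intro i i' h1 h2 h3
    rcases le_total i i' with h4 | h4
    · exact haux i i' h4 h2 h3
    · exact (haux i' i h4 h1 h3.symm).symm
  have hg : gP p N θ d = ∏ j ∈ range d, (X - C (Ψ j θ)) := by
    unfold gP
    refine Finset.prod_congr rfl ?_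
    intro j _
    rw [hΨ]
  have hdvd : gP p N θ d ∣ f := by
    rw [hg]
    refine Finset.prod_dvd_of_coprime ?_ ?_
    · intro a ha b hb hab
      rw [Finset.mem_coe, Finset.mem_range] at ha hb
      have h1 : Ψ a θ ≠ Ψ b θ := fun h => hab (hdiff a b ha hb h)
      have h2 : IsUnit (Ψ a θ - Ψ b θ) := (sub_ne_zero.mpr h1).isUnit
      exact Polynomial.isCoprime_X_sub_C_of_isUnit_sub h2
    · intro j _
      exact dvd_iff_isRoot.mpr (hroot j)
  obtain ⟨h, hh⟩ := hdvd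
  have hgm := gP_monic p N θ d
  have hhm : h.Monic := by
    refine Polynomial.Monic.of_mul_monic_left hgm ?_
    rw [← hh]
    exact hfm
  have hdeg : f.natDegree = d + h.natDegree := by
    rw [hh, Polynomial.Monic.natDegree_mul hgm hhm, gP_natDegree]
  have hgmap : (gP p N θ d).map (Ψ 1) = gP p N θ d := by
    rw [hg, Polynomial.map_prod]
    have h1 : ∀ j ∈ range d, ((X : F[X]) - C (Ψ j θ)).map (Ψ 1) =
        X - C (Ψ (j + 1) θ) := by
      intro j _
      rw [Polynomial.map_sub, map_X, map_C, hΨadd, add_comm]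
    rw [Finset.prod_congr rfl h1]
    have h2 := Finset.prod_range_succ (fun j => (X : F[X]) - C (Ψ j θ)) d
    have h3 := Finset.prod_range_succ' (fun j => (X : F[X]) - C (Ψ j θ)) d
    rw [h2] at h3
    simp only [hΨd, hΨ0] at h3
    exact (mul_right_cancel₀ (Polynomial.X_sub_C_ne_zero θ) h3).symm
  refine ⟨d, hd0, by omega, by rw [← hΨ]; exact hΨd, h, ⟨hhm, by omega, ?_⟩, hh.symm⟩
  have h4 : h.map (Ψ 1) = h := by
    have h5 : gP p N θ d * h.map (Ψ 1) = gP p N θ d * h := by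
      calc gP p N θ d * h.map (Ψ 1) = (gP p N θ d).map (Ψ 1) * h.map (Ψ 1) := by rw [hgmap]
        _ = (gP p N θ d * h).map (Ψ 1) := (Polynomial.map_mul _).symm
        _ = f.map (Ψ 1) := by rw [← hh]
        _ = f := hmapf 1
        _ = gP p N θ d * h := hh
    exact mul_left_cancel₀ hgm.ne_zero h5
  intro n
  have h6 : (h.map (Ψ 1)).coeff n = h.coeff n := by rw [h4]
  rw [coeff_map, hΨ, mul_one] at h6
  exact h6

theorem PN_zero (p : ℕ) (F : Type) [Field F] (N : ℕ) :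
    (PN p F N 0).Finite ∧ (PN p F N 0).ncard ≤ 1 := by
  have hsub : PN p F N 0 ⊆ {1} := by
    rintro f ⟨h1, h2, _⟩
    rw [Set.mem_singleton_iff]
    exact (Polynomial.Monic.natDegree_eq_zero h1).mp h2
  refine ⟨(Set.finite_singleton _).subset hsub, ?_⟩
  refine (Set.ncard_le_ncard hsub (Set.finite_singleton _)).trans ?_
  rw [Set.ncard_singleton]

end KU1Aux

open KU1Aux in
theorem kU1 (hU0 : KStmtU0) : KStmtU1 := by
  intro p hpF F _ _ _ _ hA hB r i N D V hr hrp hN hD hQ hiV hV hVD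
  have hPN : ∀ d, (PN p F N d).Finite ∧ (PN p F N d).ncard ≤ (p ^ N) ^ d := by
    intro d
    rcases Nat.eq_zero_or_pos d with h | h
    · subst h
      rw [pow_zero]
      exact PN_zero p F N
    · obtain ⟨h1, h2, _⟩ := hU0 p F hA hB N d hN h
      exact ⟨h1, h2.le⟩
  set B : Set F[X] := {f ∈ PN p F N D | ∃ θ : F, f.IsRoot θ ∧ ¬ (θ ≠ 0 ∧ r ^ (i + 1) ∣ orderOf θ)}
    with hBdef
  set U : ℕ → Set F[X] := fun d =>
    (fun x : F × F[X] => gP p N x.1 d * x.2) '' ((Bad p F r i N d) ×ˢ (PN p F N (D - d))) with hU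
  have hUfin : ∀ d ∈ Finset.Icc 1 D, (U d).Finite := by
    intro d hd
    rw [Finset.mem_Icc] at hd
    exact ((bad_card p F r i N d V hr hQ (by omega) hiV hV).1.prod (hPN (D - d)).1).image _
  have hsub : B ⊆ ⋃ d ∈ Finset.Icc 1 D, U d := by
    rintro f ⟨hf, θ, hθ, hbad⟩
    obtain ⟨d, hd0, hdD, hθd, h, hh, hfe⟩ := decomp p F hA N D f hf θ hθ
    rw [Set.mem_iUnion₂]
    refine ⟨d, Finset.mem_Icc.mpr ⟨hd0, hdD⟩, ?_⟩
    exact ⟨(θ, h), ⟨⟨hθd, hbad⟩, hh⟩, hfe⟩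
  have hfinU : (⋃ d ∈ Finset.Icc 1 D, U d).Finite :=
    Set.Finite.biUnion (Finset.finite_toSet _) hUfin
  have h1 : B.ncard ≤ ∑ d ∈ Finset.Icc 1 D, (Bad p F r i N d).ncard * (p ^ N) ^ (D - d) := by
    refine (Set.ncard_le_ncard hsub hfinU).trans ((Finset.set_ncard_biUnion_le _ _).trans ?_)
    refine Finset.sum_le_sum ?_
    intro d hd
    rw [Finset.mem_Icc] at hd
    have hfin := (bad_card p F r i N d V hr hQ (by omega) hiV hV).1.prod (hPN (D - d)).1
    refine (Set.ncard_image_le hfin).trans ?_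
    rw [Set.ncard_prod]
    exact Nat.mul_le_mul_left _ (hPN (D - d)).2
  have h2 : r ^ V * B.ncard ≤ r ^ V * (∑ d ∈ Finset.Icc 1 D, (p ^ N) ^ (D - d)) +
      D * (r ^ i * (p ^ N) ^ D) := by
    calc r ^ V * B.ncard ≤ r ^ V * ∑ d ∈ Finset.Icc 1 D,
          (Bad p F r i N d).ncard * (p ^ N) ^ (D - d) := Nat.mul_le_mul_left _ h1
      _ = ∑ d ∈ Finset.Icc 1 D, (r ^ V * (Bad p F r i N d).ncard) * (p ^ N) ^ (D - d) := by
          rw [Finset.mul_sum]
          exact Finset.sum_congr rfl (fun d _ => by ring)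
      _ ≤ ∑ d ∈ Finset.Icc 1 D, (r ^ V * (p ^ N) ^ (D - d) + r ^ i * (p ^ N) ^ D) := by
          refine Finset.sum_le_sum ?_
          intro d hd
          rw [Finset.mem_Icc] at hd
          have h3 := (bad_card p F r i N d V hr hQ (by omega) hiV hV).2
          calc (r ^ V * (Bad p F r i N d).ncard) * (p ^ N) ^ (D - d) ≤
                (r ^ V + r ^ i * (p ^ N) ^ d) * (p ^ N) ^ (D - d) := Nat.mul_le_mul_right _ h3
            _ = r ^ V * (p ^ N) ^ (D - d) + r ^ i * ((p ^ N) ^ d * (p ^ N) ^ (D - d)) := by ring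
            _ = _ := by rw [← pow_add, Nat.add_sub_cancel' hd.2]
      _ = _ := by
          rw [Finset.sum_add_distrib, ← Finset.mul_sum, Finset.sum_const, Nat.card_Icc, smul_eq_mul,
            Nat.add_sub_cancel]
  have h3 := geom (p ^ N) D hQ
  set G := ∑ d ∈ Finset.Icc 1 D, (p ^ N) ^ (D - d) with hG
  have hrV : 0 < r ^ V := pow_pos hr.pos _
  have hQD : 0 < (p ^ N) ^ D := pow_pos (by omega) _
  have h4 : 4 * (D * (r ^ i * (p ^ N) ^ D)) < r ^ V * (p ^ N) ^ D := by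
    calc 4 * (D * (r ^ i * (p ^ N) ^ D)) = (4 * D * r ^ i) * (p ^ N) ^ D := by ring
      _ < r ^ V * (p ^ N) ^ D := Nat.mul_lt_mul_of_pos_right hVD hQD
  have h5 : 4 * (r ^ V * G) < r ^ V * (p ^ N) ^ D := by
    calc 4 * (r ^ V * G) = r ^ V * (4 * G) := by ring
      _ < r ^ V * (p ^ N) ^ D := Nat.mul_lt_mul_of_pos_left h3 hrV
  have h6 : r ^ V * (2 * B.ncard) < r ^ V * (p ^ N) ^ D := by
    have e : r ^ V * (2 * B.ncard) = 2 * (r ^ V * B.ncard) := by ring
    rw [e]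
    omega
  exact Nat.lt_of_mul_lt_mul_left h6

end MP7K
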