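import Pool.Agent.Lib.MP_7f581e_K.Spec1

/-!
# C33 (MP_7f581e_nt): good polynomials in unit classes
-/

set_option autoImplicit false

namespace MP7K

open Polynomial Finset

namespace KU2Aux

variable {F : Type} [Field F]

/-- the polynomials fixed by `φ` -/
def Fx (φ : F →+* F) (f : F[X]) : Prop := f.map φ = f

theorem Fx.mul {φ : F →+* F} {f g : F[X]} (hf : Fx φ f) (hg : Fx φ g) : Fx φ (f * g) := by
  unfold Fx at *
  rw [Polynomial.map_mul, hf, hg]

/-- the inverse modulo `X ^ D - 1` with coefficients in the fixed field -/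
theorem inv_exists (φ : F →+* F) (D : ℕ) (hD : 0 < D) (f : F[X]) (hf : Fx φ f)
    (hc : IsCoprime f (X ^ D - 1)) : ∃ g : F[X], Fx φ g ∧ (X ^ D - 1 : F[X]) ∣ f * g - 1 := by
  obtain ⟨u, v, huv⟩ := hc
  obtain ⟨M, hM⟩ : ∃ M : F[X], M = X ^ D - 1 := ⟨_, rfl⟩
  rw [← hM] at huv ⊢
  have hMm : M.Monic := hM ▸ monic_X_pow_sub_C (1 : F) hD.ne'
  have hMfx : M.map φ = M := by
    rw [hM, Polynomial.map_sub, Polynomial.map_pow, Polynomial.map_X, Polynomial.map_one]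
  have hM1 : M ≠ 1 := by
    intro h
    have h1 : M.natDegree = D := by
      rw [hM]; exact natDegree_X_pow_sub_C
    rw [h, natDegree_one] at h1
    omega
  have hu : M ∣ f * (u %ₘ M) - 1 := by
    have h1 := modByMonic_add_div u M
    refine ⟨-v - f * (u /ₘ M), ?_⟩
    have h2 : u %ₘ M = u - M * (u /ₘ M) := eq_sub_of_add_eq h1
    rw [h2]
    linear_combination huv
  refine ⟨u %ₘ M, ?_, hu⟩
  -- uniqueness
  have hu' : M ∣ f * ((u %ₘ M).map φ) - 1 := by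
    have h1 := Polynomial.map_dvd φ hu
    rw [Polynomial.map_sub, Polynomial.map_mul, Polynomial.map_one, hMfx, hf] at h1
    exact h1
  have hcop : IsCoprime M f := ⟨v, u, by rw [← huv]; ring⟩
  have h2 : M ∣ f * ((u %ₘ M).map φ - u %ₘ M) := by
    have h3 := dvd_sub hu' hu
    have e : f * (u %ₘ M).map φ - 1 - (f * (u %ₘ M) - 1) = f * ((u %ₘ M).map φ - u %ₘ M) := by ring
    rwa [e] at h3
  have h3 : M ∣ (u %ₘ M).map φ - u %ₘ M := hcop.dvd_of_dvd_mul_left h2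
  have hdeg : ((u %ₘ M).map φ - u %ₘ M).degree < M.degree := by
    refine lt_of_le_of_lt (degree_sub_le _ _) (max_lt ?_ (degree_modByMonic_lt _ hMm))
    exact lt_of_le_of_lt degree_map_le (degree_modByMonic_lt _ hMm)
  exact sub_eq_zero.mp (eq_zero_of_dvd_of_degree_lt h3 hdeg)

end KU2Aux

open KU2Aux in
theorem kU2 (h0 : KStmtU0) (h1 : KStmtU1) : KStmtU2 := by
  intro p _ F _ _ _ _ hA hB r i N D V hr hrp hN hD hpN hiV hV hDV hrD a ha hcop
  have : CharP F p := charP_of_injective_algebraMap (algebraMap (ZMod p) F).injective p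
  obtain ⟨hfin, hcard, hrep⟩ := h0 p F hA hB N D hN hD
  have hbad := h1 p F hA hB r i N D V hr hrp hN hD hpN hiV hV hDV
  obtain ⟨φ, hφ⟩ : ∃ φ : F →+* F, ∀ z, φ z = z ^ (p ^ N) :=
    ⟨iterateFrobenius F p N, fun z => iterateFrobenius_def p N z⟩
  have hfx : ∀ f : F[X], (∀ j, (f.coeff j) ^ (p ^ N) = f.coeff j) ↔ Fx φ f := by
    intro f
    unfold Fx
    rw [Polynomial.ext_iff]
    refine forall_congr' fun j => ?_
    rw [coeff_map, hφ]
  obtain ⟨G, hG⟩ : ∃ G : Set F[X], G = {f ∈ PN p F N D | ∀ θ : F, f.IsRoot θ →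
    θ ≠ 0 ∧ r ^ (i + 1) ∣ orderOf θ} := ⟨_, rfl⟩
  have hGsub : G ⊆ PN p F N D := by rw [hG]; exact fun f hf => hf.1
  have hGcard : (p ^ N) ^ D < 2 * G.ncard := by
    have h2 : G = PN p F N D \ {f ∈ PN p F N D | ∃ θ : F, f.IsRoot θ ∧
        ¬ (θ ≠ 0 ∧ r ^ (i + 1) ∣ orderOf θ)} := by
      rw [hG]
      ext f
      constructor
      · rintro ⟨hf, hf'⟩
        refine ⟨hf, ?_⟩
        rintro ⟨_, θ, hθ, hθ'⟩
        exact hθ' (hf' θ hθ)
      · rintro ⟨hf, hf'⟩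
        refine ⟨hf, fun θ hθ => ?_⟩
        by_contra hcon
        exact hf' ⟨hf, θ, hθ, hcon⟩
    have h3 := Set.ncard_sdiff_add_ncard_of_subset (s := {f ∈ PN p F N D | ∃ θ : F, f.IsRoot θ ∧
        ¬ (θ ≠ 0 ∧ r ^ (i + 1) ∣ orderOf θ)}) (t := PN p F N D) (fun f hf => hf.1) hfin
    rw [← h2, hcard] at h3
    omega
  have hGcop : ∀ f ∈ G, IsCoprime f (X ^ D - 1) := by
    intro f hf
    rw [hG] at hf
    rw [isCoprime_iff_aeval_ne_zero_of_isAlgClosed F F]
    intro θ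
    by_contra hcon
    push Not at hcon
    obtain ⟨h2, h3⟩ := hcon
    have h4 : f.IsRoot θ := by
      rw [IsRoot.def]
      simpa using h2
    obtain ⟨_, h5⟩ := hf.2 θ h4
    have h6 : θ ^ D = 1 := by
      simp only [map_sub, map_pow, aeval_X, map_one] at h3
      exact sub_eq_zero.mp h3
    exact hrD (h5.trans (orderOf_dvd_of_pow_eq_one h6))
  have hafx : Fx φ a := (hfx a).1 ha
  have hinv : ∀ f : F[X], f ∈ G → ∃ g : F[X], Fx φ g ∧ (X ^ D - 1 : F[X]) ∣ f * g - 1 := by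
    intro f hf
    exact inv_exists φ D hD f ((hfx f).1 (hGsub hf).2.2) (hGcop f hf)
  choose! st hst1 hst2 using hinv
  have hT : ∀ f : F[X], f ∈ G → ∃ g ∈ PN p F N D, (X ^ D - 1 : F[X]) ∣ g - a * st f := by
    intro f hf
    obtain ⟨g, hg, hg', _⟩ := hrep (a * st f) ((hfx _).2 (hafx.mul (hst1 f hf)))
    exact ⟨g, hg, hg'⟩
  choose! T hT1 hT2 using hT
  have hTinj : Set.InjOn T G := by
    intro f hf f' hf' hff
    have k1 := hT2 f hf
    have k2 := hT2 f' hf'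
    rw [← hff] at k2
    have k3 : (X ^ D - 1 : F[X]) ∣ a * (st f - st f') := by
      have h2 := dvd_sub k2 k1
      have e : T f - a * st f' - (T f - a * st f) = a * (st f - st f') := by ring
      rwa [e] at h2
    have k4 : (X ^ D - 1 : F[X]) ∣ st f - st f' := hcop.symm.dvd_of_dvd_mul_left k3
    have k5 : (X ^ D - 1 : F[X]) ∣ f' - f := by
      have e : f' - f = f * f' * (st f - st f') - f' * (f * st f - 1) + f * (f' * st f' - 1) := by
        ring
      rw [e]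
      exact dvd_add (dvd_sub (Dvd.dvd.mul_left k4 _) (Dvd.dvd.mul_left (hst2 f hf) _))
        (Dvd.dvd.mul_left (hst2 f' hf') _)
    obtain ⟨g, _, _, hg⟩ := hrep f (hGsub hf).2.2
    have k6 := hg f (hGsub hf) (by rw [sub_self]; exact dvd_zero _)
    have k7 := hg f' (hGsub hf') k5
    rw [k6, k7]
  have hTim : (T '' G).ncard = G.ncard := hTinj.ncard_image
  have hTsub : T '' G ⊆ PN p F N D := by
    rintro _ ⟨f, hf, rfl⟩
    exact hT1 f hf
  obtain ⟨f₂, hf₂, hf₂'⟩ : (T '' G ∩ G).Nonempty := by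
    by_contra hcon
    rw [Set.not_nonempty_iff_eq_empty, ← Set.disjoint_iff_inter_eq_empty] at hcon
    have h2 := Set.ncard_union_eq hcon (hfin.subset hTsub) (hfin.subset hGsub)
    have h3 := Set.ncard_le_ncard (Set.union_subset hTsub hGsub) hfin
    omega
  obtain ⟨f₁, hf₁, rfl⟩ := hf₂
  have hm1 := (hGsub hf₁).1
  have hm2 := (hGsub hf₂').1
  refine ⟨f₁ * T f₁, (hm1.mul hm2).ne_zero, (hfx _).2 (((hfx _).1 (hGsub hf₁).2.2).mul
    ((hfx _).1 (hGsub hf₂').2.2)), ?_, ?_⟩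
  · have e : f₁ * T f₁ - a = f₁ * (T f₁ - a * st f₁) + a * (f₁ * st f₁ - 1) := by ring
    rw [e]
    exact dvd_add (Dvd.dvd.mul_left (hT2 f₁ hf₁) _) (Dvd.dvd.mul_left (hst2 f₁ hf₁) _)
  · intro θ hθ
    rw [IsRoot.def, eval_mul, mul_eq_zero] at hθ
    rw [hG] at hf₁ hf₂'
    rcases hθ with h2 | h2
    · exact hf₁.2 θ h2
    · exact hf₂'.2 θ h2

end MP7K
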