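import Pool.Agent.Lib.MP_7f581e_K.Spec1

/-!
# C33, task U3: the norm of a polynomial with coefficients in `K_N`
-/

set_option autoImplicit false

namespace MP7K

open Polynomial Finset

/-- Elements fixed by Frobenius are in the prime field. -/
theorem u3_prime {p : ℕ} [Fact p.Prime] {F : Type} [Field F] [Algebra (ZMod p) F] [CharP F p]
    {c : F} (hc : c ^ p = c) : ∃ a : ZMod p, algebraMap (ZMod p) F a = c := by
  have h := (Subfield.mem_bot_iff_pow_eq_self F p).2 hc
  obtain ⟨n, hn⟩ := (mem_bot_iff_intCast p F).1 h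
  exact ⟨(n : ZMod p), by rw [map_intCast, hn]⟩

/-- A polynomial fixed by Frobenius has coefficients in the prime field. -/
theorem u3_lift {p : ℕ} [Fact p.Prime] {F : Type} [Field F] [Algebra (ZMod p) F] [CharP F p]
    {G : F[X]} (hG : G.map (frobenius F p) = G) :
    ∃ g : (ZMod p)[X], g.map (algebraMap (ZMod p) F) = G := by
  have h : G ∈ lifts (algebraMap (ZMod p) F) := by
    rw [lifts_iff_coeff_lifts]
    intro n
    have h1 : (G.map (frobenius F p)).coeff n = G.coeff n := by rw [hG]
    rw [coeff_map, frobenius_def] at h1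
    exact u3_prime h1
  exact (mem_lifts G).1 h

/-- The product of the conjugates is fixed by Frobenius. -/
theorem u3_prod {p : ℕ} [Fact p.Prime] {F : Type} [Field F] [CharP F p] {N : ℕ} {f : F[X]}
    (hf : ∀ j, (f.coeff j) ^ (p ^ N) = f.coeff j) (hf0 : f ≠ 0) :
    (∏ k ∈ range N, f.map (iterateFrobenius F p k)).map (frobenius F p) =
      ∏ k ∈ range N, f.map (iterateFrobenius F p k) := by
  have h1 : ∀ k, (f.map (iterateFrobenius F p k)).map (frobenius F p) =
      f.map (iterateFrobenius F p (k + 1)) := by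
    intro k
    rw [Polynomial.map_map]
    congr 1
    ext x
    simp only [RingHom.comp_apply, frobenius_def, iterateFrobenius_def, ← pow_mul, pow_succ]
  have h0 : f.map (iterateFrobenius F p 0) = f := by
    rw [iterateFrobenius_zero, map_id]
  have hN : f.map (iterateFrobenius F p N) = f := by
    ext j
    rw [coeff_map, iterateFrobenius_def, hf]
  have h2 := Finset.prod_range_succ' (fun k => f.map (iterateFrobenius F p k)) N
  have h3 := Finset.prod_range_succ (fun k => f.map (iterateFrobenius F p k)) N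
  rw [h2, h0, hN] at h3
  have h4 := mul_right_cancel₀ hf0 h3
  rw [Polynomial.map_prod]
  rw [← h4]
  exact Finset.prod_congr rfl (fun k _ => h1 k)

theorem kU3 : KStmtU3 := by
  intro p _ F _ _ _ _ _ _ N hN f hf
  by_cases hf0 : f = 0
  · refine ⟨0, ?_, fun h => absurd hf0 h, fun θ _ => ⟨θ, by rw [hf0]; simp, rfl, id⟩⟩
    obtain ⟨n, rfl⟩ := Nat.exists_eq_succ_of_ne_zero hN.ne'
    rw [Finset.prod_range_succ, hf0]
    simp
  obtain ⟨g, hg⟩ := u3_lift (u3_prod hf hf0)
  refine ⟨g, hg, ?_, ?_⟩
  · intro _ h0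
    rw [h0, Polynomial.map_zero] at hg
    have h5 := Finset.prod_eq_zero_iff.1 hg.symm
    obtain ⟨k, _, hk⟩ := h5
    exact hf0 ((Polynomial.map_eq_zero _).1 hk)
  · intro θ hθ
    have h1 : (∏ k ∈ range N, f.map (iterateFrobenius F p k)).eval θ = 0 := by
      rw [← hg, eval_map_algebraMap, hθ]
    rw [eval_prod] at h1
    obtain ⟨k, _, hk⟩ := Finset.prod_eq_zero_iff.1 h1
    have hpos : 0 < p ^ k := pow_pos (Fact.out : p.Prime).pos k
    obtain ⟨θ', hθ'⟩ := IsAlgClosed.exists_pow_nat_eq θ hpos
    have hinj : Function.Injective (iterateFrobenius F p k) := (iterateFrobenius F p k).injective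
    have h2 : iterateFrobenius F p k θ' = θ := by rw [iterateFrobenius_def, hθ']
    refine ⟨θ', ?_, ?_, ?_⟩
    · rw [← h2, eval_map, eval₂_at_apply] at hk
      have := hinj (hk.trans (map_zero _).symm)
      exact this
    · rw [← h2]
      exact (orderOf_injective (iterateFrobenius F p k).toMonoidHom hinj θ').symm
    · intro h3 h4
      rw [h4] at hθ'
      exact h3 (pow_eq_zero_iff hpos.ne' |>.1 hθ')

end MP7K
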