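import Pool.Agent.Lib.MP_7f581e_K.Spec1

/-!
# C33, task U4: the norm is surjective on `1 + (X ^ m - 1)`
-/

set_option autoImplicit false

namespace MP7K

open Polynomial Finset

section

variable {p : ℕ} [Fact p.Prime] {F : Type} [Field F] [Algebra (ZMod p) F] [CharP F p]

theorem u4_map (k : ℕ) (u : (ZMod p)[X]) :
    (u.map (algebraMap (ZMod p) F)).map (iterateFrobenius F p k) =
      u.map (algebraMap (ZMod p) F) := by
  rw [Polynomial.map_map]
  congr 1
  exact Subsingleton.elim _ _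

/-- The norm of a polynomial. -/
noncomputable def u4nm (p : ℕ) [Fact p.Prime] {F : Type} [Field F] [CharP F p] (N : ℕ)
    (a : F[X]) : F[X] :=
  ∏ k ∈ range N, a.map (iterateFrobenius F p k)

omit [Algebra (ZMod p) F] in
theorem u4nm_mul (N : ℕ) (a b : F[X]) : u4nm p N (a * b) = u4nm p N a * u4nm p N b := by
  unfold u4nm
  rw [← Finset.prod_mul_distrib]
  exact Finset.prod_congr rfl (fun k _ => Polynomial.map_mul _)

omit [Algebra (ZMod p) F] in
theorem u4nm_one (N : ℕ) : u4nm p N (1 : F[X]) = 1 := by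
  unfold u4nm
  exact Finset.prod_eq_one (fun k _ => Polynomial.map_one _)

/-- An element of trace one. -/
theorem u4_trace (hB : FactsB p F) {N : ℕ} (hN : 0 < N) :
    ∃ θ : F, θ ^ (p ^ N) = θ ∧ ∑ k ∈ range N, θ ^ (p ^ k) = 1 := by
  classical
  have hp : 1 < p := (Fact.out : p.Prime).one_lt
  obtain ⟨n, rfl⟩ : ∃ n, N = n + 1 := ⟨N - 1, by omega⟩
  have hex : ∃ θ₀ : F, θ₀ ^ (p ^ (n + 1)) = θ₀ ∧ ∑ k ∈ range (n + 1), θ₀ ^ (p ^ k) ≠ 0 := by
    by_contra hcon
    push Not at hcon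
    let T : F[X] := ∑ k ∈ range (n + 1), X ^ (p ^ k)
    have hTe : ∀ θ : F, T.eval θ = ∑ k ∈ range (n + 1), θ ^ (p ^ k) := by
      intro θ
      simp only [T, eval_finsetSum, eval_pow, eval_X]
    have hTc : T.coeff (p ^ n) = 1 := by
      simp only [T, finsetSum_coeff, coeff_X_pow]
      rw [Finset.sum_eq_single n]
      · simp
      · intro k _ hk
        rw [if_neg]
        intro h
        exact hk (Nat.pow_right_injective hp h).symm
      · intro h
        exact absurd (Finset.mem_range.2 (Nat.lt_succ_self n)) h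
    have hT0 : T ≠ 0 := by
      intro h
      rw [h, coeff_zero] at hTc
      exact zero_ne_one hTc
    have hTd : T.natDegree ≤ p ^ n := by
      refine natDegree_sum_le_of_forall_le _ _ (fun k hk => ?_)
      rw [natDegree_X_pow]
      exact Nat.pow_le_pow_right hp.le (by have := Finset.mem_range.1 hk; omega)
    have hsub : {y : F | y ^ (p ^ (n + 1)) = y} ⊆ (T.roots.toFinset : Set F) := by
      intro y hy
      rw [Finset.mem_coe, Multiset.mem_toFinset, mem_roots hT0]
      change T.eval y = 0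
      rw [hTe]
      exact hcon y hy
    have h1 := Set.ncard_le_ncard hsub (Finset.finite_toSet _)
    rw [Set.ncard_coe_finset, hB.cardK (n + 1) (Nat.succ_pos n)] at h1
    have h2 : T.roots.toFinset.card ≤ p ^ n :=
      (Multiset.toFinset_card_le _).trans ((card_roots' T).trans hTd)
    have h3 : p ^ n < p ^ (n + 1) := Nat.pow_lt_pow_right hp (Nat.lt_succ_self n)
    omega
  obtain ⟨θ₀, hθ₀, hs⟩ := hex
  set s := ∑ k ∈ range (n + 1), θ₀ ^ (p ^ k) with hsdef
  have hsp : s ^ p = s := by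
    have h1 : s ^ p = ∑ k ∈ range (n + 1), θ₀ ^ (p ^ (k + 1)) := by
      rw [hsdef, ← frobenius_def, map_sum]
      refine Finset.sum_congr rfl (fun k _ => ?_)
      rw [frobenius_def, ← pow_mul, pow_succ]
    have h2 := Finset.sum_range_succ' (fun k => θ₀ ^ (p ^ k)) (n + 1)
    have h3 := Finset.sum_range_succ (fun k => θ₀ ^ (p ^ k)) (n + 1)
    rw [h2] at h3
    simp only [pow_zero, pow_one] at h3
    rw [hθ₀] at h3
    rw [h1]
    exact add_right_cancel h3
  have hspk : ∀ k, s ^ (p ^ k) = s := by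
    intro k
    induction k with
    | zero => simp
    | succ k ih => rw [pow_succ, pow_mul, ih, hsp]
  refine ⟨θ₀ / s, ?_, ?_⟩
  · rw [div_pow, hθ₀, hspk]
  · have : ∀ k ∈ range (n + 1), (θ₀ / s) ^ (p ^ k) = θ₀ ^ (p ^ k) / s := by
      intro k _
      rw [div_pow, hspk]
    rw [Finset.sum_congr rfl this, ← Finset.sum_div]
    exact div_self hs

theorem u4_prod {R : Type} [CommRing R] (u : R) (c : ℕ → R) (N : ℕ) :
    u ^ 2 ∣ ∏ k ∈ range N, (1 + c k * u) - (1 + (∑ k ∈ range N, c k) * u) := by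
  induction N with
  | zero => simp
  | succ N ih =>
    obtain ⟨d, hd⟩ := ih
    rw [Finset.prod_range_succ, Finset.sum_range_succ]
    refine ⟨d * (1 + c N * u) + (∑ k ∈ range N, c k) * c N, ?_⟩
    have h1 : ∏ k ∈ range N, (1 + c k * u) =
        u ^ 2 * d + (1 + (∑ k ∈ range N, c k) * u) := by
      rw [← hd]; ring
    rw [h1]
    ring

end

theorem kU4 (h3 : KStmtU3) : KStmtU4 := by
  intro p _ F _ _ _ _ _ hA hB N m S hN hm hmp κ
  obtain ⟨θ, hθ, htr⟩ := u4_trace (p := p) hB hN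
  have hFx : ∀ a : F[X], a.map (iterateFrobenius F p N) = a →
      ∀ j, (a.coeff j) ^ (p ^ N) = a.coeff j := by
    intro a ha j
    have h1 : (a.map (iterateFrobenius F p N)).coeff j = a.coeff j := by rw [ha]
    rwa [coeff_map, iterateFrobenius_def] at h1
  set ι := algebraMap (ZMod p) F with hι
  set ϖ : (ZMod p)[X] := X ^ m - 1 with hϖ
  have hXD : (X ^ (p ^ S * m) - 1 : (ZMod p)[X]) = ϖ ^ (p ^ S) := by
    rw [hϖ, sub_pow_char_pow, one_pow, ← pow_mul, mul_comm]
  have hXDF : (X ^ (p ^ S * m) - 1 : F[X]) = (ϖ ^ (p ^ S)).map ι := by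
    rw [← hXD]
    simp
  have key : ∀ t s : ℕ, 1 ≤ s → s + t = p ^ S → ∀ b : (ZMod p)[X],
      ∃ a : F[X], a.map (iterateFrobenius F p N) = a ∧ ϖ.map ι ∣ a - 1 ∧
        ∃ g : (ZMod p)[X], g.map ι = u4nm p N a ∧ ϖ ^ (p ^ S) ∣ g - (1 + ϖ ^ s * b) := by
    intro t
    induction t with
    | zero =>
      intro s hs hst b
      refine ⟨1, Polynomial.map_one _, by simp, 1, by rw [u4nm_one, Polynomial.map_one], ?_⟩
      refine ⟨-b, ?_⟩
      have : s = p ^ S := by omega
      rw [this]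
      ring
    | succ t ih =>
      intro s hs hst b
      set u : F[X] := (ϖ ^ s * b).map ι with hu
      set a₁ : F[X] := 1 + C θ * u with ha₁
      have hfix : a₁.map (iterateFrobenius F p N) = a₁ := by
        rw [ha₁, Polynomial.map_add, Polynomial.map_mul, Polynomial.map_one, Polynomial.map_C,
          iterateFrobenius_def, hθ, hu, u4_map]
      have hnm : u4nm p N a₁ = ∏ k ∈ range N, (1 + C (θ ^ (p ^ k)) * u) := by
        unfold u4nm
        refine Finset.prod_congr rfl (fun k _ => ?_)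
        rw [ha₁, Polynomial.map_add, Polynomial.map_mul, Polynomial.map_one, Polynomial.map_C,
          iterateFrobenius_def, hu, u4_map]
      obtain ⟨g₁, hg₁, -, -⟩ := h3 p F hA N hN a₁ (hFx a₁ hfix)
      have hg₁' : g₁.map ι = u4nm p N a₁ := hg₁
      -- `g₁ ≡ 1 + ϖ ^ s b` modulo `ϖ ^ (s + 1)`
      have hd1 : ϖ ^ (s + 1) ∣ g₁ - (1 + ϖ ^ s * b) := by
        have h1 : u ^ 2 ∣ u4nm p N a₁ - (1 + u) := by
          rw [hnm]
          have h2 := u4_prod u (fun k => C (θ ^ (p ^ k))) N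
          have h4 : (∑ k ∈ range N, (C (θ ^ (p ^ k)) : F[X])) = 1 := by
            rw [← map_sum, htr, C_1]
          rw [h4, one_mul] at h2
          exact h2
        have h2 : (ϖ ^ (s + 1)).map ι ∣ u ^ 2 := by
          rw [hu, ← Polynomial.map_pow]
          refine Polynomial.map_dvd ι ?_
          rw [mul_pow, ← pow_mul]
          exact (pow_dvd_pow ϖ (by omega)).mul_right _
        have h4 : (ϖ ^ (s + 1)).map ι ∣ (g₁ - (1 + ϖ ^ s * b)).map ι := by
          rw [Polynomial.map_sub, Polynomial.map_add, Polynomial.map_one, hg₁']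
          exact h2.trans h1
        exact (Polynomial.map_dvd_map' ι).1 h4
      have hcop : IsCoprime g₁ (ϖ ^ (p ^ S)) := by
        apply IsCoprime.pow_right
        obtain ⟨d, hd⟩ := hd1
        refine ⟨1, -(ϖ ^ s * d + ϖ ^ (s - 1) * b), ?_⟩
        have h5 : ϖ ^ s = ϖ ^ (s - 1) * ϖ := by
          rw [← pow_succ]
          congr 1
          omega
        have h6 : g₁ = 1 + ϖ ^ s * b + ϖ ^ (s + 1) * d := by
          rw [← hd]; ring
        rw [h6, pow_succ, h5]
        ring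
      obtain ⟨n, v, hnv⟩ := hcop
      -- the new error term
      have hb' : ∃ b' : (ZMod p)[X], (1 + ϖ ^ s * b) * n = 1 + ϖ ^ (s + 1) * b' := by
        obtain ⟨d, hd⟩ := hd1
        have h5 : ϖ ^ (p ^ S) = ϖ ^ (s + 1) * ϖ ^ t := by
          rw [← pow_add]
          congr 1
          omega
        refine ⟨-(d * n) - v * ϖ ^ t, ?_⟩
        have h6 : 1 + ϖ ^ s * b = g₁ - ϖ ^ (s + 1) * d := by
          rw [← hd]; ring
        rw [h6]
        have h7 : n * g₁ = 1 - v * (ϖ ^ (s + 1) * ϖ ^ t) := by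
          rw [← h5, ← hnv]; ring
        calc (g₁ - ϖ ^ (s + 1) * d) * n = n * g₁ - ϖ ^ (s + 1) * d * n := by ring
          _ = _ := by rw [h7]; ring
      obtain ⟨b', hb'⟩ := hb'
      obtain ⟨a₂, hfix₂, hd₂, g₂, hg₂, hgd₂⟩ := ih (s + 1) (by omega) (by omega) b'
      refine ⟨a₁ * a₂, ?_, ?_, g₁ * g₂, ?_, ?_⟩
      · rw [Polynomial.map_mul, hfix, hfix₂]
      · obtain ⟨e, he⟩ := hd₂
        have h8 : ϖ.map ι ∣ u := by
          rw [hu]
          refine Polynomial.map_dvd ι ?_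
          exact (dvd_pow_self ϖ (by omega)).mul_right _
        obtain ⟨e', he'⟩ := h8
        refine ⟨e + C θ * e' * a₂, ?_⟩
        have h9 : a₂ = 1 + ϖ.map ι * e := by rw [← he]; ring
        calc a₁ * a₂ - 1 = (a₂ - 1) + C θ * u * a₂ := by rw [ha₁]; ring
          _ = _ := by rw [he, he']; ring
      · rw [Polynomial.map_mul, u4nm_mul, hg₁', hg₂]
      · obtain ⟨e, he⟩ := hgd₂
        refine ⟨g₁ * e - (1 + ϖ ^ s * b) * v, ?_⟩
        have h9 : g₂ = 1 + ϖ ^ (s + 1) * b' + ϖ ^ (p ^ S) * e := by rw [← he]; ring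
        have h10 : g₁ * (1 + ϖ ^ (s + 1) * b') = (1 + ϖ ^ s * b) * (n * g₁) := by
          rw [← hb']; ring
        have h11 : n * g₁ = 1 - v * ϖ ^ (p ^ S) := by rw [← hnv]; ring
        calc g₁ * g₂ - (1 + ϖ ^ s * b)
            = g₁ * (1 + ϖ ^ (s + 1) * b') + g₁ * (ϖ ^ (p ^ S) * e) - (1 + ϖ ^ s * b) := by
              rw [h9]; ring
          _ = _ := by rw [h10, h11]; ring
  have hpS : 1 ≤ p ^ S := Nat.one_le_pow _ _ (Fact.out : p.Prime).pos
  obtain ⟨a, hfix, hd, g, hg, hgd⟩ := key (p ^ S - 1) 1 le_rfl (by omega) κ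
  refine ⟨a, hFx a hfix, ?_, ?_⟩
  · rw [hXDF, Polynomial.map_pow]
    apply IsCoprime.pow_right
    obtain ⟨e, he⟩ := hd
    refine ⟨1, -e, ?_⟩
    have h9 : a = 1 + ϖ.map ι * e := by rw [← he]; ring
    rw [h9]
    ring
  · rw [hXDF]
    have h1 : (∏ k ∈ range N, a.map (iterateFrobenius F p k)) = g.map ι := hg.symm
    rw [h1, ← Polynomial.map_sub]
    refine Polynomial.map_dvd ι ?_
    rw [pow_one, mul_comm ϖ κ] at hgd
    exact hgd

end MP7K
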