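import Pool.Agent.Lib.MP_7f581e_K.Spec1

/-!
# C33 K/ZZ: the special elements `z` and `y₁`
-/

set_option autoImplicit false

namespace MP7K

open Polynomial Finset

namespace KZZAux

variable {p : ℕ} [Fact p.Prime] {F : Type} [Field F] [Algebra (ZMod p) F]

theorem annih [IsAlgClosed F] [Algebra.IsAlgebraic (ZMod p) F] (ρ : F) (D₀ : ℕ) (hD₀ : 0 < D₀)
    (hρ : ρ ^ (p ^ D₀) = ρ) :
    ∃ P : (ZMod p)[X], P.Monic ∧ P.natDegree ≤ D₀ ∧ aeval ρ P = 0 := by
  have hint : IsIntegral (ZMod p) ρ := Algebra.IsIntegral.isIntegral ρ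
  refine ⟨minpoly (ZMod p) ρ, minpoly.monic hint, ?_, minpoly.aeval (ZMod p) ρ⟩
  have hdvd : minpoly (ZMod p) ρ ∣ X ^ (Nat.card (ZMod p)) ^ D₀ - X := by
    refine minpoly.dvd (ZMod p) ρ ?_
    rw [Nat.card_zmod, map_sub, map_pow, aeval_X, hρ, sub_self]
  exact Nat.le_of_dvd hD₀
    ((minpoly.irreducible hint).natDegree_dvd_of_dvd_X_pow_card_pow_sub_X hdvd)

theorem pow_pow_add (y : F) (a b : ℕ) : y ^ (p ^ (a + b)) = (y ^ (p ^ a)) ^ (p ^ b) := by
  rw [← pow_mul, ← pow_add]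

theorem iter {ρ z : F} {g : ℕ} (hρ : ρ ^ (p ^ g) = ρ) (hz : z ^ (p ^ g) = ρ * z) (j : ℕ) :
    z ^ (p ^ (j * g)) = ρ ^ j * z := by
  induction j with
  | zero => simp
  | succ j ih =>
    have e : (j + 1) * g = j * g + g := by ring
    rw [e, pow_pow_add, ih, mul_pow, hz, ← pow_mul, mul_comm j, pow_mul, hρ]
    ring

theorem killZ (hA : FactsA p F) {ρ z : F} {g : ℕ} (hρ : ρ ^ (p ^ g) = ρ)
    (hz : z ^ (p ^ g) = ρ * z) (P : (ZMod p)[X]) (hP : aeval ρ P = 0) :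
    lin p (P.comp (X ^ g)) z = 0 := by
  rw [hA.lin_sum P g (P.natDegree + 1) z (Nat.lt_succ_self _)]
  have h1 : ∀ i ∈ range (P.natDegree + 1), algebraMap (ZMod p) F (P.coeff i) * z ^ (p ^ (i * g)) =
      (P.coeff i • ρ ^ i) * z := by
    intro i _
    rw [iter hρ hz, Algebra.smul_def]
    ring
  rw [Finset.sum_congr rfl h1, ← Finset.sum_mul, ← aeval_eq_sum_range, hP, zero_mul]

/-- an element of degree dividing `D` which is in no maximal `K_{D/s}` has degree `D` -/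
theorem dg_eq (hA : FactsA p F) {w : F} {D : ℕ} (hD : 0 < D) (h1 : w ^ (p ^ D) = w)
    (h2 : ∀ s : ℕ, s.Prime → s ∣ D → w ^ (p ^ (D / s)) ≠ w) : dg p w = D := by
  have h3 : dg p w ∣ D := (hA.pow_eq w D).mp h1
  obtain ⟨q, hq⟩ := h3
  by_contra hne
  have hq1 : q ≠ 1 := by
    intro h
    rw [h, mul_one] at hq
    exact hne hq.symm
  obtain ⟨s, hs, hsq⟩ := Nat.exists_prime_and_dvd hq1
  have hsD : s ∣ D := hsq.trans (Dvd.intro_left _ hq.symm)
  apply h2 s hs hsD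
  rw [hA.pow_eq]
  obtain ⟨q', hq'⟩ := hsq
  have e : D = s * (dg p w * q') := by rw [hq, hq']; ring
  have e2 : D / s = dg p w * q' := by
    rw [e]
    exact Nat.mul_div_cancel_left _ hs.pos
  rw [e2]
  exact Dvd.intro _ rfl

/-- few elements of `Z` are in `K_{D/s}` -/
theorem few (hA : FactsA p F) (hB : FactsB p F) {ρ a : F} {n g s D : ℕ} (hρ : IsPrimitiveRoot ρ n)
    (hn : 0 < n) (hg : 0 < g) (hD : D = n * g) (hρg : ρ ^ (p ^ g) = ρ) (ha : a ≠ 0)
    (hag : a ^ (p ^ g) = a) (hs : s.Prime) (hsD : s ∣ D) :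
    {z : F | z ≠ 0 ∧ z ^ (p ^ g) = ρ * z ∧ (z / a) ^ (p ^ (D / s)) = z / a}.Finite ∧
    {z : F | z ≠ 0 ∧ z ^ (p ^ g) = ρ * z ∧ (z / a) ^ (p ^ (D / s)) = z / a}.ncard ≤ p ^ (g / 2) := by
  have hp : p.Prime := Fact.out
  set A : Set F := {z : F | z ≠ 0 ∧ z ^ (p ^ g) = ρ * z ∧ (z / a) ^ (p ^ (D / s)) = z / a} with hAd
  rcases Set.eq_empty_or_nonempty A with hemp | ⟨z₀, hz₀0, hz₀g, hz₀s⟩
  · rw [hemp]
    exact ⟨Set.finite_empty, by simp⟩
  by_cases hsn : s ∣ n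
  · exfalso
    obtain ⟨n', hn'⟩ := hsn
    have hn'0 : n' ≠ 0 := by
      rintro rfl
      rw [mul_zero] at hn'
      omega
    have e : D / s = n' * g := by
      rw [hD, hn', mul_assoc]
      exact Nat.mul_div_cancel_left _ hs.pos
    have hza : (z₀ / a) ^ (p ^ g) = ρ * (z₀ / a) := by
      rw [div_pow, hz₀g, hag, mul_div_assoc]
    rw [e, iter hρg hza] at hz₀s
    have hne : z₀ / a ≠ 0 := div_ne_zero hz₀0 ha
    have h1 : ρ ^ n' = 1 := mul_right_cancel₀ hne (hz₀s.trans (one_mul _).symm)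
    refine hρ.pow_ne_one_of_pos_of_lt hn'0 ?_ h1
    rw [hn']
    have := hs.two_le
    have h3 : 0 < n' := Nat.pos_of_ne_zero hn'0
    nlinarith
  · have hsg : s ∣ g := by
      rw [hD] at hsD
      exact ((Nat.Prime.dvd_mul hs).mp hsD).resolve_left hsn
    obtain ⟨g', hg'⟩ := hsg
    have hg'0 : 0 < g' := by
      rcases Nat.eq_zero_or_pos g' with h | h
      · rw [h, mul_zero] at hg'; omega
      · exact h
    have e : D / s = n * g' := by
      rw [hD, hg']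
      have : n * (s * g') = s * (n * g') := by ring
      rw [this]
      exact Nat.mul_div_cancel_left _ hs.pos
    have hsub : A ⊆ (fun b => z₀ * b) '' {b : F | b ^ (p ^ g') = b} := by
      rintro z ⟨hz0, hzg, hzs⟩
      refine ⟨z / z₀, ?_, ?_⟩
      · rw [Set.mem_setOf_eq, hA.pow_eq]
        have h1 : dg p (z / z₀) ∣ g := by
          rw [← hA.pow_eq, div_pow, hzg, hz₀g]
          have hρ0 : ρ ≠ 0 := hρ.ne_zero hn.ne'
          field_simp
        have h2 : dg p (z / z₀) ∣ n * g' := by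
          rw [← hA.pow_eq, ← e]
          have h3 : z / z₀ = (z / a) / (z₀ / a) := by field_simp
          rw [h3, div_pow, hzs, hz₀s]
        have h4 := Nat.dvd_gcd h1 h2
        have h5 : Nat.gcd g (n * g') = g' := by
          rw [hg', Nat.gcd_mul_right, (Nat.Prime.coprime_iff_not_dvd hs).mpr hsn, one_mul]
        rwa [h5] at h4
      · simp only
        field_simp
    have hfin : ((fun b => z₀ * b) '' {b : F | b ^ (p ^ g') = b}).Finite :=
      (hB.finK g' hg'0).image _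
    refine ⟨hfin.subset hsub, ?_⟩
    refine (Set.ncard_le_ncard hsub hfin).trans ?_
    refine (Set.ncard_image_le (hB.finK g' hg'0)).trans ?_
    rw [hB.cardK g' hg'0]
    apply Nat.pow_le_pow_right hp.pos
    rw [Nat.le_div_iff_mul_le (by norm_num), hg']
    have := hs.two_le
    nlinarith

end KZZAux

open KZZAux in
theorem kZZ (hGen : KStmtGen) : KStmtZZ := by
  intro p hpF F _ _ _ _ hA hB r m S D₀ n hr hrp hR hD₀ hrD hnD hn32 hnDD hbig
  have hp : p.Prime := hpF.out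
  have hp2 := hp.two_le
  have : CharP F p := charP_of_injective_algebraMap (algebraMap (ZMod p) F).injective p
  obtain ⟨hm0, hmp, hS5, hR1, hR2⟩ := hR
  set D : ℕ := p ^ S * m with hDdef
  have hD0 : 0 < D := Nat.mul_pos (pow_pos hp.pos _) hm0
  have hn0 : 0 < n := by omega
  have hnd : n ∣ D := (Dvd.intro _ rfl).trans hnDD
  set g : ℕ := D / n with hgdef
  have hDg : D = n * g := (Nat.mul_div_cancel' hnd).symm
  have hg0 : 0 < g := Nat.div_pos (Nat.le_of_dvd hD0 hnd) hn0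
  have hD₀g : D₀ ∣ g := by
    rw [hDg] at hnDD
    exact Nat.dvd_of_mul_dvd_mul_left hn0 hnDD
  have hpD₀ : 1 < p ^ D₀ := Nat.one_lt_pow hD₀.ne' hp.one_lt
  have hcop : ∀ a : ℕ, a ∣ p ^ D₀ - 1 → Nat.Coprime a p := by
    intro a ha
    rw [Nat.coprime_comm, Nat.Prime.coprime_iff_not_dvd hp]
    intro h1
    have h2 : p ∣ p ^ D₀ - 1 := h1.trans ha
    have h3 : p ∣ p ^ D₀ := dvd_pow_self p hD₀.ne'
    have h4 : p ∣ 1 := by
      have := Nat.dvd_sub h3 h2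
      rwa [Nat.sub_sub_self hpD₀.le] at this
    exact hp.one_lt.ne' (Nat.dvd_one.mp h4)
  have hnp : Nat.Coprime n p := hcop n hnD
  have hrp' : Nat.Coprime r p := hcop r hrD
  have hfixD₀ : ∀ (a : ℕ) (x : F), a ∣ p ^ D₀ - 1 → x ^ a = 1 → x ^ (p ^ D₀) = x := by
    intro a x ha hx
    obtain ⟨b, hb⟩ := ha
    have e : p ^ D₀ = a * b + 1 := by omega
    rw [e, pow_succ, pow_mul, hx, one_pow, one_mul]
  have hup : ∀ (x : F) (a b : ℕ), a ∣ b → x ^ (p ^ a) = x → x ^ (p ^ b) = x := by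
    intro x a b hab hx
    rw [hA.pow_eq] at hx ⊢
    exact hx.trans hab
  set N : ℕ := p ^ (S - 4) with hNdef
  set k : ℕ := p ^ 4 * m with hkdef
  have hN0 : 0 < N := pow_pos hp.pos _
  have hk0 : 0 < k := Nat.mul_pos (pow_pos hp.pos _) hm0
  have hDN : D = N * k := by
    rw [hDdef, hNdef, hkdef, ← mul_assoc, ← pow_add]
    congr 2
    omega
  have hNg : N ∣ g := by
    have h1 : N ∣ n * g := by rw [← hDg, hDN]; exact Dvd.intro _ rfl
    exact (Nat.Coprime.pow_left (S - 4) hnp.symm).dvd_of_dvd_mul_left h1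
  have hsk : ∀ s : ℕ, s.Prime → s ∣ D → s ∣ k := by
    intro s hs hsD
    rw [hDdef] at hsD
    rcases (Nat.Prime.dvd_mul hs).mp hsD with h | h
    · have h2 := hs.dvd_of_dvd_pow h
      rw [hkdef]
      exact (h2.trans (dvd_pow_self p (by norm_num))).mul_right _
    · rw [hkdef]
      exact h.mul_left _
  have hDs : ∀ s : ℕ, s.Prime → s ∣ D → D / s = N * (k / s) := by
    intro s hs hsD
    obtain ⟨k', hk'⟩ := hsk s hs hsD
    rw [hDN, hk', Nat.mul_div_cancel_left _ hs.pos]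
    have e : N * (s * k') = s * (N * k') := by ring
    rw [e, Nat.mul_div_cancel_left _ hs.pos]
  -- roots of unity
  have hnF : NeZero (n : F) := ⟨fun h => by
    rw [CharP.cast_eq_zero_iff F p] at h
    exact (Nat.Prime.coprime_iff_not_dvd hp).mp hnp.symm h⟩
  have hrF : NeZero (r : F) := ⟨fun h => by
    rw [CharP.cast_eq_zero_iff F p] at h
    exact (Nat.Prime.coprime_iff_not_dvd hp).mp hrp'.symm h⟩
  obtain ⟨ρ, hρ⟩ := HasEnoughRootsOfUnity.exists_primitiveRoot F n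
  obtain ⟨ζ, hζ⟩ := HasEnoughRootsOfUnity.exists_primitiveRoot F r
  have hρ0 : ρ ≠ 0 := hρ.ne_zero hn0.ne'
  have hρD₀ : ρ ^ (p ^ D₀) = ρ := hfixD₀ n ρ hnD hρ.pow_eq_one
  have hρg : ρ ^ (p ^ g) = ρ := hup ρ D₀ g hD₀g hρD₀
  have hρ'D₀ : ρ⁻¹ ^ (p ^ D₀) = ρ⁻¹ := by rw [inv_pow, hρD₀]
  have hρ'g : ρ⁻¹ ^ (p ^ g) = ρ⁻¹ := by rw [inv_pow, hρg]
  obtain ⟨P, hPm, hPd, hPa⟩ := annih (p := p) ρ D₀ hD₀ hρD₀
  obtain ⟨P', hPm', hPd', hPa'⟩ := annih (p := p) ρ⁻¹ D₀ hD₀ hρ'D₀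
  have hζ1 : ζ ≠ 1 := hζ.ne_one hr.one_lt
  have hζ0 : ζ ≠ 0 := hζ.ne_zero hr.ne_zero
  have hζg : ζ ^ (p ^ g) = ζ := hup ζ D₀ g hD₀g (hfixD₀ r ζ hrD hζ.pow_eq_one)
  set c : F := 1 - ζ⁻¹ with hcdef
  have hc0 : c ≠ 0 := by
    intro h
    have h1 : ζ⁻¹ = 1 := (sub_eq_zero.mp h).symm
    exact hζ1 (inv_eq_one.mp h1)
  have hfr_sub : ∀ (a b : F) (e : ℕ), (a - b) ^ (p ^ e) = a ^ (p ^ e) - b ^ (p ^ e) := by
    intro a b e
    have := map_sub (iterateFrobenius F p e) a b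
    simpa only [iterateFrobenius_def] using this
  have hfr_add : ∀ (a b : F) (e : ℕ), (a + b) ^ (p ^ e) = a ^ (p ^ e) + b ^ (p ^ e) := by
    intro a b e
    have := map_add (iterateFrobenius F p e) a b
    simpa only [iterateFrobenius_def] using this
  have hcg : c ^ (p ^ g) = c := by
    rw [hcdef, hfr_sub, one_pow, inv_pow, hζg]
  -- the choice of z₁
  obtain ⟨z₁, hz₁0, hz₁g, hz₁s, hz₁c⟩ : ∃ z₁ : F, z₁ ≠ 0 ∧ z₁ ^ (p ^ g) = ρ * z₁ ∧
      (∀ s : ℕ, s.Prime → s ∣ D → z₁ ^ (p ^ (D / s)) ≠ z₁) ∧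
      (∀ s : ℕ, s.Prime → s ∣ D → (z₁ / c) ^ (p ^ (D / s)) ≠ z₁ / c) := by
    set A : F → ℕ → Set F := fun a s =>
      {z : F | z ≠ 0 ∧ z ^ (p ^ g) = ρ * z ∧ (z / a) ^ (p ^ (D / s)) = z / a} with hAdef
    set Z : Set F := {z : F | z ^ (p ^ g) = ρ * z} with hZ
    have hZc : Z.ncard = p ^ g := (hB.cardQ g ρ hg0).2 hρ0
    set E : Set F := {0} ∪ ((⋃ s ∈ D.primeFactors, A 1 s) ∪ (⋃ s ∈ D.primeFactors, A c s)) with hE
    have hfew1 : ∀ s ∈ D.primeFactors, (A 1 s).Finite ∧ (A 1 s).ncard ≤ p ^ (g / 2) := by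
      intro s hs
      rw [Nat.mem_primeFactors] at hs
      exact few hA hB hρ hn0 hg0 hDg hρg one_ne_zero (one_pow _) hs.1 hs.2.1
    have hfewc : ∀ s ∈ D.primeFactors, (A c s).Finite ∧ (A c s).ncard ≤ p ^ (g / 2) := by
      intro s hs
      rw [Nat.mem_primeFactors] at hs
      exact few hA hB hρ hn0 hg0 hDg hρg hc0 hcg hs.1 hs.2.1
    have hEfin : E.Finite := by
      refine (Set.finite_singleton _).union (Set.Finite.union ?_ ?_)
      · exact Set.Finite.biUnion (Finset.finite_toSet _) (fun s hs => (hfew1 s hs).1)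
      · exact Set.Finite.biUnion (Finset.finite_toSet _) (fun s hs => (hfewc s hs).1)
    have hpf : D.primeFactors.card ≤ D - 1 := by
      have hsub : D.primeFactors ⊆ Finset.Icc 2 D := by
        intro s hs
        rw [Nat.mem_primeFactors] at hs
        exact Finset.mem_Icc.mpr ⟨hs.1.two_le, Nat.le_of_dvd hD0 hs.2.1⟩
      refine (Finset.card_le_card hsub).trans ?_
      rw [Nat.card_Icc]
      omega
    have hU : ∀ a : F, (∀ s ∈ D.primeFactors, (A a s).ncard ≤ p ^ (g / 2)) →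
        (⋃ s ∈ D.primeFactors, A a s).ncard ≤ (D - 1) * p ^ (g / 2) := by
      intro a ha
      refine (Finset.set_ncard_biUnion_le _ _).trans ?_
      refine (Finset.sum_le_card_nsmul _ _ _ ha).trans ?_
      rw [smul_eq_mul]
      exact Nat.mul_le_mul_right _ hpf
    have hEc : E.ncard ≤ 1 + 2 * ((D - 1) * p ^ (g / 2)) := by
      refine (Set.ncard_union_le _ _).trans ?_
      rw [Set.ncard_singleton]
      have h1 := Set.ncard_union_le (⋃ s ∈ D.primeFactors, A 1 s) (⋃ s ∈ D.primeFactors, A c s)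
      have h2 := hU 1 (fun s hs => (hfew1 s hs).2)
      have h3 := hU c (fun s hs => (hfewc s hs).2)
      omega
    have hlt : E.ncard < Z.ncard := by
      rw [hZc]
      have h1 : 1 ≤ p ^ (g / 2) := Nat.one_le_pow _ _ hp.pos
      have h2 : 1 + 2 * ((D - 1) * p ^ (g / 2)) ≤ 2 * D * p ^ (g / 2) := by
        obtain ⟨D', hD'⟩ : ∃ D', D = D' + 1 := ⟨D - 1, by omega⟩
        rw [hD', Nat.add_sub_cancel]
        nlinarith
      have h3 : (2 * D * p ^ (g / 2)) ^ 2 < (p ^ g) ^ 2 := by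
        have h4 : (p ^ (g / 2)) ^ 2 ≤ p ^ g := by
          rw [← pow_mul]
          exact Nat.pow_le_pow_right hp.pos (Nat.div_mul_le_self g 2)
        have h5 : 0 < p ^ g := pow_pos hp.pos _
        calc (2 * D * p ^ (g / 2)) ^ 2 = 4 * D ^ 2 * (p ^ (g / 2)) ^ 2 := by ring
          _ ≤ 4 * D ^ 2 * p ^ g := Nat.mul_le_mul_left _ h4
          _ < p ^ g * p ^ g := Nat.mul_lt_mul_of_pos_right hbig h5
          _ = (p ^ g) ^ 2 := by ring
      have h6 : 2 * D * p ^ (g / 2) < p ^ g := lt_of_pow_lt_pow_left₀ 2 (Nat.zero_le _) h3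
      omega
    obtain ⟨z₁, hz₁Z, hz₁E⟩ := Set.exists_mem_notMem_of_ncard_lt_ncard hlt hEfin
    rw [hE, Set.mem_union, Set.mem_union, not_or, not_or] at hz₁E
    obtain ⟨h0, h1, hc⟩ := hz₁E
    have h0' : z₁ ≠ 0 := fun h => h0 (by rw [h]; rfl)
    have hz₁Z' : z₁ ^ (p ^ g) = ρ * z₁ := hz₁Z
    refine ⟨z₁, h0', hz₁Z', ?_, ?_⟩
    · intro s hs hsD h2
      apply h1
      rw [Set.mem_iUnion₂]
      refine ⟨s, Nat.mem_primeFactors.mpr ⟨hs, hsD, hD0.ne'⟩, h0', hz₁Z', ?_⟩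
      rw [div_one]
      exact h2
    · intro s hs hsD h2
      apply hc
      rw [Set.mem_iUnion₂]
      exact ⟨s, Nat.mem_primeFactors.mpr ⟨hs, hsD, hD0.ne'⟩, h0', hz₁Z', h2⟩
  have hZD : ∀ z : F, z ^ (p ^ g) = ρ * z → z ^ (p ^ D) = z := by
    intro z hz
    rw [hDg, iter hρg hz, hρ.pow_eq_one, one_mul]
  have hz₁cg : (z₁ / c) ^ (p ^ g) = ρ * (z₁ / c) := by
    rw [div_pow, hz₁g, hcg, mul_div_assoc]
  have hdgc : dg p (z₁ / c) = D := dg_eq hA hD0 (hZD _ hz₁cg) hz₁c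
  have hgen : ∀ i, 0 < i → i < k → ((ζ * z₁) / (ζ * c)) ^ (p ^ (i * N)) ≠ (ζ * z₁) / (ζ * c) := by
    intro i hi0 hik h
    rw [mul_div_mul_left _ _ hζ0, hA.pow_eq, hdgc, hDN] at h
    have h2 : N * k ∣ N * i := by rw [mul_comm N i]; exact h
    have h3 := Nat.le_of_dvd hi0 (Nat.dvd_of_mul_dvd_mul_left hN0 h2)
    omega
  obtain ⟨hgen1, hgen2⟩ := hGen p F hA hB N k hk0
  obtain ⟨t, ht0, htN, htne, htL⟩ := hgen1 (ζ * z₁) (ζ * c) (mul_ne_zero hζ0 hc0) hgen hR1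
  have htg : t ^ (p ^ g) = t := hup t N g hNg htN
  set z : F := z₁ / t with hzdef
  have hz0 : z ≠ 0 := div_ne_zero hz₁0 ht0
  have hzg : z ^ (p ^ g) = ρ * z := by
    rw [hzdef, div_pow, hz₁g, htg, mul_div_assoc]
  have hzD : dg p z = D := by
    refine dg_eq hA hD0 (hZD z hzg) ?_
    intro s hs hsD h
    apply hz₁s s hs hsD
    have ht' : t ^ (p ^ (D / s)) = t := by
      refine hup t N _ ?_ htN
      rw [hDs s hs hsD]
      exact Dvd.intro _ rfl
    have e : z₁ = z * t := by rw [hzdef]; field_simp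
    rw [e, mul_pow, h, ht']
  set y₁ : F := ζ * (z + 1) - 1 with hy₁def
  have hζc : ζ * c = ζ - 1 := by
    rw [hcdef]
    field_simp
  have hy₁e : y₁ = (ζ * z₁ + t * (ζ * c)) / t := by
    rw [hy₁def, hzdef, hζc]
    field_simp
    ring
  have hy₁0 : y₁ ≠ 0 := by
    rw [hy₁e]
    exact div_ne_zero htne ht0
  have hy₁L : Large p N k y₁⁻¹ := by
    have e : y₁⁻¹ = t * (ζ * z₁ + t * (ζ * c))⁻¹ := by
      rw [hy₁e, inv_div, div_eq_mul_inv]
    rw [e]
    exact hgen2 t _ ht0 htN htL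
  have hDg' : g ∣ D := by rw [hDg]; exact Dvd.intro_left _ rfl
  have hy₁D : dg p y₁ = D := by
    refine dg_eq hA hD0 ?_ ?_
    · rw [hy₁def, hfr_sub, mul_pow, hfr_add, hup ζ g D hDg' hζg, hZD z hzg, one_pow]
    · intro s hs hsD h
      obtain ⟨k', hk'⟩ := hsk s hs hsD
      have hk'0 : 0 < k' := by
        rcases Nat.eq_zero_or_pos k' with h' | h'
        · rw [h', mul_zero] at hk'; omega
        · exact h'
      have hks : k / s = k' := by rw [hk']; exact Nat.mul_div_cancel_left _ hs.pos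
      have hne : ((X : (ZMod p)[X]) ^ k' - C 1) ≠ 0 := Polynomial.X_pow_sub_C_ne_zero hk'0 1
      have hdeg : ((X : (ZMod p)[X]) ^ k' - C 1).natDegree < k := by
        rw [Polynomial.natDegree_X_pow_sub_C, hk']
        have := hs.two_le
        nlinarith
      apply hy₁L _ hne hdeg
      have e1 : ((X : (ZMod p)[X]) ^ k' - C 1).comp (X ^ N) = X ^ (D / s) - C 1 := by
        rw [Polynomial.sub_comp, Polynomial.pow_comp, Polynomial.X_comp, Polynomial.C_comp,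
          ← pow_mul, hDs s hs hsD, hks]
      rw [e1]
      have e2 : lin p ((X : (ZMod p)[X]) ^ (D / s) - C 1) y₁⁻¹ =
          lin p ((X : (ZMod p)[X]) ^ (D / s)) y₁⁻¹ - lin p (C 1 : (ZMod p)[X]) y₁⁻¹ := by
        unfold lin
        rw [map_sub]
        rfl
      rw [e2, hA.lin_X, hA.lin_C, map_one, one_mul, inv_pow, h, sub_self]
  have hz1 : z + 1 ≠ 0 := by
    intro h
    have h1 : z = -1 := eq_neg_of_add_eq_zero_left h
    have h2 : z ^ (p ^ 1) = z := by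
      have h3 : z = algebraMap (ZMod p) F (-1) := by rw [map_neg, map_one, h1]
      rw [h3, ← map_pow, pow_one, ZMod.pow_card]
    rw [hA.pow_eq, hzD] at h2
    have := Nat.le_of_dvd one_pos h2
    omega
  have hy₁z : y₁ ≠ z := by
    intro h
    have h1 : ζ * (z + 1) = z + 1 := by
      have : ζ * (z + 1) - 1 = z := h
      calc ζ * (z + 1) = (ζ * (z + 1) - 1) + 1 := by ring
        _ = z + 1 := by rw [this]
    have h2 : ζ = 1 := mul_right_cancel₀ hz1 (h1.trans (one_mul _).symm)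
    exact hζ1 h2
  refine ⟨P, P', hPm, hPm', hPd, hPd', z, y₁, hzD, hy₁D, hy₁z, ?_, hy₁L, ?_, ?_⟩
  · have e : y₁ + 1 = ζ * (z + 1) := by rw [hy₁def]; ring
    rw [e, mul_pow, hζ.pow_eq_one, one_mul]
  · exact killZ hA hρg hzg P hPa
  · refine killZ hA hρ'g ?_ P' hPa'
    rw [inv_pow, hzg, mul_inv]

end MP7K
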