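import Pool.Agent.Lib.MP_7f581e_K.Av
import Pool.Agent.Lib.MP_7f581e_K.BasA
import Pool.Agent.Lib.MP_7f581e_K.BasB
import Pool.Agent.Lib.MP_7f581e_K.Conn
import Pool.Agent.Lib.MP_7f581e_K.D1
import Pool.Agent.Lib.MP_7f581e_K.D2
import Pool.Agent.Lib.MP_7f581e_K.Ex
import Pool.Agent.Lib.MP_7f581e_K.Gen
import Pool.Agent.Lib.MP_7f581e_K.Gro
import Pool.Agent.Lib.MP_7f581e_K.Grp
import Pool.Agent.Lib.MP_7f581e_K.Kl
import Pool.Agent.Lib.MP_7f581e_K.Kl1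
import Pool.Agent.Lib.MP_7f581e_K.Kls
import Pool.Agent.Lib.MP_7f581e_K.LA
import Pool.Agent.Lib.MP_7f581e_K.Lg
import Pool.Agent.Lib.MP_7f581e_K.Me
import Pool.Agent.Lib.MP_7f581e_K.Mv
import Pool.Agent.Lib.MP_7f581e_K.PP
import Pool.Agent.Lib.MP_7f581e_K.Pa
import Pool.Agent.Lib.MP_7f581e_K.Pi
import Pool.Agent.Lib.MP_7f581e_K.Pp
import Pool.Agent.Lib.MP_7f581e_K.PrA
import Pool.Agent.Lib.MP_7f581e_K.PrB
import Pool.Agent.Lib.MP_7f581e_K.SS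
import Pool.Agent.Lib.MP_7f581e_K.St1
import Pool.Agent.Lib.MP_7f581e_K.St2
import Pool.Agent.Lib.MP_7f581e_K.St3
import Pool.Agent.Lib.MP_7f581e_K.Tr
import Pool.Agent.Lib.MP_7f581e_K.Trk
import Pool.Agent.Lib.MP_7f581e_K.U
import Pool.Agent.Lib.MP_7f581e_K.U0
import Pool.Agent.Lib.MP_7f581e_K.U1
import Pool.Agent.Lib.MP_7f581e_K.U2
import Pool.Agent.Lib.MP_7f581e_K.U3
import Pool.Agent.Lib.MP_7f581e_K.U4
import Pool.Agent.Lib.MP_7f581e_K.W0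
import Pool.Agent.Lib.MP_7f581e_K.ZZ

/-!
# C33, Part I: Theorem P and Lemma A
-/

set_option autoImplicit false

namespace MP7K

theorem aU : KStmtU := kU (kU2 kU0 (kU1 kU0)) kU3 (kU4 kU3)

theorem aCon : KStmtCon := kCon (kKl kKl1) kLg

theorem aMv : KStmtMv := kMv aU kSS

theorem aGrp : KStmtGrp := kGrp kSS

theorem aTr : KStmtTr := kTr kPi kD1 (kD2 kPi) kGen aCon aMv kSS aGrp

theorem aPa : KStmtPa := kPa kPi kGen aCon aMv aGrp

theorem aAv : KStmtAv := kAv kSS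

theorem aKls : KStmtKls := kKls kSS aTr (kZZ kGen) aPa kEx (kMe kSS) aAv

theorem aPrA : KStmtPrA := kPrA kTrk kSt1 (kSt2 aAv) kSt3 kGro aTr

theorem aPrB : KStmtPrB := kPrB kTrk kSt1 kGro aKls

/-- **Theorem P.** -/
theorem theoremP : TheoremP := kPP kBasA kBasB kTrk (kPp kSt1) aPrA aPrB

/-- **Lemma A.** -/
theorem lemmaA : LemmaA := kLA kBasA kBasB kW0 theoremP

end MP7K
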