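import Pool.Agent.Lib.MP_7f581e_K.Spec1

/-!
# C33 (MP_7f581e_nt), SS: members of the monoid `S`
-/

set_option autoImplicit false

namespace MP7K

open Polynomial

namespace KSSAux

variable {p : ℕ} [Fact p.Prime] {F : Type} [Field F] [Algebra (ZMod p) F]

theorem lin_mul' (a b : (ZMod p)[X]) (y : F) : lin p (a * b) y = lin p a (lin p b y) := by
  unfold lin
  rw [map_mul]
  rfl

theorem lin_comm' (a b : (ZMod p)[X]) (y : F) : lin p a (lin p b y) = lin p b (lin p a y) := by
  rw [← lin_mul', mul_comm, lin_mul']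

theorem lin_add' (a b : (ZMod p)[X]) (y : F) : lin p (a + b) y = lin p a y + lin p b y := by
  unfold lin
  rw [map_add]
  rfl

theorem lin_one' (y : F) : lin p (1 : (ZMod p)[X]) y = y := by
  unfold lin
  rw [map_one]
  rfl

theorem lin_XD (hA : FactsA p F) (D : ℕ) (y : F) :
    lin p ((X : (ZMod p)[X]) ^ D - 1) y = y ^ (p ^ D) - y := by
  have h1 : lin p ((X : (ZMod p)[X]) ^ D - 1) y = lin p ((X : (ZMod p)[X]) ^ D) y - lin p 1 y := by
    unfold lin
    rw [map_sub]
    rfl
  rw [h1, hA.lin_X, lin_one']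

theorem lin_XD_zero (hA : FactsA p F) (D : ℕ) (y : F) :
    lin p ((X : (ZMod p)[X]) ^ D - 1) y = 0 ↔ dg p y ∣ D := by
  rw [lin_XD hA, sub_eq_zero, hA.pow_eq]

theorem cop [IsAlgClosed F] {r i : ℕ} {l : (ZMod p)[X]} (hl : GoodPoly p F r i l) {D : ℕ}
    (hD : ¬ r ^ (i + 1) ∣ D) : IsCoprime l ((X : (ZMod p)[X]) ^ D - 1) := by
  rw [Polynomial.isCoprime_iff_aeval_ne_zero_of_isAlgClosed (ZMod p) F]
  intro θ
  by_contra hcon
  push Not at hcon
  obtain ⟨h1, h2⟩ := hcon
  apply hD
  refine (hl.2 θ h1).2.trans (orderOf_dvd_of_pow_eq_one ?_)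
  simp only [map_sub, map_pow, aeval_X, map_one] at h2
  exact sub_eq_zero.1 h2

theorem dg_zero (hA : FactsA p F) : dg p (0 : F) = 1 := by
  have hp : p ≠ 0 := (Fact.out : p.Prime).ne_zero
  have h1 : dg p (0 : F) ∣ 1 := by
    rw [← hA.pow_eq]
    rw [pow_one, zero_pow hp]
  exact Nat.dvd_one.1 h1

theorem inS_nil (r : ℕ) (DD : Finset ℕ) : InS p F r DD [] := by
  refine ⟨fun a ha => absurd ha (List.not_mem_nil), fun D _ y hy => Or.inl hy⟩

theorem inS_append (hA : FactsA p F) (r : ℕ) (DD : Finset ℕ) (v w : List (Atom p))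
    (hv : InS p F r DD v) (hw : InS p F r DD w) : InS p F r DD (v ++ w) := by
  refine ⟨?_, ?_⟩
  · intro a ha
    rcases List.mem_append.1 ha with h | h
    · exact hv.1 a h
    · exact hw.1 a h
  · intro D hD y hy
    rw [ev_append] at hy
    rcases hv.2 D hD _ hy with h | h
    · exact hw.2 D hD y h
    · exact Or.inr (h.trans (hA.dg_ev w y))

theorem inS_pow (hA : FactsA p F) {r i : ℕ} {DD : Finset ℕ} (hr : r.Prime) (hrp : r ≠ p)
    (hL : Lev p r i DD) : InS p F r DD [Atom.pow r] := by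
  have hp : p.Prime := Fact.out
  refine ⟨?_, ?_⟩
  · intro a ha
    rw [List.mem_singleton] at ha
    subst ha
    exact (Nat.coprime_primes hr hp).2 hrp
  · intro D hD y hy
    change dg p (y ^ r) = D at hy
    have hD2 := hL.two D hD
    have hy0 : y ≠ 0 := by
      rintro rfl
      rw [zero_pow hr.ne_zero, dg_zero hA] at hy
      omega
    have hdvd : D ∣ dg p y := hy ▸ hA.dg_pow y r
    obtain ⟨ζ, hζ⟩ : ∃ ζ : F, ζ = y ^ (p ^ D) / y := ⟨_, rfl⟩
    have h1 : y ^ (p ^ D) = ζ * y := by
      rw [hζ]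
      field_simp
    have h2 : (y ^ r) ^ (p ^ D) = y ^ r := by
      rw [hA.pow_eq, hy]
    have h3 : ζ ^ r = 1 := by
      have h4 : ζ ^ r * y ^ r = y ^ r := by
        rw [← mul_pow, ← h1, ← pow_mul, mul_comm, pow_mul]
        exact h2
      exact mul_right_cancel₀ (pow_ne_zero r hy0) (by rw [h4, one_mul])
    have hζ0 : ζ ≠ 0 := by
      rintro rfl
      rw [zero_pow hr.ne_zero] at h3
      exact zero_ne_one h3
    have h5 : ζ ^ (p ^ D) = ζ := by
      obtain ⟨k, hk⟩ := hL.dvd D hD
      have h6 : p ^ D = r * k + 1 := by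
        have : 0 < p ^ D := pow_pos hp.pos D
        omega
      rw [h6, pow_succ, pow_mul, h3, one_pow, one_mul]
    have h7 : ∀ j : ℕ, y ^ (p ^ (D * j)) = ζ ^ j * y := by
      intro j
      induction j with
      | zero => simp
      | succ j ih =>
        rw [Nat.mul_succ, pow_add, pow_mul, ih, mul_pow, h1, ← pow_mul, mul_comm j, pow_mul, h5,
          pow_succ]
        ring
    have h8 : dg p y ∣ D * r := by
      rw [← hA.pow_eq, h7, h3, one_mul]
    obtain ⟨d, hd⟩ := hdvd
    rw [hd] at h8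
    have hD0 : 0 < D := by omega
    have h9 : d ∣ r := Nat.dvd_of_mul_dvd_mul_left hD0 h8
    rcases (Nat.dvd_prime hr).1 h9 with rfl | rfl
    · left
      rw [hd, mul_one]
    · right
      rw [hd, mul_comm]

theorem bS_of {r : ℕ} {DD : Finset ℕ} {w : List (Atom p)} {g : F → F} (hok : OkW w)
    (h1 : ∀ y : F, dg p (ev w y) = dg p y) (h2 : ∀ y : F, dg p (g y) = dg p y)
    (h3 : ∀ y : F, g (ev w y) = y) (h4 : ∀ y : F, ev w (g y) = y) : BS p F r DD w := by
  refine ⟨⟨hok, fun D _ y hy => Or.inl ((h1 y).symm.trans hy)⟩, fun D _ => ⟨?_, ?_, ?_⟩⟩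
  · intro y hy
    exact (h1 y).trans hy
  · intro y _ z _ hyz
    rw [← h3 y, hyz, h3]
  · intro y hy
    exact ⟨g y, (h2 y).trans hy, h4 y⟩

theorem bS_add [IsAlgClosed F] (hA : FactsA p F) {r i : ℕ} {DD : Finset ℕ} (hr : r.Prime)
    (hL : Lev p r i DD) (l : (ZMod p)[X]) (hl : GoodPoly p F r i l) :
    BS p F r DD [Atom.add l] := by
  refine ⟨⟨?_, ?_⟩, ?_⟩
  · intro a ha
    rw [List.mem_singleton] at ha
    subst ha
    intro h0
    have h1 := (hl.2 0 (by rw [← coeff_zero_eq_aeval_zero', h0, map_zero])).1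
    exact h1 rfl
  · intro D hD y hy
    change dg p (lin p l y) = D at hy
    have hdvd : D ∣ dg p y := hy ▸ hA.dg_lin y l
    obtain ⟨u, hu⟩ : ∃ u : F, u = lin p ((X : (ZMod p)[X]) ^ D - 1) y := ⟨_, rfl⟩
    by_cases hu0 : u = 0
    · left
      rw [hu, lin_XD_zero hA] at hu0
      exact Nat.dvd_antisymm hu0 hdvd
    · right
      have h1 : lin p l u = 0 := by
        rw [hu, lin_comm', lin_XD_zero hA, hy]
      have h2 : lin p ((X : (ZMod p)[X]) ^ (dg p y) - 1) u = 0 := by
        rw [hu, lin_comm', (lin_XD_zero hA (dg p y) y).2 dvd_rfl, map_zero]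
      have h3 : r ^ (i + 1) ∣ dg p y := by
        by_contra h3
        obtain ⟨a, b, hab⟩ := cop hl h3
        apply hu0
        rw [← lin_one' (p := p) u, ← hab, lin_add', lin_mul', lin_mul', h1, h2, map_zero, map_zero,
          add_zero]
      obtain ⟨d, hd⟩ := hdvd
      have h4 : r ∣ d := by
        by_contra h4
        apply hL.val D hD
        have h5 : Nat.Coprime (r ^ (i + 1)) d :=
          Nat.Coprime.pow_left _ ((Nat.Prime.coprime_iff_not_dvd hr).2 h4)
        rw [hd] at h3
        exact h5.dvd_of_dvd_mul_right h3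
      obtain ⟨e, he⟩ := h4
      rw [hd, he]
      exact ⟨e, by ring⟩
  · intro D hD
    obtain ⟨a, b, hab⟩ := cop hl (hL.val D hD)
    have h1 : ∀ y : F, dg p y = D → lin p a (lin p l y) = y := by
      intro y hy
      have h2 : lin p ((X : (ZMod p)[X]) ^ D - 1) y = 0 := by
        rw [lin_XD_zero hA, hy]
      rw [← lin_mul']
      conv_rhs => rw [← lin_one' (p := p) y, ← hab, lin_add', lin_mul' b, h2, map_zero, add_zero]
    have h3 : ∀ y : F, dg p y = D → dg p (lin p l y) = D := by
      intro y hy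
      apply Nat.dvd_antisymm
      · rw [← hy]
        exact hA.dg_lin y l
      · have h4 := hA.dg_lin (lin p l y) a
        rw [h1 y hy, hy] at h4
        exact h4
    have h5 : ∀ y : F, dg p y = D → dg p (lin p a y) = D := by
      intro y hy
      apply Nat.dvd_antisymm
      · rw [← hy]
        exact hA.dg_lin y a
      · have h4 := hA.dg_lin (lin p a y) l
        rw [lin_comm', h1 y hy, hy] at h4
        exact h4
    refine ⟨?_, ?_, ?_⟩
    · intro y hy
      exact h3 y hy
    · intro y hy z hz hyz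
      change lin p l y = lin p l z at hyz
      rw [← h1 y hy, hyz, h1 z hz]
    · intro y hy
      refine ⟨lin p a y, h5 y hy, ?_⟩
      change lin p l (lin p a y) = y
      rw [lin_comm', h1 y hy]

end KSSAux

open KSSAux in
theorem kSS : KStmtSS := by
  intro p _ F _ _ _ _ hA hB r i DD hr hrp hL
  refine ⟨inS_nil r DD, fun v w => inS_append hA r DD v w, inS_pow hA hr hrp hL,
    ⟨inS_nil r DD, fun D _ => ?_⟩, ?_, ?_, ?_, fun l hl => bS_add hA hr hL l hl⟩
  · exact Set.bijOn_id _
  · intro v w hv hw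
    refine ⟨inS_append hA r DD v w hv.1 hw.1, fun D hD => ?_⟩
    have h : ev (p := p) (E := F) (v ++ w) = ev v ∘ ev w := by
      funext y
      exact ev_append v w y
    rw [h]
    exact (hv.2 D hD).comp (hw.2 D hD)
  · intro c
    refine bS_of (g := fun y => y + algebraMap (ZMod p) F (-c)) ?_ ?_ ?_ ?_ ?_
    · intro a ha
      rw [List.mem_singleton] at ha
      subst ha
      exact trivial
    · intro y
      exact hA.dg_tr y c
    · intro y
      exact hA.dg_tr y (-c)
    · intro y
      change (y + algebraMap (ZMod p) F c) + algebraMap (ZMod p) F (-c) = y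
      rw [map_neg]
      ring
    · intro y
      change (y + algebraMap (ZMod p) F (-c)) + algebraMap (ZMod p) F c = y
      rw [map_neg]
      ring
  · refine bS_of (g := fun y => y⁻¹) ?_ ?_ ?_ ?_ ?_
    · intro a ha
      rw [List.mem_singleton] at ha
      subst ha
      exact trivial
    · intro y
      exact hA.dg_inv y
    · intro y
      exact hA.dg_inv y
    · intro y
      exact inv_inv y
    · intro y
      exact inv_inv y

end MP7K
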