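import Pool.Agent.Lib.MP_7f581e_K.Defs

/-!
# C33 (MP_7f581e_nt), Part I: finite fields (Theorem P and Lemma A)

One Lean task for each `def KStmtX : Prop`: file `MP_7f581e_K/X.lean`, import only this file (and
Mathlib), `theorem kX : KStmtX`; the statements under *Uses* are hypotheses `(h : KStmtY)`.
Complete proofs are in the docstrings; `TEXT.md`, Part I, contains the same proof as one text.

Notation of the docstrings: `F` is an algebraic closure of `𝔽_p`, `φ y = y ^ p` (`fr p F`), `l(φ) y` is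
`lin p l y`; `K_D = {y | y ^ (p ^ D) = y}`, `O_D = OO p F D` the elements of degree `D`.  As `lin p` is an
algebra homomorphism to the endomorphisms: `lin p (a * b) y = lin p a (lin p b y)`, `lin p` is additive,
and `l(φ)` commutes with `l'(φ)`.
-/

set_option autoImplicit false

namespace MP7K

open Polynomial Finset

/-- The elements of degree `D`. -/
def OO (p : ℕ) [Fact p.Prime] (F : Type) [Field F] [Algebra (ZMod p) F] (D : ℕ) : Set F :=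
  {y | dg p y = D}

/-- `u` is large: `b(φ ^ N) u ≠ 0` for all nonzero polynomials `b` of degree `< k`. -/
def Large (p : ℕ) [Fact p.Prime] {F : Type} [Field F] [Algebra (ZMod p) F] (N k : ℕ) (u : F) :
    Prop :=
  ∀ b : (ZMod p)[X], b ≠ 0 → b.natDegree < k → lin p (b.comp (X ^ N)) u ≠ 0

/-- All the roots of `l` have an order divisible by `r ^ (i + 1)`. -/
def GoodPoly (p : ℕ) [Fact p.Prime] (F : Type) [Field F] [Algebra (ZMod p) F] (r i : ℕ)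
    (l : (ZMod p)[X]) : Prop :=
  l ≠ 0 ∧ ∀ θ : F, aeval θ l = 0 → θ ≠ 0 ∧ r ^ (i + 1) ∣ orderOf θ

/-- The conditions on the finite set of levels. -/
structure Lev (p r i : ℕ) (DD : Finset ℕ) : Prop where
  two : ∀ D ∈ DD, 2 ≤ D
  dvd : ∀ D ∈ DD, r ∣ p ^ D - 1
  val : ∀ D ∈ DD, ¬ r ^ (i + 1) ∣ D

/-- The monoid `S`: above an element of level `D ∈ DD` there are only elements of the same level
and elements of a degree divisible by `r D`. -/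
def InS (p : ℕ) [Fact p.Prime] (F : Type) [Field F] [Algebra (ZMod p) F] (r : ℕ) (DD : Finset ℕ)
    (w : List (Atom p)) : Prop :=
  OkW w ∧ ∀ D ∈ DD, ∀ y : F, dg p (ev w y) = D → dg p y = D ∨ r * D ∣ dg p y

/-- The elements of `S` which are bijective on all the levels. -/
def BS (p : ℕ) [Fact p.Prime] (F : Type) [Field F] [Algebra (ZMod p) F] (r : ℕ) (DD : Finset ℕ)
    (w : List (Atom p)) : Prop :=
  InS p F r DD w ∧ ∀ D ∈ DD, Set.BijOn (ev (p := p) w) (OO p F D) (OO p F D)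

/-- `y'` is the image of `y` under a word which is bijective on the levels and fixes `Z`. -/
def Eqv (p : ℕ) [Fact p.Prime] (F : Type) [Field F] [Algebra (ZMod p) F] (r : ℕ) (DD : Finset ℕ)
    (Z : Set F) (y y' : F) : Prop :=
  ∃ w : List (Atom p), BS p F r DD w ∧ (∀ z ∈ Z, ev w z = z) ∧ ev w y = y'

/-- `S` is large with respect to `m` (the level is `D = p ^ S * m`). -/
def Ripe (p m S : ℕ) : Prop :=
  0 < m ∧ m.Coprime p ∧ 5 ≤ S ∧ p ^ (p ^ 4 * m) * (p ^ 4 * m) < p ^ (p ^ (S - 4)) ∧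
    32 * m + 24 ≤ p ^ S * m

/-- Monic polynomials of degree `D` with coefficients in `K_N`. -/
def PN (p : ℕ) (F : Type) [Field F] (N D : ℕ) : Set F[X] :=
  {f | f.Monic ∧ f.natDegree = D ∧ ∀ i, (f.coeff i) ^ (p ^ N) = f.coeff i}

/-! ## Basic facts -/

/-- Basic facts, first part. -/
structure FactsA (p : ℕ) [Fact p.Prime] (F : Type) [Field F] [Algebra (ZMod p) F] : Prop where
  pos : ∀ y : F, 0 < dg p y
  pow_eq : ∀ (y : F) (k : ℕ), y ^ (p ^ k) = y ↔ dg p y ∣ k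
  fr_pow : ∀ (y : F) (k : ℕ), (fr p F ^ k) y = y ^ (p ^ k)
  lin_X : ∀ (k : ℕ) (y : F), lin p ((X : (ZMod p)[X]) ^ k) y = y ^ (p ^ k)
  lin_C : ∀ (c : ZMod p) (y : F), lin p (C c : (ZMod p)[X]) y = algebraMap (ZMod p) F c * y
  lin_sum : ∀ (b : (ZMod p)[X]) (N k : ℕ) (y : F), b.natDegree < k →
    lin p (b.comp (X ^ N)) y = ∑ i ∈ range k, algebraMap (ZMod p) F (b.coeff i) * y ^ (p ^ (i * N))
  lin_mul : ∀ (b : (ZMod p)[X]) (N : ℕ) (t y : F), t ^ (p ^ N) = t →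
    lin p (b.comp (X ^ N)) (t * y) = t * lin p (b.comp (X ^ N)) y
  comp_pow : ∀ (b : (ZMod p)[X]) (e : ℕ), b.comp (X ^ (p ^ e)) = b ^ (p ^ e)
  dg_inv : ∀ y : F, dg p y⁻¹ = dg p y
  dg_tr : ∀ (y : F) (c : ZMod p), dg p (y + algebraMap (ZMod p) F c) = dg p y
  dg_pow : ∀ (y : F) (n : ℕ), dg p (y ^ n) ∣ dg p y
  dg_lin : ∀ (y : F) (l : (ZMod p)[X]), dg p (lin p l y) ∣ dg p y
  dg_ev : ∀ (w : List (Atom p)) (y : F), dg p (ev w y) ∣ dg p y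
  dg_evP : ∀ (w : List (Atom p)) (y : Option F), dgP p (evP w y) ∣ dgP p y
  rat_ev : ∀ (w : List (Atom p)) (y : F), y ^ p = y → (ev w y) ^ p = ev w y
  evP_nr : ∀ (w : List (Atom p)) (y : Option F) (b : F), evP w y = some b → b ^ p ≠ b →
    ∃ a : F, y = some a ∧ ev w a = b
  ev_nr : ∀ (w : List (Atom p)) (a : F), (ev w a) ^ p ≠ ev w a → evP w (some a) = some (ev w a)

/-- Basic facts, second part. -/
structure FactsB (p : ℕ) [Fact p.Prime] (F : Type) [Field F] [Algebra (ZMod p) F] : Prop where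
  cardK : ∀ D : ℕ, 0 < D → {y : F | y ^ (p ^ D) = y}.ncard = p ^ D
  finK : ∀ D : ℕ, 0 < D → {y : F | y ^ (p ^ D) = y}.Finite
  finKer : ∀ l : (ZMod p)[X], l ≠ 0 → {y : F | lin p l y = 0}.Finite
  cardKer : ∀ l : (ZMod p)[X], l ≠ 0 → {y : F | lin p l y = 0}.ncard ≤ p ^ l.natDegree
  cardQ : ∀ (q : ℕ) (ρ : F), 0 < q → {z : F | z ^ (p ^ q) = ρ * z}.Finite ∧
    (ρ ≠ 0 → {z : F | z ^ (p ^ q) = ρ * z}.ncard = p ^ q)
  fib : ∀ w : List (Atom p), OkW w → ∀ x : F, {y : F | ev w y = x}.Finite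
  fibP : ∀ w : List (Atom p), OkW w → ∀ x : Option F, {y : Option F | evP w y = x}.Finite
  finO : ∀ D : ℕ, (OO p F D).Finite
  cardO : ∀ D : ℕ, 4 ≤ D → p ^ D ≤ 2 * (OO p F D).ncard

/-- **BasA.** (200 lines)  Basic facts.
*Proof.*  `y` is algebraic over the finite field, so it lies in a finite subfield and `y ^ (p ^ k) = y` for some
`k > 0` (`dg` is the minimal period of `z ↦ z ^ p`: `Function.IsPeriodicPt`, `minimalPeriod_pos_iff_mem_periodicPts`,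
`isPeriodicPt_iff_minimalPeriod_dvd`; `(z ↦ z ^ p)^[k] z = z ^ (p ^ k)`).  `lin` is `aeval (fr p F)`, so `lin p (X ^ k)`
is the `k`-th power of `fr` (`aeval_X_pow`), `lin_sum` by writing `b` as a sum of monomials
(`Polynomial.as_sum_range'`), `comp_pow`: `ZMod.expand_card`-type lemma (`expand (ZMod p) p f = f ^ p`), iterated;
`comp (X ^ n) = expand n`.  `lin_mul` from `lin_sum` (`t ^ (p ^ (i N)) = t`).  The maps `y ↦ y + c`, `y⁻¹`,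
`y ^ n`, `l(φ) y` commute with `z ↦ z ^ p` (`c ^ p = c` for `c : ZMod p`), so if `y ^ (p ^ k) = y` the same holds for the
value: the divisibilities; equality for `tr` and `inv` because they are invertible by maps of the same kind.
`rat_ev`: the case `k = 1` for each atom.  `evP_nr`: induction on the word: if `a.evP z = some b` with `b`
nonrational then `z = some c`, `a.ev c = b` and `c` is nonrational (if `c ^ p = c` then `b ^ p = b`; for `inv`,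
`none ↦ some 0` is rational and `c ≠ 0`). -/
def KStmtBasA : Prop :=
  ∀ (p : ℕ) [Fact p.Prime] (F : Type) [Field F] [Algebra (ZMod p) F] [IsAlgClosed F]
    [Algebra.IsAlgebraic (ZMod p) F], FactsA p F

/-- **BasB.** (250 lines)  Counting facts.
*Proof.*  `K_D` is the set of roots of `X ^ (p ^ D) - X`, which is separable (derivative `-1`) and splits: exactly
`p ^ D` elements.  `lin p l y = ∑ l_i y ^ (p ^ i)` is the value at `y` of a nonzero polynomial of degree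
`p ^ natDegree l`: at most that many roots.  `cardQ`: the roots of `X ^ (p ^ q) - ρ X`, nonzero polynomial; if `ρ ≠ 0`
the derivative is `-ρ ≠ 0`, so the roots are distinct.  `fib`: by induction on the word it is enough for one
atom: `{z | a.ev z = x}` is finite: `tr`, `inv`: injective; `pow n`, `n > 0` (`n` coprime to `p`): roots of `X ^ n - x`;
`add l`: a coset of the finite kernel.  `fibP`: the same with the additional point.  `finO`: `O_D ⊆ K_D` for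
`D > 0` and `O_0 = ∅` (`FactsA.pos`).  `cardO`: `K_D \ O_D` is contained in the union of the `K_d` with `d ∣ D`,
`d < D`, so `d ≤ D / 2`: at most `∑_{d ≤ D/2} p ^ d ≤ 2 p ^ (D/2) - 1 < p ^ D / 2 + 1` elements; precisely
`2 (p ^ D - #O_D) ≤ 4 p ^ (D/2) - 2 ≤ p ^ D` as `p ^ (D/2) ≥ 4`, `p ^ D ≥ (p ^ (D/2)) ^ 2`.
*Uses*: BasA (hypothesis `FactsA p F`). -/
def KStmtBasB : Prop :=
  ∀ (p : ℕ) [Fact p.Prime] (F : Type) [Field F] [Algebra (ZMod p) F] [IsAlgClosed F]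
    [Algebra.IsAlgebraic (ZMod p) F], FactsA p F → FactsB p F

/-! ## Lemmas on the module structure -/

/-- **Pi.** (250 lines)  `W = φ ^ m - 1`, `D = p ^ S m`, `N = p ^ e`, `h = W ^ (k + N) y ≠ 0`, `W h = 0`.  Then
`t h ∈ W 𝔽_p[φ] y` for all `t` with `φ ^ N t = t`.

*Proof.*  Let `b` be the annihilator of `h` (the monic generator of the ideal `{l | lin p l h = 0}`; it contains
`X ^ m - 1`).  So `X ^ m - 1 = b c`, and `b, c` are coprime because `X ^ m - 1` is separable (`p ∤ m`).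
(1) `lin p (b ^ N) (t h) = lin p (b.comp (X ^ N)) (t h) = t * lin p (b ^ N) h = 0` (`comp_pow`, `lin_mul`).
(2) Choose `u, v` with `u b ^ (p ^ S) + v c ^ (p ^ S) = 1` and `q = v c ^ (p ^ S)`, so `q ≡ 1` modulo `b ^ (p ^ S)` and
`c ^ (p ^ S) ∣ q`.  `y* = lin p q y`.  `b ^ (p ^ S) q` is a multiple of `(X ^ m - 1) ^ (p ^ S) = X ^ D - 1`, which kills `y`
(`dg y ∣ D`), so `b ^ (p ^ S)` kills `y*`.  `lin p ((X ^ m - 1) ^ (k + N)) y* = lin p q h = h` (`b ∣ q - 1`).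
(3) CLAIM: for `i ≤ N`, every `v` with `lin p (b ^ i) v = 0` is `lin p ((X ^ m - 1) κ) y` for some `κ`.
Induction on `i`; `i = 0`: `v = 0`.  `i ≥ 1`: `v₁ = lin p ((X ^ m - 1) ^ (i - 1)) v` is killed by `b` (`(bc)^(i-1) b` is
a multiple of `b ^ i`).  The set `{κ(φ) h}` has `p ^ deg b` elements (the polynomials `κ` of degree `< deg b` give
different elements: the difference would be in the annihilator) and is contained in the kernel of `b(φ)`,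
which has at most `p ^ deg b` elements (`cardKer`), so they are equal, and `v₁ = κ(φ) h
= κ(φ) (X^m-1)^(k+N)(φ) y*`.  `v' = v - κ(φ) (X^m-1)^(k+N-i+1)(φ) y*` satisfies
`lin p ((X ^ m - 1) ^ (i - 1)) v' = 0`, and it is killed by `b ^ (p ^ S + N)` (say).  As `c ^ (i - 1)` and `b ^ (p^S+N)` are
coprime, `b ^ (i - 1) v' = 0`: with `u c ^ (i-1) + u' b ^ (p^S+N) = 1`, `b^(i-1) v' = b^(i-1)(u c^(i-1)) v' + 0 = 0`.
By induction `v' ∈ (X^m-1) 𝔽_p[φ] y`, and `k + N - i + 1 ≥ 1`, `y* ∈ 𝔽_p[φ] y`.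
Apply the claim for `i = N` and `v = t h`. -/
def KStmtPi : Prop :=
  ∀ (p : ℕ) [Fact p.Prime] (F : Type) [Field F] [Algebra (ZMod p) F] [IsAlgClosed F]
    [Algebra.IsAlgebraic (ZMod p) F], FactsA p F → FactsB p F →
    ∀ (m S e k : ℕ), 0 < m → m.Coprime p → ∀ y : F, dg p y ∣ p ^ S * m →
      lin p (((X : (ZMod p)[X]) ^ m - 1) ^ (k + p ^ e)) y ≠ 0 →
      lin p (((X : (ZMod p)[X]) ^ m - 1) ^ (k + p ^ e + 1)) y = 0 →
      ∀ t : F, t ^ (p ^ (p ^ e)) = t →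
        ∃ κ : (ZMod p)[X], t * lin p (((X : (ZMod p)[X]) ^ m - 1) ^ (k + p ^ e)) y =
          lin p (((X : (ZMod p)[X]) ^ m - 1) * κ) y

/-- **Lg.** (200 lines)  Large elements generate a large submodule.

*Proof.*  `N = p ^ (S - j)`, `k = p ^ j m`, `D = p ^ S m = N k`.  `a` = the annihilator of `u` (monic generator of
`{l | lin p l u = 0}`), `a ∣ X ^ D - 1 = (X ^ m - 1) ^ (p ^ S)`, `X ^ D - 1 = a q`.
CLAIM: `q ∣ (X ^ m - 1) ^ N = X ^ (N m) - 1`.  `X ^ m - 1` is squarefree (separable).  It is enough that for every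
irreducible `π ∣ X ^ m - 1` not `π ^ N ∣ q`: then for all irreducible `π` the multiplicity of `π` in `q` is at most the
one in `(X ^ m - 1) ^ N` (if `π ∤ X ^ m - 1` then `π ∤ q`).  Suppose `π ^ N ∣ q`.  Then
`a π ^ N ∣ (X ^ m - 1) ^ (p ^ S) = ((X ^ m - 1) ^ (p ^ j)) ^ N`, so `a ∣ b ^ N` for `b = (X ^ m - 1) ^ (p ^ j) / π`
(`X ^ m - 1 = π π'`, `b = π ^ (p^j - 1) π' ^ (p^j)`); `b ≠ 0`, `natDegree b < p ^ j m = k`, and `b ^ N = b.comp (X ^ N)`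
(`comp_pow`) kills `u`, contradiction to `Large`.
The set `{κ(φ) u}` has `p ^ deg a` elements and is contained in the kernel of `a(φ)`, which has at most
`p ^ deg a` elements: they are equal.  For `v` with `dg v ∣ D`: `(X ^ (N m) - 1) = q q'`, so
`a(φ) (X ^ (N m) - 1)(φ) v = q'(φ) (X ^ D - 1)(φ) v = 0`. -/
def KStmtLg : Prop :=
  ∀ (p : ℕ) [Fact p.Prime] (F : Type) [Field F] [Algebra (ZMod p) F] [IsAlgClosed F]
    [Algebra.IsAlgebraic (ZMod p) F], FactsA p F → FactsB p F →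
    ∀ (m S j : ℕ), 0 < m → m.Coprime p → j ≤ S → ∀ u : F, dg p u ∣ p ^ S * m →
      Large p (p ^ (S - j)) (p ^ j * m) u → ∀ v : F, dg p v ∣ p ^ S * m →
        ∃ κ : (ZMod p)[X], lin p ((X : (ZMod p)[X]) ^ (p ^ (S - j) * m) - 1) v = lin p κ u

/-- **Gen.** (200 lines)  For a generic `t` the inverse of `x + t h` is large.

*Proof.*  `ψ = φ ^ N`.  For `t` with `ψ t = t`: `ψ ^ i ((x + t h)⁻¹) = (ψ^i h)⁻¹ / (ψ^i (x/h) + t)`, where
`ψ ^ i z = z ^ (p ^ (i N))`.  For `b ≠ 0` of degree `< k`, `lin p (b.comp (X ^ N)) (x + t h)⁻¹ =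
∑_{i<k} b_i (ψ^i h)⁻¹ (ψ^i(x/h) + t)⁻¹` (`lin_sum`).  The polynomial
`G_b(T) = ∑_{i<k} b_i (ψ^i h)⁻¹ ∏_{i' < k, i' ≠ i} (T + ψ^{i'}(x/h))` has degree `< k`, and it is not zero: if `b_i ≠ 0` its
value at `-ψ^i(x/h)` is `b_i (ψ^i h)⁻¹ ∏_{i' ≠ i} (ψ^{i'}(x/h) - ψ^i(x/h)) ≠ 0`, because the `ψ^i(x/h)`, `i < k`, are
distinct (if `ψ^i = ψ^{i'}` at `x/h`, `i < i'`, then `ψ^{i'-i}(x/h) = x/h` by injectivity of `ψ^i`).  If `t` is not a
zero of any factor `T + ψ^{i'}(x/h)` and `G_b(t) ≠ 0` then `lin p (b.comp (X^N)) (x + t h)⁻¹ ≠ 0`.  If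
`t + ψ^{i'}(x/h) = 0` with `ψ t = t` then `t + x/h = 0` (apply `ψ^{-i'}`, injectivity).  So the excluded `t` in
`{t | ψ t = t}` (which has `p ^ N` elements; `N > 0` as `p^k k < p^N`) are: `0`, `-x/h`, and the zeros of the `G_b`: there are at most
`p ^ k - 1` polynomials `b` and `k - 1` zeros for each: at most `(p^k - 1)(k - 1) + 2 ≤ p ^ k k < p ^ N`.
Second claim: `lin_mul`. -/
def KStmtGen : Prop :=
  ∀ (p : ℕ) [Fact p.Prime] (F : Type) [Field F] [Algebra (ZMod p) F] [IsAlgClosed F]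
    [Algebra.IsAlgebraic (ZMod p) F], FactsA p F → FactsB p F → ∀ (N k : ℕ), 0 < k →
    (∀ x h : F, h ≠ 0 → (∀ i, 0 < i → i < k → (x / h) ^ (p ^ (i * N)) ≠ x / h) →
      p ^ k * k < p ^ N → ∃ t : F, t ≠ 0 ∧ t ^ (p ^ N) = t ∧ x + t * h ≠ 0 ∧
        Large p N k (x + t * h)⁻¹) ∧
    ∀ t u : F, t ≠ 0 → t ^ (p ^ N) = t → Large p N k u → Large p N k (t * u)

/-! ## Kloosterman sums -/

/-- **Kl1.** (200 lines)  An elementary bound for Kloosterman sums.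

*Proof.*  `Q = card K`, `S(a,b) = ∑_{x ≠ 0} ψ (a x + b / x)`.  `∑_{a,b ∈ K} |S(a,b)|^4 = ∑_{a,b} S(a,b)^2 conj(S(a,b))^2 =
∑_{x₁,x₂,x₃,x₄ ≠ 0} (∑_a ψ(a (x₁+x₂-x₃-x₄))) (∑_b ψ(b (1/x₁+1/x₂-1/x₃-1/x₄)))`, and each inner sum is `Q` or `0`
(`AddChar.sum_mulShift` / orthogonality; `ψ` is nontrivial on a field, so primitive): `= Q^2 * n`, `n` the number
of solutions of `x₁+x₂=x₃+x₄`, `1/x₁+1/x₂=1/x₃+1/x₄` in `K*`.  `n ≤ 3 (Q-1)^2`: if `x₁+x₂ = 0` then `x₄ = -x₃`: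
`(Q-1)^2` solutions; otherwise `x₁x₂ = x₃x₄` and `{x₃,x₄} = {x₁,x₂}`: at most `2 (Q-1)^2`.  For `c ≠ 0`,
`S(a c, b / c) = S(a, b)` (substitute `x → c x`), so for `a b ≠ 0` the `Q - 1` pairs `(a c, b / c)` give
`(Q-1) |S(a,b)|^4 ≤ 3 Q^2 (Q-1)^2`, `|S(a,b)|^4 ≤ 3 Q^2 (Q-1) ≤ 3 Q^3`. -/
def KStmtKl1 : Prop :=
  ∀ (K : Type) [Field K] [Fintype K] [DecidableEq K] (ψ : AddChar K ℂ), ψ ≠ 1 →
    ∀ a b : K, a ≠ 0 → b ≠ 0 →
      ‖∑ x : K, if x = 0 then (0 : ℂ) else ψ (a * x + b * x⁻¹)‖ ^ 4 ≤ 3 * (Fintype.card K : ℝ) ^ 3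

/-- **Kl.** (250 lines)  Two cosets of large subgroups and the inversion.

*Proof.*  `ψ` a primitive additive character of `K` with values in `ℂ`; every character of `(K, +)` is
`x ↦ ψ (a x)` for a unique `a` (`AddChar` duality: `card (AddChar K ℂ) = card K`, injectivity by primitivity).
`A₁' = {a | ∀ x ∈ A₁, ψ (a x) = 1}` has `I₁ = A₁.index` elements (the characters of `K / A₁`), and for every `x`:
`∑_{a ∈ A₁'} ψ (a x) = I₁` if `x ∈ A₁`, `0` otherwise.  The same for `A₂`.  So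
`I₁ I₂ * #{x ≠ 0 | x - a₁ ∈ A₁, x⁻¹ - a₂ ∈ A₂} = ∑_{a ∈ A₁', b ∈ A₂'} ψ(-a a₁ - b a₂) S(a, b)`.  The term `a = b = 0` is
`Q - 1`.  If exactly one of `a, b` is zero `S = -1`.  Otherwise `|S| ≤ (3 Q^3)^(1/4)` (*Kl1*).  So the absolute value of
the sum is at least `(Q - 1) - (I₁ I₂ - 1) (3 Q^3)^(1/4)`.  With `I = I₁ I₂`, `64 I^4 ≤ Q` (so `Q ≥ 64`):
`I^4 * 3 Q^3 ≤ 3 Q^4 / 64 < (Q - 1)^4` since `(1 - 1/64)^4 > 3/64`; so `I (3Q^3)^(1/4) < Q - 1` and the sum is not zero.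
(If you prefer: use the bound for `A₁'` in the form of the orthogonality relations of the finite group
`K / A₁`.)
*Uses*: Kl1. -/
def KStmtKl : Prop :=
  ∀ (K : Type) [Field K] [Finite K] (A₁ A₂ : AddSubgroup K),
    64 * (A₁.index * A₂.index) ^ 4 ≤ Nat.card K →
    ∀ a₁ a₂ : K, ∃ x : K, x ≠ 0 ∧ x - a₁ ∈ A₁ ∧ x⁻¹ - a₂ ∈ A₂

/-- **Con.** (200 lines)  Two large elements are connected.

*Proof.*  `D = p ^ S m`, `N = p ^ (S - 4)`, `N m = D / p ^ 4 ≤ D / 16`.  `K = K_D` as a subfield of `F` (finite, `p ^ D`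
elements).  `A_i = {C_i(φ) (φ ^ (N m) - 1) v | v ∈ K_D}` is an additive subgroup of `K_D` (the image of an additive map
`K_D → K_D`, defined by the polynomial `C_i (X ^ (N m) - 1)` of degree `≤ c + N m`; `K_D` is stable under `l(φ)`), its index is the
number of elements of the kernel on `K_D`, at most `p ^ (c + N m)` (`cardKer`).  `64 (I₁ I₂)^4 ≤ p ^ (6 + 8 c + 8 N m) ≤ p ^ D`:
`8 c ≤ 8 m + D / 4`, `8 N m ≤ D / 2`, `8 m + 6 ≤ D / 4` (*Ripe*).  *Kl* with `a₁ = y`, `a₂ = v`: `x ≠ 0`,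
`x - y = C₁(φ) (φ ^ (N m) - 1) v₁`, `v₁ ∈ K_D`, and by *Lg* (`j = 4`) `(φ ^ (N m) - 1) v₁ = κ₁(φ) y`.  So `x = y + (C₁ κ₁)(φ) y`,
and in the same way `x⁻¹ = v + (C₂ κ₂)(φ) v`.
*Uses*: Kl, Lg. -/
def KStmtCon : Prop :=
  ∀ (p : ℕ) [Fact p.Prime] (F : Type) [Field F] [Algebra (ZMod p) F] [IsAlgClosed F]
    [Algebra.IsAlgebraic (ZMod p) F], FactsA p F → FactsB p F →
    ∀ (m S c : ℕ) (C₁ C₂ : (ZMod p)[X]), Ripe p m S → C₁ ≠ 0 → C₂ ≠ 0 → C₁.natDegree ≤ c →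
      C₂.natDegree ≤ c → 32 * c ≤ 32 * m + p ^ S * m →
      ∀ y v : F, dg p y = p ^ S * m → dg p v = p ^ S * m →
        Large p (p ^ (S - 4)) (p ^ 4 * m) y → Large p (p ^ (S - 4)) (p ^ 4 * m) v →
        ∃ κ₁ κ₂ : (ZMod p)[X], y + lin p (C₁ * κ₁) y ≠ 0 ∧
          (y + lin p (C₁ * κ₁) y)⁻¹ = v + lin p (C₂ * κ₂) v

/-! ## Units -/

/-- **U0.** (80 lines)  The number of monic polynomials of degree `D` with coefficients in `K_N`, and division.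

*Proof.*  `f ↦ (f.coeff i)_{i < D}` is a bijection from `PN p F N D` to the functions `Fin D → K_N`; `K_N` has `p ^ N`
elements.  Second claim: `X ^ D - 1` has coefficients in the prime field; divide `g` by the monic polynomial
`X ^ D - 1` over the subfield `K_N` (or: `%ₘ` over `F` and apply the automorphism `z ↦ z ^ (p ^ N)` to the
coefficients; uniqueness of the remainder shows that it is fixed); `f = X ^ D - 1 + (g %ₘ (X ^ D - 1))`.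
Uniqueness: two monic polynomials of degree `D` whose difference (of degree `< D`) is divisible by `X ^ D - 1`
are equal. -/
def KStmtU0 : Prop :=
  ∀ (p : ℕ) [Fact p.Prime] (F : Type) [Field F] [Algebra (ZMod p) F] [IsAlgClosed F]
    [Algebra.IsAlgebraic (ZMod p) F], FactsA p F → FactsB p F → ∀ (N D : ℕ), 0 < N → 0 < D →
    (PN p F N D).Finite ∧ (PN p F N D).ncard = (p ^ N) ^ D ∧
    ∀ g : F[X], (∀ i, (g.coeff i) ^ (p ^ N) = g.coeff i) →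
      ∃ f ∈ PN p F N D, X ^ D - 1 ∣ f - g ∧ ∀ f' ∈ PN p F N D, X ^ D - 1 ∣ f' - g → f' = f

/-- **U1.** (300 lines)  Less than half of the monic polynomials of degree `D` over `K_N` have a root whose
order is not divisible by `r ^ (i + 1)` (or the root `0`).

*Proof.*  `Q = p ^ N`.  Call `θ` bad if `θ = 0` or `¬ r ^ (i+1) ∣ orderOf θ`.  Let `f ∈ PN N D` with a bad root `θ`, and let
`d` be the minimal period of `θ` under `z ↦ z ^ Q`.  The elements `θ_j = θ ^ (Q ^ j)`, `j < d`, are distinct roots of `f`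
(the coefficients of `f` are fixed by `z ↦ z ^ Q`), so `g = ∏_{j<d} (X - θ_j)` divides `f`, `d ≤ D`; the coefficients of `g` are
in `K_N` (the map `z ↦ z ^ Q` permutes the `θ_j`), hence `f = g h` with `h ∈ PN N (D - d)` (coefficients in `K_N`: apply the
automorphism and cancel).  So the number of such `f` is at most `∑_{d=1}^{D} b_d Q ^ (D - d)`, where `b_d` is the number
of bad `θ` with `θ ^ (Q ^ d) = θ`.  `b_d ≤ 1 + Q ^ d r ^ i / r ^ V`: for `θ ≠ 0`, `o = orderOf θ ∣ Q ^ d - 1`; write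
`Q ^ d - 1 = r ^ v u` with `r ∤ u`; `v ≥ V` as `r ^ V ∣ Q - 1 ∣ Q ^ d - 1`; `o` is not divisible by `r ^ (i+1)`, so `o ∣ r ^ i u`
(`i ≤ v`): `θ` is a root of `X ^ (r ^ i u) - 1`, so there are at most `r ^ i u = (Q ^ d - 1) r ^ i / r ^ v ≤ Q ^ d r ^ i / r ^ V` of them.
Sum: `∑_d Q ^ (D-d) + D Q ^ D r ^ i / r ^ V ≤ Q ^ D / (Q - 1) + D Q ^ D r ^ i / r ^ V < Q ^ D / 4 + Q ^ D / 4`.
*Uses*: U0. -/
def KStmtU1 : Prop :=
  ∀ (p : ℕ) [Fact p.Prime] (F : Type) [Field F] [Algebra (ZMod p) F] [IsAlgClosed F]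
    [Algebra.IsAlgebraic (ZMod p) F], FactsA p F → FactsB p F → ∀ (r i N D V : ℕ), r.Prime →
    r ≠ p → 0 < N → 0 < D → 5 ≤ p ^ N → i + 1 ≤ V → r ^ V ∣ p ^ N - 1 → 4 * D * r ^ i < r ^ V →
    2 * {f ∈ PN p F N D | ∃ θ : F, f.IsRoot θ ∧ ¬ (θ ≠ 0 ∧ r ^ (i + 1) ∣ orderOf θ)}.ncard <
      (p ^ N) ^ D

/-- **U2.** (200 lines)  Every unit class modulo `X ^ D - 1` over `K_N` contains a good polynomial.

*Proof.*  `G` = the set of `f ∈ PN N D` all of whose roots are good; `2 #G > Q ^ D` (*U0*, *U1*).  A good `f` is coprime to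
`X ^ D - 1`: a common root `θ` would satisfy `θ ^ D = 1`, `r ^ (i+1) ∣ orderOf θ ∣ D`, a contradiction
(`F` is algebraically closed: polynomials without common root are coprime).  For `f ∈ G` there is `f*` with
coefficients in `K_N` and `X ^ D - 1 ∣ f f* - 1` (Bezout over the subfield `K_N`; or take the inverse over `F` reduced modulo
`X ^ D - 1`: it is unique, so fixed by the automorphism `z ↦ z ^ (p ^ N)` of the coefficients).  Let `T f ∈ PN N D` be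
the representative of `a f*` (*U0*).  `T` is injective on `G`: `T f = T f'` gives `a f* ≡ a f'*`, multiply by the inverse
of `a`, `f* ≡ f'*`, `f ≡ f'`, `f = f'` (*U0*, uniqueness).  `#T(G) + #G > Q ^ D = #PN`, so there are `f₁, f₂ ∈ G` with
`f₂ = T f₁`: `f₁ f₂ ≡ a f₁ f₁* ≡ a`.  `f = f₁ f₂`.
*Uses*: U0, U1. -/
def KStmtU2 : Prop :=
  ∀ (p : ℕ) [Fact p.Prime] (F : Type) [Field F] [Algebra (ZMod p) F] [IsAlgClosed F]
    [Algebra.IsAlgebraic (ZMod p) F], FactsA p F → FactsB p F → ∀ (r i N D V : ℕ), r.Prime →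
    r ≠ p → 0 < N → 0 < D → 5 ≤ p ^ N → i + 1 ≤ V → r ^ V ∣ p ^ N - 1 → 4 * D * r ^ i < r ^ V →
    ¬ r ^ (i + 1) ∣ D →
    ∀ a : F[X], (∀ j, (a.coeff j) ^ (p ^ N) = a.coeff j) → IsCoprime a (X ^ D - 1) →
      ∃ f : F[X], f ≠ 0 ∧ (∀ j, (f.coeff j) ^ (p ^ N) = f.coeff j) ∧ X ^ D - 1 ∣ f - a ∧
        ∀ θ : F, f.IsRoot θ → θ ≠ 0 ∧ r ^ (i + 1) ∣ orderOf θ

/-- **U3.** (120 lines)  The norm of a polynomial with coefficients in `K_N`.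
(`iterateFrobenius F p k` is `z ↦ z ^ (p ^ k)`; it needs `CharP F p`.)

*Proof.*  `G = ∏_{k<N} f^(k)`, `f^(k)` = `f` with the coefficients raised to the power `p ^ k`.  `G^(1) = ∏_{k<N} f^(k+1) = G`
because `f^(N) = f`; so the coefficients of `G` satisfy `c ^ p = c`, they are in the prime field
(the `p` elements of the prime field are the roots of `X ^ p - X`), and `G` is the image of some `g`.
`g ≠ 0` if `f ≠ 0`.  If `g(θ) = 0` then `f^(k)(θ) = 0` for some `k < N`; as `z ↦ z ^ (p ^ k)` is bijective on `F`,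
`θ = θ' ^ (p ^ k)` and `f^(k)(θ) = f(θ') ^ (p ^ k)`, so `f(θ') = 0`.  `orderOf θ = orderOf θ'` (injective homomorphism). -/
def KStmtU3 : Prop :=
  ∀ (p : ℕ) [Fact p.Prime] (F : Type) [Field F] [Algebra (ZMod p) F] [IsAlgClosed F]
    [Algebra.IsAlgebraic (ZMod p) F] [CharP F p], FactsA p F → ∀ (N : ℕ), 0 < N → ∀ f : F[X],
    (∀ j, (f.coeff j) ^ (p ^ N) = f.coeff j) →
    ∃ g : (ZMod p)[X], g.map (algebraMap (ZMod p) F) =
      ∏ k ∈ range N, f.map (iterateFrobenius F p k) ∧ (f ≠ 0 → g ≠ 0) ∧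
      ∀ θ : F, aeval θ g = 0 → ∃ θ' : F, f.IsRoot θ' ∧ orderOf θ' = orderOf θ ∧ (θ' ≠ 0 → θ ≠ 0)

/-- **U4.** (200 lines)  The norm is surjective on `1 + (X ^ m - 1)`.

*Proof.*  `ϖ = X ^ m - 1` (coefficients in the prime field), `D = p ^ S m`, `X ^ D - 1 = ϖ ^ (p ^ S)`.  Choose `θ ∈ K_N` with trace
`∑_{k<N} θ ^ (p ^ k) = 1` (the trace is additive on `K_N`, given by a polynomial of degree `p ^ (N-1) < p ^ N`, so it has a
nonzero value `s` at some `θ₀ ∈ K_N`; `s ^ p = s`, so `θ = θ₀ / s`).  CLAIM: for `1 ≤ s ≤ p ^ S` and `b ∈ 𝔽_p[X]` there is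
`a` with coefficients in `K_N`, `a ≡ 1` modulo `ϖ`, and `N(a) ≡ 1 + ϖ ^ s b` modulo `ϖ ^ (p ^ S)`.  Downward induction on
`s`; `s = p ^ S`: `a = 1`.  For `s < p ^ S`: `a₁ = 1 + ϖ ^ s θ b`: `N(a₁) = ∏_k (1 + ϖ ^ s θ ^ (p^k) b) ≡ 1 + ϖ ^ s b` modulo
`ϖ ^ (s+1)` (as `2 s ≥ s + 1`).  `N(a₁)` is in `𝔽_p[X]` (*U3*), `≡ 1` modulo `ϖ`, so it is invertible modulo `ϖ ^ (p^S)` with inverse
`n ∈ 𝔽_p[X]`, and `(1 + ϖ ^ s b) n ≡ 1` modulo `ϖ ^ (s+1)`: `= 1 + ϖ ^ (s+1) b'` modulo `ϖ^(p^S)`.  By induction `a₂` for `s + 1`, `b'`;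
`a = a₁ a₂` (the norm is multiplicative).  For the statement use `s = 1`, `b = κ`; `a ≡ 1` modulo `ϖ` implies that `a` is
coprime to `ϖ ^ (p ^ S)`.
*Uses*: U3. -/
def KStmtU4 : Prop :=
  ∀ (p : ℕ) [Fact p.Prime] (F : Type) [Field F] [Algebra (ZMod p) F] [IsAlgClosed F]
    [Algebra.IsAlgebraic (ZMod p) F] [CharP F p], FactsA p F → FactsB p F → ∀ (N m S : ℕ), 0 < N →
    0 < m → m.Coprime p → ∀ κ : (ZMod p)[X],
    ∃ a : F[X], (∀ j, (a.coeff j) ^ (p ^ N) = a.coeff j) ∧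
      IsCoprime a (X ^ (p ^ S * m) - 1) ∧
      X ^ (p ^ S * m) - 1 ∣ (∏ k ∈ range N, a.map (iterateFrobenius F p k)) -
        (1 + κ * (X ^ m - 1)).map (algebraMap (ZMod p) F)

/-- **U.** (150 lines)  Good representatives of the unipotent units.

*Proof.*  `D = p ^ S m`.  Choose `V` with `i + 1 ≤ V` and `4 D r ^ i < r ^ V`, `V ≥ 3`, and `N = (r - 1) r ^ (V - 1)`, so that `r ^ V ∣ p ^ N - 1` (Euler,
`Nat.ModEq.pow_totient`, `p` is prime to `r`); `p ^ N ≥ 5`: `N ≥ V ≥ 3`.  *U4*: `a`; *U2*: `f ≡ a` modulo `X ^ D - 1`, good; *U3*: `l` with image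
`∏ f^(k)`.  `∏ f^(k) ≡ ∏ a^(k)` modulo `X ^ D - 1` (`X ^ D - 1` has coefficients in the prime field: the maps preserve
divisibility by it), so `X ^ D - 1` divides `l - (1 + κ (X^m - 1))` after mapping to `F[X]`, hence already over `ZMod p`
(`Polynomial.map_dvd_map'` or division with remainder).  `l` is good by *U3*.
*Uses*: U2, U3, U4. -/
def KStmtU : Prop :=
  ∀ (p : ℕ) [Fact p.Prime] (F : Type) [Field F] [Algebra (ZMod p) F] [IsAlgClosed F]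
    [Algebra.IsAlgebraic (ZMod p) F], FactsA p F → FactsB p F → ∀ (r i m S : ℕ), r.Prime →
    r ≠ p → 0 < m → m.Coprime p → ¬ r ^ (i + 1) ∣ p ^ S * m → ∀ κ : (ZMod p)[X],
    ∃ l : (ZMod p)[X], GoodPoly p F r i l ∧ X ^ (p ^ S * m) - 1 ∣ l - (1 + κ * (X ^ m - 1))

/-! ## The monoid `S` and its invertible elements -/

/-- **SS.** (250 lines)  Members of `S`.

*Proof.*  Composition: `dg (ev v (ev w y)) = D`; by `v ∈ S`: `dg (ev w y) = D` (then use `w ∈ S`) or `r D ∣ dg (ev w y) ∣ dg y`.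
`tr`, `inv`: `dg` is preserved (`dg_tr`, `dg_inv`), bijections of `F` with inverses `tr (-c)`, `inv`.
`pow r`: `Ok` as `r ≠ p` are primes.  `a = y ^ r`, `dg a = D`, `y ≠ 0` (if `y = 0`, `a = 0`, `dg a = 1 < 2`).
`y' = y ^ (p ^ D)`, `y' ^ r = a ^ (p ^ D) = a = y ^ r`, so `y' = ζ y`, `ζ ^ r = 1`, and `ζ ^ (p ^ D) = ζ` since `r ∣ p ^ D - 1`.
So `y ^ (p ^ (D i)) = ζ ^ i y`, `y ^ (p ^ (D r)) = y`: `dg y ∣ r D`, and `D = dg a ∣ dg y`: `dg y = D d`, `d ∣ r`, `d = 1` or `r`.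
`add l`, `l` good: `Ok`: `l(0) ≠ 0` (otherwise `0` is a root).  In `S`: `a = lin p l y`, `dg a = D`, `u = lin p (X ^ D - 1) y`,
`lin p l u = 0`.  If `u = 0`: `dg y ∣ D` and `D ∣ dg y` (`dg_lin`).  If `u ≠ 0`: `D' = dg y`, `lin p (X ^ D' - 1) u = 0`, so `l` and
`X ^ D' - 1` are not coprime (Bezout would give `u = 0`), so they have a common root `θ` in `F`: `θ ^ D' = 1`,
`r ^ (i+1) ∣ orderOf θ ∣ D'`; `D ∣ D'`, `D' = D d`; if `r ∤ d` then `r ^ (i+1) ∣ D`, contradiction to `val`; so `r D ∣ D'`.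
Bijective on `O_D`: `l` and `X ^ D - 1` are coprime (a common root would have `r ^ (i+1) ∣ orderOf θ ∣ D`), so there is `l'` with
`l' l ≡ 1` modulo `X ^ D - 1`, and `l'(φ)` is the inverse of `l(φ)` on `K_D`; both maps do not increase `dg` (`dg_lin`), so they
preserve it.  `BS` is closed under composition (`Set.BijOn.comp`, `ev_append`). -/
def KStmtSS : Prop :=
  ∀ (p : ℕ) [Fact p.Prime] (F : Type) [Field F] [Algebra (ZMod p) F] [IsAlgClosed F]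
    [Algebra.IsAlgebraic (ZMod p) F], FactsA p F → FactsB p F → ∀ (r i : ℕ) (DD : Finset ℕ),
    r.Prime → r ≠ p → Lev p r i DD →
    InS p F r DD [] ∧ (∀ v w, InS p F r DD v → InS p F r DD w → InS p F r DD (v ++ w)) ∧
    InS p F r DD [Atom.pow r] ∧ BS p F r DD [] ∧
    (∀ v w, BS p F r DD v → BS p F r DD w → BS p F r DD (v ++ w)) ∧
    (∀ c, BS p F r DD [Atom.tr c]) ∧ BS p F r DD [Atom.inv] ∧
    ∀ l, GoodPoly p F r i l → BS p F r DD [Atom.add l]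

/-- **Grp.** (150 lines)  `Eqv` is an equivalence relation on the levels.

*Proof.*  Composition: *SS*.  Symmetry: `w` induces a permutation `σ` of the finite set `X = {y | dg y ∈ DD}`
(`BijOn` on each `O_D`, `finO`); `σ ^ n = 1` for some `n > 0`; the word `w ++ ... ++ w` (`n - 1` times) is in `BS`, fixes the
elements of `Z` (as `w` does), and maps `y' = σ y` to `σ ^ (n-1) σ y = y`.
*Uses*: SS. -/
def KStmtGrp : Prop :=
  ∀ (p : ℕ) [Fact p.Prime] (F : Type) [Field F] [Algebra (ZMod p) F] [IsAlgClosed F]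
    [Algebra.IsAlgebraic (ZMod p) F], FactsA p F → FactsB p F → ∀ (r i : ℕ) (DD : Finset ℕ),
    r.Prime → r ≠ p → Lev p r i DD → ∀ Z : Set F,
    (∀ y, Eqv p F r DD Z y y) ∧
    (∀ y y' y'', Eqv p F r DD Z y y' → Eqv p F r DD Z y' y'' → Eqv p F r DD Z y y'') ∧
    (∀ y y', dg p y ∈ DD → Eqv p F r DD Z y y' → dg p y' = dg p y ∧ Eqv p F r DD Z y' y)

/-- **Mv.** (150 lines)  The elementary moves.

*Proof.*  `D = p ^ S m`.  `C = C' (X ^ m - 1)`; *U* for `κ C'` gives a good `l` with `X ^ D - 1 ∣ l - (1 + κ C)`.  For `v` with `dg v ∣ D`: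
`lin p l v = v + lin p (C κ) v`.  First claim: the word `[add l]` (*SS*): it fixes `z ∈ Z` since `dg z = D` and
`lin p C z = 0`.  Second claim: the word `[inv, add l, inv]` maps `y` to `(lin p l y⁻¹)⁻¹`, and fixes `z ∈ Z`.
*Uses*: U, SS. -/
def KStmtMv : Prop :=
  ∀ (p : ℕ) [Fact p.Prime] (F : Type) [Field F] [Algebra (ZMod p) F] [IsAlgClosed F]
    [Algebra.IsAlgebraic (ZMod p) F], FactsA p F → FactsB p F → ∀ (r i : ℕ) (DD : Finset ℕ),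
    r.Prime → r ≠ p → Lev p r i DD → ∀ (m S : ℕ), 0 < m → m.Coprime p → p ^ S * m ∈ DD →
    ∀ Z : Set F, (∀ z ∈ Z, dg p z = p ^ S * m) → ∀ C : (ZMod p)[X], X ^ m - 1 ∣ C →
    ∀ y : F, dg p y = p ^ S * m → ∀ κ : (ZMod p)[X],
    ((∀ z ∈ Z, lin p C z = 0) → Eqv p F r DD Z y (y + lin p (C * κ) y)) ∧
    ((∀ z ∈ Z, lin p C z⁻¹ = 0) → Eqv p F r DD Z y (y⁻¹ + lin p (C * κ) y⁻¹)⁻¹)

/-! ## Transitivity -/

/-- **D1.** (300 lines)  The trace lemma.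

*Proof.*  `N₁ = p ^ (S-1)`, `ψ z = z ^ (p ^ N₁)`, `E₁ = {t | ψ t = t}` (`p ^ N₁` elements).  `D = p ^ S m = (p m) N₁`, so
`ψ ^ s y = y ↔ D ∣ s N₁ ↔ p m ∣ s`.  `ψ ^ m h = h` (`m ∣ m N₁`).  For `c ∈ {0, 1}`: `v_c = (y + c) / h`, `s_c` the minimal period of
`v_c` under `ψ` (it divides `p m`, since `ψ ^ (p m)` fixes `y`, `h`).  `ψ ^ m v_c ≠ v_c` (`ψ^m` fixes `h` and `c` and moves `y`), so `s_c ∤ m`, and
with `s_c ∣ p m`: `p ∣ s_c` (otherwise `s_c` is prime to `p` and divides `m`), and `p m / s_c` divides `m`, so it is prime to `p`.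
`δ_c = ∑_{k < p m / s_c} ψ ^ (k s_c) (h⁻¹)`.
CASE 1: `δ_c ≠ 0` for some `c ∈ {0,1}`.  Let `ε_i = 1` if `i ≡ 1` modulo `p`, `-1` if `i ≡ 0` modulo `p` and `0` otherwise (for `p = 2`
this means `1` for odd and `-1` for even `i`).  For `t ∈ E₁`, `x = (y + c + t h)⁻¹`, `x' = ∑_{i<m} ψ ^ (p i) x` (`p^(p^S i)`-th powers):
`ψ x' - x' = ∑_{i < p m} ε_i ψ^i x = ∑_{i < p m} ε_i (ψ^i h)⁻¹ (ψ^i v_c + t)⁻¹`.  Since `ψ^i v_c` depends only on `i` modulo `s_c` and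
`ε_i` only on `i` modulo `p`, `p ∣ s_c`: this is `∑_{i < s_c} ε_i ψ^i(δ_c) (ψ^i v_c + t)⁻¹`.  (`y + c + t h ≠ 0`, and `ψ^i v_c + t ≠ 0`, because
`v_c ∉ E₁`: `s_c ≥ p ≥ 2`.)  `G(T) = ∑_{i<s_c} ε_i ψ^i(δ_c) ∏_{i' < s_c, i' ≠ i} (T + ψ^{i'} v_c)` has degree `< s_c` and its value at
`-v_c` is `ε_0 δ_c ∏_{i' ≠ 0} (ψ^{i'} v_c - v_c) ≠ 0` (the `ψ^i v_c`, `i < s_c`, are distinct).  It has at most `s_c - 1 < p m` zeros, and
`p m < p ^ N₁` (from *Ripe*: `p m ≤ p ^ 4 m < p ^ (p ^ (S-4))`), so there is `t ∈ E₁` with `G(t) ≠ 0`, i.e. `ψ x' ≠ x'`.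
CASE 2: `δ_0 = δ_1 = 0`: impossible.  `v_1 = v_0 + h⁻¹`.  `0 = δ_0 = ∑_k ψ^(k s_0)(v_1 - v_0) = A - (p m / s_0) v_0`,
`A = ∑_{k < pm/s_0} ψ^(k s_0) v_1`, `ψ^(s_1) A = A`; `p m / s_0` is prime to `p`, so invertible in the prime field, and
`ψ^(s_1) v_0 = v_0`, `s_0 ∣ s_1`.  In the same way (`0 = δ_1 = (p m / s_1) v_1 - ∑_k ψ^(k s_1) v_0`) `s_1 ∣ s_0`.  So `s_0 = s_1 = s`, `ψ^s` fixes
`v_0, v_1, h⁻¹ = v_1 - v_0, y = v_0 h`, so `p m ∣ s`, `s = p m`, and `δ_0 = h⁻¹ ≠ 0`, a contradiction. -/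
def KStmtD1 : Prop :=
  ∀ (p : ℕ) [Fact p.Prime] (F : Type) [Field F] [Algebra (ZMod p) F] [IsAlgClosed F]
    [Algebra.IsAlgebraic (ZMod p) F], FactsA p F → FactsB p F → ∀ (m S : ℕ), Ripe p m S →
    ∀ y h : F, dg p y = p ^ S * m → h ≠ 0 → h ^ (p ^ m) = h →
    ∃ (c : ZMod p) (t : F), t ^ (p ^ (p ^ (S - 1))) = t ∧
      y + algebraMap (ZMod p) F c + t * h ≠ 0 ∧
      (∑ i ∈ range m, (y + algebraMap (ZMod p) F c + t * h)⁻¹ ^ (p ^ (p ^ S * i))) ^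
          (p ^ (p ^ (S - 1))) ≠
        ∑ i ∈ range m, (y + algebraMap (ZMod p) F c + t * h)⁻¹ ^ (p ^ (p ^ S * i))

/-- **D2.** (150 lines)

*Proof.*  `N₁ = p ^ (S-1)`, `x' = ∑_{i<m} x ^ (p ^ (p^S i)) = lin p q x`, `q = ∑_{i<m} X ^ (p^S i)`.  `(X ^ (p^S) - 1) q = X ^ D - 1`, so
`x' ^ (p ^ (p^S)) = x'`, i.e. `dg x' ∣ p ^ S`, and `¬ dg x' ∣ p ^ (S-1)`, so `dg x' = p ^ S`.
`(X ^ m - 1) ^ N₁ = X ^ (m N₁) - 1`; `x' ^ (p ^ (m N₁)) ≠ x'` since `p ^ S ∤ m N₁` (`p ∤ m`).  So `(X^m-1)^N₁(φ) x' ≠ 0` while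
`(X^m - 1)^(p^S)(φ) x' = 0`: choose `k ≥ 0` maximal with `h' = (X^m-1)^(k + N₁)(φ) x' ≠ 0`; then `(X^m-1)^(k+N₁+1)(φ) x' = 0`.
`h'` is fixed by `z ↦ z ^ (p ^ m)` and by `z ↦ z ^ (p ^ (p^S))` (`dg h' ∣ dg x'`), so `dg h' ∣ gcd (m, p^S) = 1`: `h' ^ p = h'`, and
`h' = algebraMap c`, `c ≠ 0`, `c : ZMod p` (roots of `X ^ p - X`).  *Pi* for `x'` (`dg x' ∣ p ^ S m`): `t h' = (X^m-1)(φ) κ(φ) x'`, so
`t = lin p ((X^m-1) (C c⁻¹ κ q)) x`.
*Uses*: Pi. -/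
def KStmtD2 : Prop :=
  ∀ (p : ℕ) [Fact p.Prime] (F : Type) [Field F] [Algebra (ZMod p) F] [IsAlgClosed F]
    [Algebra.IsAlgebraic (ZMod p) F], FactsA p F → FactsB p F → ∀ (m S : ℕ), 0 < m →
    m.Coprime p → 1 ≤ S → ∀ x : F, dg p x ∣ p ^ S * m →
    (∑ i ∈ range m, x ^ (p ^ (p ^ S * i))) ^ (p ^ (p ^ (S - 1))) ≠
        ∑ i ∈ range m, x ^ (p ^ (p ^ S * i)) →
    ∀ t : F, t ^ (p ^ (p ^ (S - 1))) = t → ∃ κ : (ZMod p)[X], t = lin p ((X ^ m - 1) * κ) x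

/-- **Tr.** (250 lines)  The group is transitive on `O_D`.

*Proof.*  `D = p ^ S m`, `N₁ = p ^ (S-1)`, `N = p ^ (S-4)`, `k = p ^ 4 m`, `D = N k`, `W = X ^ m - 1`.  Write `≈` for `Eqv ∅`.
STEP 1: every `y ∈ O_D` is `≈` to a large `u` with `dg u = D`.  `W ^ N₁ = X ^ (m N₁) - 1` does not kill `y` (`D ∤ m N₁`),
`W ^ (p ^ S) = X ^ D - 1` kills `y`: there is `k₁` with `h = (W ^ (k₁ + N₁))(φ) y ≠ 0` and `(W ^ (k₁+N₁+1))(φ) y = 0`.  *Pi* (`e = S - 1`):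
for `t ∈ E₁ = {t | t ^ (p ^ N₁) = t}`, `t h = (W κ)(φ) y`, so `y ≈ y + t h` (*Mv*, `C = W`).  `h ^ (p ^ m) = h`.  *D1*: `c`, `t`, and
`x = (y + c + t h)⁻¹`: `y ≈ y + t h ≈ y + t h + c ≈ x` (`tr`, `inv` are in `BS`, *SS*).  `dg x = D` (*Grp*).  *D2*: every `t' ∈ E₁` is
`(W κ')(φ) x`, so `x ≈ x + t'` (*Mv*).  *Gen* for `x`, `h = 1`, `N`, `k`: `x ^ (p ^ (i N)) ≠ x` for `0 < i < k` (`D ∤ i N`); `t'` with
`t' ^ (p ^ N) = t'` (so `t' ∈ E₁`, `N ∣ N₁`) and `u = (x + t')⁻¹` large.  `x ≈ x + t' ≈ u`.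
STEP 2: for large `y, v ∈ O_D`: *Con* with `C₁ = C₂ = W`, `c = m`: `x = y + (W κ₁)(φ) y`, `x⁻¹ = v + (W κ₂)(φ) v`: `y ≈ x ≈ x⁻¹`, and
`v ≈ x⁻¹` (*Mv*, *SS*), so `y ≈ v`.
*Uses*: Pi, D1, D2, Gen, Con, Mv, SS, Grp. -/
def KStmtTr : Prop :=
  ∀ (p : ℕ) [Fact p.Prime] (F : Type) [Field F] [Algebra (ZMod p) F] [IsAlgClosed F]
    [Algebra.IsAlgebraic (ZMod p) F], FactsA p F → FactsB p F → ∀ (r i : ℕ) (DD : Finset ℕ),
    r.Prime → r ≠ p → Lev p r i DD → ∀ (m S : ℕ), Ripe p m S → p ^ S * m ∈ DD →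
    ∀ y y' : F, dg p y = p ^ S * m → dg p y' = p ^ S * m → Eqv p F r DD ∅ y y'

/-! ## Merging -/

/-- **ZZ.** (300 lines)  The special elements `z` and `y₁`.

*Proof.*  `D = p ^ S m`, `g = D / n` (`n ∣ D`), `D₀ ∣ g` (`n D₀ ∣ D`).  `n` is prime to `p` (`n ∣ p^D₀ - 1`), so `p ^ S ∣ g`.  `N = p^(S-4) ∣ g`,
`k = p^4 m`, `D = N k`.  `ρ ∈ F` of order `n` (primitive root of unity, `p ∤ n`); `ρ ^ (p ^ D₀) = ρ`.  `P` monic of degree `≤ D₀` with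
`aeval ρ P = 0`: `P = minpoly (ZMod p) ρ`, whose degree is at most `D₀`: the powers `ρ ^ j`, `j ≤ D₀`, are in the
`ZMod p`-space `K_{D₀}` of dimension `D₀` (`p ^ D₀` elements), so they are linearly dependent; or `P` = the product of `X - ρ'`
over the orbit of `ρ` under Frobenius, of length `dg ρ ∣ D₀`.  The same for `ρ⁻¹`: `P'`.
`Z = {z | z ^ (p ^ g) = ρ z}` has `p ^ g` elements (`cardQ`), closed under addition and multiplication by elements of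
`K_g`.  For `z ∈ Z`: `z ^ (p ^ (g j)) = ρ ^ j z` (as `ρ ∈ K_{D₀} ⊆ K_g`), so `lin p (P.comp (X ^ g)) z = (aeval ρ P) z = 0` (`lin_sum`), and
`z ^ (p ^ D) = ρ ^ n z = z`.  For `z ≠ 0`, `z⁻¹` is in the corresponding set for `ρ⁻¹`.
`ζ ∈ F`, `ζ ^ r = 1`, `ζ ≠ 1` (`r ≠ p`), `ζ ∈ K_{D₀} ⊆ K_g` (`r ∣ p^D₀ - 1`), `c = 1 - ζ⁻¹ ≠ 0`, `c ∈ K_g`.
CHOICE of `z₁ ∈ Z`, `z₁ ≠ 0`, `z₁` and `z₁ / c` not in `K_{D/s}` for all primes `s ∣ D`: both are in `Z`.  Let `s ∣ D` be prime.  If `s ∣ n`: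
`D / s = g (n / s)`, so `z ^ (p ^ (D/s)) = ρ ^ (n/s) z ≠ z` for `0 ≠ z ∈ Z`.  If `s ∤ n`: `s ∣ g`, and if `z₀ ≠ 0` is in
`Z ∩ K_{D/s}` then every `z ∈ Z ∩ K_{D/s}` is `z₀ a`, `a = z / z₀ ∈ K_g ∩ K_{D/s} = K_{g/s}` (`gcd (g, D/s) = g/s`, as `D/s = (g/s) n` and
`gcd (s, n) = 1`): at most `p ^ (g/s) ≤ p ^ (g/2)` elements.  The number of primes `s ∣ D` is `< D`, so at most
`2 D p ^ (g/2)` elements are excluded (including `0`), and `(2 D)^2 < p ^ g` gives `2 D p^(g/2) < p ^ g`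
(`(2 D p^(g/2))^2 ≤ 4 D^2 p^g`).
For `0 < i < k`: `(z₁/c) ^ (p ^ (i N)) ≠ z₁/c`: the degree of `z₁/c` divides `D` and does not divide `D/s` for any prime `s`, so it is
`D = N k ∤ i N`.  *Gen* with `x = ζ z₁`, `h = ζ c` (`x/h = z₁/c`; `p^k k < p^N` by *Ripe*): `t ≠ 0`, `t ^ (p^N) = t`,
`(ζ z₁ + t ζ c)⁻¹` large.  `z = z₁ / t` (`t ∈ K_g`, so `z ∈ Z`); `dg z = D`: it divides `D`, and if `z ∈ K_{D/s}`, `s` prime, then (`N ∣ D/s`, as
`D/s = N (k/s)`, since `s ∣ p m`, so `s ∣ k`) `t ∈ K_{D/s}` and `z₁ ∈ K_{D/s}`, contradiction.  `y₁ = ζ (z + 1) - 1 = ζ (z + c) = (ζ z₁ + t ζ c) / t`, so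
`y₁⁻¹ = t (ζ z₁ + t ζ c)⁻¹` is large (*Gen*, second part).  `y₁ ∈ K_D`; `dg y₁ = D`: otherwise `y₁⁻¹ ∈ K_{D/s}`, `s` prime, `s ∣ k`, and
`b = X ^ (k/s) - 1` contradicts largeness (`b.comp (X^N) = X^(D/s) - 1`).  `y₁ ≠ z`: `ζ (z+1) ≠ z+1` as `z ≠ -1`, `ζ ≠ 1`.
`(y₁ + 1)^r = ζ^r (z+1)^r`.
*Uses*: Gen. -/
def KStmtZZ : Prop :=
  ∀ (p : ℕ) [Fact p.Prime] (F : Type) [Field F] [Algebra (ZMod p) F] [IsAlgClosed F]
    [Algebra.IsAlgebraic (ZMod p) F], FactsA p F → FactsB p F → ∀ (r m S D₀ n : ℕ), r.Prime →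
    r ≠ p → Ripe p m S → 0 < D₀ → r ∣ p ^ D₀ - 1 → n ∣ p ^ D₀ - 1 → 32 * D₀ ≤ n →
    n * D₀ ∣ p ^ S * m → 4 * (p ^ S * m) ^ 2 < p ^ ((p ^ S * m) / n) →
    ∃ P P' : (ZMod p)[X], P.Monic ∧ P'.Monic ∧ P.natDegree ≤ D₀ ∧ P'.natDegree ≤ D₀ ∧
      ∃ z y₁ : F, dg p z = p ^ S * m ∧ dg p y₁ = p ^ S * m ∧ y₁ ≠ z ∧
        (y₁ + 1) ^ r = (z + 1) ^ r ∧ Large p (p ^ (S - 4)) (p ^ 4 * m) y₁⁻¹ ∧
        lin p (P.comp (X ^ ((p ^ S * m) / n))) z = 0 ∧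
        lin p (P'.comp (X ^ ((p ^ S * m) / n))) z⁻¹ = 0

/-- **Pa.** (250 lines)  Partners of `z`.

*Proof.*  `D = p ^ S m`, `g = D / n`, `N = p^(S-4)`, `k = p^4 m`, `W = X^m - 1`, `C₁ = W * P.comp (X^g)`, `C₂ = W * P'.comp (X^g)`; degrees
`≤ c := m + D₀ g`, and `32 D₀ g ≤ n g = D`, so `32 c ≤ 32 m + D`.  `C₁(φ) z = 0`, `C₂(φ) z⁻¹ = 0`.  Write `≈` for `Eqv {z}`.
(1) For large `y, v ∈ O_D`: `y ≈ v⁻¹`.  *Con*: `x = y + (C₁ κ₁)(φ) y`, `x⁻¹ = v + (C₂ κ₂)(φ) v`.  `y ≈ x` (*Mv*, first part).  *Mv*, second part,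
for `v⁻¹` (in place of `y`): `v⁻¹ ≈ (v + (C₂ κ₂)(φ) v)⁻¹ = x`.
(2) Let `y` be as in the statement.  `y'' = lin p (P.comp (X^g)) y`; `(W^N)(φ) y'' ≠ 0`, `(W^(p^S))(φ) y'' = 0`; choose `k₁` with
`h = (W^(k₁+N))(φ) y'' ≠ 0`, `(W^(k₁+N+1))(φ) y'' = 0`.  *Pi* for `y''` (`e = S - 4`): for `t ^ (p^N) = t`:
`t h = (W κ)(φ) y'' = (C₁ κ)(φ) y`, so `y ≈ y + t h` (*Mv*).  `h ^ (p^m) = h`, `h ≠ 0`.  `dg (y/h) ∣ D` and for a prime `s ∣ D`,
`¬ dg (y/h) ∣ D/s`: for `s ∣ m` by hypothesis, for `s = p` because `h ∈ K_m ⊆ K_{D/p}` and `y ∉ K_{D/p}`.  So `dg (y/h) = D = N k` and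
`(y/h) ^ (p^(iN)) ≠ y/h` for `0 < i < k`.  *Gen*: `t` with `t ^ (p^N) = t`, `y + t h ≠ 0`, `v = (y + t h)⁻¹` large.  `dg v = D` (*Grp*:
`y ≈ y + t h`; `dg_inv`).  `y ≈ y + t h = v⁻¹`.
(3) `v₁ = y₁⁻¹` is large, `dg v₁ = D`.  By (1) `v₁ ≈ v⁻¹` and `v₁ ≈ v₁⁻¹ = y₁`, so `y ≈ v⁻¹ ≈ v₁ ≈ y₁`.
*Uses*: Pi, Gen, Con, Mv, Grp. -/
def KStmtPa : Prop :=
  ∀ (p : ℕ) [Fact p.Prime] (F : Type) [Field F] [Algebra (ZMod p) F] [IsAlgClosed F]
    [Algebra.IsAlgebraic (ZMod p) F], FactsA p F → FactsB p F → ∀ (r i : ℕ) (DD : Finset ℕ),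
    r.Prime → r ≠ p → Lev p r i DD → ∀ (m S D₀ n : ℕ), Ripe p m S → p ^ S * m ∈ DD → 0 < D₀ →
    32 * D₀ ≤ n → n * D₀ ∣ p ^ S * m → ∀ P P' : (ZMod p)[X], P.Monic → P'.Monic →
    P.natDegree ≤ D₀ → P'.natDegree ≤ D₀ →
    ∀ z y₁ : F, dg p z = p ^ S * m → dg p y₁ = p ^ S * m →
    Large p (p ^ (S - 4)) (p ^ 4 * m) y₁⁻¹ →
    lin p (P.comp (X ^ ((p ^ S * m) / n))) z = 0 → lin p (P'.comp (X ^ ((p ^ S * m) / n))) z⁻¹ = 0 →
    ∀ y : F, dg p y = p ^ S * m →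
    lin p ((X ^ m - 1) ^ (p ^ (S - 4)) * P.comp (X ^ ((p ^ S * m) / n))) y ≠ 0 →
    (∀ h : F, h ≠ 0 → h ^ (p ^ m) = h → ∀ s : ℕ, s.Prime → s ∣ m →
      ¬ dg p (y / h) ∣ (p ^ S * m) / s) →
    Eqv p F r DD {z} y y₁

/-- **Ex.** (150 lines)  The number of exceptions.

*Proof.*  The first kind: the kernel of a nonzero additive polynomial of degree `≤ p^(S-4) m + D₀ (D/n)` (`cardKer`; the
polynomial is monic).  The second kind: `y = h (y/h)`, `h ∈ K_m` (`p ^ m` elements), `y/h ∈ K_{D/s}` (`p ^ (D/s)` elements,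
`D/s > 0`), `s ∣ m` prime; `s ≥ 2`, and if `p = 2`, `m` is odd and `s ≥ 3`, so `p ^ (D/s) ≤ p ^ (D/a)`; at most `m` primes `s`. -/
def KStmtEx : Prop :=
  ∀ (p : ℕ) [Fact p.Prime] (F : Type) [Field F] [Algebra (ZMod p) F] [IsAlgClosed F]
    [Algebra.IsAlgebraic (ZMod p) F], FactsA p F → FactsB p F →
    ∀ (m S D₀ n : ℕ), Ripe p m S → n ∣ p ^ S * m → 0 < n →
    ∀ P : (ZMod p)[X], P.Monic → P.natDegree ≤ D₀ →
    {y : F | dg p y = p ^ S * m ∧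
      (lin p ((X ^ m - 1) ^ (p ^ (S - 4)) * P.comp (X ^ ((p ^ S * m) / n))) y = 0 ∨
        ∃ h : F, h ≠ 0 ∧ h ^ (p ^ m) = h ∧ ∃ s : ℕ, s.Prime ∧ s ∣ m ∧
          dg p (y / h) ∣ (p ^ S * m) / s)}.ncard ≤
      p ^ (p ^ (S - 4) * m + D₀ * ((p ^ S * m) / n)) +
        m * p ^ m * p ^ ((p ^ S * m) / (if p = 2 then 3 else 2))

/-- The images of a word on the levels. -/
def Img (p : ℕ) [Fact p.Prime] (F : Type) [Field F] [Algebra (ZMod p) F] (w : List (Atom p))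
    (D : ℕ) : Set F :=
  ev (p := p) w '' OO p F D ∩ OO p F D

/-- `w` is an element of `S` with minimal images. -/
def IsMinW (p : ℕ) [Fact p.Prime] (F : Type) [Field F] [Algebra (ZMod p) F] (r : ℕ)
    (DD : Finset ℕ) (w : List (Atom p)) : Prop :=
  InS p F r DD w ∧ ∀ w', InS p F r DD w' →
    ∑ D ∈ DD, (Img p F w D).ncard ≤ ∑ D ∈ DD, (Img p F w' D).ncard

/-- **Me.** (200 lines)  The merging argument.

*Proof.*  (1) For `v, w ∈ S` and `D ∈ DD`: `Img (v ++ w) D = ev v '' (Img w D) ∩ O_D`: if `y ∈ O_D` and `ev v (ev w y) ∈ O_D` then with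
`x = ev w y`, `dg x ∣ D` (`dg_ev`) and (`v ∈ S`) `dg x = D` or `r D ∣ dg x`, so `dg x = D`.  Hence
`#Img (v ++ w) D ≤ #Img w D` (finite sets), with equality only if `ev v` is injective on `Img w D` and maps it
into `O_D`.  If `w` is minimal, the sum over `D` cannot decrease, so for every `v ∈ S` and `D ∈ DD`: equality, `ev v` is injective on
`Img w D`, and `v ++ w` is minimal too.
(2) Let `i₀ ∈ Img w D`.  Transitivity: `g` with `BS g`, `ev g i₀ = z`.  `w₁ = g ++ w` is minimal, `z ∈ Img w₁ D`, and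
`#Img w₁ D = #Img w D`.  (3) Let `y ∈ Img w₁ D`, `y ≠ z`, `y ∉ Exc`.  `γ` with `BS γ`, `ev γ z = z`, `ev γ y = y₁`.  The word
`v = [pow r, tr 1] ++ γ` is in `S` (*SS*), `ev v z = (z + 1)^r = (y₁ + 1)^r = ev v y`: `ev v` is not injective on `Img w₁ D`,
a contradiction.  So `Img w₁ D ⊆ {z} ∪ (Exc ∩ O_D)`.  If `Img w D` is empty the claim is trivial.
*Uses*: SS. -/
def KStmtMe : Prop :=
  ∀ (p : ℕ) [Fact p.Prime] (F : Type) [Field F] [Algebra (ZMod p) F] [IsAlgClosed F]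
    [Algebra.IsAlgebraic (ZMod p) F], FactsA p F → FactsB p F → ∀ (r i : ℕ) (DD : Finset ℕ),
    r.Prime → r ≠ p → Lev p r i DD → ∀ w, IsMinW p F r DD w → ∀ D ∈ DD,
    (∀ y y' : F, dg p y = D → dg p y' = D → Eqv p F r DD ∅ y y') →
    ∀ (z y₁ : F), dg p z = D → dg p y₁ = D → y₁ ≠ z → (y₁ + 1) ^ r = (z + 1) ^ r →
    ∀ Exc : Set F, (∀ y : F, dg p y = D → y ∉ Exc → Eqv p F r DD {z} y y₁) →
    (Img p F w D).ncard ≤ 1 + (Exc ∩ OO p F D).ncard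

/-- **Av.** (200 lines)  Averaging.

*Proof.*  `X = {y | dg y ∈ DD}` is finite.  Let `GG` be the set of the permutations of `X` induced by words `w` with `BS w`: it is a
subgroup of `Equiv.Perm X` (*SS*: contains `1` and is closed under composition; finite, so closed under inverses)
and transitive on `O_D` for every `D ∈ DD`.  For `a, b ∈ O_D` the number of `σ ∈ GG` with `σ a = b` is `#GG / #O_D` (orbit-stabilizer;
or: it does not depend on `b`, and the sum over `b ∈ O_D` is `#GG`).  So the number of pairs `(σ, a)` with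
`a ∈ I ∩ X`, `σ a ∈ B` is `∑_{D ∈ DD} #(I ∩ O_D) #(B ∩ O_D) #GG / #O_D`, and each term is `< #GG / #DD` by hypothesis: the sum
is `< #GG` (if `DD` is empty the claim is trivial).  So some `σ` has no such `a`.
*Uses*: SS. -/
def KStmtAv : Prop :=
  ∀ (p : ℕ) [Fact p.Prime] (F : Type) [Field F] [Algebra (ZMod p) F] [IsAlgClosed F]
    [Algebra.IsAlgebraic (ZMod p) F], FactsA p F → FactsB p F → ∀ (r i : ℕ) (DD : Finset ℕ),
    r.Prime → r ≠ p → Lev p r i DD →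
    (∀ D ∈ DD, ∀ y y' : F, dg p y = D → dg p y' = D → Eqv p F r DD ∅ y y') →
    ∀ I B : Set F,
    (∀ D ∈ DD, DD.card * ((I ∩ OO p F D).ncard * (B ∩ OO p F D).ncard) < (OO p F D).ncard) →
    ∃ w, BS p F r DD w ∧ ∀ y : F, dg p y ∈ DD → y ∈ I → ev w y ∉ B

/-- **Kls.** (200 lines)  The main lemma: killing a small set.

*Proof.*  `S` contains `[]`, so there is a minimal `w` (`IsMinW`, well-foundedness of `ℕ`).  For `D ∈ DD` let `m, S, D₀, n` be the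
data.  *Tr*: transitivity on `O_D`.  *ZZ*: `P, P', z, y₁`.  `Exc` = the set of *Ex*; *Pa*: every `y ∈ O_D` not in `Exc` satisfies
`Eqv {z} y y₁`.  *Me*, *Ex*: `#Img w D ≤ 1 + E`, `E` the bound in the statement.  *Av* with `I = ⋃_D Img w D` (so
`I ∩ O_D = Img w D`) and `B`: `g` with `BS g` and `ev g y ∉ B` for `y ∈ I`.  The word `g ++ w`: let `ev g (ev w y) = b ∈ B`,
`D = dg b ∈ DD`.  If `dg y = D`: `x = ev w y` has `dg x ∣ D`, and `dg (ev g x) = D`, so `dg x = D` (`dg_ev`: `D ∣ dg x`), so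
`x ∈ Img w D ⊆ I` and `ev g x ∉ B`, a contradiction.  `g ++ w ∈ S` (*SS*), so `r D ∣ dg y`.
*Uses*: SS, Tr, ZZ, Pa, Ex, Me, Av. -/
def KStmtKls : Prop :=
  ∀ (p : ℕ) [Fact p.Prime] (F : Type) [Field F] [Algebra (ZMod p) F] [IsAlgClosed F]
    [Algebra.IsAlgebraic (ZMod p) F], FactsA p F → FactsB p F → ∀ (r i : ℕ) (DD : Finset ℕ),
    r.Prime → r ≠ p → Lev p r i DD → ∀ B : Set F, (∀ b ∈ B, dg p b ∈ DD) →
    (∀ D ∈ DD, ∃ m S D₀ n : ℕ, D = p ^ S * m ∧ Ripe p m S ∧ 0 < D₀ ∧ r ∣ p ^ D₀ - 1 ∧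
      n ∣ p ^ D₀ - 1 ∧ 32 * D₀ ≤ n ∧ n * D₀ ∣ D ∧ 4 * D ^ 2 < p ^ (D / n) ∧
      DD.card * ((1 + (p ^ (p ^ (S - 4) * m + D₀ * (D / n)) +
        m * p ^ m * p ^ (D / (if p = 2 then 3 else 2)))) * (B ∩ OO p F D).ncard) <
        (OO p F D).ncard) →
    Mul p r B

/-! ## The steps of the proof of Theorem P -/

/-- **Trk.** (100 lines)  Formal properties of `Mul`.

*Proof.*  (1) `w` for `B₁`; take `w₁ ++ w`.  For `y` with `ev w₁ (ev w y) ∈ B`, `y' = ev w y`: if `r * dg (ev w₁ y') ∣ dg y'`, done since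
`dg y' ∣ dg y`.  Otherwise `y' ∈ B₁`, so `r * dg y' ∣ dg y` and `dg (ev w₁ y') ∣ dg y'`.
(2) `w₁` for `s₁` and `B`; `B' = {y | ev w₁ y ∈ B}` is finite (`fib`) and nonrational (`rat_ev`); `w₂` for `s₂` and `B'`; `w₁ ++ w₂`:
`s₂ * dg y' ∣ dg y`, `s₁ * dg (ev w₁ y') ∣ dg y'`. -/
def KStmtTrk : Prop :=
  ∀ (p : ℕ) [Fact p.Prime] (F : Type) [Field F] [Algebra (ZMod p) F] [IsAlgClosed F]
    [Algebra.IsAlgebraic (ZMod p) F], FactsA p F → FactsB p F →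
    (∀ (r : ℕ) (w₁ : List (Atom p)) (B B₁ : Set F), OkW w₁ →
      (∀ y, ev w₁ y ∈ B → ¬ r * dg p (ev w₁ y) ∣ dg p y → y ∈ B₁) → Mul p r B₁ → Mul p r B) ∧
    ∀ s₁ s₂ : ℕ, (∀ B : Set F, B.Finite → (∀ b ∈ B, b ^ p ≠ b) → Mul p s₁ B) →
      (∀ B : Set F, B.Finite → (∀ b ∈ B, b ^ p ≠ b) → Mul p s₂ B) →
      ∀ B : Set F, B.Finite → (∀ b ∈ B, b ^ p ≠ b) → Mul p (s₁ * s₂) B

/-- **St1.** (150 lines)  The additive step.

*Proof.*  `A = p^(S-1) M`, `l = X^A - 1`, `l(0) = -1`.  Let `x = lin p l y ∈ B`, `x ≠ 0` (nonrational), `dg x ∣ A`.  `lin p (l^2) y = lin p l x = 0`, so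
`lin p (l^p) y = 0`, `l^p = X^(pA) - 1` (characteristic `p`), so `dg y ∣ p A = p^S M`, and `¬ dg y ∣ A` (`lin p l y ≠ 0`).  So
`dg y = p^S m` with `m ∣ M`: `dg y = p^a m` with `a ≤ S`, `m ∣ M` (`Nat.dvd_mul`), and if `a ≤ S - 1` then `dg y ∣ A`.
`dg x ∣ dg y` (`dg_lin`), `dg x ∣ p^(S-1) M`: the exponent of `p` in `dg x` is at most `S - 1`, so `p dg x ∣ dg y` (`dg x = p^b m'`, `b ≤ S-1`,
`m' ∣ M` prime to `p`, `m' ∣ p^S m` so `m' ∣ m`).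
Count: `D = dg y = dg y'`, `lin p l y = lin p l y' = x`: `v = y - y'` is in `K_A ∩ K_D = K_{gcd(A, D)}`; if the set is not empty, `D = p^S m`,
`m ∣ M`, `gcd (p^(S-1) M, p^S m) = p^(S-1) m = D/p`.  So at most `p^(D/p)` elements (`cardK`, `D/p > 0`). -/
def KStmtSt1 : Prop :=
  ∀ (p : ℕ) [Fact p.Prime] (F : Type) [Field F] [Algebra (ZMod p) F] [IsAlgClosed F]
    [Algebra.IsAlgebraic (ZMod p) F], FactsA p F → FactsB p F → ∀ (S M : ℕ), 1 ≤ S → 0 < M →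
    M.Coprime p → ∀ B : Set F, (∀ b ∈ B, b ^ p ≠ b) → (∀ b ∈ B, dg p b ∣ p ^ (S - 1) * M) →
    (X ^ (p ^ (S - 1) * M) - 1 : (ZMod p)[X]).coeff 0 ≠ 0 ∧
    (∀ y : F, lin p (X ^ (p ^ (S - 1) * M) - 1) y ∈ B →
      (∃ m, m ∣ M ∧ dg p y = p ^ S * m) ∧
        dg p (lin p (X ^ (p ^ (S - 1) * M) - 1) y) ∣ dg p y ∧
        p * dg p (lin p (X ^ (p ^ (S - 1) * M) - 1) y) ∣ dg p y) ∧
    ∀ x ∈ B, ∀ D : ℕ,
      {y : F | lin p (X ^ (p ^ (S - 1) * M) - 1) y = x ∧ dg p y = D}.ncard ≤ p ^ (D / p)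

/-- **St2.** (150 lines)  The elements of small order are avoided.

*Proof.*  `I = {x | orderOf x < 32 (p-1) dg x}`.  `#(I ∩ O_D) ≤ (32 p D)^2`: every `x ∈ O_D`, `x ≠ 0` (`D ≥ 2`), has positive
order `o` (it is a root of unity: `x^(p^D - 1) = 1`), and there are at most `o` elements with `x^o = 1`; so at most
`∑_{o < 32 (p-1) D} o ≤ (32 p D)^2`.  *Av* (with the transitivity hypothesis) for `I` and `B`.
*Uses*: Av. -/
def KStmtSt2 : Prop :=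
  ∀ (p : ℕ) [Fact p.Prime] (F : Type) [Field F] [Algebra (ZMod p) F] [IsAlgClosed F]
    [Algebra.IsAlgebraic (ZMod p) F], FactsA p F → FactsB p F → ∀ (r i : ℕ) (DD : Finset ℕ),
    r.Prime → r ≠ p → Lev p r i DD →
    (∀ D ∈ DD, ∀ y y' : F, dg p y = D → dg p y' = D → Eqv p F r DD ∅ y y') →
    ∀ B : Set F,
    (∀ D ∈ DD, DD.card * ((32 * p * D) ^ 2 * (B ∩ OO p F D).ncard) < (OO p F D).ncard) →
    ∃ w, BS p F r DD w ∧ ∀ x : F, dg p x ∈ DD → ev w x ∈ B →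
      32 * (p - 1) * dg p x ≤ orderOf x

/-- **St3.** (150 lines)  The norm step.

*Proof.*  `(p^C - 1)/(p - 1) = ∑_{i<C} p^i ≡ 1` modulo `p` (`C > 0`): coprime to `p`.  `D = dg x`, `x ≠ 0`.
`y^(p^C) = y * y^(p^C - 1) = y x^(p-1) = ρ y`, `ρ = x^(p-1)`, `n = orderOf ρ`; `orderOf x ∣ (p-1) n`, so `n ≥ orderOf x / (p-1) ≥ 32 D` (`n > 0`: `x` is a root of
unity).  `ρ^(p^D - 1) = 1`: `n ∣ p^D - 1`.  `ρ^(p^C) = ρ` (`D ∣ C`), so `y^(p^(C j)) = ρ^j y`.  `D' = dg y`: `D' ∣ C j ↔ ρ^j = 1 ↔ n ∣ j` (`y ≠ 0`).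
With `G = gcd (D', C)`: `D' ∣ C j ↔ (D'/G) ∣ j`; so `D'/G = n`, `D' = n G`.  `D ∣ D'` (`dg_pow`) and `D ∣ C`, so `D ∣ G` and `n D ∣ D'`. -/
def KStmtSt3 : Prop :=
  ∀ (p : ℕ) [Fact p.Prime] (F : Type) [Field F] [Algebra (ZMod p) F] [IsAlgClosed F]
    [Algebra.IsAlgebraic (ZMod p) F], FactsA p F → ∀ (C : ℕ), 0 < C →
    ((p ^ C - 1) / (p - 1)).Coprime p ∧
    ∀ x y : F, x ≠ 0 → dg p x ∣ C → 32 * (p - 1) * dg p x ≤ orderOf x →
      y ^ ((p ^ C - 1) / (p - 1)) = x →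
      ∃ n : ℕ, n ∣ p ^ dg p x - 1 ∧ 32 * dg p x ≤ n ∧ n * dg p x ∣ dg p y

/-- **Gro.** (250 lines)  Growth.

*Proof.*  `D = p^S m ≥ p^S`, and `p^S → ∞`.  `Ripe`: `p^(S-4) > 2 p^4 A ≥` (exponent of `p^(p^4 m) (p^4 m) ≤ p^(2 p^4 m)`) for large `S`;
`32 m + 24 ≤ p^S m` as soon as `p^S ≥ 56`.  `4 D^2 < p^(D/n)`: `D ≤ A p^S`, `D/n ≥ p^S/A - 1`; `p^(p^S/A - 1)` grows faster than
`4 A^2 p^(2S)`.  Third: `D/p ≤ D/2`, so it is enough that `2 A^2 (32 p D)^2 < p^(D - D/p)`, `D - D/p ≥ D/2 ≥ p^S/2`.  Fourth: with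
`a = 2` (`p` odd) or `3` (`p = 2`): `p^(S-4) m = D/p^4 ≤ D/16`, so `p^(S-4) m + D/32 ≤ D/8 ≤ D/a`; and `D/a + D/p ≤ 5 D/6` (`p ≥ 3`: `1/2 + 1/3`;
`p = 2`: `1/3 + 1/2`; natural divisions, so `D/a + D/p ≤ (5 D)/6`).  `(1 + E) p^(D/p) ≤ (2 + A p^A) p^((5D)/6)`, and it is enough that
`2 A^2 (2 + A p^A) < p^(D - (5D)/6)`, `D - (5D)/6 ≥ D/6`, which holds for large `S`.  Use: for all naturals `c, d` there is `x₀` with
`c x^d < 2^x` for `x ≥ x₀`. -/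
def KStmtGro : Prop :=
  ∀ (p : ℕ) [Fact p.Prime] (A : ℕ), ∃ S₀ : ℕ, ∀ S, S₀ ≤ S → ∀ m n b E : ℕ, 0 < m → m ≤ A →
    m.Coprime p → 0 < n → n ≤ A → b ≤ A →
    E ≤ p ^ (p ^ (S - 4) * m + (p ^ S * m) / 32) +
      m * p ^ m * p ^ ((p ^ S * m) / (if p = 2 then 3 else 2)) →
    Ripe p m S ∧ 4 * (p ^ S * m) ^ 2 < p ^ ((p ^ S * m) / n) ∧
    2 * (A * ((32 * p * (p ^ S * m)) ^ 2 * (b * p ^ ((p ^ S * m) / p)))) < p ^ (p ^ S * m) ∧
    2 * (A * ((1 + E) * (b * p ^ ((p ^ S * m) / p)))) < p ^ (p ^ S * m)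

/-- **Pp.** (80 lines)  Theorem P for `r = p`.

*Proof.*  `B` finite; `S, M` with `dg b ∣ p^(S-1) M`, `p ∤ M`, for all `b ∈ B` (write the product of the degrees as `p^s M`, `S = s + 1`).
*St1*: the word `[add (X^(p^(S-1) M) - 1)]`.
*Uses*: St1. -/
def KStmtPp : Prop :=
  ∀ (p : ℕ) [Fact p.Prime] (F : Type) [Field F] [Algebra (ZMod p) F] [IsAlgClosed F]
    [Algebra.IsAlgebraic (ZMod p) F], FactsA p F → FactsB p F → ∀ B : Set F, B.Finite →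
    (∀ b ∈ B, b ^ p ≠ b) → Mul p p B

/-- **PrA.** (250 lines)  First half of the pipeline: it is enough to treat sets with property (Q3).

*Proof.*  Let `B` be finite and nonrational.  STEP 0: `w_a` with `(r-1) dg (ev w_a y) ∣ dg y` for `ev w_a y ∈ B` (hypothesis); by *Trk*
(1) it is enough to treat `{y | ev w_a y ∈ B}` (finite by `fib`, nonrational by `rat_ev`): we may assume `(r - 1) ∣ dg b` for
`b ∈ B`.  If `B = ∅`: trivial (`w = []`).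
STEP 1: write `∏_{b ∈ B} dg b = p^s M`, `p ∤ M`.  `A ≥ M, #B, 1`.  `S ≥ s + 1, S₀` (*Gro* for `A`, used with `n = 1`, `b = #B`, `E = 0`).
`w₁ = [add (X^(p^(S-1) M) - 1)]`; `B₁ = {y | ev w₁ y ∈ B}`.  `DD = {p^S m | m ∣ M, (r-1) ∣ p^S m}` (`Finset`), `#DD ≤ M ≤ A`.  *St1*: the
elements of `B₁` have degree in `DD` (`(r-1) ∣ dg (ev w₁ y) ∣ dg y`), and `#(B₁ ∩ O_D) ≤ #B p^(D/p)`.  `Lev p r i DD` with `i` = the maximum of `DD`: `D < r^(i+1)`,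
`r ∣ p^(r-1) - 1 ∣ p^D - 1` (Fermat), `D ≥ 2` (`S ≥ 5`).  *Tr* gives transitivity on all `O_D`, `D ∈ DD` (*Gro*: `Ripe p m S`).
STEP 2: *St2* for `B₁`: `#DD ((32 p D)^2 #(B₁ ∩ O_D)) < #O_D` by *Gro* (third) and `cardO`.  `w₂`; `B₂ = {x | ev w₂ x ∈ B₁, dg x = dg (ev w₂ x)}`;
finite (`fib`), `x ∈ B₂`: `dg x = D ∈ DD`, `32 (p-1) dg x ≤ orderOf x`, `(r-1) ∣ dg x`.
STEP 3: `C = ∏_{D ∈ DD} D`, `w₃ = [pow ((p^C - 1)/(p-1))]`, `B₃ = {y | ev w₃ y ∈ B₂}`: finite, nonrational; *St3*: for `y ∈ B₃` the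
property (Q3) holds with `D₀ = dg (ev w₃ y)`.
By hypothesis `Mul p r B₃`; *Trk* (1) three times (for `w₃`; for `w₂`: if `ev w₂ y ∈ B₁` and not `r dg (ev w₂ y) ∣ dg y` then, as
`w₂ ∈ S`, `dg y = dg (ev w₂ y)`, so `y ∈ B₂`; for `w₁`).
*Uses*: Trk, St1, St2, St3, Gro, Tr. -/
def KStmtPrA : Prop :=
  ∀ (p : ℕ) [Fact p.Prime] (F : Type) [Field F] [Algebra (ZMod p) F] [IsAlgClosed F]
    [Algebra.IsAlgebraic (ZMod p) F], FactsA p F → FactsB p F → ∀ (r : ℕ), r.Prime → r ≠ p →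
    (∀ B : Set F, B.Finite → (∀ b ∈ B, b ^ p ≠ b) → Mul p (r - 1) B) →
    (∀ B : Set F, B.Finite → (∀ b ∈ B, b ^ p ≠ b) →
      (∀ b ∈ B, ∃ D₀ n : ℕ, 0 < D₀ ∧ (r - 1) ∣ D₀ ∧ n ∣ p ^ D₀ - 1 ∧ 32 * D₀ ≤ n ∧
        n * D₀ ∣ dg p b) → Mul p r B) →
    ∀ B : Set F, B.Finite → (∀ b ∈ B, b ^ p ≠ b) → Mul p r B

/-- **PrB.** (200 lines)  Second half of the pipeline: sets with the property (Q3).

*Proof.*  `B = ∅` is trivial.  For `b ∈ B` choose `D₀(b), n(b)`.  Write `∏_{b ∈ B} dg b = p^s M`, `p ∤ M`; `A ≥ M, #B, 1` and all `n(b)`; `S ≥ s + 1, S₀`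
(*Gro*).  `w₁ = [add (X^(p^(S-1) M) - 1)]`, `B₁ = {y | ev w₁ y ∈ B}`; `DD = {p^S m | m ∣ M, ∃ b ∈ B, dg b ∣ p^S m}`, `#DD ≤ A`.  *St1*: the degrees of the
elements of `B₁` are in `DD`, `#(B₁ ∩ O_D) ≤ #B p^(D/p)`.  `Lev p r i DD` as in *PrA* (`(r-1) ∣ D₀(b) ∣ dg b ∣ D`).  For `D = p^S m ∈ DD` take `b` with
`dg b ∣ D` and `D₀ = D₀(b)`, `n = n(b)`: `n D₀ ∣ D`, `r ∣ p^D₀ - 1` (Fermat), `4 D^2 < p^(D/n)` (*Gro*), and
`E = p^(p^(S-4) m + D₀ (D/n)) + m p^m p^(D/a)` satisfies the bound of *Gro* because `D₀ (D/n) ≤ D/32` (`32 D₀ (D/n) ≤ n (D/n) = D`).  *Gro* (fourth),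
`#DD ≤ A`, `cardO`: `#DD ((1+E) #(B₁ ∩ O_D)) < #O_D`.  *Kls*: `Mul p r B₁`; *Trk* (1).
*Uses*: Trk, St1, Gro, Kls. -/
def KStmtPrB : Prop :=
  ∀ (p : ℕ) [Fact p.Prime] (F : Type) [Field F] [Algebra (ZMod p) F] [IsAlgClosed F]
    [Algebra.IsAlgebraic (ZMod p) F], FactsA p F → FactsB p F → ∀ (r : ℕ), r.Prime → r ≠ p →
    ∀ B : Set F, B.Finite → (∀ b ∈ B, b ^ p ≠ b) →
      (∀ b ∈ B, ∃ D₀ n : ℕ, 0 < D₀ ∧ (r - 1) ∣ D₀ ∧ n ∣ p ^ D₀ - 1 ∧ 32 * D₀ ≤ n ∧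
        n * D₀ ∣ dg p b) → Mul p r B

/-- **PP.** (100 lines)  Theorem P.

*Proof.*  Strong induction on `r`.  `r = p`: *Pp*.  `r ≠ p`: every prime factor of `r - 1` is smaller than `r`, so `Mul p s B` is known for
all primes `s ∣ r - 1` and all finite nonrational `B`; by *Trk* (2) and induction on the number of prime factors
(`Nat.recOnMul` or `induction_on_primes`; `Mul p 1 B` holds with `w = []`): `Mul p (r - 1) B` for all such `B`.  *PrA*, *PrB*.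
*Uses*: BasA, BasB, Trk, Pp, PrA, PrB. -/
def KStmtPP : Prop := TheoremP

/-! ## Rational points and Lemma A -/

/-- **W0.** (250 lines)  A word which is ramified at all the rational points.

*Proof.*  The set `R` of the rational points of `Option F` (`none` and `some a`, `a ^ p = a`; the latter are the `some (algebraMap c)`) has `p + 1`
elements; `evP w` maps `R` to `R`.  For an admissible word `w` let `Z(w) = {y ∈ R | r ∣ multW w y}`.  CLAIM: if `Z(w) ≠ R` there is an admissible word `w'`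
with `#Z(w') > #Z(w)`; by induction the theorem follows.  Let `H` be the finite set of the words `μ` consisting of
`tr 1` and `inv` of length `≤ L`...: more precisely let `H` be the subgroup of `Equiv.Perm R` generated by the
permutations induced by `tr 1` and `inv`; every element of `H` is induced by a word in `tr 1`, `inv` (finite group), whose
multiplicities are `1`.  `H` is transitive on `R` (`tr 1` permutes the finite points cyclically, `inv` exchanges `none` and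
`some 0`).  For `μ ∈ H` let `w_μ = w ++ μ ++ [pow r]` (`μ` also denotes a word inducing it).  `multW w_μ y = multW w (μ(y^r)) * mult (pow r) y`.
`Z(w_μ)` contains `none`, `some 0` and all `y = some a`, `a ≠ 0` rational, with `μ (some (a^r)) ∈ Z(w)`.  Sum over `μ ∈ H`:
`∑_μ #{a ≠ 0 | μ(a^r) ∈ Z(w)} = ∑_{a ≠ 0} #{μ | μ (a^r) ∈ Z(w)} = (p-1) #H #Z(w) / (p+1)` (transitivity: for fixed points `x, z ∈ R`
the number of `μ` with `μ x = z` is `#H/(p+1)`).  So some `μ` has `#Z(w_μ) ≥ 2 + (p-1) #Z(w)/(p+1) > #Z(w)`, as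
`2 > 2 #Z(w)/(p+1)`. -/
def KStmtW0 : Prop :=
  ∀ (p : ℕ) [Fact p.Prime] (F : Type) [Field F] [Algebra (ZMod p) F] [IsAlgClosed F]
    [Algebra.IsAlgebraic (ZMod p) F], FactsA p F → FactsB p F → ∀ (r : ℕ), r.Prime → r ≠ p →
    ∃ w : List (Atom p), OkW w ∧ ∀ y : Option F, (∀ a : F, y = some a → a ^ p = a) →
      r ∣ multW w y

/-- **LA.** (150 lines)  Lemma A.

*Proof.*  ONE STEP: for every finite `B ⊆ Option F` there is an admissible `w` with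
`r * dgP (evP w y) ∣ multW w y * dgP y` for all `y` with `evP w y ∈ B`.  `w₀` from *W0*; `B' = {b : F | b^p ≠ b, evP w₀ (some b) ∈ B}` is
finite (`fibP`); `w₁` from *PP* for `B'`; `w = w₀ ++ w₁`.  Let `y' = evP w₁ y`.  If `y'` is `none` or `some a` with `a^p = a`:
`r ∣ multW w₀ y' ∣ multW w y` and `dgP (evP w y) ∣ dgP y` (`dg_evP`).  Otherwise `y' = some b`, `b ∈ B'`, and by `evP_nr` `y = some a`,
`ev w₁ a = b`: `r * dg b ∣ dg a` and `dgP (evP w₀ (some b)) ∣ dg b`.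
ITERATION: by induction on `k` there is `w` with `r^k * dgP (evP w y) ∣ multW w y * dgP y` if `evP w y ∈ B` (`w'` for `B`, `w''` for the finite set
`{y | evP w' y ∈ B}`).  `k = 2 N`: `r^(2N) ∣ multW w y * dgP y`, so `r^N` divides one of the factors (`Nat.Prime.pow_dvd_of_dvd_mul`-type:
if `r^N ∤ a` and `r^N ∤ b` then `r^(2N-1) ∤ a b`; for `N = 0` trivial).
*Uses*: BasA, BasB, W0, PP. -/
def KStmtLA : Prop := LemmaA

end MP7K
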