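import Pool.Agent.Lib.MP_7f581e_K.Defs2

/-!
# C33 (MP_7f581e_nt), Part II: base change

One Lean task for each `def XStmt : Prop` below: file `MP_7f581e_K/P2/X.lean`, import this file (and
files of `MP_7f581e_Z` named in the docstring), `theorem p2X : XStmt`; the statements under *Uses* are
hypotheses `(h : YStmt)` of the theorem; auxiliary lemmas in a namespace of their own
(`namespace P2X`).  Complete proofs are in the docstrings.  The theorems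
`MP7Z.br_cst, br_lvl, br_bel, br_abv, br_res, br_conj, br_kumR, br_gal, br_ram, ...` (file
`MP_7f581e_Z/BR/Main.lean`) prove `CstStmt, LvlStmt, BelStmt, ...` of `MP_7f581e_Z/BR/Spec.lean`; use them
directly (import `BR/Main`).

Notation of the docstrings: `𝔽 = Cst p Ω`, `geo` = automorphisms which fix `𝔽`, `K₀ = 𝔽(x)` =
`IntermediateField.adjoin (Cst p Ω) {x}`, val = `V.valuation`.

Useful lemmas: `MP7Z.val_const`, `MP7Z.val_lt_iff`, `MP7Z.dec_val` (`BR/ResT.lean`), `MP7Z.BC_isLevel`,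
`MP7Z.BC_stage` (`BR/BC.lean`), `MP7Z.Rot_mem_cst`, `MP7Z.Rot_pow_apply` (`CS/Rot.lean`), and the lemmas on
`lin` in `MP_7f581e_K/Lin.lean` (`MP7K.Lin.lin_eq_sum`, `eval_addP`, `addP_ne_zero`, ...).

The end results of Part II are `BaseW` and `StartW` (`MP_7f581e_K/DefsO.lean`), see `P2/Main.lean`.
-/

set_option autoImplicit false

namespace MP7K

open MP7Z Polynomial

/-! ## A. Atoms -/

/-- **Lin.** (80 lines)  `lin p l` is given by a polynomial with constant derivative.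

*Proof.*  `P = ∑ i ∈ range (l.natDegree + 1), C (l.coeff i) * X ^ (p ^ i)`.  The exponents `p ^ i` are
distinct, the largest is `p ^ l.natDegree` with coefficient `l.leadingCoeff ≠ 0`: degree and leading
coefficient.  Derivative: `derivative (X ^ (p ^ i)) = C (p ^ i) * X ^ _ = 0` for `i > 0` (characteristic
`p`), and `derivative (C (l.coeff 0) * X) = C (l.coeff 0)`.  `lin p l y = aeval (fr p E) l y =
∑ i, l.coeff i • (fr p E ^ i) y` (`Polynomial.aeval_eq_sum_range`, `LinearMap.sum_apply`), and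
`(fr p E ^ i) y = y ^ (p ^ i)` by induction.  The last claim: `σ (aeval y P) = aeval (σ y) P`
(`Polynomial.aeval_algHom_apply`). -/
def LinStmt : Prop :=
  ∀ (p : ℕ) [Fact p.Prime] (l : (ZMod p)[X]), l ≠ 0 → ∃ P : (ZMod p)[X],
    P.natDegree = p ^ l.natDegree ∧ P.leadingCoeff = l.leadingCoeff ∧
    derivative P = C (l.coeff 0) ∧
    (∀ (E : Type) [Field E] [Algebra (ZMod p) E] (y : E), lin p l y = aeval y P) ∧
    ∀ (E : Type) [Field E] [Algebra (ZMod p) E] (σ : E →ₐ[ZMod p] E) (y : E),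
      σ (lin p l y) = lin p l (σ y)

/-- **Stg.** (100 lines)  Points above `x` are stages.

*Proof.*  First for one atom: `a.ev z = x`, `a.Ok`.  (i) `x ∈ F₁ = adjoin (ZMod p) {z}`: clear for `tr`,
`inv`, `pow`; `add`: `x = aeval z P` (*Lin*; `l ≠ 0` because `l.coeff 0 ≠ 0`), which lies in the
subalgebra generated by `z`.  (ii) `z` is transcendental: otherwise every element of `F₁` is algebraic
over `ZMod p` (`IntermediateField.algebra_isAlgebraic_adjoin_simple` or: `F₁` is finite over `ZMod p`),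
also `x`.  (iii) `Ω` is separable over `adjoin (ZMod p) {x} ≤ F₁`, so over `F₁`: copy `BC_stage`
(`MP_7f581e_Z/BR/BC.lean`).  (iv) `γ z = z` implies `γ x = x`: `γ` commutes with `a.ev` (*Lin*, last claim,
for `add`).  For words: induction on `w`, generalizing `x`: `ev (a :: w) y = a.ev z`, `z = ev w y`.
*Uses*: Lin. -/
def StgStmt : Prop :=
  ∀ (p : ℕ) [Fact p.Prime] (Ω : Type) [Field Ω] [Algebra (ZMod p) Ω] (x : Ω), IsStage p x →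
    ∀ w : List (Atom p), OkW w → ∀ y : Ω, ev w y = x → IsStage p y ∧ Gx p y ≤ Gx p x

/-- **Ex.** (60 lines)  There are points above `x`.

*Proof.*  For one atom: `tr c`: `y = x - c`; `inv`: `y = x⁻¹`; `pow n`: `(n : Ω) ≠ 0` since `n` is prime to
`p` (`CharP Ω p`), `IsSepClosed.exists_pow_nat_eq`; `add l`: the polynomial `P.map _ - C x` has the
constant derivative `l.coeff 0 ≠ 0` (*Lin*), so it is separable (`Polynomial.separable_def`; a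
polynomial whose derivative is a unit is separable), and its degree is `p ^ l.natDegree > 0`:
`IsSepClosed.exists_root`.  For words: induction on `w`, generalizing `x`.
*Uses*: Lin. -/
def ExStmt : Prop :=
  ∀ (p : ℕ) [Fact p.Prime] (Ω : Type) [Field Ω] [Algebra (ZMod p) Ω] [IsSepClosed Ω],
    ∀ w : List (Atom p), OkW w → ∀ x : Ω, ∃ y : Ω, ev w y = x

/-- **Com.** (80 lines)  Commutators of geometric elements fix the points above `x`.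

*Proof.*  `tr c`: `y = x - c` is fixed by `γ` and `δ`; `inv`: `y = x⁻¹` as well.  `pow n` (`0 < n`, because `n`
is prime to `p`): `x ≠ 0`, `y ≠ 0`; `ζ = δ y / y`, `ζ ^ n = δ x / x = 1`, so `ζ` is algebraic over `ZMod p`,
so `ζ ∈ 𝔽` (`Rot_mem_cst`) and is fixed by `γ`; the same for `ξ = γ y / y`.
`γ (δ y) = γ (ζ y) = ζ ξ y = δ (γ y)`.  `add l`: `k = δ y - y`, `lin p l k = δ x - x = 0` (*Lin*: `δ` commutes
with `lin p l`, which is additive), so `k` is a root of `P ≠ 0`, algebraic over `ZMod p`, `k ∈ 𝔽` is fixed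
by `γ`; the same for `k' = γ y - y`; `γ (δ y) = y + k' + k = δ (γ y)`.
*Uses*: Lin. -/
def ComStmt : Prop :=
  ∀ (p : ℕ) [Fact p.Prime] (Ω : Type) [Field Ω] [Algebra (ZMod p) Ω] (x : Ω), IsStage p x →
    ∀ a : Atom p, a.Ok → ∀ y : Ω, a.ev y = x → ∀ γ ∈ Gx p x ⊓ geo p Ω, ∀ δ ∈ Gx p x ⊓ geo p Ω,
      γ (δ y) = δ (γ y)

/-! ## B. Inertia -/

/-- **InP.** (90 lines)  Inertia and `x = y ^ n` at a point `c ≠ 0`.

*Proof.*  `0 < n`.  `x ∈ V` (`x = (x - c) + c`), so `y ∈ V`, as `y ^ n ∈ V` (`KumR.pow_mem_iff` or: otherwise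
`y⁻¹ ∈ V` is a nonunit, ...).  *Res* (`br_res`), third claim: `b ∈ 𝔽` with `val (y - b) < 1`.
`y ^ n - b ^ n` is a multiple of `y - b` in `V`, so `val (x - b ^ n) < 1`, `val (c - b ^ n) < 1`, and
`c = b ^ n` because nonzero constants have valuation `1` (second claim of *Res*).  `b ≠ 0`.
Let `γ ∈ Gx p x`, `γ ∈ Inert p V`: `ζ = γ y / y`, `ζ ^ n = 1`, `ζ ∈ 𝔽`.  `val (γ y - b) < 1`
(`γ (y - b) = γ y - b`, `γ ∈ Dec p V`, `dec_val`), so `val ((ζ - 1) y) < 1` and `val y = 1` (`b ≠ 0`), so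
`val (ζ - 1) < 1`, `ζ = 1`. -/
def InPStmt : Prop :=
  ∀ (p : ℕ) [Fact p.Prime] (Ω : Type) [Field Ω] [Algebra (ZMod p) Ω] (x : Ω), IsStage p x →
    ∀ n : ℕ, n.Coprime p → ∀ y : Ω, y ^ n = x → ∀ V : ValuationSubring Ω, V ≠ ⊤ →
    ∀ c ∈ Cst p Ω, c ≠ 0 → V.valuation (x - c) < 1 →
    ∃ b ∈ Cst p Ω, b ^ n = c ∧ V.valuation (y - b) < 1 ∧ ∀ γ ∈ Gx p x ⊓ Inert p V, γ y = y

/-- **InL.** (120 lines)  Inertia and `x = l(F) y` at a finite point `c`.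

*Proof.*  `x ∈ V`.  `y ∈ V`: `y` is a root of the monic polynomial `C (l.leadingCoeff)⁻¹ * (P - C x)` with
coefficients in `V` (`MP7Z.Spl.mem_of_isIntegral`, or: if `val y > 1`, then the term `i = l.natDegree`
of `lin p l y = ∑ l_i y ^ (p ^ i)` has the largest valuation, `val x = (val y) ^ (p ^ l.natDegree) > 1`).
*Res*: `b ∈ 𝔽` with `val (y - b) < 1`; `lin p l (y - b) = ∑ l_i (y - b) ^ (p ^ i)` has valuation `< 1`, so
`val (c - lin p l b) < 1` and `c = lin p l b` (both are constants, nonzero constants have valuation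
`1`).  `γ ∈ Gx p x ⊓ Inert p V`: `k = γ y - y`, `lin p l k = γ x - x = 0`, so `k` is a root of `P ≠ 0`, hence
`k ∈ 𝔽`; `val (γ (y - b)) < 1` (`dec_val`) and `val (y - b) < 1`, so `val k < 1` and `k = 0`.
*Uses*: Lin. -/
def InLStmt : Prop :=
  ∀ (p : ℕ) [Fact p.Prime] (Ω : Type) [Field Ω] [Algebra (ZMod p) Ω] (x : Ω), IsStage p x →
    ∀ l : (ZMod p)[X], l.coeff 0 ≠ 0 → ∀ y : Ω, lin p l y = x → ∀ V : ValuationSubring Ω, V ≠ ⊤ →
    ∀ c ∈ Cst p Ω, V.valuation (x - c) < 1 →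
    ∃ b ∈ Cst p Ω, lin p l b = c ∧ V.valuation (y - b) < 1 ∧ ∀ γ ∈ Gx p x ⊓ Inert p V, γ y = y

/-- **InA.** (80 lines)  Inertia at a nonrational point fixes the points above `x`.

*Proof.*  The four atoms.  `tr t`: `b = c - t` (`t ^ p = t` in `𝔽_p`, so `b ^ p = c ^ p - t ≠ b`);
`y - b = x - c`; `γ y = γ x - t = y`.  `inv`: `c ≠ 0` (`0 ^ p = 0`), `b = c⁻¹`, `y = x⁻¹` (`x ≠ 0`),
`y - b = (c - x) / (x c)`, `val x = val c = 1`.  `pow n`: *InP* (`c ≠ 0`).  `add l`: *InL*.  `b` is not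
rational: if `b ^ p = b` then `c ^ p = c` because `a.ev` commutes with `y ↦ y ^ p` (`add`:
`(lin p l b) ^ p = lin p l (b ^ p)`: `lin p l = aeval (fr p Ω) l` commutes with `fr p Ω`).
*Uses*: InP, InL. -/
def InAStmt : Prop :=
  ∀ (p : ℕ) [Fact p.Prime] (Ω : Type) [Field Ω] [Algebra (ZMod p) Ω] (x : Ω), IsStage p x →
    ∀ a : Atom p, a.Ok → ∀ y : Ω, a.ev y = x → ∀ V : ValuationSubring Ω, V ≠ ⊤ →
    ∀ c ∈ Cst p Ω, c ^ p ≠ c → V.valuation (x - c) < 1 →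
    ∃ b ∈ Cst p Ω, b ^ p ≠ b ∧ V.valuation (y - b) < 1 ∧ ∀ γ ∈ Gx p x ⊓ Inert p V, γ y = y

/-- **Keep.** (50 lines)  Ramification at nonrational points is preserved.

*Proof.*  Induction on `w`, generalizing `x, ψ, c`.  For one atom, `a.ev z = x`: `V` over `c`, `γ`
with `ψ γ ∉ N`; *InA*: `b`, `V` is over `b` for `z`, `γ z = z`, so `γ ∈ Gx p z`.  (`IsStage p z` and
`Gx p z ≤ Gx p x` by *Stg* for the word `[a]`; `rs_rs`.)
*Uses*: Stg, InA. -/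
def KeepStmt : Prop :=
  ∀ (p : ℕ) [Fact p.Prime] (Ω : Type) [Field Ω] [Algebra (ZMod p) Ω] (x : Ω), IsStage p x →
    ∀ (G : Type) [Group G] (ψ : Gx p x →* G) (N : Subgroup G) (c : Ω), c ^ p ≠ c →
    RamAt p x ψ N (some c) → ∀ w : List (Atom p), OkW w → ∀ y : Ω, ev w y = x →
    ∀ h : Gx p y ≤ Gx p x, ∃ b : Ω, b ^ p ≠ b ∧ RamAt p y (rs h ψ) N (some b)

/-- **Grp.** (70 lines)  A proper subgroup containing all commutators is contained in a normal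
subgroup of prime index.

*Proof.*  `G` is finite, so `G'` is contained in a maximal subgroup `N` (`IsCoatomic (Subgroup G)`,
`eq_top_or_exists_le_coatom`).  `N` contains all commutators, so it is normal
(`g n g⁻¹ = (g n g⁻¹ n⁻¹) n`), and `G ⧸ N` is commutative.  A subgroup of `G ⧸ N` is trivial or everything
(its preimage contains `N`, a coatom), and `G ⧸ N` is nontrivial, so `IsSimpleGroup (G ⧸ N)`, and
`IsSimpleGroup.prime_card`; `N.index = Nat.card (G ⧸ N)`. -/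
def GrpStmt : Prop :=
  ∀ (G : Type) [Group G] [Finite G] (G' : Subgroup G), G' ≠ ⊤ →
    (∀ g h : G, g * h * g⁻¹ * h⁻¹ ∈ G') → ∃ N : Subgroup G, N.Normal ∧ N.index.Prime ∧ G' ≤ N

/-- **RDW** (II.1). (120 lines)  (RD) is preserved by all words.

*Proof.*  Induction on `w`, generalizing `x, ψ` (`rs_self`, `rs_rs`); so let `a.ev z = x`, `a.Ok`,
`h : Gx p z ≤ Gx p x` (*Stg* for `[a]`), `ψ' = rs h ψ`.  `stage`: *Stg*.  `fin`: the same finite set.  `ram`: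
*Keep* for the word `[a]`.  `reg`: `G' = {g | ∃ γ ∈ Gx p z ⊓ geo, ψ γ = g}`, a subgroup of `G`.  For
`g, h ∈ G` choose `γ, δ ∈ Gx p x ⊓ geo` with `ψ γ = g`, `ψ δ = h`; `κ = γ δ γ⁻¹ δ⁻¹` is in
`Gx p x ⊓ geo`, and `κ z = z`, because `γ⁻¹ (δ⁻¹ z) = δ⁻¹ (γ⁻¹ z)` (*Com*).  So `κ ∈ Gx p z` and
`g h g⁻¹ h⁻¹ = ψ κ ∈ G'`.  If `G' ≠ ⊤`, let `N` be as in *Grp*; by `ram` for `ψ` there are a nonrational
`c`, `V` over `c` and `γ ∈ Gx p x ⊓ Inert p V` with `ψ γ ∉ N`.  By *InA* `γ z = z`, so `γ ∈ Gx p z ⊓ geo`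
(`Inert p V ≤ geo`) and `ψ γ ∈ G' ≤ N`, a contradiction.
*Uses*: Stg, Com, InA, Keep, Grp. -/
def RDWStmt : Prop :=
  ∀ (p : ℕ) [Fact p.Prime] (Ω : Type) [Field Ω] [Algebra (ZMod p) Ω] (x : Ω)
    (G : Type) [Group G] [Finite G] (ψ : Gx p x →* G), RD p x ψ →
    ∀ w : List (Atom p), OkW w → ∀ y : Ω, ev w y = x → ∀ h : Gx p y ≤ Gx p x, RD p y (rs h ψ)

/-! ## C. Making the ramification nonrational -/

/-- **PowS.** (60 lines)  `x = z ^ m` with `m` prime to `p · |G|` preserves surjectivity.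

*Proof.*  `stage`: `BC_stage`; `fin`: the same finite set.  `reg`: let `g ∈ G`; as `m` is prime to `|G|`,
`g = g₁ ^ m` for some `g₁` (`powCoprime`).  Let `γ ∈ Gx p x ⊓ geo`, `ψ γ = g₁`.  `γ z = ζ z` with
`ζ ^ m = 1`, `ζ ∈ 𝔽`, `γ ζ = ζ`, so `γ ^ m z = ζ ^ m z = z` (`Rot_pow_apply`, `Rot_mem_cst`) and `γ ^ m ∈ Gx p z ⊓ geo`,
`ψ (γ ^ m) = g`. -/
def PowSStmt : Prop :=
  ∀ (p : ℕ) [Fact p.Prime] (Ω : Type) [Field Ω] [Algebra (ZMod p) Ω] (x : Ω)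
    (G : Type) [Group G] [Finite G] (ψ : Gx p x →* G), Rz p x ψ → ∀ m : ℕ, m.Coprime p →
    m.Coprime (Nat.card G) → ∀ z : Ω, z ^ m = x → ∀ h : Gx p z ≤ Gx p x, Rz p z (rs h ψ)

/-- **PowO.** (80 lines)  `x = z ^ m` and ramification at the points `0` and infinity.

*Proof.*  Let `V` be over `c`.  `c = none`: `x ∉ V`, so `z ∉ V` (`z ^ m = x`).  `c = some 0`: `val x < 1`, so
`val z < 1` (`0 < m`).  `γ ∈ Gx p x`, `γ ∈ Inert p V`, `ψ γ ∉ N`: as in *PowS* `γ ^ m ∈ Gx p z` (`γ` fixes `𝔽`),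
`γ ^ m ∈ Inert p V`, and `ψ (γ ^ m) = (ψ γ) ^ m ∉ N`: the image of `ψ γ` in `G ⧸ N` is killed by
`N.index` (`Subgroup.pow_index_mem`), which is prime to `m`; if it is killed by `m` it is trivial.  (`z ≠ 0` because
`x ≠ 0`: `x` is transcendental.) -/
def PowOStmt : Prop :=
  ∀ (p : ℕ) [Fact p.Prime] (Ω : Type) [Field Ω] [Algebra (ZMod p) Ω] (x : Ω), IsStage p x →
    ∀ (G : Type) [Group G] (ψ : Gx p x →* G) (N : Subgroup G), N.Normal → ∀ m : ℕ, m.Coprime p →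
    m.Coprime N.index → ∀ z : Ω, z ^ m = x → ∀ h : Gx p z ≤ Gx p x,
    ∀ c : Option Ω, c = none ∨ c = some 0 → RamAt p x ψ N c → RamAt p z (rs h ψ) N c

/-- **RotM.** (120 lines)  Geometric elements rotate the roots of `x`.

*Proof.*  First `m = ℓ` prime: this is the second half of the proof of `ctRot` (`MP_7f581e_Z/CS/Rot.lean`):
`K₀ = 𝔽(x)`, `v` its place with `v.pord x = 1` (`exists_place_zero`), `V` above `v` (`br_abv`), `br_kumR`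
with `z = x`, `Z = z`, `ζ` gives `γ ∈ Γ_{K₀} ⊓ Dec p V` with `γ z = ζ z`; elements of `Γ_{K₀}` are in
`Gx p x ⊓ geo`.  In general strong induction on `m` (for all `x, z, ζ`): `m = 1`: `ζ = 1`, `δ = 1`.  `m > 1`:
`ℓ` a prime divisor, `m = ℓ m'`, `z' = z ^ m'`, `z' ^ ℓ = x`, `(ζ ^ m') ^ ℓ = 1`: there is
`δ₁ ∈ Gx p x ⊓ geo` with `δ₁ z' = ζ ^ m' * z'`.  `δ₁ z = ζ₁ z`, `ζ₁ ^ m' = ζ ^ m'` (`z ≠ 0`).  Induction for
`z'`, `m'`, `z`, `ζ / ζ₁` (`IsStage p z'` by `BC_stage`): `δ₂ ∈ Gx p z' ⊓ geo` with `δ₂ z = (ζ / ζ₁) z`.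
`δ = δ₂ δ₁` fixes `x` (`δ₂` fixes `z'`, so `x`), and `δ z = δ₂ (ζ₁ z) = ζ₁ (ζ / ζ₁) z = ζ z` (`ζ₁` is a
constant: `ζ₁ ^ m = (δ₁ z / z) ^ m = δ₁ x / x = 1`). -/
def RotMStmt : Prop :=
  ∀ (p : ℕ) [Fact p.Prime] (Ω : Type) [Field Ω] [Algebra (ZMod p) Ω] (m : ℕ), m.Coprime p →
    ∀ x : Ω, IsStage p x → ∀ z : Ω, z ^ m = x → ∀ ζ : Ω, ζ ^ m = 1 →
    ∃ δ ∈ Gx p x ⊓ geo p Ω, δ z = ζ * z

/-- **PowR.** (120 lines)  `x = z ^ m` makes the ramification at points `c ≠ 0` nonrational.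

*Proof.*  `V` over `c ≠ 0`, `γ ∈ Gx p x`, `γ ∈ Inert p V`, `ψ γ ∉ N`.  *InP*: `b₀ ∈ 𝔽`, `b₀ ^ m = c`,
`val (z - b₀) < 1`, `γ z = z`.  If `b₀ ^ p ≠ b₀` take `b = b₀`, `V`, `γ`.  Otherwise choose `ζ ∈ 𝔽` with
`ζ ^ m = 1`, `ζ ^ p ≠ ζ`: a primitive `m`-th root of unity (`𝔽` is algebraically closed, `m ≠ 0` in `𝔽`:
`HasEnoughRootsOfUnity`); if `ζ ^ p = ζ` then `ζ ^ (p - 1) = 1`, `m ∣ p - 1`, `m ≤ p - 1` (`p - 1 > 0`), but
`p ≤ m`.  `b = ζ b₀` is not rational (`b₀ ≠ 0`).  *RotM*: `δ ∈ Gx p x ⊓ geo`, `δ z = ζ z`; hence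
`δ z ∈ V` has the residue `b`.  Let `V' = V.comap δ` (`f ∈ V' ↔ δ f ∈ V`), `V' ≠ ⊤`.
`V'.valuation (z - b) < 1`: this means `z - b = 0` or `(z - b)⁻¹ ∉ V'` (`val_lt_iff`), i.e. `(δ z - b)⁻¹ ∉ V`,
i.e. `val (ζ z - ζ b₀) < 1`.  `γ' = δ⁻¹ γ δ`: in `Gx p x`; in `geo`; in `Dec p V'`:
`γ' f ∈ V' ↔ γ (δ f) ∈ V ↔ δ f ∈ V ↔ f ∈ V'`; `γ' z = δ⁻¹ (γ (ζ z)) = δ⁻¹ (ζ z) = z`, so `γ' ∈ Gx p z`; and
`ψ γ' = (ψ δ)⁻¹ (ψ γ) (ψ δ) ∉ N` (`N` is normal).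
*Uses*: InP, RotM. -/
def PowRStmt : Prop :=
  ∀ (p : ℕ) [Fact p.Prime] (Ω : Type) [Field Ω] [Algebra (ZMod p) Ω] (x : Ω), IsStage p x →
    ∀ (G : Type) [Group G] (ψ : Gx p x →* G) (N : Subgroup G), N.Normal → ∀ m : ℕ, m.Coprime p →
    p ≤ m → ∀ z : Ω, z ^ m = x → ∀ h : Gx p z ≤ Gx p x,
    ∀ c : Ω, c ≠ 0 → RamAt p x ψ N (some c) → ∃ b : Ω, b ^ p ≠ b ∧ RamAt p z (rs h ψ) N (some b)

/-- **Mob.** (80 lines)  Translations and inversion.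

*Proof.*  `Gx p y = Gx p x` (as sets of automorphisms) in all the cases, so the same `V` and `γ` can be
used.  `tr 1`: `y - (c - 1) = x - c`; `x ∉ V` iff `y ∉ V`.  `inv`: `y = x⁻¹`; `x ∉ V` means `val x⁻¹ < 1`.
`Rz`: `IsStage p y` by *Stg* for `[.tr 1]`, `[.inv]`; `reg`: an element of `Gx p x` is in `Gx p y`.
*Uses*: Stg. -/
def MobStmt : Prop :=
  ∀ (p : ℕ) [Fact p.Prime] (Ω : Type) [Field Ω] [Algebra (ZMod p) Ω] (x : Ω), IsStage p x →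
    ∀ (G : Type) [Group G] (ψ : Gx p x →* G) (y : Ω) (h : Gx p y ≤ Gx p x),
    (y + 1 = x ∨ y⁻¹ = x → Rz p x ψ → Rz p y (rs h ψ)) ∧ ∀ N : Subgroup G,
    (y + 1 = x → ∀ c : Ω, RamAt p x ψ N (some c) → RamAt p y (rs h ψ) N (some (c - 1))) ∧
    (y + 1 = x → RamAt p x ψ N none → RamAt p y (rs h ψ) N none) ∧
    (y⁻¹ = x → RamAt p x ψ N none → RamAt p y (rs h ψ) N (some 0))

/-- **Six.** (120 lines)  The word `[pow m, tr 1, pow m, inv, tr 1, pow m]`.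

*Proof.*  `m = p * Nat.card G + 1`: prime to `p` and to `Nat.card G`, `p ≤ m`; prime to `N.index` for all `N`
(`N.index ∣ Nat.card G`).  `w = [pow m, tr 1, pow m, inv, tr 1, pow m]`, `OkW w`; *Ex*: `y = z₆` with
`ev w y = x`; `z₅ = z₆ ^ m`, `z₄ = z₅ + 1`, `z₃ = z₄⁻¹`, `z₂ = z₃ ^ m`, `z₁ = z₂ + 1`, `x = z₁ ^ m`.
(Here `z₁ ^ m = x`, `z₂ + 1 = z₁`, `z₃ ^ m = z₂`, `z₄⁻¹ = z₃`, `z₅ + 1 = z₄`, `z₆ ^ m = z₅`.)  Stages and
`Gx p z₆ ≤ Gx p z₅ ≤ ... ≤ Gx p x` by *Stg* for one-letter words.  `Rz` is preserved in each step (*PowS*,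
*Mob*).  Let `N` be normal of prime index, `RamAt p x ψ N c`.
(1) `c = some c₀`, `c₀ ≠ 0`: *PowR* gives a nonrational point for `z₁`, and *Keep* for the word
`[tr 1, pow m, inv, tr 1, pow m]` one for `z₆`.
(2) `c = some 0`: *PowO* for `z₁`: `some 0`; *Mob* for `z₂`: `some (0 - 1)`; *PowR* for `z₃` (`0 - 1 ≠ 0`): a
nonrational point; *Keep* for `[inv, tr 1, pow m]`.
(3) `c = none`: `none` for `z₁` (*PowO*), `z₂` (*Mob*), `z₃` (*PowO*); `some 0` for `z₄` (*Mob*),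
`some (0 - 1)` for `z₅` (*Mob*), and nonrational for `z₆` (*PowR*).
(`rs_rs` is `rfl`: all the homomorphisms are restrictions of `ψ`.)
*Uses*: Ex, Stg, PowS, PowO, PowR, Mob, Keep. -/
def SixStmt : Prop :=
  ∀ (p : ℕ) [Fact p.Prime] (Ω : Type) [Field Ω] [Algebra (ZMod p) Ω] (x : Ω)
    (G : Type) [Group G] [Finite G] (ψ : Gx p x →* G), Rz p x ψ →
    (∀ N : Subgroup G, N.Normal → N.index.Prime → ∃ c : Option Ω, RamAt p x ψ N c) →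
    ∃ w : List (Atom p), OkW w ∧ ∃ y : Ω, ev w y = x ∧ ∃ h : Gx p y ≤ Gx p x, RD p y (rs h ψ)

/-! ## D. The line has no unramified cyclic extensions -/

/-- **KGen.** (70 lines)  Kummer generators.

*Proof.*  `r i = ∑ j ∈ range ℓ, (ζ⁻¹) ^ (i * j) * (τ ^ j) f`, where `τ f ≠ f`.  `τ (r i) = ζ ^ i * r i`: the
term `j` is mapped to `ζ ^ i` times the term `j + 1`, and the term `ℓ` is equal to the term `0`
(`ζ ^ ℓ = 1`, `(τ ^ ℓ) f = f`).  `∑ i ∈ range ℓ, r i = ℓ f` (`∑ i, (ζ⁻¹) ^ (i j) = 0` for `0 < j < ℓ`,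
`IsPrimitiveRoot.geom_sum_eq_zero` for the primitive root `ζ⁻¹ ^ j`).  If `r i = 0` for all `0 < i < ℓ` then
`r 0 = ℓ f` and `τ (r 0) = r 0`, so `τ f = f`, a contradiction.  Take `Z = r i ≠ 0` with `0 < i < ℓ`. -/
def KGenStmt : Prop :=
  ∀ (K : Type) [Field K] (τ : K ≃+* K) (ℓ : ℕ), ℓ.Prime → (ℓ : K) ≠ 0 → ∀ ζ : K,
    IsPrimitiveRoot ζ ℓ → τ ζ = ζ → (∀ f, (τ ^ ℓ) f = f) → (∃ f, τ f ≠ f) →
    ∃ (Z : K) (i : ℕ), Z ≠ 0 ∧ τ Z = ζ ^ i * Z ∧ ζ ^ i ≠ 1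

/-- **AGen.** (70 lines)  Artin-Schreier generators.

*Proof.*  `D = τ - 1`, an element of the ring `Module.End (ZMod p) K` (or of `AddMonoid.End K`), which
has characteristic `p`; `D ^ p = τ ^ p - 1 = 0` (`sub_pow_char_of_commute`).  Let `D f ≠ 0`.  There is
`k ≥ 1` with `h = D ^ k f ≠ 0`, `D ^ (k + 1) f = 0` (`Nat.find`).  `τ h = h`.  `g = D ^ (k - 1) f`:
`τ g = g + h`.  `Z = g / h`: `τ Z = (g + h) / h = Z + 1`. -/
def AGenStmt : Prop :=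
  ∀ (p : ℕ) [Fact p.Prime] (K : Type) [Field K] [CharP K p] (τ : K ≃+* K),
    (∀ f, (τ ^ p) f = f) → (∃ f, τ f ≠ f) → ∃ Z : K, τ Z = Z + 1

/-- **Rat.** (120 lines)  The places of `𝕜(x)`.

*Proof.*  (*) If `adjoin 𝕜 {u} = ⊤`, `u` transcendental, and `0 < v.ord u`, then `v.pord u = 1`, and
`0 < w.ord u` implies `w = v`: `sum_zeros` (`Crv/PlacesOver`): the sum of the orders of `u` at its zeros is
`[K₀ : 𝕜(u)] = 1`, and each is `≥ 1`; see `MP7Z.EPP.PoleAux.pord_sub_const` (`EPP/Pole.lean`), which is the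
first half.  Apply (*) to `u = x - c` (`adjoin_sub_const`) and to `u = x⁻¹` (`x ∈ adjoin 𝕜 {x⁻¹}`).
(1) `0 ≤ v.ord x`: with `c = v.ev x`, `0 < v.ord (x - c)` (`Place.ev_spec`), so `v.pord (x - c) = 1`.  If
`w ≠ v`, `0 ≤ w.ord x`, then `0 ≤ w.ord (x - c)`, and not `0 <`, so `w.pord (x - c) = 0`.
(2) `v.ord x < 0`, `w.ord x < 0`: `0 < v.ord x⁻¹`, `0 < w.ord x⁻¹`, so `w = v` by (*).
(3) `t = (x - v.ev x)⁻¹` if `0 ≤ v.ord x`: `v.pord t = -1`; for `w ≠ v` with `0 ≤ w.ord x`: `w.pord t = 0`; for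
`w.ord x < 0`: `w.ord (x - c) = w.ord x < 0`, so `0 < w.ord t`.  `t = x` if `v.ord x < 0`: `v.pord x = -1`
by (*) for `x⁻¹`, and for `w ≠ v` not `w.ord x < 0`, by (2). -/
def RatStmt : Prop :=
  ∀ (𝕜 K₀ : Type) [Field 𝕜] [IsAlgClosed 𝕜] [Field K₀] [Algebra 𝕜 K₀] [IsCurveField 𝕜 K₀] (x : K₀),
    Transcendental 𝕜 x → IntermediateField.adjoin 𝕜 {x} = ⊤ →
    (∀ v : Place 𝕜 K₀, 0 ≤ v.ord x → v.pord (x - algebraMap 𝕜 K₀ (v.ev x)) = 1 ∧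
      ∀ w : Place 𝕜 K₀, w ≠ v → 0 ≤ w.ord x → w.pord (x - algebraMap 𝕜 K₀ (v.ev x)) = 0) ∧
    (∀ v w : Place 𝕜 K₀, v.ord x < 0 → w.ord x < 0 → w = v) ∧
    ∀ v : Place 𝕜 K₀, ∃ t : K₀, v.pord t = -1 ∧ ∀ w : Place 𝕜 K₀, w ≠ v → 0 ≤ w.ord t

/-- **KPow.** (120 lines)  A function on the line all of whose orders are divisible by `ℓ` is an
`ℓ`-th power.

*Proof.*  `S` = the set of places `v` with `v.ord f ≠ 0` and `0 ≤ v.ord x`, finite (`finite_ord_ne`).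
`u v = x - v.ev x ≠ 0`.  `h = ∏ v ∈ S, (u v) ^ (v.pord f / ℓ)` (`zpow`).  Let `0 ≤ w.ord x`: by *Rat* (1)
`w.pord (u v) = 1` if `v = w` and `0` otherwise, so `w.pord h = w.pord f / ℓ` (also if `w ∉ S`: both are
`0`), and `f' = f / h ^ ℓ` has `w.pord f' = 0`.  By *Rat* (2) there is at most one place `w` with
`w.ord x < 0`; so `f'` or `f'⁻¹` has nonnegative order at all places, hence is a constant
(`exists_const_of_nonneg`), and so `f' = c ≠ 0` is a constant, `c = d ^ ℓ`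
(`IsAlgClosed.exists_pow_nat_eq`), `f = (d h) ^ ℓ`.
*Uses*: Rat. -/
def KPowStmt : Prop :=
  ∀ (𝕜 K₀ : Type) [Field 𝕜] [IsAlgClosed 𝕜] [Field K₀] [Algebra 𝕜 K₀] [IsCurveField 𝕜 K₀] (x : K₀),
    Transcendental 𝕜 x → IntermediateField.adjoin 𝕜 {x} = ⊤ → ∀ ℓ : ℕ, 0 < ℓ → ∀ f : K₀, f ≠ 0 →
    (∀ v : Place 𝕜 K₀, (ℓ : ℤ) ∣ v.pord f) → ∃ g : K₀, g ^ ℓ = f

/-- **ASN.** (150 lines)  Normal form modulo `g ^ p - g`.

*Proof.*  Let `T` be the finite set of places with `v.ord f < 0` (`finite_ord_ne`; `f = 0` is trivial).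
Strong induction on `n = ∑ v ∈ T, (-(v.pord f)).toNat` for all `f` whose poles are in `T`: if for all `v`
`0 ≤ v.ord f` or `¬ p ∣ v.pord f`, take `g = 0`.  Otherwise let `v` be a pole with `v.pord f = -(p k)`,
`k ≥ 1`; `t` as in the hypothesis (`t ≠ 0`).  `f / t ^ (p k)` has order `0` at `v`, let `c` be its value
(`Place.ev_spec`, `0 < v.ord (f / t ^ (p k) - c)`), `c ≠ 0`, `c = d ^ p`, `g₁ = d t ^ k`.  `f₁ = f - (g₁ ^ p - g₁)`.
At `w ≠ v`: `0 ≤ w.ord g₁`, so `min 0 (w.ord f) ≤ w.ord f₁`: the poles of `f₁` other than `v` are poles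
of `f`, and `(-(w.pord f₁)).toNat ≤ (-(w.pord f)).toNat`.  At `v`: `f - g₁ ^ p = t ^ (p k) (f / t ^ (p k) - c)`
has order `> -(p k)`, and `v.pord g₁ = -k > -(p k)`, so `v.ord f₁ > -(p k)`, and the summand of `v` is
smaller.  By induction `f₁ - (g₂ ^ p - g₂)` is as required; `g = g₁ + g₂`, `(g₁ + g₂) ^ p = g₁ ^ p + g₂ ^ p`
(`CharP K₀ p` from `charP_of_injective_algebraMap`; `add_pow_char`). -/
def ASNStmt : Prop :=
  ∀ (p : ℕ) [Fact p.Prime] (𝕜 K₀ : Type) [Field 𝕜] [IsAlgClosed 𝕜] [CharP 𝕜 p] [Field K₀]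
    [Algebra 𝕜 K₀] [IsCurveField 𝕜 K₀],
    (∀ v : Place 𝕜 K₀, ∃ t : K₀, v.pord t = -1 ∧ ∀ w : Place 𝕜 K₀, w ≠ v → 0 ≤ w.ord t) →
    ∀ f : K₀, ∃ g : K₀, ∀ v : Place 𝕜 K₀,
      0 ≤ v.ord (f - (g ^ p - g)) ∨ ¬ (p : ℤ) ∣ v.pord (f - (g ^ p - g))

/-- **SC.** (120 lines)  The line has no unramified cyclic extension of prime degree.

*Proof.*  Suppose `τ f ≠ f` for some `f`.  For a constant `c`, `τ c = c`.
Case `ℓ ≠ p`: `ℓ ≠ 0` in `𝕜`, let `ζ : 𝕜` be a primitive `ℓ`-th root of unity.  *KGen*: `Z ≠ 0`,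
`τ Z = ζ ^ i Z`, `ζ ^ i ≠ 1`.  `τ (Z ^ ℓ) = Z ^ ℓ`, so `Z ^ ℓ = ι z`, `z : K₀`, `z ≠ 0`.  For a place `v` of `K₀` and
`v'` as in the hypothesis: `v.pord z = v'.pord (ι z) = ℓ v'.pord Z`, so `ℓ ∣ v.pord z`.  *KPow*: `z = g ^ ℓ`;
`(Z / ι g) ^ ℓ = 1`, so `Z / ι g` is a constant (`𝕜` is algebraically closed: a root of `X ^ ℓ - 1` in `K` is
the image of a root in `𝕜`, `ζ ^ j`; `IsPrimitiveRoot.eq_pow_of_pow_eq_one` for the image of `ζ` in `K`),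
so `τ Z = Z`, a contradiction.
Case `ℓ = p`: *AGen*: `τ Z = Z + 1`; `τ (Z ^ p - Z) = Z ^ p - Z`, so `Z ^ p - Z = ι z`.  *Rat* (3) and *ASN*:
`g : K₀` such that `z' = z - (g ^ p - g)` satisfies `0 ≤ v.ord z'` or `¬ p ∣ v.pord z'` for all `v`.
`Z' = Z - ι g`: `Z' ^ p - Z' = ι z'`, `τ Z' = Z' + 1`.  Suppose `v.ord z' < 0` for some `v` and let `v'` be as in the
hypothesis: `v'.pord (ι z') = v.pord z' < 0`, so `v'.pord Z' < 0` (otherwise `0 ≤ v'.ord (Z' ^ p - Z')`),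
`v'.pord (Z' ^ p - Z') = p v'.pord Z'` (see `MP7Z.EPP.PoleAux.ne_of_pole`), so `p ∣ v.pord z'`, a contradiction.
So `0 ≤ v.ord z'` for all `v`, `z' = c` is a constant (`exists_const_of_nonneg`); `Z'` is a root of
`X ^ p - X - c`, which splits over `𝕜`, so `Z'` is a constant and `τ Z' = Z'`, a contradiction.
(`IsAlgClosed.algebraMap_surjective...` / `exists_root` arguments: an element of `K` algebraic over
`𝕜` is in `𝕜`: `IsAlgClosed.algebraMap_bijective_of_isIntegral` for the subfield, or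
`IsAlgClosed.mem_range_of_isAlgebraic`-type lemmas; contrapositive of `MP7Z.transcendental_of`,
`Crv/Places`.)
*Uses*: KGen, AGen, Rat, KPow, ASN. -/
def SCStmt : Prop :=
  ∀ (p : ℕ) [Fact p.Prime] (𝕜 K₀ K : Type) [Field 𝕜] [IsAlgClosed 𝕜] [CharP 𝕜 p] [Field K₀]
    [Algebra 𝕜 K₀] [IsCurveField 𝕜 K₀] [Field K] [Algebra 𝕜 K] (ι : K₀ →ₐ[𝕜] K)
    (x : K₀), Transcendental 𝕜 x → IntermediateField.adjoin 𝕜 {x} = ⊤ →
    ∀ (τ : K ≃ₐ[𝕜] K) (ℓ : ℕ), ℓ.Prime → (∀ f, (τ ^ ℓ) f = f) →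
    (∀ a : K₀, τ (ι a) = ι a) → (∀ f, τ f = f → ∃ a : K₀, ι a = f) →
    (∀ v : Place 𝕜 K₀, ∃ v' : Place 𝕜 K, ∀ f : K₀, v'.pord (ι f) = v.pord f) → ∀ f, τ f = f

/-- **Unr.** (200 lines)  The cyclic extension given by a normal subgroup of prime index, if there is
no inertia outside it.

*Proof.*  `K₀ = adjoin 𝔽 {x}`, `Γ₀ = Gx p x ⊓ geo = Fx p (insert x 𝔽) = Fx p K₀`.
`H = {γ | γ ∈ geo ∧ ∃ h : γ ∈ Gx p x, ψ ⟨γ, h⟩ ∈ N}`, a subgroup, `H ≤ Fx p (insert x 𝔽)`.  Let `S` be the set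
of `fin`: `Fx p (insert x 𝔽 ∪ S) ≤ H` (`ψ γ = 1 ∈ N`).  `br_gal`: `K`, `IsLevel p x K`, `Fx p K = H`,
`f ∈ K ↔ ∀ γ ∈ H, γ f = f`, and automorphisms normalizing `H` preserve `K`.
`γ₀`: there is `g ∉ N` (`N.index ≠ 1`), `γ₀ ∈ Γ₀` with `ψ γ₀ = g`.  `γ₀` normalizes `H` (`N` is normal, `γ₀`
is in `Γ₀`), so `γ₀ f ∈ K ↔ f ∈ K`, and `γ₀` restricts to `τ : K ≃ₐ[𝔽] K`.
`(τ ^ ℓ) f = γ₀ ^ ℓ f = f`, `ℓ = N.index`: `g ^ ℓ ∈ N` (`Subgroup.pow_index_mem`), so `γ₀ ^ ℓ ∈ H`.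
`τ f ≠ f` for some `f`: otherwise `γ₀ ∈ Fx p K = H`, `g ∈ N`.
`τ f = f` for `f ∈ K₀`: `γ₀ ∈ Γ₀ = Fx p K₀`.  `τ f = f` implies `f ∈ K₀`: let `γ ∈ Γ₀`.  `G ⧸ N` has prime order and the image of `g` is not
trivial, so it generates (`zpowers_eq_top_of_prime_card`): `g ^ i (ψ γ) ∈ N` for some integer `i`, so
`γ₀ ^ i γ ∈ H` and `γ₀ ^ i γ f = f`, `γ f = γ₀ ^ (-i) f = f`.  So `f` is fixed by `Γ₀ = Γ_{K₀}`, and `Ω / K₀` is
Galois (`MP7Z.LevAux.isGalois_top`; `IsGalois.mem_bot_iff_fixed` or `InfiniteGalois.fixedField_bot`-type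
lemma; `LevAux.ofK`), so `f ∈ K₀`.
Places: let `v` be a place of `K₀` (a level, `BC_isLevel`); `V` above `v` (`br_abv`), `v'` the place of
`K` below `V` (`br_bel`).  `br_ram`, second claim, for `K₀ ≤ K`: if `γ ∈ Fx p K₀ ⊓ Dec p V` then
`γ ∈ Gx p x`, `γ` fixes `𝔽`, so `γ ∈ Inert p V` and `ψ γ ∈ N` by hypothesis, `γ ∈ H = Fx p K`.  So
`v'.pord f = v.pord f` for `f : K₀`. -/
def UnrStmt : Prop :=
  ∀ (p : ℕ) [Fact p.Prime] (Ω : Type) [Field Ω] [Algebra (ZMod p) Ω] (x : Ω)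
    (G : Type) [Group G] [Finite G] (ψ : Gx p x →* G), Rz p x ψ →
    ∀ N : Subgroup G, N.Normal → N.index.Prime →
    (∀ V : ValuationSubring Ω, V ≠ ⊤ → ∀ γ : Gx p x, (γ : Ω ≃ₐ[ZMod p] Ω) ∈ Inert p V → ψ γ ∈ N) →
    ∃ (K : IntermediateField (Cst p Ω) Ω) (h0 : IntermediateField.adjoin (Cst p Ω) {x} ≤ K)
      (τ : K ≃ₐ[Cst p Ω] K),
      (∀ f, (τ ^ N.index) f = f) ∧ (∃ f, τ f ≠ f) ∧
      (∀ f : IntermediateField.adjoin (Cst p Ω) {x},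
        τ (IntermediateField.inclusion h0 f) = IntermediateField.inclusion h0 f) ∧
      (∀ f : K, τ f = f → (f : Ω) ∈ IntermediateField.adjoin (Cst p Ω) {x}) ∧
      ∀ v : Place (Cst p Ω) (IntermediateField.adjoin (Cst p Ω) {x}),
        ∃ v' : Place (Cst p Ω) K, ∀ f : IntermediateField.adjoin (Cst p Ω) {x},
          v'.pord (IntermediateField.inclusion h0 f) = v.pord f

/-- **SS.** (60 lines)  There is ramification outside every normal subgroup of prime index.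

*Proof.*  Suppose that there is no such `c`.  Let `V ≠ ⊤`, `γ ∈ Gx p x`, `γ ∈ Inert p V`.  `V` lies over a
point: `none` if `x ∉ V`, and otherwise `some c` with `c` the residue of `x` (`br_res`, third claim).  So
`ψ γ ∈ N`, and *Unr* gives `K`, `τ`.  *SC* for `𝕜 = 𝔽` (`br_cst`: algebraically closed; `CharP`),
`K₀ = adjoin 𝔽 {x}` (a curve field by `br_lvl` and `BC_isLevel`), the element `⟨x, _⟩`
(`MP7Z.EPP.PoleAux.adjoin_gen_eq_top`), `ι = IntermediateField.inclusion h0`, `ℓ = N.index`: `τ f = f` for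
all `f`, a contradiction.
*Uses*: SC, Unr. -/
def SSStmt : Prop :=
  ∀ (p : ℕ) [Fact p.Prime] (Ω : Type) [Field Ω] [Algebra (ZMod p) Ω] (x : Ω)
    (G : Type) [Group G] [Finite G] (ψ : Gx p x →* G), Rz p x ψ →
    ∀ N : Subgroup G, N.Normal → N.index.Prime → ∃ c : Option Ω, RamAt p x ψ N c

/-- **II** (II.2). (10 lines)  *Proof.*  *Six* and *SS*.  *Uses*: Six, SS. -/
def IIStmt : Prop :=
  ∀ (p : ℕ) [Fact p.Prime] (Ω : Type) [Field Ω] [Algebra (ZMod p) Ω] (x : Ω)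
    (G : Type) [Group G] [Finite G] (ψ : Gx p x →* G), Rz p x ψ →
    ∃ w : List (Atom p), OkW w ∧ ∃ y : Ω, ev w y = x ∧ ∃ h : Gx p y ≤ Gx p x, RD p y (rs h ψ)

end MP7K
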