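import Pool.Agent.Lib.MP_7f581e_K.DefsO
import Pool.Agent.Lib.MP_7f581e_K.Lin
import Pool.Agent.Lib.MP_7f581e_Z.EPL.Spec

/-!
# C33 (MP_7f581e_nt), Part III: the weak solution without the invariant (S)

One Lean task for each `def LStmtX : Prop`: file `MP_7f581e_K/L/X.lean`, import this file (and the
files named in the docstring), `theorem lX : LStmtX`; the statements under *Uses* are hypotheses
`(h : LStmtY)` of the theorem.  Complete proofs are in the docstrings.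

`Ω`, `IsStage`, `Cst`, `Gx`, `FinLevel` are in `MP_7f581e_Z/Interface.lean`; `geo`, `gker`, `rst`,
`DGc` in `MP_7f581e_Z/CS/SpecB.lean`; levels and places in `MP_7f581e_Z/BR/Spec.lean`, words in
`MP_7f581e_K/Defs.lean`.  Much code can be copied from `MP_7f581e_Z/CS/*.lean` and
`MP_7f581e_Z/EPL/*.lean`, see the docstrings.
-/

set_option autoImplicit false

namespace MP7K

open MP7Z Finset

section

variable {𝕜 E : Type} [Field 𝕜] [IsAlgClosed 𝕜] [Field E] [Algebra 𝕜 E] [IsCurveField 𝕜 E]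

open Classical in
/-- The value of a function at a place, in the projective line. -/
noncomputable def resP (v : Place 𝕜 E) (f : E) : Option 𝕜 :=
  if 0 ≤ v.ord f then some (v.ev f) else none

open Classical in
/-- The local degree of the function `f` at `v`: the order of `f - f(v)`, or the order of the pole. -/
noncomputable def lordP (v : Place 𝕜 E) (f : E) : ℤ :=
  if 0 ≤ v.ord f then v.pord (f - algebraMap 𝕜 E (v.ev f)) else - v.pord f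

end

/-- **Val.** (200 lines)  Values and local degrees of `w(y)` for a word `w`.

*Proof.*  Induction on the word; one atom at a time.  First `ev w y` is again transcendental over `𝕜` (for
all words), since `ev` of an atom is: if `a.ev y` were algebraic over the algebraically closed `𝕜` then
`y` would be algebraic (`y` is a root of a nonconstant polynomial over `𝕜(a.ev y) = 𝕜`: `Y + c - b`,
`b Y - 1`, `Y^n - b` with `n ≠ 0` (`n` prime to `p`), `∑ l_i Y^(p^i) - b`, with `l_0 ≠ 0`, `Lin.eval_addP`,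
`Lin.addP_ne_zero`).  The image of `ZMod p` in `E` is in `𝕜`: `algebraMap (ZMod p) E c =
algebraMap 𝕜 E (algebraMap (ZMod p) 𝕜 c)`, because ring homomorphisms from `ZMod p` are unique
(`Subsingleton (ZMod p →+* E)`).  `𝕜` and `E` have characteristic `p`.
Let `y` be transcendental, `v` a place.  `Place.ev_spec`, `Place.ev_unique`, `Place.nonneg_of_ev` are the
tools; a function of positive order at `v` has `v.pord > 0`; `v.pord` is additive on products of nonzero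
elements, `v.pord_inv`, and `v.pord (f + g) = v.pord f` if `v.pord f < v.pord g` (or use `v.ord`).
`tr c`: pole: `v.pord (y + c) = v.pord y`; no pole: the value is `b + c`, `(y + c) - (b + c) = y - b`.
`inv`: if `y` has a pole, `y⁻¹` has the value `0` and order `- v.pord y`; if the value is `0`, `y⁻¹` has a
pole of order `v.pord y`; if the value is `b ≠ 0`: `y⁻¹ - b⁻¹ = - (y - b) / (b y)`, and `v.pord (b y) = 0`.
`pow n`: pole: pole of order `n` times; value `0`: order `n` times; value `b ≠ 0`: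
`y^n - b^n = (y - b) ∑_{i<n} y^i b^(n-1-i)` (`Commute.mul_geom_sum₂`), the sum has the value
`n b^(n-1) ≠ 0` (use `Place.evR`), so it has order `0`.
`add l`: value `b`: `lin l y - lin l b = lin l (y - b) = (y - b) (l_0 + ∑_{i>0} l_i (y - b)^(p^i - 1))`, the
second factor has the value `l_0 ≠ 0`; so the value of `lin l y` is `lin l b` and the order is
`v.pord (y - b)`.  Pole, `n = v.pord y < 0`, `D = l.natDegree`: `lin l y = ∑_{i≤D} l_i y^(p^i)`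
(`Lin.lin_eq_sum`), the term `i = D` has order `p^D n` (`l_D ≠ 0`), the others (if `l_i ≠ 0`) have the larger
order `p^i n`: the order of the sum is `p^D n`. -/
def LStmtVal : Prop :=
  ∀ (p : ℕ) [Fact p.Prime] (𝕜 E : Type) [Field 𝕜] [IsAlgClosed 𝕜] [Algebra (ZMod p) 𝕜]
    [Field E] [Algebra 𝕜 E] [IsCurveField 𝕜 E] [Algebra (ZMod p) E] (v : Place 𝕜 E)
    (w : List (Atom p)), OkW w → ∀ y : E, Transcendental 𝕜 y →
      Transcendental 𝕜 (ev w y) ∧ resP v (ev w y) = evP w (resP v y) ∧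
      lordP v (ev w y) = (multW w (resP v y) : ℤ) * lordP v y

/-- **NumC.** (40 lines)

*Proof.*  Write `a = ℓ^α a'`, `m = ℓ^β m'` with `ℓ` prime to `a', m'`; `M0 = α + β + 1`.  If `ℓ^M ∣ a r`,
`M ≥ M0`, then `ℓ^(β+1) ∣ r` (cancel: `ℓ^M ∣ ℓ^α a' r`, `a'` prime to `ℓ`).  `g = gcd m r` divides `m`, so
`ℓ^(β+1)` does not divide `g`; `r = g (r/g)`; if `ℓ` did not divide `r/g`, then `ℓ^(β+1) ∣ g`
(coprimality), a contradiction. -/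
def LStmtNumC : Prop :=
  ∀ (a m ℓ : ℕ), 0 < a → 0 < m → ℓ.Prime → ∃ M0 : ℕ, ∀ M, M0 ≤ M → ∀ r, 0 < r →
    ℓ ^ M ∣ a * r → ℓ ∣ r / Nat.gcd m r

/-- **LocW.** (250 lines)  After the base change by a suitable word the norm of `d` is locally divisible
by `m ℓ`.  (Compare `CS/Num.lean`, `ctNum`, which has the same structure.)

*Proof.*  `T` = the set of places `u` of `K` such that `u.pord ((φ ^ i) d) ≠ 0` for some `i < m` (finite: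
`finite_ord_ne`; `u.pord f ≠ 0` means `u.ord f ≠ 0` for `f ≠ 0`).  As `(φ ^ m) d = d`,
`u.pord ((φ ^ i) d) = 0` for all `i` if `u ∉ T`.  `B = {resP u x | u ∈ T}`.  `M ≥ 1`, at least the constant of
*NumC* for `a, m, ℓ`, and `ℓ ^ M > lordP u x` for `u ∈ T` (finitely many).  `0 < lordP u x` for all `u`
(`x` is transcendental, `Place.ev_spec`).
Given `w, K', s, φ', y` and a place `u'` of `K'`: `u = u'.res K`, `e = u'.ram K`, `r = orbLen φ' u'`; if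
`r = 0` the claim is trivial.  `R = s r`.  `b i = u'.pord (algebraMap K K' ((φ ^ i) d)) =
e * u.pord ((φ ^ i) d)` (`Place.pord_algebraMap_eq`).  Periods: `b (i + m) = b i`, and
`b (i + R) = b i`: `(φ' ^ r) (algebraMap f) = algebraMap ((φ ^ (s r)) f)` and `u'.comap (φ' ^ r) = u'` (see the
proof of the same fact in `ctNum`).  The `pord` of the product over `i < m s` is
`∑_{i < m s} b i = s ∑_{i<m} b i`, so the right side is `R ∑_{i<m} b i = m * ((R / gcd m R) * ∑_{i<gcd m R} b i)` by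
*NumB*.  It remains: `ℓ ∣ (R / gcd m R) * ∑_{i<gcd} b i`.
If `u ∉ T`, all `b i = 0`.  Let `u ∈ T`.  `y` is transcendental over `𝕜` (otherwise `y = algebraMap c`, `c : 𝕜`,
as `𝕜` is algebraically closed, and then `ev w y` is in the image of `𝕜` too, but
`ev w y = algebraMap K K' x` is transcendental).  `y₀ = resP u' y`.  By *Val*
`evP w y₀ = resP u' (ev w y) = resP u' (algebraMap K K' x) = resP u x ∈ B`
(`0 ≤ u'.ord (algebraMap x) ↔ 0 ≤ u.ord x`, `Place.res_nonneg`; the same value by `Place.ev_unique`), and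
`multW w y₀ * lordP u' y = lordP u' (algebraMap x) = e * lordP u x`.
(i) `ℓ^M ∣ multW w y₀`: `ℓ^M ∣ e * lordP u x`; if `ℓ ∤ e` then `ℓ^M ∣ lordP u x`, impossible
(`0 < lordP u x < ℓ^M`).  So `ℓ ∣ e`, all the `b i` are divisible by `ℓ`.
(ii) `ℓ^M ∣ dgP p y₀`: `y₀ ≠ none` (`dgP p none = 1`, `M ≥ 1`), so `y₀ = some c`, `c = u'.ev y`.
`(φ' ^ r) y = y`, `u'.comap (φ' ^ r) = u'`, `φ' ^ r` acts on `𝕜` by `z ↦ z ^ (p ^ (a s r))`: by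
`Place.ev_comap` `c = c ^ (p ^ (a s r))`, so `dg p c ∣ a s r = a R` (`Lin.dg_dvd_iff`), `ℓ^M ∣ a R`, and *NumC*:
`ℓ ∣ R / gcd m R`.
*Uses*: Val, NumC, CStmtNumB (`MP7Z.CStmtNumB`, `CS/Spec.lean`). -/
def LStmtLocW : Prop :=
  ∀ (p : ℕ) [Fact p.Prime] (𝕜 K : Type) [Field 𝕜] [IsAlgClosed 𝕜] [Algebra (ZMod p) 𝕜]
    [Field K] [Algebra 𝕜 K] [IsCurveField 𝕜 K] (ℓ a : ℕ) (φ : K ≃+* K)
    (x d : K) (m : ℕ), ℓ.Prime → 0 < a → Transcendental 𝕜 x → d ≠ 0 → 0 < m →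
    (φ ^ m) d = d →
    ∃ (B : Set (Option 𝕜)) (M : ℕ), B.Finite ∧ ∀ w : List (Atom p), OkW w →
      (∀ y₀ : Option 𝕜, evP w y₀ ∈ B → ℓ ^ M ∣ multW w y₀ ∨ ℓ ^ M ∣ dgP p y₀) →
      ∀ (K' : Type) [Field K'] [Algebra 𝕜 K'] [IsCurveField 𝕜 K'] [Algebra (ZMod p) K']
        [Algebra K K'] [IsScalarTower 𝕜 K K'] [Module.Finite K K'] (s : ℕ) (φ' : K' ≃+* K'),
        0 < s → (∀ c : 𝕜, φ' (algebraMap 𝕜 K' c) = algebraMap 𝕜 K' (c ^ (p ^ (a * s)))) →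
        (∀ f : K, φ' (algebraMap K K' f) = algebraMap K K' ((φ ^ s) f)) →
        ∀ y : K', ev w y = algebraMap K K' x → φ' y = y →
        ∀ u : Place 𝕜 K', ((m * ℓ : ℕ) : ℤ) ∣ (orbLen φ' u : ℤ) *
          u.pord (algebraMap K K' (∏ i ∈ range (m * s), (φ ^ i) d))

/-- **NEW.** (120 lines)  The norm step.  (The second half of `CS/NE.lean`, `ctNE`, from `obtain ⟨t, htM,
htN⟩` on, with `K` in place of the fixed field.)

*Proof.*  `N = ∏_{i<m} (φ ^ i) d` is fixed by `φ` (`NE_prod_fix`), nonzero; by `HNStmt` for `M = m * ℓ` there is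
`e` with `(φ ^ M) e = e`, `∏_{i<M} (φ ^ i) e = N`.  `b = d / e ^ ℓ`: `(φ ^ M) b = b`, `∏_{i<M} (φ ^ i) b = 1`
(`NE_prod_mul`).  *H90c* with a primitive root of unity `θ` of order `q ^ M - 1`: `c ≠ 0`, `φ c = b * c`, so
`e ^ ℓ * φ c = d * c`.
*Uses*: HNStmt (`MP7Z.HNStmt`), CStmtH90c.  Import also `MP_7f581e_Z/CS/NE.lean`. -/
def LStmtNEW : Prop :=
  ∀ (𝕜 K : Type) [Field 𝕜] [IsAlgClosed 𝕜] [Field K] [Algebra 𝕜 K] [IsCurveField 𝕜 K]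
    (ℓ q : ℕ) (φ : K ≃+* K) (d : K) (m : ℕ), ℓ.Prime → IsFrob 𝕜 q φ → d ≠ 0 → 0 < m →
    (φ ^ m) d = d →
    (∀ u : Place 𝕜 K, ((m * ℓ : ℕ) : ℤ) ∣
      (orbLen φ u : ℤ) * u.pord (∏ i ∈ range m, (φ ^ i) d)) →
    ∃ e c : K, e ≠ 0 ∧ c ≠ 0 ∧ d * c = e ^ ℓ * φ c

section

variable {p : ℕ} [Fact p.Prime] {Ω : Type} [Field Ω] [Algebra (ZMod p) Ω]

/-- `H` is open in the absolute Galois group of `𝔽_p(x)`. -/
def Opn (p : ℕ) [Fact p.Prime] {Ω : Type} [Field Ω] [Algebra (ZMod p) Ω] (x : Ω)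
    (H : Subgroup (Ω ≃ₐ[ZMod p] Ω)) : Prop :=
  ∃ S : Finset Ω, ∀ γ ∈ Gx p x, (∀ s ∈ S, γ s = s) → γ ∈ H

/-- The data from which lifts of `ρ : H → P` through `f : P' → P` are constructed: a crossed
homomorphism `t` and elements `z`, `w`, `d` (`φ` is a Frobenius lift in `H`, `f e = ρ φ`).  The lift
exists if `d = 1`. -/
structure CDat (p ℓ : ℕ) [Fact p.Prime] {Ω : Type} [Field Ω] [Algebra (ZMod p) Ω]
    {H : Subgroup (Ω ≃ₐ[ZMod p] Ω)} {P P' : Type} [Group P] [Group P'] (ρ : H →* P)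
    (f : P' →* P) (φ : Ω ≃ₐ[ZMod p] Ω) (e : P') (t : P' → Ω) (z w d : Ω) : Prop where
  z0 : z ≠ 0
  w0 : w ≠ 0
  d0 : d ≠ 0
  t0 : ∀ (γ : Ω ≃ₐ[ZMod p] Ω) (hγ : γ ∈ H), γ ∈ geo p Ω → ∀ g : P', f g = ρ ⟨γ, hγ⟩ → t g ≠ 0
  tm : ∀ (γ : Ω ≃ₐ[ZMod p] Ω) (hγ : γ ∈ H), γ ∈ geo p Ω → ∀ g h : P', f g = ρ ⟨γ, hγ⟩ →
    (∃ (γ' : Ω ≃ₐ[ZMod p] Ω) (hγ' : γ' ∈ H), γ' ∈ geo p Ω ∧ f h = ρ ⟨γ', hγ'⟩) →
    t (g * h) = t g * γ (t h)
  tk : ∀ b ∈ f.ker, t b ^ ℓ = 1 ∧ (t b = 1 → b = 1)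
  ts : ∀ c : Ω, c ^ ℓ = 1 → ∃ b ∈ f.ker, t b = c
  zt : ∀ (γ : Ω ≃ₐ[ZMod p] Ω) (hγ : γ ∈ H), γ ∈ geo p Ω → ∀ g : P', f g = ρ ⟨γ, hγ⟩ →
    γ z = t g ^ ℓ * z
  wt : ∀ (γ : Ω ≃ₐ[ZMod p] Ω) (hγ : γ ∈ H), γ ∈ geo p Ω → ∀ g : P', f g = ρ ⟨γ, hγ⟩ →
    φ (t g) * w = t (e * g * e⁻¹) * (φ * γ * φ⁻¹) w
  df : ∀ γ ∈ H, γ ∈ geo p Ω → γ d = d
  zd : φ z = d * w ^ ℓ * z

end

/-- **LevX.** (200 lines)  The level of `gker ρ`.  (Copy of `CS/Lev.lean` with `x' = x`, without `neu` and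
`rot`, and with `hs` trivial: `u = 1`.)

*Proof.*  *Gal* for `gker ρ` and `S = S₁ ∪ S₂` (`S₁` from `Opn`, `S₂` from `FinLevel ρ`) gives the level `E`
with `Fx p E = gker ρ`.  Every `γ ∈ H` normalizes `gker ρ`, so it preserves `E`.  `act s` = the restriction to
`E` of any `γ ∈ H ∩ geo` with `ρ γ = s` (two choices differ by an element of `gker ρ`).  `φE` = the
restriction of `φ`.  Injective: if `act s = 1` then `γ ∈ Fx p E = gker ρ`, `s = ρ γ = 1`.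
`φ γ = (φ γ φ⁻¹) φ`, `ρ (φ γ φ⁻¹) = cj s`.  The rest: *Lvl*, `γ x = x`.
*Uses*: LvlStmt, FrbKStmt (or define `φE` by `Lev_res`), GalStmt.  Import also
`MP_7f581e_Z/CS/Lev.lean` (lemmas `Lev_gker`, `Lev_res`, `Lev_resA`, `Lev_geo`). -/
def LStmtLevX : Prop :=
  ∀ (p : ℕ) [Fact p.Prime] (Ω : Type) [Field Ω] [Algebra (ZMod p) Ω] [IsAlgClosed (Cst p Ω)]
    (x : Ω), IsStage p x → ∀ (H : Subgroup (Ω ≃ₐ[ZMod p] Ω)), H ≤ Gx p x → Opn p x H →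
    ∀ (P : Type) [Group P] (ρ : H →* P), FinLevel ρ →
    ∀ (φ : Ω ≃ₐ[ZMod p] Ω) (hφ : φ ∈ H)
      (Q : Subgroup P) (hQ : ∀ s, s ∈ Q ↔ ∃ (γ : Ω ≃ₐ[ZMod p] Ω) (h : γ ∈ H), γ ∈ geo p Ω ∧
      ρ ⟨γ, h⟩ = s) (cj : Q ≃* Q),
    (∀ s : Q, (cj s : P) = ρ ⟨φ, hφ⟩ * s * (ρ ⟨φ, hφ⟩)⁻¹) →
    ∃ (E : IntermediateField (Cst p Ω) Ω) (hE : IsLevel p x E)
      (act : Q →* (E ≃ₐ[Cst p Ω] E)) (φE : E ≃+* E),
      (∀ (γ : Ω ≃ₐ[ZMod p] Ω) (hγ : γ ∈ H) (hg : γ ∈ geo p Ω) (f : E),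
        ((act ⟨ρ ⟨γ, hγ⟩, (hQ _).2 ⟨γ, hγ, hg, rfl⟩⟩ f : E) : Ω) = γ (f : Ω)) ∧
      (∀ f : E, ((φE f : E) : Ω) = φ (f : Ω)) ∧ Function.Injective act ∧
      (∀ s f, φE (act s f) = act (cj s) (φE f)) ∧
      IsCurveField (Cst p Ω) E ∧ Transcendental (Cst p Ω) (⟨x, hE.mem⟩ : E) ∧
      Algebra.IsSeparable (IntermediateField.adjoin (Cst p Ω) {(⟨x, hE.mem⟩ : E)}) E ∧
      ∀ s, act s ⟨x, hE.mem⟩ = ⟨x, hE.mem⟩

/-- **DatX.** (300 lines)  The data at `x`.  (The parts of `CS/CS.lean` before and after the use of `hFP`;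
`exists_cj`, `img`, `mem_img`, `mem_cst_of_pow`, `geo_conj` are there.)

*Proof.*  `Q` = the image of `H ∩ geo` under `ρ`, `cj` = conjugation by `ρ φ` on `Q`.  *LevX*: `E`, `act`, `φE`.
`Q' = Q.comap f`, `fQ : Q' → Q`, kernel `≅ f.ker`, central, of order `ℓ`; `jj : fQ.ker → 𝔽ˣ` injective onto the
`ℓ`-th roots of unity; `cj'` = conjugation by `e` on `Q'`.  *TL* (for `E`, `X = ⟨x, _⟩`, `Q`, `act`, `Q'`, `fQ`,
`jj`) gives `t : Q' → E`; *Fr* gives `z, w, d ∈ E` (hypotheses: `cj'` is trivial on the central kernel;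
`t a ^ ℓ = 1`; `φE (t a) = t a` since `t a` is an `ℓ`-th root of unity, fixed by `φ ∈ H`).  Translate to `Ω`:
`t' g = t ⟨g, _⟩` if `g ∈ Q'` and `1` otherwise.  `df`: for `γ ∈ H ∩ geo`, `γ d = act (ρ γ) d = d`.
*Uses*: CstStmt, LevX, CStmtTL, CStmtFr. -/
def LStmtDatX : Prop :=
  ∀ (p : ℕ) [Fact p.Prime] (ℓ : ℕ), ℓ.Prime → ℓ ≠ p →
  ∀ (Ω : Type) [Field Ω] [Algebra (ZMod p) Ω] [IsAlgClosed (Cst p Ω)]
    (x : Ω), IsStage p x → ∀ (H : Subgroup (Ω ≃ₐ[ZMod p] Ω)), H ≤ Gx p x → Opn p x H →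
    (∀ ζ : Ω, ζ ^ ℓ = 1 → ∀ γ ∈ H, γ ζ = ζ) →
    ∀ (P : Type) [Group P] [Finite P] (ρ : H →* P), IsPGroup ℓ P → FinLevel ρ →
    ∀ (P' : Type) [Group P'] [Finite P'] (f : P' →* P), Function.Surjective f →
    (∀ a ∈ f.ker, ∀ b : P', a * b = b * a) → Nat.card f.ker = ℓ →
    ∀ (φ : Ω ≃ₐ[ZMod p] Ω) (hφ : φ ∈ H) (e : P'), f e = ρ ⟨φ, hφ⟩ →
    ∃ (t : P' → Ω) (z w d : Ω), CDat p ℓ ρ f φ e t z w d

/-- **Cmp.** (120 lines)  The data for another Frobenius lift `φ' = u φ ^ s`, `u ∈ H ∩ geo`.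

*Proof.*  `e s = e ^ s`, `w_s = ∏_{j<s} (φ ^ j) w`, `d_s = ∏_{j<s} (φ ^ j) d`, `w' = t g_u * u w_s`.
STEP 1, by induction on `s`: `(φ ^ s) z = d_s * w_s ^ ℓ * z`, and for `γ ∈ H ∩ geo`, `f g = ρ γ`:
`(φ ^ s) (t g) * w_s = t (e^s g e^{-s}) * (φ^s γ φ^{-s}) w_s`.  Use `w_{s+1} = w * φ w_s`
(`Finset.prod_range_succ'`), `d_{s+1} = d * φ d_s`; for the second: apply `φ` to the statement for `s`,
multiply by `w`, use `wt` for `γ_s = φ^s γ φ^{-s} ∈ H ∩ geo`, `g_s = e^s g e^{-s}`, `f g_s = ρ γ_s`, and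
`φ (γ_s w_s) = (φ γ_s φ⁻¹) (φ w_s)`.
STEP 2.  `u d_s = d_s` (`φ ^ j` normalizes `H ∩ geo`, so `(φ ^ j) d` is fixed by `H ∩ geo`), so
`φ' z = u ((φ ^ s) z) = d_s * (u w_s) ^ ℓ * t g_u ^ ℓ * z = d_s * w' ^ ℓ * z` (`zt` for `u`).
`wt`: apply `u` to STEP 1 and multiply by `t g_u`:
`φ' (t g) * w' = t g_u * u (t g_s) * (u γ_s u⁻¹) (u w_s)`, `t g_u * u (t g_s) = t (g_u g_s)` (`tm`),
`g_u g_s = g' g_u` with `g' = g_u g_s g_u⁻¹ = (g_u e^s) g (g_u e^s)⁻¹`, `f g' = ρ γ'`, `γ' = u γ_s u⁻¹ =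
φ' γ φ'⁻¹`, `t (g' g_u) = t g' * γ' (t g_u)`; so it is `t g' * γ' (t g_u * u w_s)`.
The elements are nonzero. -/
def LStmtCmp : Prop :=
  ∀ (p ℓ : ℕ) [Fact p.Prime] (Ω : Type) [Field Ω] [Algebra (ZMod p) Ω]
    (H : Subgroup (Ω ≃ₐ[ZMod p] Ω)) (P P' : Type) [Group P] [Group P'] (ρ : H →* P)
    (f : P' →* P) (φ : Ω ≃ₐ[ZMod p] Ω) (hφ : φ ∈ H) (e : P') (t : P' → Ω) (z w d : Ω),
    f e = ρ ⟨φ, hφ⟩ → CDat p ℓ ρ f φ e t z w d →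
    ∀ (s : ℕ) (u : Ω ≃ₐ[ZMod p] Ω) (hu : u ∈ H), u ∈ geo p Ω → ∀ gu : P', f gu = ρ ⟨u, hu⟩ →
      CDat p ℓ ρ f (u * φ ^ s) (gu * e ^ s) t z (t gu * u (∏ j ∈ range s, (φ ^ j) w))
        (∏ j ∈ range s, (φ ^ j) d)

/-- **Dvd.** (80 lines)  Two Frobenius lifts in `H`, one of which generates `H` modulo the geometric part.

*Proof.*  `θ ∈ 𝔽` a primitive root of unity of order `p ^ n - 1`, `n = a * a'` (`𝔽` is algebraically closed,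
`p ^ n - 1` is prime to `p`; `p ^ n ≥ 2`).  `DGc` for `γ = φ'` and `S = {θ}`: `φ' θ = u₀ (φ ^ i θ) = φ ^ i θ`
(a constant), i.e. `θ ^ (p ^ a') = θ ^ (p ^ (a i))`, so `p ^ a' ≡ p ^ (a i)` modulo `p ^ n - 1`, so
`a' ≡ a i` modulo `n` (the powers `p ^ 0, ..., p ^ (n-1)` are different modulo `p ^ n - 1` if `p ^ n > 2`, and
`p ^ n ≡ 1`; for `p ^ n = 2` we have `a = 1`), so `a ∣ a'`.  (This argument is in `CS/BExt.lean`.)  `s = a' / a`.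
`u = φ' (φ ^ s)⁻¹`: in `H`, and for a constant `c` let `b = (φ ^ s)⁻¹ c`, again a constant,
`b ^ (p ^ (a s)) = c`, and `u c = φ' b = b ^ (p ^ a') = c`.
*Uses*: nothing (`IsAlgClosed (Cst p Ω)`). -/
def LStmtDvd : Prop :=
  ∀ (p : ℕ) [Fact p.Prime] (Ω : Type) [Field Ω] [Algebra (ZMod p) Ω] [IsAlgClosed (Cst p Ω)]
    (H : Subgroup (Ω ≃ₐ[ZMod p] Ω)) (φ φ' : Ω ≃ₐ[ZMod p] Ω) (a a' : ℕ), 0 < a → 0 < a' →
    (∀ c ∈ Cst p Ω, φ c = c ^ (p ^ a)) → (∀ c ∈ Cst p Ω, φ' c = c ^ (p ^ a')) → DGc H φ →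
    φ' ∈ H → ∃ (s : ℕ) (u : Ω ≃ₐ[ZMod p] Ω), 0 < s ∧ a' = a * s ∧ u ∈ H ∧ u ∈ geo p Ω ∧
      φ' = u * φ ^ s

/-- **BackF.** (200 lines)  From the data with `d = 1` to a lift.  (Copy of `CS/Back.lean` without the last
part; there `z` is in a level, here it is any element of `Ω`; `N.fin` is `FinLevel ρ`, `N.le`, `N.stage`
are hypotheses.)
*Uses*: CStmtBExt. -/
def LStmtBackF : Prop :=
  ∀ (p : ℕ) [Fact p.Prime] (ℓ : ℕ), ℓ.Prime → ℓ ≠ p →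
  ∀ (Ω : Type) [Field Ω] [Algebra (ZMod p) Ω] (y : Ω), IsStage p y →
    ∀ (H : Subgroup (Ω ≃ₐ[ZMod p] Ω)), H ≤ Gx p y →
    ∀ (P : Type) [Group P] (ρ : H →* P), FinLevel ρ →
    ∀ (φ : Ω ≃ₐ[ZMod p] Ω) (a : ℕ) (hφ : φ ∈ H), 0 < a →
    (∀ c ∈ Cst p Ω, φ c = c ^ (p ^ a)) → DGc H φ →
    ∀ (P' : Type) [Group P'] [Finite P'] (f : P' →* P), Function.Surjective f →
    ∀ e : P', f e = ρ ⟨φ, hφ⟩ → ∀ (t : P' → Ω) (z w : Ω), CDat p ℓ ρ f φ e t z w 1 →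
    ∃ ρ' : H →* P', (∀ γ : H, f (ρ' γ) = ρ γ) ∧ FinLevel ρ'

/-- **CSW** (III.1).  (300 lines)  The central step.

*Proof.*  `𝔽 = Cst p Ω` is algebraically closed (*Cst*).  *Den* for `H`: `φ`, `a`, `DGc H φ`.  Choose `e` with
`f e = ρ φ`; *DatX*: `t, z, w, d`.  *Gal* for `H ⊓ geo` and the set of `Opn`: the level `K` with
`Fx p K = H ⊓ geo`, `f ∈ K ↔` fixed by `H ⊓ geo`; `d ∈ K`.  `φ` normalizes `H ⊓ geo`, so it preserves `K`;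
*FrbK*: `φK`, a Frobenius.  `m > 0` with `(φK ^ m) d = d` (`IsFrob.fin`).  *LocW* for
`K, ℓ, a, φK, x, d, m`: `B, M`.  *LemmaA* for `F = 𝔽`, `r = ℓ`, `B`, `N = M`: the word `w₀`.
Let `y` be given, `H' = H ⊓ Gx p y`.  `H' ≤ Gx p y`, `Opn p y H'` (the same set, as `Gx p y ≤ Gx p x`).  *Den* at
`y` for `H'`: `φ'`, `a'`, `DGc H' φ'`.  *Dvd* (`φ' ∈ H`): `a' = a s`, `φ' = u φ ^ s`.  Choose `gu` with
`f gu = ρ u`, *Cmp*: `CDat ρ f φ' e' t z w' d'`, `e' = gu e^s`, `d' = ∏_{j<s} (φ ^ j) d ∈ K`; the same data is a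
`CDat` for `rst ρ y` (all conditions are restricted to a smaller group).  `f e' = ρ φ'`.
*Gal* at `y` for `H' ⊓ geo`: the level `K'` at `y`; `K ≤ K'`; `K'` is also a level at `x` (`x ∈ K ≤ K'`), so
`K'` is finite over `K` (`LevAux.finite_of_level`; instances `LevAux.incAlg`, `LevAux.tower_inc`).  *FrbK* at
`y`: `φK'`, a Frobenius for `p ^ a'`.  On `K`: `φ' = u φ ^ s = φ ^ s` (`u` fixes `K`, `φ ^ s` preserves `K`).
`ev w₀ y = x` in `K'` (`ev` commutes with the inclusion into `Ω`; the algebra structures over `ZMod p`).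
`d'` as an element of `K'`: `(φK' ^ m) d' = d'` and
`∏_{i<m} (φK' ^ i) d' = ∏_{k < m s} (φK ^ k) d` (`Finset.prod_range`-reindexing, `k = i s + j`).  *LocW* and
*NEW* give `e₀, c ∈ K'`, nonzero, `d' * c = e₀ ^ ℓ * φ' c`, fixed by `H' ⊓ geo`.  Then
`CDat (rst ρ y) f φ' e' t (z / c) (e₀ * w') 1`: `zt`: `γ c = c`; `wt`: `(φ' γ φ'⁻¹) e₀ = e₀`; `zd`:
`φ' (z / c) = d' w'^ℓ z / φ' c = e₀^ℓ w'^ℓ z / c`.  *BackF* at `y`.
*Uses*: CstStmt, LvlStmt, FrbKStmt, GalStmt, CStmtDen, LemmaA, DatX, Cmp, Dvd, LocW, NEW, BackF. -/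
def LStmtCSW : Prop :=
  ∀ (p : ℕ) [Fact p.Prime] (ℓ : ℕ), ℓ.Prime → ℓ ≠ p →
  ∀ (Ω : Type) [Field Ω] [Algebra (ZMod p) Ω] (x : Ω), IsStage p x →
  ∀ (H : Subgroup (Ω ≃ₐ[ZMod p] Ω)), H ≤ Gx p x → Opn p x H →
    (∀ ζ : Ω, ζ ^ ℓ = 1 → ∀ γ ∈ H, γ ζ = ζ) →
  ∀ (P : Type) [Group P] [Finite P] (ρ : H →* P), IsPGroup ℓ P → FinLevel ρ →
  ∀ (P' : Type) [Group P'] [Finite P'] (f : P' →* P), Function.Surjective f →
    (∀ a ∈ f.ker, ∀ b : P', a * b = b * a) → Nat.card f.ker = ℓ →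
  ∃ w : List (Atom p), OkW w ∧ ∀ y : Ω, ev w y = x → IsStage p y → Gx p y ≤ Gx p x →
    ∃ ρ' : (H ⊓ Gx p y : Subgroup (Ω ≃ₐ[ZMod p] Ω)) →* P', FinLevel ρ' ∧
      ∀ (γ : Ω ≃ₐ[ZMod p] Ω) (h : γ ∈ H ⊓ Gx p y), f (ρ' ⟨γ, h⟩) = ρ ⟨γ, h.1⟩

/-- **ChainW.** (150 lines)  Lifting through any surjection of `ℓ`-groups, compatibly with (RD).  (Copy of
`EPL/Chain.lean`.)

*Proof.*  As `EPL.ChainStmt`: induction on the order of `P'`.  If `f` is injective, `y = x`, `H' = H`.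
Otherwise `Z ≤ f.ker` central of order `ℓ`, `P' ⧸ Z → P`; induction gives `y₁`, `H₁ = H ⊓ Gx p y₁`, `ρ₁`.  *CSW*
for `(y₁, H₁, ρ₁)` and `P' → P' ⧸ Z` gives a word `w`; `BaseW` gives `y` with `ev w y = y₁` and
(RD) for `y`.  The two statements about `(RD)` compose (`rs_rs`); `H₁ ⊓ Gx p y = H ⊓ Gx p y`.
*Uses*: CSW, BaseW. -/
def LStmtChainW : Prop :=
  ∀ (p : ℕ) [Fact p.Prime] (ℓ : ℕ), ℓ.Prime → ℓ ≠ p →
  ∀ (Ω : Type) [Field Ω] [Algebra (ZMod p) Ω] (x : Ω), IsStage p x →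
  ∀ (H : Subgroup (Ω ≃ₐ[ZMod p] Ω)), H ≤ Gx p x → Opn p x H →
    (∀ ζ : Ω, ζ ^ ℓ = 1 → ∀ γ ∈ H, γ ζ = ζ) →
  ∀ (P : Type) [Group P] [Finite P] (ρ : H →* P), IsPGroup ℓ P → FinLevel ρ →
  ∀ (P' : Type) [Group P'] [Finite P'] (f : P' →* P), Function.Surjective f → IsPGroup ℓ P' →
  ∃ (y : Ω) (H' : Subgroup (Ω ≃ₐ[ZMod p] Ω)), IsStage p y ∧ H' = H ⊓ Gx p y ∧
    (∃ hle : Gx p y ≤ Gx p x, ∀ (G : Type) [Group G] [Finite G] (ψ : Gx p x →* G),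
      RD p x ψ → RD p y (rs hle ψ)) ∧
    ∃ ρ' : H' →* P', FinLevel ρ' ∧
      ∀ (γ : Ω ≃ₐ[ZMod p] Ω) (h : γ ∈ H') (h₁ : γ ∈ H), f (ρ' ⟨γ, h⟩) = ρ ⟨γ, h₁⟩

/-- **WeakW** (III.2).  (200 lines)  The weak solution; the statement is `WeakW` of `DefsO.lean`:
`theorem lWeakW (h1 : LStmtChainW) (h2 : EPL.GasStmt) (h3 : EPL.IdxStmt) (h4 : EPL.StabSStmt) : WeakW`.
(Copy of `EPL/Weak.lean` without (S).)

*Proof.*  `P` a Sylow `ℓ`-subgroup of `G`; `H` = the `γ ∈ Gx p x` with `ψ γ ∈ P` which fix the `ℓ`-th roots of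
unity (`WeakAux.Hs`), `ρ : H → P` the restriction of `ψ` (`WeakAux.rh`).  `Opn p x H`: the finite set of
`FinLevel ψ` and the roots of unity.  `P' = P.comap f`, an `ℓ`-group.  *ChainW*: `y`, `H₁ = H ⊓ Gx p y`,
`ρ₁ : H₁ → P'`, and `RD p y (rs hle ψ)`; `ψ₀ = rs hle ψ` is surjective.  `H₂` = `H₁` as a subgroup of `Gx p y`;
*Idx* for `y`: finite index prime to `ℓ`.  *Gas* with `Γ = Gx p y`, `H₂`, `ρ₁`: `ψ' : Gx p y → E` over `ψ₀`.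
Finite level: let `S` be such that `γ ∈ Gx p y` fixing `S` is in `H₁` and killed by `ρ₁`; `WeakAux.fin_lift`.
*Uses*: ChainW, EPL.GasStmt, EPL.IdxStmt, EPL.StabSStmt.  Import also `MP_7f581e_Z/EPL/WeakAux.lean`. -/
def LStmtWeakW : Prop := WeakW

end MP7K
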