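import Pool.Agent.Lib.MP_7f581e_K.Spec1

/-!
# C33, module W0: a word which is ramified at all the rational points

Only words of the form `tr c₁ ∘ pow r ∘ ... ∘ tr c_k ∘ pow r` are used, and the average is taken over the translations.
-/

set_option autoImplicit false

namespace MP7K

open Polynomial Finset

section

variable {p : ℕ} [Fact p.Prime] {F : Type} [Field F] [Algebra (ZMod p) F]

open Classical in
/-- The rational finite points at which the word is ramified. -/
private noncomputable def W0_Z (F : Type) [Field F] [Algebra (ZMod p) F] (r : ℕ) (w : List (Atom p)) :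
    Finset (ZMod p) :=
  univ.filter (fun a : ZMod p => r ∣ multW w (some (algebraMap (ZMod p) F a)))

private theorem W0_none (r : ℕ) (w : List (Atom p)) (c : ZMod p) :
    r ∣ multW (w ++ [Atom.tr c, Atom.pow r]) (none : Option F) := by
  rw [multW_append]
  refine Dvd.dvd.mul_left ?_ _
  change r ∣ 1 * (r * 1)
  simp

private theorem W0_some (r : ℕ) (w : List (Atom p)) (c : ZMod p) (a : ZMod p) :
    multW (w ++ [Atom.tr c, Atom.pow r]) (some (algebraMap (ZMod p) F a)) =
      multW w (some (algebraMap (ZMod p) F (a ^ r + c))) * (if a = 0 then r else 1) := by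
  classical
  rw [multW_append]
  have e1 : evP [Atom.tr c, Atom.pow r] (some (algebraMap (ZMod p) F a)) =
      some (algebraMap (ZMod p) F (a ^ r + c)) := by
    change some ((algebraMap (ZMod p) F a) ^ r + algebraMap (ZMod p) F c) = _
    rw [map_add, map_pow]
  have e2 : multW [Atom.tr c, Atom.pow r] (some (algebraMap (ZMod p) F a)) = if a = 0 then r else 1 := by
    have h0 : (algebraMap (ZMod p) F a = 0) ↔ a = 0 := by
      rw [map_eq_zero_iff _ (algebraMap (ZMod p) F).injective]
    change 1 * ((if algebraMap (ZMod p) F a = 0 then r else 1) * 1) = _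
    simp only [h0, one_mul, mul_one]
  rw [e1, e2]

/-- One step: more ramified rational points. -/
private theorem W0_step (r : ℕ) (w : List (Atom p)) (hz : (W0_Z F r w).card < p) :
    ∃ c : ZMod p, (W0_Z F r w).card + 1 ≤ (W0_Z F r (w ++ [Atom.tr c, Atom.pow r])).card := by
  classical
  set Z := W0_Z F r w with hZ
  set z := Z.card with hzdef
  -- the average over the translations
  have hsum : ∑ c : ZMod p, ((univ : Finset (ZMod p)).filter (fun a => a ≠ 0 ∧ a ^ r + c ∈ Z)).card = (p - 1) * z := by
    have h1 : ∀ c : ZMod p, ((univ : Finset (ZMod p)).filter (fun a => a ≠ 0 ∧ a ^ r + c ∈ Z)).card =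
        ∑ a ∈ (univ : Finset (ZMod p)).filter (fun a => a ≠ 0), if a ^ r + c ∈ Z then 1 else 0 := by
      intro c
      rw [← Finset.filter_filter, Finset.card_filter]
    simp only [h1]
    rw [Finset.sum_comm]
    have h2 : ∀ a ∈ (univ : Finset (ZMod p)).filter (fun a => a ≠ 0),
        ∑ c : ZMod p, (if a ^ r + c ∈ Z then 1 else 0) = z := by
      intro a _
      rw [← Finset.card_filter, hzdef]
      refine Finset.card_bij (fun c _ => a ^ r + c) ?_ ?_ ?_
      · intro c hc
        exact (mem_filter.1 hc).2
      · intro c _ c' _ h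
        exact add_left_cancel h
      · intro b hb
        refine ⟨b - a ^ r, ?_, by ring⟩
        rw [mem_filter]
        refine ⟨mem_univ _, ?_⟩
        have : a ^ r + (b - a ^ r) = b := by ring
        rw [this]
        exact hb
    rw [Finset.sum_congr rfl h2, Finset.sum_const, smul_eq_mul]
    congr 1
    rw [Finset.filter_ne' univ (0 : ZMod p), Finset.card_erase_of_mem (mem_univ _), Finset.card_univ, ZMod.card]
  -- some translation is at least as good as the average
  obtain ⟨c, hc⟩ : ∃ c : ZMod p, z ≤ ((univ : Finset (ZMod p)).filter (fun a => a ≠ 0 ∧ a ^ r + c ∈ Z)).card := by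
    by_contra hcon
    push Not at hcon
    have hz0 : 0 < z := lt_of_le_of_lt (Nat.zero_le _) (hcon 0)
    have h3 : ∑ c : ZMod p, (((univ : Finset (ZMod p)).filter (fun a => a ≠ 0 ∧ a ^ r + c ∈ Z)).card + 1) ≤
        ∑ _c : ZMod p, z := Finset.sum_le_sum fun c _ => hcon c
    rw [Finset.sum_add_distrib, hsum, Finset.sum_const, Finset.sum_const, Finset.card_univ, ZMod.card, smul_eq_mul,
      smul_eq_mul, mul_one] at h3
    have hp : 1 ≤ p := (Fact.out : p.Prime).one_lt.le
    have h4 : (p - 1) * z + z = p * z := by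
      conv_lhs => rw [← Nat.succ_mul]
      congr 1
      omega
    omega
  refine ⟨c, ?_⟩
  have h5 : insert (0 : ZMod p) ((univ : Finset (ZMod p)).filter (fun a => a ≠ 0 ∧ a ^ r + c ∈ Z)) ⊆
      W0_Z F r (w ++ [Atom.tr c, Atom.pow r]) := by
    intro a ha
    unfold W0_Z
    rw [mem_filter]
    refine ⟨mem_univ _, ?_⟩
    rw [W0_some]
    rcases mem_insert.1 ha with h | h
    · rw [if_pos h]
      exact Dvd.intro_left _ rfl
    · refine Dvd.dvd.mul_right ?_ _
      have h6 := (mem_filter.1 h).2.2
      rw [hZ] at h6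
      unfold W0_Z at h6
      exact (mem_filter.1 h6).2
  have h7 : (0 : ZMod p) ∉ (univ : Finset (ZMod p)).filter (fun a => a ≠ 0 ∧ a ^ r + c ∈ Z) := by
    rw [mem_filter]
    rintro ⟨-, h, -⟩
    exact h rfl
  have h8 := Finset.card_le_card h5
  rw [Finset.card_insert_of_notMem h7] at h8
  omega

omit [Fact p.Prime] in
private theorem W0_ok {r : ℕ} (hr : r.Coprime p) {w : List (Atom p)} (hw : OkW w) (c : ZMod p) :
    OkW (w ++ [Atom.tr c, Atom.pow r]) := by
  intro a ha
  rcases List.mem_append.1 ha with h | h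
  · exact hw a h
  · simp only [List.mem_cons, List.not_mem_nil, or_false] at h
    rcases h with h | h
    · rw [h]
      trivial
    · rw [h]
      exact hr

private theorem W0_ind (F : Type) [Field F] [Algebra (ZMod p) F] {r : ℕ} (hr : r.Coprime p) :
    ∀ k : ℕ, k ≤ p → ∃ w : List (Atom p), OkW w ∧ r ∣ multW w (none : Option F) ∧ k ≤ (W0_Z F r w).card := by
  intro k
  induction k with
  | zero =>
    intro _
    refine ⟨[] ++ [Atom.tr 0, Atom.pow r], W0_ok hr (fun a ha => absurd ha (List.not_mem_nil)) 0, W0_none r [] 0,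
      Nat.zero_le _⟩
  | succ k ih =>
    intro hk
    obtain ⟨w, h1, h2, h3⟩ := ih (by omega)
    by_cases h4 : k + 1 ≤ (W0_Z F r w).card
    · exact ⟨w, h1, h2, h4⟩
    · obtain ⟨c, hc⟩ := W0_step (F := F) r w (by omega)
      exact ⟨w ++ [Atom.tr c, Atom.pow r], W0_ok hr h1 c, W0_none r w c, by omega⟩

end

theorem kW0 : KStmtW0 := by
  intro p _ F _ _ _ _ hA hB r hr hrp
  classical
  have hcop : r.Coprime p := (Nat.coprime_primes hr (Fact.out : p.Prime)).2 hrp
  obtain ⟨w, h1, h2, h3⟩ := W0_ind F hcop p le_rfl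
  refine ⟨w, h1, ?_⟩
  have hall : W0_Z F r w = univ := by
    apply Finset.eq_univ_of_card
    rw [ZMod.card]
    refine le_antisymm ?_ h3
    have := Finset.card_le_univ (W0_Z F r w)
    rwa [ZMod.card] at this
  -- the rational points are the image of `ZMod p`
  have hrat : Set.range (algebraMap (ZMod p) F) = {y : F | y ^ (p ^ 1) = y} := by
    apply Set.eq_of_subset_of_ncard_le
    · rintro y ⟨a, rfl⟩
      rw [Set.mem_ofPred_eq, pow_one, ← map_pow, ZMod.pow_card]
    · rw [hB.cardK 1 one_pos, pow_one]
      have : (Set.range (algebraMap (ZMod p) F)).ncard = p := by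
        rw [← Set.image_univ, Set.ncard_image_of_injective _ (algebraMap (ZMod p) F).injective, Set.ncard_univ,
          Nat.card_zmod]
      rw [this]
    · exact hB.finK 1 one_pos
  intro y hy
  rcases y with _ | b
  · exact h2
  · have hb : b ∈ Set.range (algebraMap (ZMod p) F) := by
      rw [hrat, Set.mem_ofPred_eq, pow_one]
      exact hy b rfl
    obtain ⟨a, rfl⟩ := hb
    have ha : a ∈ W0_Z F r w := by
      rw [hall]
      exact mem_univ a
    unfold W0_Z at ha
    exact (mem_filter.1 ha).2

end MP7K
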